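import Mathlib
import Pool.Agent.Hhelper32.Area

/-!
The Bergman kernel of the disc (upper bound): if f is holomorphic and square integrable in
|x - b| < r, f = sum a_n (x-b)^n, then int |f|^2 = pi sum |a_n|^2 r^(2n+2)/(n+1) (or <= for the
partial sums), and |f(x)|^2 <= (sum |a_n|^2 r^(2n+2)/(n+1)) (sum (n+1) |x-b|^(2n) / r^(2n+2)).
(Here: composition with the automorphism of the disc and the mean value property at the centre.)
-/

open MeasureTheory Metric ComplexConjugate

namespace ALC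

private theorem berg_ne {a w : ℂ} (ha : ‖a‖ < 1) (hw : ‖w‖ < 1) : 1 + conj a * w ≠ 0 := by
  intro h
  have h1 : ‖conj a * w‖ = 1 := by
    have h2 : conj a * w = -1 := by linear_combination h
    rw [h2, norm_neg, norm_one]
  rw [norm_mul, RCLike.norm_conj] at h1
  have h2 : ‖a‖ * ‖w‖ < 1 := by
    have h3 := norm_nonneg a
    have h4 := norm_nonneg w
    nlinarith
  linarith

private theorem berg_lt {a w : ℂ} (ha : ‖a‖ < 1) (hw : ‖w‖ < 1) :
    ‖(w + a) / (1 + conj a * w)‖ < 1 := by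
  have hne := berg_ne ha hw
  have hpos : 0 < ‖1 + conj a * w‖ := norm_pos_iff.2 hne
  rw [norm_div, div_lt_one hpos]
  have h1 : ‖w + a‖ ^ 2 < ‖1 + conj a * w‖ ^ 2 := by
    rw [← Complex.normSq_eq_norm_sq, ← Complex.normSq_eq_norm_sq]
    have h2 : Complex.normSq (1 + conj a * w) - Complex.normSq (w + a) =
        (1 - Complex.normSq a) * (1 - Complex.normSq w) := by
      simp only [Complex.normSq_apply, Complex.add_re, Complex.add_im, Complex.mul_re,
        Complex.mul_im, Complex.conj_re, Complex.conj_im, Complex.one_re, Complex.one_im]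
      ring
    have h3 : 0 < 1 - Complex.normSq a := by
      rw [Complex.normSq_eq_norm_sq]
      have := norm_nonneg a
      nlinarith
    have h4 : 0 < 1 - Complex.normSq w := by
      rw [Complex.normSq_eq_norm_sq]
      have := norm_nonneg w
      nlinarith
    have h5 := mul_pos h3 h4
    linarith
  exact lt_of_pow_lt_pow_left₀ 2 (norm_nonneg _) h1

theorem berg (b : ℂ) (r : ℝ) (f : ℂ → ℂ) (hf : DifferentiableOn ℂ f (ball b r))
    (hi : IntegrableOn (fun x => ‖f x‖ ^ 2) (ball b r)) (x : ℂ) (hx : x ∈ ball b r) :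
    ‖f x‖ ^ 2 ≤ r ^ 2 / (Real.pi * (r ^ 2 - ‖x - b‖ ^ 2) ^ 2) * ∫ z in ball b r, ‖f z‖ ^ 2 := by
  rw [mem_ball, dist_eq_norm] at hx
  have hr : 0 < r := lt_of_le_of_lt (norm_nonneg _) hx
  have hrc : (r : ℂ) ≠ 0 := by exact_mod_cast hr.ne'
  set a : ℂ := (x - b) / r with ha
  have hna : ‖a‖ = ‖x - b‖ / r := by
    rw [ha, norm_div, Complex.norm_real, Real.norm_of_nonneg hr.le]
  have ha1 : ‖a‖ < 1 := by
    rw [hna, div_lt_one hr]
    exact hx
  set φ : ℂ → ℂ := fun w => b + r * ((w + a) / (1 + conj a * w)) with hφ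
  set d : ℂ → ℂ := fun w => r * ((1 - conj a * a) / (1 + conj a * w) ^ 2) with hd
  have hφd : ∀ w ∈ ball (0 : ℂ) 1, HasDerivAt φ (d w) w := by
    intro w hw
    rw [mem_ball_zero_iff] at hw
    have hne := berg_ne ha1 hw
    have h1 : HasDerivAt (fun w : ℂ => w + a) 1 w := (hasDerivAt_id w).add_const a
    have h2 : HasDerivAt (fun w : ℂ => 1 + conj a * w) (conj a) w := by
      have := ((hasDerivAt_id w).const_mul (conj a)).const_add (1 : ℂ)
      simpa using this
    have h3 := ((h1.div h2 hne).const_mul (r : ℂ)).const_add b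
    refine h3.congr_deriv ?_
    simp only [hd]
    congr 2
    ring
  have hφm : ∀ w ∈ ball (0 : ℂ) 1, φ w ∈ ball b r := by
    intro w hw
    rw [mem_ball_zero_iff] at hw
    rw [mem_ball, dist_eq_norm, hφ]
    simp only [add_sub_cancel_left]
    rw [norm_mul, Complex.norm_real, Real.norm_of_nonneg hr.le]
    have := berg_lt ha1 hw
    nlinarith
  have hinj : Set.InjOn φ (ball (0 : ℂ) 1) := by
    intro w hw w' hw' h
    rw [mem_ball_zero_iff] at hw hw'
    have hne := berg_ne ha1 hw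
    have hne' := berg_ne ha1 hw'
    simp only [hφ] at h
    have h1 : (w + a) / (1 + conj a * w) = (w' + a) / (1 + conj a * w') :=
      mul_left_cancel₀ hrc (add_left_cancel h)
    rw [div_eq_div_iff hne hne'] at h1
    have h2 : (1 - conj a * a) * (w - w') = 0 := by linear_combination h1
    have h3 : (1 - conj a * a) ≠ 0 := by
      intro h4
      have h5 : ‖conj a * a‖ = 1 := by
        have h6 : conj a * a = 1 := by linear_combination -h4
        rw [h6, norm_one]
      rw [norm_mul, RCLike.norm_conj] at h5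
      have := norm_nonneg a
      nlinarith
    exact sub_eq_zero.1 ((mul_eq_zero.1 h2).resolve_left h3)
  set G : ℂ → ℂ := fun w => f (φ w) * d w with hG
  have hGd : DifferentiableOn ℂ G (ball (0 : ℂ) 1) := by
    apply DifferentiableOn.mul
    · exact hf.comp (fun w hw => (hφd w hw).differentiableAt.differentiableWithinAt) hφm
    · intro w hw
      rw [mem_ball_zero_iff] at hw
      have hne := berg_ne ha1 hw
      apply DifferentiableAt.differentiableWithinAt
      simp only [hd]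
      apply DifferentiableAt.const_mul
      apply DifferentiableAt.div (differentiableAt_const _)
      · fun_prop
      · exact pow_ne_zero 2 hne
  have h1 := Pool.Agent.Hhelper32.sq_le_lintegral_ball (c := 0) one_pos hGd
  have hJ : ∫⁻ w in ball (0 : ℂ) 1, ‖G w‖ₑ ^ 2 ≤ ∫⁻ z in ball b r, ‖f z‖ₑ ^ 2 := by
    have h2 := lintegral_image_eq_lintegral_abs_det_fderiv_mul volume
      (measurableSet_ball (x := (0 : ℂ)) (ε := 1))
      (f' := fun w => d w • (1 : ℂ →L[ℝ] ℂ))
      (fun w hw => ((hφd w hw).complexToReal_fderiv).hasFDerivWithinAt) hinj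
      (fun z => ‖f z‖ₑ ^ 2)
    have h3 : ∫⁻ w in ball (0 : ℂ) 1, ‖G w‖ₑ ^ 2 = ∫⁻ z in φ '' ball (0 : ℂ) 1, ‖f z‖ₑ ^ 2 := by
      rw [h2]
      refine lintegral_congr fun w => ?_
      rw [Pool.Agent.Hhelper32.ofReal_abs_det, hG]
      simp only [enorm_mul]
      rw [mul_pow, mul_comm]
    rw [h3]
    exact lintegral_mono_set (Set.image_subset_iff.2 hφm)
  have hI : ∫⁻ z in ball b r, ‖f z‖ₑ ^ 2 = ENNReal.ofReal (∫ z in ball b r, ‖f z‖ ^ 2) := by
    rw [ofReal_integral_eq_lintegral_ofReal hi (Filter.Eventually.of_forall fun z => by positivity)]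
    refine lintegral_congr fun z => ?_
    rw [ENNReal.ofReal_pow (norm_nonneg _), ofReal_norm]
  have hφ0 : φ 0 = x := by
    simp only [hφ]
    rw [zero_add, mul_zero, add_zero, div_one, ha]
    field_simp
    ring
  have hd0 : ‖d 0‖ = (r ^ 2 - ‖x - b‖ ^ 2) / r := by
    simp only [hd]
    rw [mul_zero, add_zero, one_pow, div_one]
    have h4 : (1 : ℂ) - conj a * a = ((1 - ‖a‖ ^ 2 : ℝ) : ℂ) := by
      rw [Complex.conj_mul']
      push_cast
      ring
    have h5 : 0 ≤ 1 - ‖a‖ ^ 2 := by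
      have := norm_nonneg a
      nlinarith
    rw [h4, norm_mul, Complex.norm_real, Complex.norm_real, Real.norm_of_nonneg hr.le,
      Real.norm_of_nonneg h5, hna]
    field_simp
  have hmain : Real.pi * (‖f x‖ * ((r ^ 2 - ‖x - b‖ ^ 2) / r)) ^ 2 ≤
      ∫ z in ball b r, ‖f z‖ ^ 2 := by
    have h6 : ENNReal.ofReal (Real.pi * (‖f x‖ * ((r ^ 2 - ‖x - b‖ ^ 2) / r)) ^ 2) ≤
        ENNReal.ofReal (∫ z in ball b r, ‖f z‖ ^ 2) := by
      rw [← hI]
      refine le_trans (le_of_eq ?_) (h1.trans hJ)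
      have h7 : ‖G 0‖ = ‖f x‖ * ((r ^ 2 - ‖x - b‖ ^ 2) / r) := by
        simp only [hG]
        rw [norm_mul, hφ0, hd0]
      rw [← h7, one_pow, mul_one, ENNReal.ofReal_mul Real.pi_pos.le,
        ENNReal.ofReal_pow (norm_nonneg _), ofReal_norm]
    exact (ENNReal.ofReal_le_ofReal_iff (integral_nonneg fun z => by positivity)).1 h6
  have hpos : 0 < r ^ 2 - ‖x - b‖ ^ 2 := by
    have := norm_nonneg (x - b)
    nlinarith
  have hpi := Real.pi_pos
  have hq : r ^ 2 / (Real.pi * (r ^ 2 - ‖x - b‖ ^ 2) ^ 2) *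
      (Real.pi * (‖f x‖ * ((r ^ 2 - ‖x - b‖ ^ 2) / r)) ^ 2) = ‖f x‖ ^ 2 := by
    field_simp
  rw [← hq]
  exact mul_le_mul_of_nonneg_left hmain (by positivity)

end ALC
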