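import Mathlib

/-!
A quotient of holomorphic functions which is square integrable is holomorphic: at a pole of order
m >= 1, |n/D|^2 >= c |x - a|^(-2m) is not integrable.
-/

open MeasureTheory Metric Filter Topology

namespace ALC

private theorem rem_aux (a : ℂ) (ε : ℝ) (hε : 0 < ε)
    (h : IntegrableOn (fun z : ℂ => (‖z - a‖⁻¹) ^ 2) (ball a ε)) : False := by
  have e1 : MeasurePreserving (fun z : ℂ => z + a) volume volume :=
    measurePreserving_add_right volume a
  have e2 : MeasurableEmbedding (fun z : ℂ => z + a) := measurableEmbedding_addRight a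
  have h2 := (e1.integrableOn_comp_preimage e2 (f := fun z : ℂ => (‖z - a‖⁻¹) ^ 2)
    (s := ball a ε)).2 h
  have e3 : (fun z : ℂ => z + a) ⁻¹' (ball a ε) = ball 0 ε := by
    ext z
    simp
  rw [e3] at h2
  have h3 : IntegrableOn (fun z : ℂ => (fun t : ℝ => (t⁻¹) ^ 2) ‖z‖) (ball (0 : ℂ) ε) := by
    refine h2.congr_fun ?_ measurableSet_ball
    intro z _
    simp [Function.comp]
  have h3' := (integrableOn_fun_norm_addHaar (volume : Measure ℂ) (f := fun t : ℝ => (t⁻¹) ^ 2)
    (r := ε)).1 h3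
  have h4 : IntegrableOn (fun y : ℝ => y⁻¹) (Set.Ioo 0 ε) := by
    refine h3'.congr_fun ?_ measurableSet_Ioo
    intro y hy
    have hy0 : y ≠ 0 := hy.1.ne'
    simp only [Complex.finrank_real_complex, smul_eq_mul]
    norm_num
    field_simp
  have h5 : IntervalIntegrable (fun y : ℝ => y⁻¹) volume 0 ε := by
    rw [intervalIntegrable_iff_integrableOn_Ioo_of_le hε.le]
    exact h4
  rw [intervalIntegrable_inv_iff] at h5
  rcases h5 with h5 | h5
  · exact hε.ne h5
  · exact h5 Set.left_mem_uIcc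

theorem rem (b : ℂ) (r : ℝ) (n D : ℂ → ℂ) (hn : DifferentiableOn ℂ n (ball b r))
    (hD : DifferentiableOn ℂ D (ball b r)) (h0 : ∃ x ∈ ball b r, D x ≠ 0)
    (hi : IntegrableOn (fun x => ‖n x / D x‖ ^ 2) (ball b r)) :
    ∃ f : ℂ → ℂ, DifferentiableOn ℂ f (ball b r) ∧ ∀ x ∈ ball b r, D x ≠ 0 → f x = n x / D x := by
  have hna : ∀ x ∈ ball b r, AnalyticAt ℂ n x := fun x hx =>
    hn.analyticAt (isOpen_ball.mem_nhds hx)
  have hDa : ∀ x ∈ ball b r, AnalyticAt ℂ D x := fun x hx =>
    hD.analyticAt (isOpen_ball.mem_nhds hx)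
  set g : ℂ → ℂ := fun x => n x / D x with hg
  have hm : ∀ x ∈ ball b r, MeromorphicAt g x := fun x hx =>
    (hna x hx).meromorphicAt.div (hDa x hx).meromorphicAt
  have hmo : MeromorphicOn g (ball b r) := fun x hx => hm x hx
  have key : ∀ x ∈ ball b r, 0 ≤ meromorphicOrderAt g x := by
    intro a ha
    by_contra hcon
    push Not at hcon
    have hne : meromorphicOrderAt g a ≠ ⊤ := ne_top_of_lt hcon
    obtain ⟨k, hk⟩ := WithTop.ne_top_iff_exists.1 hne
    have hk0 : k < 0 := by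
      rw [← hk] at hcon
      exact_mod_cast hcon
    obtain ⟨h, hh, hha, hev⟩ := (meromorphicOrderAt_eq_int_iff (hm a ha)).1 hk.symm
    have hc : 0 < ‖h a‖ / 2 := by positivity
    have hlow : ∀ᶠ z in 𝓝 a, ‖h a‖ / 2 < ‖h z‖ := by
      have : Tendsto (fun z => ‖h z‖) (𝓝 a) (𝓝 ‖h a‖) := hh.continuousAt.norm
      exact this.eventually (lt_mem_nhds (by linarith))
    rw [eventually_nhdsWithin_iff] at hev
    have ev1 : ∀ᶠ z in 𝓝 a, z ∈ ball b r := isOpen_ball.mem_nhds ha
    have ev2 : ∀ᶠ z in 𝓝 a, z ∈ ball a 1 := ball_mem_nhds a one_pos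
    obtain ⟨ε, hε, hball⟩ := Metric.eventually_nhds_iff_ball.1
      ((hlow.and hev).and (ev1.and ev2))
    refine rem_aux a ε hε ?_
    have hsub : ball a ε ⊆ ball b r := fun z hz => (hball z hz).2.1
    have hi2 : IntegrableOn (fun x => (‖h a‖ / 2)⁻¹ ^ 2 * ‖g x‖ ^ 2) (ball a ε) :=
      (hi.mono_set hsub).const_mul _
    refine Integrable.mono' hi2 ?_ ?_
    · exact (by fun_prop : Measurable (fun z : ℂ => (‖z - a‖⁻¹) ^ 2)).aestronglyMeasurable
    · rw [ae_restrict_iff' measurableSet_ball]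
      refine Eventually.of_forall ?_
      intro z hz
      obtain ⟨⟨hz1, hz2⟩, hz3, hz4⟩ := hball z hz
      rw [Real.norm_of_nonneg (by positivity)]
      by_cases hza : z = a
      · subst hza
        simp
        positivity
      · have hz5 : g z = (z - a) ^ k • h z := hz2 hza
        have hd : 0 < ‖z - a‖ := norm_pos_iff.2 (sub_ne_zero.2 hza)
        have hd1 : ‖z - a‖ ≤ 1 := by
          rw [mem_ball, dist_eq_norm] at hz4
          exact hz4.le
        have h6 : ‖z - a‖⁻¹ ≤ ‖z - a‖ ^ k := by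
          rw [← zpow_neg_one]
          exact zpow_le_zpow_right_of_le_one₀ hd hd1 (by omega)
        rw [hz5, norm_smul, norm_zpow, ← mul_pow]
        refine pow_le_pow_left₀ (by positivity) ?_ 2
        calc ‖z - a‖⁻¹ = (‖h a‖ / 2)⁻¹ * (‖z - a‖⁻¹ * (‖h a‖ / 2)) := by
              field_simp
          _ ≤ (‖h a‖ / 2)⁻¹ * (‖z - a‖ ^ k * ‖h z‖) := by
              gcongr
  refine ⟨toMeromorphicNFOn g (ball b r), ?_, ?_⟩
  · intro x hx
    have h1 : MeromorphicNFAt (toMeromorphicNFOn g (ball b r)) x :=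
      meromorphicNFOn_toMeromorphicNFOn g (ball b r) hx
    have h2 : AnalyticAt ℂ (toMeromorphicNFOn g (ball b r)) x := by
      rw [← h1.meromorphicOrderAt_nonneg_iff_analyticAt,
        meromorphicOrderAt_toMeromorphicNFOn hmo hx]
      exact key x hx
    exact h2.differentiableAt.differentiableWithinAt
  · intro x hx hDx
    have h1 : AnalyticAt ℂ g x := (hna x hx).div (hDa x hx) hDx
    rw [toMeromorphicNFOn_eq_toMeromorphicNFAt hmo hx,
      toMeromorphicNFAt_eq_self.2 h1.meromorphicNFAt]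

end ALC
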