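import Pool.Agent.ALC.Sheets
import Pool.Agent.ALC.Berg
import Pool.Agent.ALC.Rem

/-!
The canonical density on a section disc is at most 1/g times the Bergman kernel of the disc:
for fixed x1 take phi = sum conj(phi_k(x1)) phi_k; T = sum |phi_k(x1)|^2, phi(x1) = T,
int_disc |phi|^2 <= int_X |phi|^2 = T, so T^2 <= K T.
-/

open Polynomial MeasureTheory Metric ComplexConjugate

namespace ALC

private theorem dens_evalEval (p : ℂ[X][X]) (x y : ℂ) :
    p.evalEval x y = ∑ i ∈ Finset.range (p.natDegree + 1), (p.coeff i).eval x * y ^ i := by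
  have h : eval (C y) p = ∑ i ∈ Finset.range (p.natDegree + 1), p.coeff i * (C y) ^ i :=
    eval_eq_sum_range (C y)
  rw [evalEval, h, eval_finsetSum]
  refine Finset.sum_congr rfl fun i _ => ?_
  rw [eval_mul, eval_pow, eval_C]

private theorem dens_cont (p : ℂ[X][X]) : Continuous (fun v : ℂ × ℂ => p.evalEval v.1 v.2) := by
  simp only [dens_evalEval]
  refine continuous_finsetSum _ fun i _ => ?_
  exact ((p.coeff i).continuous.comp continuous_fst).mul (continuous_snd.pow i)

private theorem dens_rat (φ : ℂ[X][X] × ℂ[X]) (x0 : ℂ) (Y : ℂ → ℂ) (hY : ContinuousAt Y x0)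
    (h : φ.2.eval x0 ≠ 0) : ContinuousAt (fun x => rat φ x (Y x)) x0 := by
  unfold rat
  refine ContinuousAt.div ?_ φ.2.continuous.continuousAt h
  exact (dens_cont φ.1).continuousAt.comp (f := fun x => (x, Y x)) (continuousAt_id.prodMk hY)

/-- fibre sums of functions which are continuous along branches are measurable -/
private theorem dens_meas (F : ℂ[X][X]) (hF : F.Monic) (b : ℂ) (hb : (at_ F b).Separable)
    (D : ℂ[X]) (hD : D ≠ 0) {E : Type*} [NormedAddCommGroup E] (h : ℂ → ℂ → E)
    (hh : ∀ x0 Y, ContinuousAt Y x0 → D.eval x0 ≠ 0 → ContinuousAt (fun x => h x (Y x)) x0) :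
    AEStronglyMeasurable (fun x => ∑ y ∈ fib F x, h x y) := by
  classical
  set V : Set ℂ := {x | (at_ F x).Separable ∧ D.eval x ≠ 0} with hV
  have hfin : Vᶜ.Finite := by
    refine ((bad_finite F hF b hb).union (finite_setOfPred_isRoot hD)).subset ?_
    intro x hx
    by_contra hn
    simp only [Set.mem_union, Set.mem_ofPred_eq, not_or, not_not] at hn
    exact hx ⟨hn.1, hn.2⟩
  have hVm : MeasurableSet V := by
    rw [← compl_compl V]
    exact hfin.measurableSet.compl
  have hc : ContinuousOn (fun x => ∑ y ∈ fib F x, h x y) V := by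
    intro x0 hx0
    apply ContinuousAt.continuousWithinAt
    obtain ⟨r, hr, Y, hY, hY2⟩ := sheets F hF x0 hx0.1
    have h1 : (fun x => ∑ j, h x (Y j x)) =ᶠ[nhds x0] fun x => ∑ y ∈ fib F x, h x y := by
      filter_upwards [ball_mem_nhds x0 hr] with x hx
      have h2 : fib F x = Finset.univ.image (fun j => Y j x) := by
        ext y
        rw [(hY2 x hx).2 y]
        simp
      rw [h2, Finset.sum_image fun i _ j _ hij => (hY2 x hx).1 hij]
    refine ContinuousAt.congr ?_ h1
    refine tendsto_finsetSum _ fun j _ => ?_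
    exact hh x0 (Y j) (((hY j).2.1.differentiableAt (ball_mem_nhds x0 hr)).continuousAt) hx0.2
  have h1 := hc.aestronglyMeasurable (μ := volume) hVm
  have h2 : (volume : Measure ℂ).restrict V = volume := by
    apply Measure.restrict_eq_self_of_ae_mem
    have h3 : volume Vᶜ = 0 := hfin.measure_zero _
    rw [← compl_compl V]
    exact measure_eq_zero_iff_ae_notMem.1 h3
  rwa [h2] at h1

theorem dens (F : ℂ[X][X]) (hF : F.Monic) (b : ℂ) (hb : (at_ F b).Separable) (g : ℕ)
    (e : Fin g → ℂ[X][X] × ℂ[X]) (he : IsONB F g e) (r : ℝ) (Y : ℂ → ℂ)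
    (hY : DifferentiableOn ℂ Y (ball b r)) (hYF : ∀ x ∈ ball b r, (at_ F x).eval (Y x) = 0) :
    ∃ S : Finset ℂ, ∀ x ∈ ball b r, x ∉ S →
      rho e x (Y x) ≤ 1 / g * (r ^ 2 / (Real.pi * (r ^ 2 - ‖x - b‖ ^ 2) ^ 2)) := by
  classical
  set D : ℂ[X] := ∏ k, (e k).2 with hDdef
  have hD : D ≠ 0 := Finset.prod_ne_zero_iff.2 fun k _ => (he.1 k).1
  have hDk : ∀ x, D.eval x ≠ 0 → ∀ k, (e k).2.eval x ≠ 0 := by
    intro x hx k
    rw [hDdef, eval_prod] at hx
    exact Finset.prod_ne_zero_iff.1 hx k (Finset.mem_univ k)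
  refine ⟨D.roots.toFinset, fun x1 hx1 hx1S => ?_⟩
  have hr : 0 < r := by
    rw [mem_ball, dist_eq_norm] at hx1
    exact lt_of_le_of_lt (norm_nonneg _) hx1
  have hDx1 : D.eval x1 ≠ 0 := by
    intro h
    exact hx1S (Multiset.mem_toFinset.2 ((mem_roots hD).2 h))
  set c : Fin g → ℂ := fun k => conj (rat (e k) x1 (Y x1)) with hc
  set T : ℝ := ∑ k, ‖rat (e k) x1 (Y x1)‖ ^ 2 with hT
  have hT0 : 0 ≤ T := Finset.sum_nonneg fun k _ => by positivity
  -- the norm of phi over the whole curve
  have hpair : ∀ k l, Integrable (fun x : ℂ => ∑ y ∈ fib F x,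
      rat (e k) x y * conj (rat (e l) x y)) := by
    intro k l
    refine Integrable.mono' ((he.1 k).2.add (he.1 l).2) ?_ ?_
    · refine dens_meas F hF b hb D hD (fun x y => rat (e k) x y * conj (rat (e l) x y)) ?_
      intro x0 Z hZ hx0
      exact (dens_rat (e k) x0 Z hZ (hDk x0 hx0 k)).mul
        (Complex.continuous_conj.continuousAt.comp (dens_rat (e l) x0 Z hZ (hDk x0 hx0 l)))
    · refine Filter.Eventually.of_forall fun x => ?_
      simp only [Pi.add_apply]
      rw [← Finset.sum_add_distrib]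
      refine (norm_sum_le _ _).trans (Finset.sum_le_sum fun y _ => ?_)
      rw [norm_mul, RCLike.norm_conj]
      have h1 := norm_nonneg (rat (e k) x y)
      have h2 := norm_nonneg (rat (e l) x y)
      nlinarith [sq_nonneg (‖rat (e k) x y‖ - ‖rat (e l) x y‖)]
  have hexp : ∀ x y : ℂ, (((‖∑ k, c k * rat (e k) x y‖ ^ 2 : ℝ)) : ℂ) =
      ∑ k, ∑ l, c k * conj (c l) * (rat (e k) x y * conj (rat (e l) x y)) := by
    intro x y
    push_cast
    rw [← Complex.mul_conj', map_sum, Finset.sum_mul_sum]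
    refine Finset.sum_congr rfl fun k _ => Finset.sum_congr rfl fun l _ => ?_
    rw [map_mul]
    ring
  have hexp2 : ∀ x : ℂ, (((∑ y ∈ fib F x, ‖∑ k, c k * rat (e k) x y‖ ^ 2 : ℝ)) : ℂ) =
      ∑ k, ∑ l, c k * conj (c l) * ∑ y ∈ fib F x, (rat (e k) x y * conj (rat (e l) x y)) := by
    intro x
    rw [Complex.ofReal_sum]
    simp only [hexp]
    rw [Finset.sum_comm]
    refine Finset.sum_congr rfl fun k _ => ?_
    rw [Finset.sum_comm]
    refine Finset.sum_congr rfl fun l _ => ?_
    rw [Finset.mul_sum]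
  have hIc : Integrable (fun x : ℂ => (((∑ y ∈ fib F x, ‖∑ k, c k * rat (e k) x y‖ ^ 2 : ℝ)) : ℂ)) := by
    simp only [hexp2]
    exact integrable_finsetSum _ fun k _ => integrable_finsetSum _ fun l _ =>
      (hpair k l).const_mul _
  have hIr : Integrable (fun x : ℂ => ∑ y ∈ fib F x, ‖∑ k, c k * rat (e k) x y‖ ^ 2) := by
    have := hIc.re
    simpa only [RCLike.re_eq_complex_re, Complex.ofReal_re] using this
  have hval : ∫ x : ℂ, ∑ y ∈ fib F x, ‖∑ k, c k * rat (e k) x y‖ ^ 2 = T := by
    have h1 : ((∫ x : ℂ, ∑ y ∈ fib F x, ‖∑ k, c k * rat (e k) x y‖ ^ 2 : ℝ) : ℂ) = (T : ℂ) := by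
      rw [← integral_complex_ofReal]
      simp only [hexp2]
      rw [integral_finsetSum _ fun k _ => integrable_finsetSum _ fun l _ =>
        (hpair k l).const_mul _]
      simp_rw [integral_finsetSum _ fun l _ => (hpair _ l).const_mul _, integral_const_mul,
        he.2.1]
      rw [hT]
      push_cast
      refine Finset.sum_congr rfl fun k _ => ?_
      rw [Finset.sum_eq_single k]
      · rw [if_pos rfl, mul_one, hc]
        simp only [Complex.conj_conj]
        rw [mul_comm, Complex.mul_conj']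
      · intro l _ hl
        rw [if_neg (Ne.symm hl), mul_zero]
      · intro h
        exact absurd (Finset.mem_univ k) h
    exact_mod_cast h1
  -- phi on the disc
  set N : ℂ → ℂ := fun x => ∑ k, c k * ((e k).1.evalEval x (Y x) *
    ∏ l ∈ Finset.univ.erase k, (e l).2.eval x) with hN
  have hND : ∀ x, D.eval x ≠ 0 → N x / D.eval x = ∑ k, c k * rat (e k) x (Y x) := by
    intro x hx
    rw [hN]
    simp only
    rw [Finset.sum_div]
    refine Finset.sum_congr rfl fun k _ => ?_
    have h1 : D.eval x = (e k).2.eval x * ∏ l ∈ Finset.univ.erase k, (e l).2.eval x := by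
      rw [hDdef, eval_prod]
      exact (Finset.mul_prod_erase Finset.univ (fun l => (e l).2.eval x)
        (Finset.mem_univ k)).symm
    have h2 : (∏ l ∈ Finset.univ.erase k, (e l).2.eval x) ≠ 0 := by
      intro h
      rw [h, mul_zero] at h1
      exact hx h1
    rw [h1, rat, mul_div_assoc, mul_div_mul_right _ _ h2]
  have hNd : DifferentiableOn ℂ N (ball b r) := by
    rw [hN]
    refine DifferentiableOn.fun_sum fun k _ => ?_
    refine DifferentiableOn.const_mul ?_ _
    refine DifferentiableOn.mul ?_ ?_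
    · simp only [dens_evalEval]
      refine DifferentiableOn.fun_sum fun i _ => ?_
      exact (((e k).1.coeff i).differentiable.differentiableOn).mul (hY.pow i)
    · have h3 : (fun x => ∏ l ∈ Finset.univ.erase k, (e l).2.eval x) =
          fun x => (∏ l ∈ Finset.univ.erase k, (e l).2).eval x := by
        funext x
        rw [eval_prod]
      rw [h3]
      exact (Polynomial.differentiable _).differentiableOn
  have hae : ∀ᵐ x ∂(volume.restrict (ball b r)), D.eval x ≠ 0 := by
    apply ae_restrict_of_ae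
    have h3 : volume {x : ℂ | D.IsRoot x} = 0 := (finite_setOfPred_isRoot hD).measure_zero _
    exact measure_eq_zero_iff_ae_notMem.1 h3
  have hYfib : ∀ x ∈ ball b r, Y x ∈ fib F x := fun x hx => (mem_fib F hF x _).2 (hYF x hx)
  have hle : ∀ x ∈ ball b r, ‖∑ k, c k * rat (e k) x (Y x)‖ ^ 2 ≤
      ∑ y ∈ fib F x, ‖∑ k, c k * rat (e k) x y‖ ^ 2 := fun x hx =>
    Finset.single_le_sum (f := fun y => ‖∑ k, c k * rat (e k) x y‖ ^ 2)
      (fun y _ => by positivity) (hYfib x hx)
  have hiN : IntegrableOn (fun x => ‖N x / D.eval x‖ ^ 2) (ball b r) := by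
    refine Integrable.mono' hIr.integrableOn ?_ ?_
    · have hm1 : AEStronglyMeasurable N (volume.restrict (ball b r)) :=
        hNd.continuousOn.aestronglyMeasurable measurableSet_ball
      have hm2 : AEStronglyMeasurable (fun x => D.eval x) (volume.restrict (ball b r)) :=
        D.continuous.aestronglyMeasurable
      have hm3 : AEMeasurable (fun x => ‖N x / D.eval x‖ ^ 2) (volume.restrict (ball b r)) :=
        ((hm1.aemeasurable.div hm2.aemeasurable).norm).pow_const 2
      exact hm3.aestronglyMeasurable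
    · filter_upwards [hae, ae_restrict_mem measurableSet_ball] with x hx hxb
      rw [hND x hx, Real.norm_of_nonneg (by positivity)]
      exact hle x hxb
  have hex : ∃ x ∈ ball b r, D.eval x ≠ 0 := ⟨x1, hx1, hDx1⟩
  obtain ⟨f, hf, hfN⟩ := rem b r N (fun x => D.eval x) hNd D.differentiable.differentiableOn hex hiN
  have hfae : (fun x => ‖f x‖ ^ 2) =ᵐ[volume.restrict (ball b r)] fun x => ‖N x / D.eval x‖ ^ 2 := by
    filter_upwards [hae, ae_restrict_mem measurableSet_ball] with x hx hxb
    rw [hfN x hxb hx]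
  have hfi : IntegrableOn (fun x => ‖f x‖ ^ 2) (ball b r) := (integrable_congr hfae).2 hiN
  have hfT : ∫ x in ball b r, ‖f x‖ ^ 2 ≤ T := by
    rw [integral_congr_ae hfae, ← hval]
    calc ∫ x in ball b r, ‖N x / D.eval x‖ ^ 2
        ≤ ∫ x in ball b r, ∑ y ∈ fib F x, ‖∑ k, c k * rat (e k) x y‖ ^ 2 := by
          refine integral_mono_ae hiN hIr.integrableOn ?_
          filter_upwards [hae, ae_restrict_mem measurableSet_ball] with x hx hxb
          rw [hND x hx]
          exact hle x hxb
      _ ≤ ∫ x : ℂ, ∑ y ∈ fib F x, ‖∑ k, c k * rat (e k) x y‖ ^ 2 :=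
          setIntegral_le_integral hIr (Filter.Eventually.of_forall fun x =>
            Finset.sum_nonneg fun y _ => by positivity)
  have hfx1 : f x1 = (T : ℂ) := by
    rw [hfN x1 hx1 hDx1, hND x1 hDx1, hT]
    push_cast
    refine Finset.sum_congr rfl fun k _ => ?_
    rw [hc]
    simp only
    rw [mul_comm, Complex.mul_conj']
  have hB := berg b r f hf hfi x1 hx1
  rw [hfx1, Complex.norm_real, Real.norm_of_nonneg hT0] at hB
  set K : ℝ := r ^ 2 / (Real.pi * (r ^ 2 - ‖x1 - b‖ ^ 2) ^ 2) with hK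
  have hK0 : 0 ≤ K := by positivity
  have hTK : T ≤ K := by
    have h1 : T ^ 2 ≤ K * T := hB.trans (mul_le_mul_of_nonneg_left hfT hK0)
    rcases hT0.eq_or_lt with h2 | h2
    · rw [← h2]
      exact hK0
    · nlinarith
  unfold rho
  exact mul_le_mul_of_nonneg_left hTK (by positivity)

end ALC
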