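import Pool.Agent.ALC.Cut

/-!
Green's identity for bounded functions which are C^2 outside a finite set.
-/

open MeasureTheory Filter Topology

namespace ALC

/-- directional derivative -/
private noncomputable def dv (v : ℂ) (f : ℂ → ℝ) : ℂ → ℝ := fun x => fderiv ℝ f x v

private theorem gr_lap {f : ℂ → ℝ} {x : ℂ} (hf : ContDiffAt ℝ 2 f x) :
    Laplacian.laplacian f x = dv 1 (dv 1 f) x + dv Complex.I (dv Complex.I f) x := by
  have h1 : DifferentiableAt ℝ (fderiv ℝ f) x :=
    (hf.fderiv_right (m := 1) (by norm_num)).differentiableAt (by norm_num)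
  have h2 : ∀ v : ℂ, dv v (dv v f) x = fderiv ℝ (fderiv ℝ f) x v v := by
    intro v
    unfold dv
    rw [fderiv_clm_apply h1 (differentiableAt_const v)]
    simp
  rw [InnerProductSpace.laplacian_eq_iteratedFDeriv_complexPlane]
  simp only [iteratedFDeriv_two_apply]
  rw [h2, h2]
  simp

private theorem gr_dvC {U : Set ℂ} (hU : IsOpen U) {f : ℂ → ℝ} (v : ℂ) {n : ℕ} (hf : ContDiffOn ℝ (n + 1 : ℕ) f U) :
    ContDiffOn ℝ n (dv v f) U := by
  have h1 : ContDiffOn ℝ n (fderiv ℝ f) U := hf.fderiv_of_isOpen hU (by norm_cast)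
  exact h1.clm_apply contDiffOn_const

private theorem gr_ts (v : ℂ) (f : ℂ → ℝ) : tsupport (dv v f) ⊆ tsupport f := by
  refine (closure_minimal ?_ (isClosed_tsupport f))
  intro x hx
  by_contra h
  have h2 : fderiv ℝ f x = 0 := by
    have := fun hh => h (tsupport_fderiv_subset ℝ (f := f) hh)
    exact image_eq_zero_of_notMem_tsupport this
  exact hx (by simp [dv, h2])

private theorem gr_int {U : Set ℂ} (hU : IsOpen U) {ψ g : ℂ → ℝ} (hψ : ContinuousOn ψ U)
    (hg : ContinuousOn g U) (hc : HasCompactSupport ψ) (hs : tsupport ψ ⊆ U) :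
    Integrable (fun x => ψ x * g x) := by
  have hts : tsupport (fun x => ψ x * g x) ⊆ tsupport ψ := tsupport_mul_subset_left
  have hcont : Continuous (fun x => ψ x * g x) := by
    refine continuous_iff_continuousAt.2 fun x => ?_
    by_cases hx : x ∈ tsupport ψ
    · exact (hψ.mul hg).continuousAt (hU.mem_nhds (hs hx))
    · have : (fun x => ψ x * g x) =ᶠ[𝓝 x] fun _ => 0 :=
        (notMem_tsupport_iff_eventuallyEq.1 hx).mono fun y hy => by simp [hy]
      exact (continuousAt_const).congr this.symm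
  exact hcont.integrable_of_hasCompactSupport (hc.mul_right)

private theorem gr_ibp1 (U : Set ℂ) (hU : IsOpen U) (f ψ : ℂ → ℝ) (hf : ContDiffOn ℝ 2 f U)
    (hψ : ContDiff ℝ 2 ψ) (hc : HasCompactSupport ψ) (hs : tsupport ψ ⊆ U) (v : ℂ) :
    ∫ x, ψ x * dv v (dv v f) x = ∫ x, f x * dv v (dv v ψ) x := by
  have hψ1 : ContDiffOn ℝ (1 : ℕ) (dv v ψ) Set.univ := gr_dvC isOpen_univ v (n := 1) (by exact_mod_cast hψ.contDiffOn)
  have hψ2 : ContDiffOn ℝ (0 : ℕ) (dv v (dv v ψ)) Set.univ := gr_dvC isOpen_univ v (n := 0) (by exact_mod_cast hψ1)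
  have hf1 : ContDiffOn ℝ (1 : ℕ) (dv v f) U := gr_dvC hU v (n := 1) (by exact_mod_cast hf)
  have hf2 : ContDiffOn ℝ (0 : ℕ) (dv v (dv v f)) U := gr_dvC hU v (n := 0) (by exact_mod_cast hf1)
  have hts : tsupport (dv v ψ) ⊆ U := (gr_ts v ψ).trans hs
  have hcs : HasCompactSupport (dv v ψ) := hc.mono' (subset_closure.trans (gr_ts v ψ))
  have hts2 : tsupport (dv v (dv v ψ)) ⊆ U := (gr_ts v _).trans hts
  have hcs2 : HasCompactSupport (dv v (dv v ψ)) := hcs.mono' (subset_closure.trans (gr_ts v _))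
  have e1 : ∫ x, ψ x * dv v (dv v f) x = - ∫ x, dv v ψ x * dv v f x := by
    refine integral_mul_fderiv_eq_neg_fderiv_mul_of_integrable (f := ψ) (g := dv v f) (v := v) ?_ ?_ ?_ ?_ ?_
    · exact gr_int hU (hψ1.continuousOn.mono (Set.subset_univ _)) hf1.continuousOn hcs hts
    · exact gr_int hU hψ.continuous.continuousOn hf2.continuousOn hc hs
    · exact gr_int hU hψ.continuous.continuousOn hf1.continuousOn hc hs
    · intro x _
      exact (hψ.differentiable (by norm_num)).differentiableAt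
    · intro x hx
      exact (hf1.contDiffAt (hU.mem_nhds (hs hx))).differentiableAt (by norm_num)
  have e2 : ∫ x, f x * dv v (dv v ψ) x = - ∫ x, dv v f x * dv v ψ x := by
    refine integral_mul_fderiv_eq_neg_fderiv_mul_of_integrable (f := f) (g := dv v ψ) (v := v) ?_ ?_ ?_ ?_ ?_
    · exact (gr_int hU (hψ1.continuousOn.mono (Set.subset_univ _)) hf1.continuousOn hcs hts).congr
        (Eventually.of_forall fun x => mul_comm _ _)
    · exact (gr_int hU (hψ2.continuousOn.mono (Set.subset_univ _)) hf.continuousOn hcs2 hts2).congr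
        (Eventually.of_forall fun x => mul_comm _ _)
    · exact (gr_int hU (hψ1.continuousOn.mono (Set.subset_univ _)) hf.continuousOn hcs hts).congr
        (Eventually.of_forall fun x => mul_comm _ _)
    · intro x hx
      exact (hf.contDiffAt (hU.mem_nhds (hts hx))).differentiableAt (by norm_num)
    · intro x _
      exact (hψ1.contDiffAt Filter.univ_mem).differentiableAt (by norm_num)
  rw [e1, e2]
  congr 1
  exact integral_congr_ae (Eventually.of_forall fun x => mul_comm _ _)

/-- integration by parts, `f` of class `C^2` near the support of `ψ` -/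
theorem ibp (U : Set ℂ) (hU : IsOpen U) (f ψ : ℂ → ℝ) (hf : ContDiffOn ℝ 2 f U)
    (hψ : ContDiff ℝ 2 ψ) (hc : HasCompactSupport ψ) (hs : tsupport ψ ⊆ U) :
    ∫ x, ψ x * Laplacian.laplacian f x = ∫ x, f x * Laplacian.laplacian ψ x := by
  have hi1 : ∀ v, Integrable (fun x => ψ x * dv v (dv v f) x) := by
    intro v
    have hf1 : ContDiffOn ℝ (1 : ℕ) (dv v f) U := gr_dvC hU v (n := 1) (by exact_mod_cast hf)
    have hf2 : ContDiffOn ℝ (0 : ℕ) (dv v (dv v f)) U := gr_dvC hU v (n := 0) (by exact_mod_cast hf1)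
    exact gr_int hU hψ.continuous.continuousOn hf2.continuousOn hc hs
  have hi2 : ∀ v, Integrable (fun x => f x * dv v (dv v ψ) x) := by
    intro v
    have hψ1 : ContDiffOn ℝ (1 : ℕ) (dv v ψ) Set.univ := gr_dvC isOpen_univ v (n := 1) (by exact_mod_cast hψ.contDiffOn)
    have hψ2 : ContDiffOn ℝ (0 : ℕ) (dv v (dv v ψ)) Set.univ := gr_dvC isOpen_univ v (n := 0) (by exact_mod_cast hψ1)
    have hts : tsupport (dv v ψ) ⊆ U := (gr_ts v ψ).trans hs
    have hcs : HasCompactSupport (dv v ψ) := hc.mono' (subset_closure.trans (gr_ts v ψ))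
    have hts2 : tsupport (dv v (dv v ψ)) ⊆ U := (gr_ts v _).trans hts
    have hcs2 : HasCompactSupport (dv v (dv v ψ)) := hcs.mono' (subset_closure.trans (gr_ts v _))
    exact (gr_int hU (hψ2.continuousOn.mono (Set.subset_univ _)) hf.continuousOn hcs2 hts2).congr
        (Eventually.of_forall fun x => mul_comm _ _)
  have e1 : ∀ x, ψ x * Laplacian.laplacian f x = ψ x * dv 1 (dv 1 f) x + ψ x * dv Complex.I (dv Complex.I f) x := by
    intro x
    by_cases hx : x ∈ tsupport ψ
    · rw [gr_lap (hf.contDiffAt (hU.mem_nhds (hs hx)))]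
      ring
    · rw [image_eq_zero_of_notMem_tsupport hx]
      ring
  have e2 : ∀ x, f x * Laplacian.laplacian ψ x = f x * dv 1 (dv 1 ψ) x + f x * dv Complex.I (dv Complex.I ψ) x := by
    intro x
    rw [gr_lap hψ.contDiffAt]
    ring
  simp_rw [e1, e2]
  rw [integral_add (hi1 1) (hi1 Complex.I), integral_add (hi2 1) (hi2 Complex.I),
    gr_ibp1 U hU f ψ hf hψ hc hs 1, gr_ibp1 U hU f ψ hf hψ hc hs Complex.I]

private theorem gr_dvmul {U : Set ℂ} (hU : IsOpen U) {f g : ℂ → ℝ} (v : ℂ) (hf : ContDiffOn ℝ (1 : ℕ) f U)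
    (hg : ContDiffOn ℝ (1 : ℕ) g U) {x : ℂ} (hx : x ∈ U) :
    dv v (fun y => f y * g y) x = f x * dv v g x + g x * dv v f x := by
  have h1 : DifferentiableAt ℝ f x := (hf.contDiffAt (hU.mem_nhds hx)).differentiableAt (by norm_num)
  have h2 : DifferentiableAt ℝ g x := (hg.contDiffAt (hU.mem_nhds hx)).differentiableAt (by norm_num)
  unfold dv
  rw [fderiv_fun_mul h1 h2]
  simp

private theorem gr_dvcongr {U : Set ℂ} (hU : IsOpen U) {f g : ℂ → ℝ} (v : ℂ) (h : ∀ y ∈ U, f y = g y) {x : ℂ}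
    (hx : x ∈ U) : dv v f x = dv v g x := by
  have : f =ᶠ[𝓝 x] g := Filter.eventually_of_mem (hU.mem_nhds hx) h
  unfold dv
  rw [this.fderiv_eq]

private theorem gr_dvadd {U : Set ℂ} (hU : IsOpen U) {f g : ℂ → ℝ} (v : ℂ) (hf : ContDiffOn ℝ (1 : ℕ) f U)
    (hg : ContDiffOn ℝ (1 : ℕ) g U) {x : ℂ} (hx : x ∈ U) :
    dv v (fun y => f y + g y) x = dv v f x + dv v g x := by
  have h1 : DifferentiableAt ℝ f x := (hf.contDiffAt (hU.mem_nhds hx)).differentiableAt (by norm_num)
  have h2 : DifferentiableAt ℝ g x := (hg.contDiffAt (hU.mem_nhds hx)).differentiableAt (by norm_num)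
  unfold dv
  rw [fderiv_fun_add h1 h2]
  simp

private theorem gr_dv2mul {U : Set ℂ} (hU : IsOpen U) {f g : ℂ → ℝ} (v : ℂ) (hf : ContDiffOn ℝ 2 f U)
    (hg : ContDiffOn ℝ 2 g U) {x : ℂ} (hx : x ∈ U) :
    dv v (dv v (fun y => f y * g y)) x = f x * dv v (dv v g) x + 2 * (dv v f x * dv v g x) + g x * dv v (dv v f) x := by
  have hf' : ContDiffOn ℝ (1 : ℕ) f U := hf.of_le (by norm_num)
  have hg' : ContDiffOn ℝ (1 : ℕ) g U := hg.of_le (by norm_num)
  have hf1 : ContDiffOn ℝ (1 : ℕ) (dv v f) U := gr_dvC hU v (n := 1) (by exact_mod_cast hf)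
  have hg1 : ContDiffOn ℝ (1 : ℕ) (dv v g) U := gr_dvC hU v (n := 1) (by exact_mod_cast hg)
  rw [gr_dvcongr hU v (fun y hy => gr_dvmul hU v hf' hg' hy) hx,
    gr_dvadd hU v (hf'.mul hg1) (hg'.mul hf1) hx, gr_dvmul hU v hf' hg1 hx, gr_dvmul hU v hg' hf1 hx]
  ring

private theorem gr_lapmul {U : Set ℂ} (hU : IsOpen U) {f g : ℂ → ℝ} (hf : ContDiffOn ℝ 2 f U)
    (hg : ContDiffOn ℝ 2 g U) {x : ℂ} (hx : x ∈ U) :
    Laplacian.laplacian (fun y => f y * g y) x = f x * Laplacian.laplacian g x +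
      2 * (dv 1 f x * dv 1 g x + dv Complex.I f x * dv Complex.I g x) + g x * Laplacian.laplacian f x := by
  have hn := hU.mem_nhds hx
  rw [gr_lap ((hf.mul hg).contDiffAt hn), gr_lap (hf.contDiffAt hn), gr_lap (hg.contDiffAt hn),
    gr_dv2mul hU 1 hf hg hx, gr_dv2mul hU Complex.I hf hg hx]
  ring

/-- the Laplacian of a function which is constant outside of a compact set -/
private theorem gr_lapint {χ : ℂ → ℝ} (a : ℝ) (hχ : ContDiff ℝ 2 χ) (hc : HasCompactSupport (fun x => a - χ x)) :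
    Continuous (Laplacian.laplacian χ) ∧ HasCompactSupport (Laplacian.laplacian χ) ∧
      Continuous (fderiv ℝ χ) ∧ HasCompactSupport (fderiv ℝ χ) := by
  have hdv1 : ∀ v, ContDiffOn ℝ (1 : ℕ) (dv v χ) Set.univ := fun v =>
    gr_dvC isOpen_univ v (n := 1) (by exact_mod_cast hχ.contDiffOn)
  have hdv2 : ∀ v, ContDiffOn ℝ (0 : ℕ) (dv v (dv v χ)) Set.univ := fun v =>
    gr_dvC isOpen_univ v (n := 0) (by exact_mod_cast hdv1 v)
  have hlap : Laplacian.laplacian χ = fun x => dv 1 (dv 1 χ) x + dv Complex.I (dv Complex.I χ) x :=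
    funext fun x => gr_lap hχ.contDiffAt
  have hfd : fderiv ℝ χ = fun x => -fderiv ℝ (fun x => a - χ x) x := by
    funext x
    rw [fderiv_const_sub]
    simp
  have hcf : HasCompactSupport (fderiv ℝ χ) := by
    rw [hfd]
    exact (hc.fderiv (𝕜 := ℝ)).neg
  have hcd : ∀ v, HasCompactSupport (dv v χ) := fun v => by
    refine hcf.mono' ?_
    refine (Function.support_subset_iff'.2 fun x hx => ?_)
    have : fderiv ℝ χ x = 0 := image_eq_zero_of_notMem_tsupport hx
    simp [dv, this]
  have hcd2 : ∀ v, HasCompactSupport (dv v (dv v χ)) := fun v =>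
    (hcd v).mono' (subset_closure.trans (gr_ts v _))
  refine ⟨?_, ?_, hχ.continuous_fderiv (by norm_num), hcf⟩
  · rw [hlap]
    exact (continuousOn_univ.1 (hdv2 1).continuousOn).add (continuousOn_univ.1 (hdv2 Complex.I).continuousOn)
  · rw [hlap]
    exact (hcd2 1).add (hcd2 Complex.I)

private theorem gr_sep (S : Finset ℂ) (δ : ℝ) (hδ : 0 < δ) :
    ∃ d : ℝ, 0 < d ∧ d ≤ δ ∧ ∀ p ∈ S, ∀ p' ∈ S, p ≠ p' → 2 * d ≤ ‖p - p'‖ := by
  have h1 : ∀ pq ∈ S.offDiag, ∀ᶠ d in 𝓝[>] (0 : ℝ), 2 * d ≤ ‖pq.1 - pq.2‖ := by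
    intro pq hpq
    have hne : pq.1 ≠ pq.2 := (Finset.mem_offDiag.1 hpq).2.2
    have hpos : 0 < ‖pq.1 - pq.2‖ / 2 := by
      have := norm_pos_iff.2 (sub_ne_zero.2 hne)
      positivity
    filter_upwards [Ioo_mem_nhdsGT hpos] with d hd
    have := hd.2
    linarith
  have h2 : ∀ᶠ d in 𝓝[>] (0 : ℝ), ∀ pq ∈ S.offDiag, 2 * d ≤ ‖pq.1 - pq.2‖ := by
    rw [Finset.eventually_all]
    exact h1
  have h3 : ∀ᶠ d in 𝓝[>] (0 : ℝ), 0 < d ∧ d ≤ δ := by
    filter_upwards [Ioc_mem_nhdsGT hδ] with d hd using hd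
  obtain ⟨d, hd1, hd2, hd3⟩ := (h2.and h3).exists
  exact ⟨d, hd2, hd3, fun p hp p' hp' hne => hd1 (p, p') (Finset.mem_offDiag.2 ⟨hp, hp', hne⟩)⟩

private theorem gr_cut (S : Finset ℂ) (ε δ : ℝ) (hε : 0 < ε) (hδ : 0 < δ) :
    ∃ χ : ℂ → ℝ, ContDiff ℝ 2 χ ∧ (∀ x, 0 ≤ χ x ∧ χ x ≤ 1) ∧ (∀ p ∈ S, ∀ᶠ x in 𝓝 p, χ x = 0) ∧
      (∀ x, (∀ p ∈ S, δ ≤ ‖x - p‖) → χ x = 1) ∧ HasCompactSupport (fun x => 1 - χ x) ∧
      ∫ x, |Laplacian.laplacian χ x| ≤ ε ∧ ∫ x, ‖fderiv ℝ χ x‖ ≤ ε := by
  obtain ⟨d, hd0, hdδ, hd⟩ := gr_sep S δ hδ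
  set m : ℝ := (S.card : ℝ) + 1 with hm
  have hm0 : 0 < m := by positivity
  obtain ⟨c, hc2, hc01, hc0, hc1, hcl, hcf⟩ := cut_near (ε / m) d (by positivity) hd0
  have hcc : HasCompactSupport (fun x => 1 - c x) := by
    refine HasCompactSupport.intro (K := Metric.closedBall 0 d) (isCompact_closedBall 0 d) fun x hx => ?_
    rw [mem_closedBall_zero_iff, not_le] at hx
    simp [hc1 x hx.le]
  obtain ⟨hl1, hl2, hf1, hf2⟩ := gr_lapint 1 hc2 hcc
  set χ : ℂ → ℝ := fun x => 1 - ∑ p ∈ S, (1 - c (x - p)) with hχ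
  have hone : ∀ x, (∀ p ∈ S, d ≤ ‖x - p‖) → χ x = 1 := by
    intro x hx
    simp only [hχ]
    rw [Finset.sum_eq_zero fun p hp => by rw [hc1 _ (hx p hp)]; ring]
    ring
  have hin : ∀ x, ∀ p ∈ S, ‖x - p‖ < d → χ x = c (x - p) := by
    intro x p hp hx
    simp only [hχ]
    rw [Finset.sum_eq_single p]
    · ring
    · intro p' hp' hne
      have h1 := hd p' hp' p hp hne
      have h2 : ‖p' - p‖ ≤ ‖x - p‖ + ‖x - p'‖ := by
        have : p' - p = (x - p) - (x - p') := by ring
        rw [this]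
        exact norm_sub_le _ _
      rw [hc1 _ (by linarith)]
      ring
    · intro h
      exact absurd hp h
  have hCD : ContDiff ℝ 2 χ := by
    refine contDiff_const.sub (ContDiff.sum fun p _ => contDiff_const.sub ?_)
    exact hc2.comp (contDiff_id.sub contDiff_const)
  have hfd : fderiv ℝ χ = fun x => ∑ p ∈ S, fderiv ℝ c (x - p) := by
    funext x
    have hd1 : ∀ p ∈ S, DifferentiableAt ℝ (fun x => 1 - c (x - p)) x := by
      intro p _
      refine (differentiableAt_const _).sub ?_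
      exact ((hc2.comp (contDiff_id.sub contDiff_const)).differentiable (by norm_num)).differentiableAt
    simp only [hχ]
    rw [fderiv_const_sub, fderiv_fun_sum hd1]
    rw [← Finset.sum_neg_distrib]
    refine Finset.sum_congr rfl fun p _ => ?_
    rw [fderiv_const_sub, fderiv_comp_sub]
    simp
  have hlap : ∀ x, Laplacian.laplacian χ x = ∑ p ∈ S, Laplacian.laplacian c (x - p) := by
    intro x
    have h2 : ∀ v : ℂ, dv v (dv v χ) x = ∑ p ∈ S, dv v (dv v c) (x - p) := by
      intro v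
      have h3 : dv v χ = fun x => ∑ p ∈ S, dv v c (x - p) := by
        funext y
        simp only [dv, hfd]
        simp
      rw [h3]
      have h4 : ContDiffOn ℝ (1 : ℕ) (dv v c) Set.univ :=
        gr_dvC isOpen_univ v (n := 1) (by exact_mod_cast hc2.contDiffOn)
      have h5 : ∀ p ∈ S, DifferentiableAt ℝ (fun y => dv v c (y - p)) x := by
        intro p _
        rw [differentiableAt_comp_sub]
        exact (h4.contDiffAt Filter.univ_mem).differentiableAt (by norm_num)
      unfold dv at h5 ⊢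
      rw [fderiv_fun_sum h5]
      rw [_root_.sum_apply]
      refine Finset.sum_congr rfl fun p _ => ?_
      rw [fderiv_comp_sub (f := fun y => fderiv ℝ c y v)]
    rw [gr_lap hCD.contDiffAt, h2, h2, ← Finset.sum_add_distrib]
    refine Finset.sum_congr rfl fun p _ => ?_
    rw [gr_lap hc2.contDiffAt]
  refine ⟨χ, hCD, ?_, ?_, ?_, ?_, ?_, ?_⟩
  · intro x
    by_cases h : ∀ p ∈ S, d ≤ ‖x - p‖
    · rw [hone x h]
      norm_num
    · push Not at h
      obtain ⟨p, hp, hx⟩ := h
      rw [hin x p hp hx]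
      exact hc01 _
  · intro p hp
    have h1 : ∀ᶠ x in 𝓝 p, c (x - p) = 0 := by
      have : Tendsto (fun x : ℂ => x - p) (𝓝 p) (𝓝 (p - p)) := tendsto_id.sub tendsto_const_nhds
      rw [sub_self] at this
      exact this.eventually hc0
    filter_upwards [h1, Metric.ball_mem_nhds p hd0] with x hx1 hx2
    rw [hin x p hp (by rwa [Metric.mem_ball, dist_eq_norm] at hx2)]
    exact hx1
  · intro x hx
    exact hone x fun p hp => hdδ.trans (hx p hp)
  · have h1 : (fun x => 1 - χ x) = fun x => ∑ p ∈ S, (1 - c (x - p)) := by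
      funext x
      simp only [hχ]
      ring
    rw [h1]
    refine HasCompactSupport.intro (K := ⋃ p ∈ S, Metric.closedBall p d)
      (S.isCompact_biUnion fun p _ => isCompact_closedBall p d) fun x hx => ?_
    refine Finset.sum_eq_zero fun p hp => ?_
    have : x ∉ Metric.closedBall p d := fun h => hx (Set.mem_biUnion hp h)
    rw [Metric.mem_closedBall, dist_eq_norm, not_le] at this
    rw [hc1 _ this.le]
    ring
  · have hi : ∀ p : ℂ, Integrable (fun x => |Laplacian.laplacian c (x - p)|) := fun p =>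
      ((hl1.integrable_of_hasCompactSupport hl2).abs).comp_sub_right p
    calc ∫ x, |Laplacian.laplacian χ x| ≤ ∫ x, ∑ p ∈ S, |Laplacian.laplacian c (x - p)| := by
          refine integral_mono_of_nonneg (Eventually.of_forall fun x => abs_nonneg _)
            (integrable_finsetSum S fun p _ => hi p) (Eventually.of_forall fun x => ?_)
          simp only
          rw [hlap]
          exact Finset.abs_sum_le_sum_abs _ _
      _ = ∑ p ∈ S, ∫ x, |Laplacian.laplacian c (x - p)| := integral_finsetSum S fun p _ => hi p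
      _ = ∑ p ∈ S, ∫ x, |Laplacian.laplacian c x| := by
          refine Finset.sum_congr rfl fun p _ => ?_
          exact integral_sub_right_eq_self (fun x => |Laplacian.laplacian c x|) p
      _ ≤ ∑ p ∈ S, ε / m := Finset.sum_le_sum fun p _ => hcl
      _ = (S.card : ℝ) * (ε / m) := by simp
      _ ≤ m * (ε / m) := by
          refine mul_le_mul_of_nonneg_right (by rw [hm]; linarith) (by positivity)
      _ = ε := by field_simp
  · have hi : ∀ p : ℂ, Integrable (fun x => ‖fderiv ℝ c (x - p)‖) := fun p =>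
      ((hf1.integrable_of_hasCompactSupport hf2).norm).comp_sub_right p
    calc ∫ x, ‖fderiv ℝ χ x‖ ≤ ∫ x, ∑ p ∈ S, ‖fderiv ℝ c (x - p)‖ := by
          refine integral_mono_of_nonneg (Eventually.of_forall fun x => norm_nonneg _)
            (integrable_finsetSum S fun p _ => hi p) (Eventually.of_forall fun x => ?_)
          simp only
          rw [hfd]
          exact norm_sum_le _ _
      _ = ∑ p ∈ S, ∫ x, ‖fderiv ℝ c (x - p)‖ := integral_finsetSum S fun p _ => hi p
      _ = ∑ p ∈ S, ∫ x, ‖fderiv ℝ c x‖ := by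
          refine Finset.sum_congr rfl fun p _ => ?_
          exact integral_sub_right_eq_self (fun x => ‖fderiv ℝ c x‖) p
      _ ≤ ∑ p ∈ S, ε / m := Finset.sum_le_sum fun p _ => hcf
      _ = (S.card : ℝ) * (ε / m) := by simp
      _ ≤ m * (ε / m) := by
          refine mul_le_mul_of_nonneg_right (by rw [hm]; linarith) (by positivity)
      _ = ε := by field_simp

private theorem gr_lapadd {f g : ℂ → ℝ} (hf : ContDiff ℝ 2 f) (hg : ContDiff ℝ 2 g) (a : ℝ) (x : ℂ) :
    Laplacian.laplacian (fun y => f y + g y - a) x = Laplacian.laplacian f x + Laplacian.laplacian g x := by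
  have h1 : ∀ v, dv v (fun y => f y + g y - a) = fun y => dv v f y + dv v g y := by
    intro v
    funext y
    have d1 : DifferentiableAt ℝ f y := (hf.differentiable (by norm_num)).differentiableAt
    have d2 : DifferentiableAt ℝ g y := (hg.differentiable (by norm_num)).differentiableAt
    unfold dv
    rw [fderiv_sub_const, fderiv_fun_add d1 d2]
    simp
  have h2 : ∀ v, dv v (fun y => dv v f y + dv v g y) x = dv v (dv v f) x + dv v (dv v g) x := by
    intro v
    exact gr_dvadd isOpen_univ v (gr_dvC isOpen_univ v (n := 1) (by exact_mod_cast hf.contDiffOn))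
      (gr_dvC isOpen_univ v (n := 1) (by exact_mod_cast hg.contDiffOn)) (Set.mem_univ x)
  rw [gr_lap (((hf.add hg).sub contDiff_const).contDiffAt), gr_lap hf.contDiffAt, gr_lap hg.contDiffAt,
    h1, h1, h2, h2]
  ring

private theorem gr_lapcont {U : Set ℂ} (hU : IsOpen U) {f : ℂ → ℝ} (hf : ContDiffOn ℝ 2 f U) :
    ContinuousOn (Laplacian.laplacian f) U := by
  have hf1 : ∀ v, ContDiffOn ℝ (1 : ℕ) (dv v f) U := fun v => gr_dvC hU v (n := 1) (by exact_mod_cast hf)
  have hf2 : ∀ v, ContDiffOn ℝ (0 : ℕ) (dv v (dv v f)) U := fun v =>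
    gr_dvC hU v (n := 0) (by exact_mod_cast hf1 v)
  refine ((hf2 1).continuousOn.add (hf2 Complex.I).continuousOn).congr fun x hx => ?_
  exact gr_lap (hf.contDiffAt (hU.mem_nhds hx))

private theorem gr_lapts {ψ : ℂ → ℝ} (hψ : ContDiff ℝ 2 ψ) : tsupport (Laplacian.laplacian ψ) ⊆ tsupport ψ := by
  refine closure_minimal ?_ (isClosed_tsupport ψ)
  intro x hx
  by_contra h1
  refine hx ?_
  have h3 : ∀ v, dv v (dv v ψ) x = 0 := fun v =>
    image_eq_zero_of_notMem_tsupport fun h => h1 (gr_ts v ψ (gr_ts v _ h))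
  rw [gr_lap hψ.contDiffAt, h3, h3]
  ring

private theorem gr_null (S : Finset ℂ) : ∀ᵐ x : ℂ, x ∉ S := by
  have h : (S : Set ℂ).Countable := S.countable_toSet
  exact h.ae_notMem volume

private theorem gr_one_div (n : ℕ) : (0 : ℝ) < 1 / (n + 1) := by positivity

/-- Let `q` be bounded and of class `C^2` outside a finite set, `Δ q ≥ h`, `h` integrable. Then
`∫ h ≤ 0`. Test with `χ = cut_far - ∑_{p ∈ S} (1 - cut_near (x - p))` (small disjoint discs):
`∫ χ h ≤ ∫ χ Δ q = ∫ q Δ χ ≤ M (card S + 1) ε`, then dominated convergence. -/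
theorem green_ineq (S : Finset ℂ) (q h : ℂ → ℝ) (hq : ContDiffOn ℝ 2 q ((S : Set ℂ)ᶜ)) (M : ℝ)
    (hM : ∀ x, x ∉ S → |q x| ≤ M) (hh : Integrable h)
    (hle : ∀ x, x ∉ S → h x ≤ Laplacian.laplacian q x) : ∫ x, h x ≤ 0 := by
  have hU : IsOpen ((S : Set ℂ)ᶜ) := S.finite_toSet.isClosed.isOpen_compl
  obtain ⟨B, hB⟩ : ∃ B : ℝ, ∀ p ∈ S, ‖p‖ ≤ B := by
    refine ⟨∑ p ∈ S, ‖p‖, fun p hp => Finset.single_le_sum (f := fun p => ‖p‖) (fun i _ => norm_nonneg i) hp⟩
  have hM0 : 0 ≤ M := by
    obtain ⟨x, hx⟩ := Infinite.exists_notMem_finset S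
    exact (abs_nonneg _).trans (hM x hx)
  choose cS hS2 hS01 hS0 hS1 hSc hSl hSf using fun n : ℕ => gr_cut S (1 / (n + 1)) (1 / (n + 1)) (gr_one_div n) (gr_one_div n)
  choose cF hF2 hF01 hFc hF1 hFl using fun n : ℕ => cut_far (1 / (n + 1)) (n + B + 1) (gr_one_div n)
  set χ : ℕ → ℂ → ℝ := fun n x => cF n x + cS n x - 1 with hχ
  have hle1 : ∀ n : ℕ, (1 : ℝ) / (n + 1) ≤ 1 := by
    intro n
    rw [div_le_one (by positivity)]
    have : (0 : ℝ) ≤ n := Nat.cast_nonneg n
    linarith
  have hC : ∀ n, ContDiff ℝ 2 (χ n) := fun n => ((hF2 n).add (hS2 n)).sub contDiff_const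
  have h01 : ∀ n x, 0 ≤ χ n x ∧ χ n x ≤ 1 := by
    intro n x
    simp only [hχ]
    by_cases hx : ∀ p ∈ S, 1 / ((n : ℝ) + 1) ≤ ‖x - p‖
    · rw [hS1 n x hx]
      have := hF01 n x
      constructor <;> linarith [this.1, this.2]
    · push Not at hx
      obtain ⟨p, hp, hxp⟩ := hx
      have h1 : ‖x‖ ≤ n + B + 1 := by
        have h2 : ‖x‖ ≤ ‖x - p‖ + ‖p‖ := by
          have := norm_add_le (x - p) p
          simpa using this
        have h3 := hB p hp
        have h4 := hle1 n
        have h5 : (0 : ℝ) ≤ n := Nat.cast_nonneg n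
        linarith
      rw [hF1 n x h1]
      have := hS01 n x
      constructor <;> linarith [this.1, this.2]
  have hcs : ∀ n, HasCompactSupport (χ n) := by
    intro n
    have : χ n = fun x => cF n x - (1 - cS n x) := by
      funext x
      simp only [hχ]
      ring
    rw [this]
    exact (hFc n).sub (hSc n)
  have hts : ∀ n, tsupport (χ n) ⊆ ((S : Set ℂ)ᶜ) := by
    intro n x hx hxS
    refine (notMem_tsupport_iff_eventuallyEq.2 ?_) hx
    have h1 : ∀ᶠ y in 𝓝 x, ‖y‖ ≤ n + B + 1 := by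
      have h2 : ‖x‖ < n + B + 1 := by
        have h3 := hB x hxS
        have h5 : (0 : ℝ) ≤ n := Nat.cast_nonneg n
        linarith
      have := (continuous_norm.tendsto x).eventually (gt_mem_nhds h2)
      exact this.mono fun y hy => le_of_lt hy
    filter_upwards [h1, hS0 n x hxS] with y hy1 hy2
    simp only [hχ, Pi.zero_apply]
    rw [hF1 n y hy1, hy2]
    ring
  have hle2 : ∀ n : ℕ, ∫ x, χ n x * h x ≤ M * (2 * (1 / ((n : ℝ) + 1))) := by
    intro n
    have e1 : ∫ x, χ n x * h x ≤ ∫ x, χ n x * Laplacian.laplacian q x := by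
      refine integral_mono ?_ ?_ fun x => ?_
      · refine hh.bdd_mul (c := 1) (hC n).continuous.aestronglyMeasurable (Eventually.of_forall fun x => ?_)
        rw [Real.norm_eq_abs, abs_of_nonneg (h01 n x).1]
        exact (h01 n x).2
      · exact gr_int hU (hC n).continuous.continuousOn (gr_lapcont hU hq) (hcs n) (hts n)
      · simp only
        by_cases hx : x ∈ S
        · have : χ n x = 0 := image_eq_zero_of_notMem_tsupport fun h => hts n h hx
          rw [this]
          simp
        · exact mul_le_mul_of_nonneg_left (hle x hx) (h01 n x).1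
    have e2 := ibp _ hU q (χ n) hq (hC n) (hcs n) (hts n)
    obtain ⟨hl1, hl2, -, -⟩ := gr_lapint 1 (hS2 n) (hSc n)
    have hcF' : HasCompactSupport (fun x => 0 - cF n x) := by
      have h1 : (fun x => 0 - cF n x) = -(cF n) := by
        funext x
        simp
      rw [h1]
      exact (hFc n).neg
    obtain ⟨hl3, hl4, -, -⟩ := gr_lapint 0 (hF2 n) hcF'
    have i1 : Integrable (fun x => |Laplacian.laplacian (cS n) x|) := (hl1.integrable_of_hasCompactSupport hl2).abs
    have i2 : Integrable (fun x => |Laplacian.laplacian (cF n) x|) := (hl3.integrable_of_hasCompactSupport hl4).abs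
    have e3 : ∫ x, q x * Laplacian.laplacian (χ n) x ≤
        ∫ x, M * (|Laplacian.laplacian (cF n) x| + |Laplacian.laplacian (cS n) x|) := by
      have hno := norm_integral_le_integral_norm (μ := volume) (fun x => q x * Laplacian.laplacian (χ n) x)
      rw [Real.norm_eq_abs] at hno
      refine (le_abs_self _).trans (hno.trans ?_)
      refine integral_mono_of_nonneg (Eventually.of_forall fun x => norm_nonneg _) ((i2.add i1).const_mul M) ?_
      filter_upwards [gr_null S] with x hx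
      rw [norm_mul, Real.norm_eq_abs, Real.norm_eq_abs]
      simp only [hχ]
      rw [gr_lapadd (hF2 n) (hS2 n) 1 x]
      exact mul_le_mul (hM x hx) (abs_add_le _ _) (abs_nonneg _) hM0
    rw [integral_const_mul, integral_add i2 i1] at e3
    have e4 : M * ((∫ x, |Laplacian.laplacian (cF n) x|) + ∫ x, |Laplacian.laplacian (cS n) x|) ≤
        M * (2 * (1 / ((n : ℝ) + 1))) := by
      refine mul_le_mul_of_nonneg_left ?_ hM0
      have := hFl n
      have := hSl n
      linarith
    linarith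
  have hlim : Tendsto (fun n => ∫ x, χ n x * h x) atTop (𝓝 (∫ x, h x)) := by
    refine tendsto_integral_of_dominated_convergence (fun x => |h x|) ?_ hh.abs ?_ ?_
    · intro n
      exact (hC n).continuous.aestronglyMeasurable.mul hh.aestronglyMeasurable
    · intro n
      refine Eventually.of_forall fun x => ?_
      rw [norm_mul, Real.norm_eq_abs, Real.norm_eq_abs, abs_of_nonneg (h01 n x).1]
      have := (h01 n x).2
      have := abs_nonneg (h x)
      nlinarith
    · filter_upwards [gr_null S] with x hx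
      have h1 : ∀ᶠ n : ℕ in atTop, ∀ p ∈ S, 1 / ((n : ℝ) + 1) ≤ ‖x - p‖ := by
        rw [Finset.eventually_all]
        intro p hp
        have hpos : 0 < ‖x - p‖ := norm_pos_iff.2 (sub_ne_zero.2 fun h => hx (h ▸ hp))
        have h2 := (tendsto_one_div_add_atTop_nhds_zero_nat (𝕜 := ℝ)).eventually (gt_mem_nhds hpos)
        exact h2.mono fun n hn => le_of_lt hn
      have h2 : ∀ᶠ n : ℕ in atTop, ‖x‖ ≤ n + B + 1 := by
        have := (tendsto_natCast_atTop_atTop (R := ℝ)).eventually (eventually_ge_atTop (‖x‖ - B - 1))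
        exact this.mono fun n hn => by linarith
      refine tendsto_const_nhds.congr' ?_
      filter_upwards [h1, h2] with n hn1 hn2
      simp only [hχ]
      rw [hS1 n x hn1, hF1 n x hn2]
      ring
  have hlim2 : Tendsto (fun n : ℕ => M * (2 * (1 / ((n : ℝ) + 1)))) atTop (𝓝 (M * (2 * 0))) :=
    ((tendsto_one_div_add_atTop_nhds_zero_nat (𝕜 := ℝ)).const_mul 2).const_mul M
  have := le_of_tendsto_of_tendsto' hlim hlim2 hle2
  linarith

/-- local version, `f` bounded and of class `C^2` in `U` outside a finite set, `ψ` a test function;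
test with `χ ψ`, `Δ(χψ) = χ Δψ + 2 ∇χ·∇ψ + ψ Δχ` -/
theorem green_loc (S : Finset ℂ) (U : Set ℂ) (hU : IsOpen U) (f k ψ : ℂ → ℝ)
    (hf : ContDiffOn ℝ 2 f (U \ S)) (M : ℝ) (hM : ∀ x ∈ U \ (S : Set ℂ), |f x| ≤ M)
    (hk : ∀ x ∈ U \ (S : Set ℂ), Laplacian.laplacian f x = k x)
    (hψ : ContDiff ℝ 2 ψ) (hc : HasCompactSupport ψ) (hs : tsupport ψ ⊆ U)
    (hi : Integrable (fun x => ψ x * k x)) :
    ∫ x, ψ x * k x = ∫ x, f x * Laplacian.laplacian ψ x := by
  have hU' : IsOpen (U \ (S : Set ℂ)) := hU.sdiff S.finite_toSet.isClosed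
  choose cS hS2 hS01 hS0 hS1 hSc hSl hSf using fun n : ℕ => gr_cut S (1 / (n + 1)) (1 / (n + 1)) (gr_one_div n) (gr_one_div n)
  have hψd1 : ∀ v, ContDiffOn ℝ (1 : ℕ) (dv v ψ) Set.univ := fun v =>
    gr_dvC isOpen_univ v (n := 1) (by exact_mod_cast hψ.contDiffOn)
  have hψdc : ∀ v, Continuous (dv v ψ) := fun v => continuousOn_univ.1 (hψd1 v).continuousOn
  have hψds : ∀ v, HasCompactSupport (dv v ψ) := fun v => hc.mono' (subset_closure.trans (gr_ts v ψ))
  have hc0 : HasCompactSupport (fun x => 0 - ψ x) := by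
    have h1 : (fun x => 0 - ψ x) = -ψ := by
      funext x
      simp
    rw [h1]
    exact hc.neg
  obtain ⟨hL1, hL2, -, -⟩ := gr_lapint 0 hψ hc0
  have hLi : Integrable (Laplacian.laplacian ψ) := hL1.integrable_of_hasCompactSupport hL2
  obtain ⟨B0, hB0⟩ := hc.exists_bound_of_continuous hψ.continuous
  obtain ⟨B1, hB1⟩ := (hψds 1).exists_bound_of_continuous (hψdc 1)
  obtain ⟨B2, hB2⟩ := (hψds Complex.I).exists_bound_of_continuous (hψdc Complex.I)
  -- off the support everything vanishes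
  have hoff : ∀ x, x ∉ U → ψ x = 0 ∧ dv 1 ψ x = 0 ∧ dv Complex.I ψ x = 0 ∧ Laplacian.laplacian ψ x = 0 := by
    intro x hx
    have h1 : x ∉ tsupport ψ := fun h => hx (hs h)
    have h2 : ∀ v, dv v ψ x = 0 := fun v =>
      image_eq_zero_of_notMem_tsupport fun h => h1 (gr_ts v ψ h)
    have h3 : ∀ v, dv v (dv v ψ) x = 0 := fun v =>
      image_eq_zero_of_notMem_tsupport fun h => h1 (gr_ts v ψ (gr_ts v _ h))
    refine ⟨image_eq_zero_of_notMem_tsupport h1, h2 1, h2 Complex.I, ?_⟩
    rw [gr_lap hψ.contDiffAt, h3, h3]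
    ring
  set φ : ℕ → ℂ → ℝ := fun n x => ψ x * cS n x with hφ
  have hφC : ∀ n, ContDiff ℝ 2 (φ n) := fun n => hψ.mul (hS2 n)
  have hφc : ∀ n, HasCompactSupport (φ n) := fun n => hc.mul_right
  have hφs : ∀ n, tsupport (φ n) ⊆ U \ (S : Set ℂ) := by
    intro n x hx
    refine ⟨hs (tsupport_mul_subset_left hx), fun hxS => ?_⟩
    refine (notMem_tsupport_iff_eventuallyEq.2 ?_) hx
    filter_upwards [hS0 n x hxS] with y hy
    simp only [hφ, Pi.zero_apply]
    rw [hy]
    ring
  have hfm : AEStronglyMeasurable (fun x => f x * Laplacian.laplacian ψ x) volume := by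
    have h1 : AEStronglyMeasurable ((U \ (S : Set ℂ)).indicator fun x => f x * Laplacian.laplacian ψ x) volume := by
      rw [aestronglyMeasurable_indicator_iff hU'.measurableSet]
      exact (hf.continuousOn.mul hL1.continuousOn).aestronglyMeasurable hU'.measurableSet
    refine h1.congr ?_
    filter_upwards [gr_null S] with x hx
    by_cases hxU : x ∈ U
    · rw [Set.indicator_of_mem (show x ∈ U \ (S : Set ℂ) from ⟨hxU, hx⟩)]
    · rw [Set.indicator_of_notMem (fun h => hxU h.1), (hoff x hxU).2.2.2]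
      ring
  have hfi : Integrable (fun x => f x * Laplacian.laplacian ψ x) := by
    refine Integrable.mono' (g := fun x => |M| * |Laplacian.laplacian ψ x|) (hLi.abs.const_mul _) hfm ?_
    filter_upwards [gr_null S] with x hx
    rw [norm_mul, Real.norm_eq_abs, Real.norm_eq_abs]
    by_cases hxU : x ∈ U
    · exact mul_le_mul_of_nonneg_right ((hM x ⟨hxU, hx⟩).trans (le_abs_self M)) (abs_nonneg _)
    · rw [(hoff x hxU).2.2.2]
      simp
  have hA : ∀ n, ∫ x, (ψ x * k x) * cS n x = ∫ x, f x * Laplacian.laplacian (φ n) x := by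
    intro n
    rw [← ibp _ hU' f (φ n) hf (hφC n) (hφc n) (hφs n)]
    refine integral_congr_ae (Eventually.of_forall fun x => ?_)
    simp only
    by_cases hx : x ∈ U \ (S : Set ℂ)
    · rw [hk x hx]
      simp only [hφ]
      ring
    · have h1 : φ n x = 0 := image_eq_zero_of_notMem_tsupport fun h => hx (hφs n h)
      rw [h1]
      simp only [hφ] at h1
      calc ψ x * k x * cS n x = (ψ x * cS n x) * k x := by ring
        _ = 0 * Laplacian.laplacian f x := by rw [h1]; ring
  have hdom : ∀ G : ℂ → ℝ, Integrable G → Tendsto (fun n => ∫ x, G x * cS n x) atTop (𝓝 (∫ x, G x)) := by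
    intro G hG
    refine tendsto_integral_of_dominated_convergence (fun x => |G x|) ?_ hG.abs ?_ ?_
    · intro n
      exact hG.aestronglyMeasurable.mul (hS2 n).continuous.aestronglyMeasurable
    · intro n
      refine Eventually.of_forall fun x => ?_
      rw [norm_mul, Real.norm_eq_abs, Real.norm_eq_abs, abs_of_nonneg (hS01 n x).1]
      have := (hS01 n x).2
      have := abs_nonneg (G x)
      nlinarith
    · filter_upwards [gr_null S] with x hx
      have h1 : ∀ᶠ n : ℕ in atTop, ∀ p ∈ S, 1 / ((n : ℝ) + 1) ≤ ‖x - p‖ := by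
        rw [Finset.eventually_all]
        intro p hp
        have hpos : 0 < ‖x - p‖ := norm_pos_iff.2 (sub_ne_zero.2 fun h => hx (h ▸ hp))
        have h2 := (tendsto_one_div_add_atTop_nhds_zero_nat (𝕜 := ℝ)).eventually (gt_mem_nhds hpos)
        exact h2.mono fun n hn => le_of_lt hn
      refine tendsto_const_nhds.congr' ?_
      filter_upwards [h1] with n hn1
      rw [hS1 n x hn1]
      ring
  have hlimA := hdom _ hi
  have hlimC := hdom _ hfi
  have hdiff : ∀ n : ℕ, |(∫ x, f x * Laplacian.laplacian (φ n) x) -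
      ∫ x, (f x * Laplacian.laplacian ψ x) * cS n x| ≤ |M| * (|B0| + 2 * (|B1| + |B2|)) * (1 / ((n : ℝ) + 1)) := by
    intro n
    obtain ⟨hl1, hl2, hl3, hl4⟩ := gr_lapint 1 (hS2 n) (hSc n)
    have i1 : Integrable (fun x => |Laplacian.laplacian (cS n) x|) := (hl1.integrable_of_hasCompactSupport hl2).abs
    have i2 : Integrable (fun x => ‖fderiv ℝ (cS n) x‖) := (hl3.integrable_of_hasCompactSupport hl4).norm
    have i3 : Integrable (fun x => f x * Laplacian.laplacian (φ n) x) := by
      have h0 : HasCompactSupport (fun x => 0 - φ n x) := by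
        have h1 : (fun x => 0 - φ n x) = -(φ n) := by
          funext x
          simp
        rw [h1]
        exact (hφc n).neg
      obtain ⟨h1, h2, -, -⟩ := gr_lapint 0 (hφC n) h0
      exact (gr_int hU' h1.continuousOn hf.continuousOn h2 ((gr_lapts (hφC n)).trans (hφs n))).congr
        (Eventually.of_forall fun x => mul_comm _ _)
    have i4 : Integrable (fun x => (f x * Laplacian.laplacian ψ x) * cS n x) := by
      refine hfi.mul_bdd (c := 1) (hS2 n).continuous.aestronglyMeasurable (Eventually.of_forall fun x => ?_)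
      rw [Real.norm_eq_abs, abs_of_nonneg (hS01 n x).1]
      exact (hS01 n x).2
    rw [← integral_sub i3 i4]
    have e1 : |∫ x, (f x * Laplacian.laplacian (φ n) x - (f x * Laplacian.laplacian ψ x) * cS n x)| ≤
        ∫ x, |M| * (|B0| * |Laplacian.laplacian (cS n) x| + 2 * (|B1| + |B2|) * ‖fderiv ℝ (cS n) x‖) := by
      have hno := norm_integral_le_integral_norm (μ := volume)
        (fun x => f x * Laplacian.laplacian (φ n) x - (f x * Laplacian.laplacian ψ x) * cS n x)
      rw [Real.norm_eq_abs] at hno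
      refine hno.trans ?_
      refine integral_mono_of_nonneg (Eventually.of_forall fun x => norm_nonneg _)
        (((i1.const_mul _).add (i2.const_mul _)).const_mul _) ?_
      filter_upwards [gr_null S] with x hx
      have h1 : f x * Laplacian.laplacian (φ n) x - (f x * Laplacian.laplacian ψ x) * cS n x =
          f x * (ψ x * Laplacian.laplacian (cS n) x +
            2 * (dv 1 ψ x * dv 1 (cS n) x + dv Complex.I ψ x * dv Complex.I (cS n) x)) := by
        simp only [hφ]
        rw [gr_lapmul isOpen_univ hψ.contDiffOn (hS2 n).contDiffOn (Set.mem_univ x)]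
        ring
      rw [h1, norm_mul, Real.norm_eq_abs, Real.norm_eq_abs]
      by_cases hxU : x ∈ U
      · have h2 : |ψ x| ≤ |B0| := (hB0 x).trans (le_abs_self _)
        have h3 : |dv 1 ψ x| ≤ |B1| := (hB1 x).trans (le_abs_self _)
        have h4 : |dv Complex.I ψ x| ≤ |B2| := (hB2 x).trans (le_abs_self _)
        have h5 : |dv 1 (cS n) x| ≤ ‖fderiv ℝ (cS n) x‖ := by
          have := (fderiv ℝ (cS n) x).le_opNorm 1
          simpa [dv] using this
        have h6 : |dv Complex.I (cS n) x| ≤ ‖fderiv ℝ (cS n) x‖ := by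
          have := (fderiv ℝ (cS n) x).le_opNorm Complex.I
          simpa [dv] using this
        have h7 : |ψ x * Laplacian.laplacian (cS n) x +
            2 * (dv 1 ψ x * dv 1 (cS n) x + dv Complex.I ψ x * dv Complex.I (cS n) x)| ≤
            |B0| * |Laplacian.laplacian (cS n) x| + 2 * (|B1| + |B2|) * ‖fderiv ℝ (cS n) x‖ := by
          refine (abs_add_le _ _).trans ?_
          have h8 : |ψ x * Laplacian.laplacian (cS n) x| ≤ |B0| * |Laplacian.laplacian (cS n) x| := by
            rw [abs_mul]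
            exact mul_le_mul_of_nonneg_right h2 (abs_nonneg _)
          have h9 : |dv 1 ψ x * dv 1 (cS n) x| ≤ |B1| * ‖fderiv ℝ (cS n) x‖ := by
            rw [abs_mul]
            exact mul_le_mul h3 h5 (abs_nonneg _) (abs_nonneg _)
          have h10 : |dv Complex.I ψ x * dv Complex.I (cS n) x| ≤ |B2| * ‖fderiv ℝ (cS n) x‖ := by
            rw [abs_mul]
            exact mul_le_mul h4 h6 (abs_nonneg _) (abs_nonneg _)
          have h11 : |2 * (dv 1 ψ x * dv 1 (cS n) x + dv Complex.I ψ x * dv Complex.I (cS n) x)| ≤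
              2 * (|B1| * ‖fderiv ℝ (cS n) x‖ + |B2| * ‖fderiv ℝ (cS n) x‖) := by
            rw [abs_mul, abs_of_pos (show (0 : ℝ) < 2 by norm_num)]
            have := abs_add_le (dv 1 ψ x * dv 1 (cS n) x) (dv Complex.I ψ x * dv Complex.I (cS n) x)
            linarith
          linarith
        exact mul_le_mul ((hM x ⟨hxU, hx⟩).trans (le_abs_self _)) h7 (abs_nonneg _) (abs_nonneg _)
      · obtain ⟨z1, z2, z3, -⟩ := hoff x hxU
        rw [z1, z2, z3]
        simp only [zero_mul, add_zero, mul_zero, abs_zero]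
        positivity
    refine e1.trans ?_
    rw [integral_const_mul, integral_add (i1.const_mul _) (i2.const_mul _), integral_const_mul, integral_const_mul]
    rw [mul_assoc |M| (|B0| + 2 * (|B1| + |B2|)) (1 / ((n : ℝ) + 1))]
    refine mul_le_mul_of_nonneg_left ?_ (abs_nonneg _)
    have h1 := mul_le_mul_of_nonneg_left (hSl n) (abs_nonneg B0)
    have h2 := mul_le_mul_of_nonneg_left (hSf n) (show 0 ≤ 2 * (|B1| + |B2|) by positivity)
    linarith
  have hlim0 : Tendsto (fun n => (∫ x, f x * Laplacian.laplacian (φ n) x) -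
      ∫ x, (f x * Laplacian.laplacian ψ x) * cS n x) atTop (𝓝 0) := by
    refine squeeze_zero_norm hdiff ?_
    have := (tendsto_one_div_add_atTop_nhds_zero_nat (𝕜 := ℝ)).const_mul (|M| * (|B0| + 2 * (|B1| + |B2|)))
    simpa using this
  have hlim1 : Tendsto (fun n => (∫ x, (ψ x * k x) * cS n x) -
      ∫ x, (f x * Laplacian.laplacian ψ x) * cS n x) atTop (𝓝 0) := by
    simp_rw [hA]
    exact hlim0
  have := tendsto_nhds_unique hlim1 (hlimA.sub hlimC)
  linarith

end ALC
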