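import Mathlib

/-!
Radial potentials: V(s) = int kappa(t) min(log(|s|/t), 0) dt for a continuous (or smooth) density
kappa >= 0 on (r1, r2) of total mass 1; V'(r) = (1/r) int_(t > r) kappa; Delta V = - kappa(r)/r =
- 2 pi T, T = kappa(|s|)/(2 pi |s|).
-/

open MeasureTheory Filter Topology

namespace ALC

/-- `V` is the difference of `log |s|` and the potential of a radial probability density `T`
supported in `r1 ≤ |s| ≤ r2`. -/
structure IsPot (r1 r2 : ℝ) (V T : ℂ → ℝ) (L : ℝ) : Prop where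
  smooth : ContDiffOn ℝ 2 V ({0}ᶜ)
  cont : Continuous T
  nonneg : ∀ s, 0 ≤ T s
  supp : ∀ s, T s ≠ 0 → r1 ≤ ‖s‖ ∧ ‖s‖ ≤ r2
  mass : ∫ s, T s = 1
  lap : ∀ s, s ≠ 0 → Laplacian.laplacian V s = -(2 * Real.pi * T s)
  nonpos : ∀ s, V s ≤ 0
  lower : ∀ s, s ≠ 0 → Real.log (min 1 (‖s‖ / r2)) ≤ V s
  zero : ∀ s, r2 ≤ ‖s‖ → V s = 0
  near : ∀ s, s ≠ 0 → ‖s‖ ≤ r1 → V s = Real.log ‖s‖ - L
  low : Real.log r1 ≤ L
  high : L ≤ Real.log r2

/-- one-dimensional profile -/
private theorem pot_one (a b : ℝ) (h : a < b) :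
    ∃ (φ φ' w : ℝ → ℝ) (L : ℝ), Continuous w ∧ (∀ u, 0 ≤ w u) ∧
      (∀ u, w u ≠ 0 → a ≤ u ∧ u ≤ b) ∧ (∀ u, HasDerivAt φ (φ' u) u) ∧
      (∀ u, HasDerivAt φ' (-w u) u) ∧ (∀ u, φ u ≤ 0) ∧ (∀ u, min 0 (u - b) ≤ φ u) ∧
      (∀ u, b ≤ u → φ u = 0) ∧ (∀ u, u ≤ a → φ u = u - L) ∧ a ≤ L ∧ L ≤ b ∧ φ' a = 1 ∧
      φ' b = 0 := by
  -- the density
  obtain ⟨w, hwc, hw0, hws, hwi⟩ : ∃ w : ℝ → ℝ, Continuous w ∧ (∀ u, 0 ≤ w u) ∧
      (∀ u, w u ≠ 0 → a ≤ u ∧ u ≤ b) ∧ ∫ u in a..b, w u = 1 := by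
    set v : ℝ → ℝ := fun u => max 0 ((u - a) * (b - u)) with hv
    have hvc : Continuous v := by fun_prop
    have hv0 : ∀ u, 0 ≤ v u := fun u => le_max_left _ _
    have hpos : 0 < ∫ u in a..b, v u := by
      apply intervalIntegral.intervalIntegral_pos_of_pos_on (hvc.intervalIntegrable _ _) _ h
      intro x hx
      have : 0 < (x - a) * (b - x) := mul_pos (by linarith [hx.1]) (by linarith [hx.2])
      exact lt_of_lt_of_le this (le_max_right _ _)
    refine ⟨fun u => (∫ u in a..b, v u)⁻¹ * v u, by fun_prop, fun u => ?_, fun u hu => ?_, ?_⟩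
    · exact mul_nonneg (inv_nonneg.2 hpos.le) (hv0 u)
    · have hvu : v u ≠ 0 := fun h0 => hu (by simp [h0])
      by_contra hcon
      apply hvu
      have : (u - a) * (b - u) ≤ 0 := by
        by_cases h1 : a ≤ u
        · have h2 : b < u := by
            by_contra h3
            exact hcon ⟨h1, not_lt.1 h3⟩
          exact mul_nonpos_of_nonneg_of_nonpos (by linarith) (by linarith)
        · push Not at h1
          exact mul_nonpos_of_nonpos_of_nonneg (by linarith) (by linarith)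
      exact max_eq_left this
    · rw [intervalIntegral.integral_const_mul, inv_mul_cancel₀ hpos.ne']
  have hwz : ∀ u, (u < a ∨ b < u) → w u = 0 := by
    intro u hu
    by_contra hne
    obtain ⟨h1, h2⟩ := hws u hne
    rcases hu with hu | hu <;> linarith
  have hwz' : ∀ u, (u ≤ a ∨ b ≤ u) → w u = 0 := by
    -- by continuity
    intro u hu
    rcases hu with hu | hu
    · rcases lt_or_eq_of_le hu with h1 | h1
      · exact hwz u (Or.inl h1)
      · have hcl : IsClosed {x | w x = 0} := isClosed_eq hwc continuous_const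
        have : Set.Iio a ⊆ {x | w x = 0} := fun x hx => hwz x (Or.inl hx)
        have h2 := hcl.closure_subset_iff.2 this
        rw [closure_Iio] at h2
        exact h2 hu
    · have hcl : IsClosed {x | w x = 0} := isClosed_eq hwc continuous_const
      have : Set.Ioi b ⊆ {x | w x = 0} := fun x hx => hwz x (Or.inr hx)
      have h2 := hcl.closure_subset_iff.2 this
      rw [closure_Ioi] at h2
      exact h2 hu
  have hint : ∀ x y : ℝ, IntervalIntegrable w volume x y := fun x y => hwc.intervalIntegrable _ _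
  set φ' : ℝ → ℝ := fun u => ∫ x in u..b, w x with hφ'
  have hd' : ∀ u, HasDerivAt φ' (-w u) u := fun u =>
    intervalIntegral.integral_hasDerivAt_left (hint u b)
      (hwc.stronglyMeasurableAtFilter _ _) hwc.continuousAt
  have hc' : Continuous φ' := continuous_iff_continuousAt.2 fun u => (hd' u).continuousAt
  have hint' : ∀ x y : ℝ, IntervalIntegrable φ' volume x y := fun x y =>
    hc'.intervalIntegrable _ _
  have hbig : ∀ u, b ≤ u → φ' u = 0 := by
    intro u hu
    simp only [hφ']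
    apply intervalIntegral.integral_zero_ae
    filter_upwards with x hx
    rw [Set.uIoc_of_ge hu] at hx
    exact hwz' x (Or.inr hx.1.le)
  have hsmall : ∀ u, u ≤ a → φ' u = 1 := by
    intro u hu
    have h1 : (∫ x in u..a, w x) = 0 := by
      apply intervalIntegral.integral_zero_ae
      filter_upwards with x hx
      rw [Set.uIoc_of_le hu] at hx
      exact hwz' x (Or.inl hx.2)
    simp only [hφ']
    rw [← intervalIntegral.integral_add_adjacent_intervals (hint u a) (hint a b), h1, hwi,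
      zero_add]
  have hanti : Antitone φ' := by
    apply antitone_of_deriv_nonpos (fun u => (hd' u).differentiableAt)
    intro u
    rw [(hd' u).deriv]
    linarith [hw0 u]
  have hge0 : ∀ u, 0 ≤ φ' u := by
    intro u
    rcases le_total b u with h1 | h1
    · rw [hbig u h1]
    · rw [← hbig b le_rfl]
      exact hanti h1
  have hle1 : ∀ u, φ' u ≤ 1 := by
    intro u
    rcases le_total u a with h1 | h1
    · rw [hsmall u h1]
    · rw [← hsmall a le_rfl]
      exact hanti h1
  set φ : ℝ → ℝ := fun u => -∫ t in u..b, φ' t with hφ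
  have hd : ∀ u, HasDerivAt φ (φ' u) u := by
    intro u
    have := (intervalIntegral.integral_hasDerivAt_left (hint' u b)
      (hc'.stronglyMeasurableAtFilter _ _) hc'.continuousAt).neg
    rwa [neg_neg] at this
  have hzero : ∀ u, b ≤ u → φ u = 0 := by
    intro u hu
    simp only [hφ, neg_eq_zero]
    apply intervalIntegral.integral_zero_ae
    filter_upwards with x hx
    rw [Set.uIoc_of_ge hu] at hx
    exact hbig x hx.1.le
  have hmono : Monotone φ := by
    apply monotone_of_deriv_nonneg (fun u => (hd u).differentiableAt)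
    intro u
    rw [(hd u).deriv]
    exact hge0 u
  have hnonpos : ∀ u, φ u ≤ 0 := by
    intro u
    rcases le_total b u with h1 | h1
    · rw [hzero u h1]
    · rw [← hzero b le_rfl]
      exact hmono h1
  have hlower : ∀ u, min 0 (u - b) ≤ φ u := by
    intro u
    rcases le_total b u with h1 | h1
    · rw [hzero u h1]
      exact min_le_left _ _
    · have hm : Antitone (fun u => φ u - (u - b)) := by
        have hdd : ∀ u, HasDerivAt (fun u => φ u - (u - b)) (φ' u - 1) u := fun u =>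
          (hd u).sub ((hasDerivAt_id u).sub_const b)
        apply antitone_of_deriv_nonpos (fun u => (hdd u).differentiableAt)
        intro u
        rw [(hdd u).deriv]
        linarith [hle1 u]
      have h2 := hm h1
      simp only [hzero b le_rfl, sub_self] at h2
      exact (min_le_right _ _).trans (by linarith)
  have hnear : ∀ u, u ≤ a → φ u = u - (a - φ a) := by
    intro u hu
    have h1 : (∫ x in u..a, φ' x) = a - u := by
      have h2 : (∫ x in u..a, φ' x) = ∫ x in u..a, (1 : ℝ) := by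
        apply intervalIntegral.integral_congr
        intro x hx
        rw [Set.uIcc_of_le hu] at hx
        exact hsmall x hx.2
      rw [h2]
      simp
    simp only [hφ]
    rw [← intervalIntegral.integral_add_adjacent_intervals (hint' u a) (hint' a b), h1]
    ring
  refine ⟨φ, φ', w, a - φ a, hwc, hw0, hws, hd, hd', hnonpos, hlower, hzero, hnear, ?_, ?_,
    hsmall a le_rfl, hbig b le_rfl⟩
  · linarith [hnonpos a]
  · have := hlower a
    rw [min_eq_right (by linarith)] at this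
    linarith

/-- derivative of `log |z|` -/
private theorem pot_log (s : ℂ) (hs : s ≠ 0) :
    HasFDerivAt (fun z : ℂ => Real.log ‖z‖) ((‖s‖ ^ 2)⁻¹ • innerSL ℝ s) s := by
  have h0 : ‖s‖ ^ 2 ≠ 0 := by positivity
  have h1 : HasFDerivAt (fun z : ℂ => ‖z‖ ^ 2) (2 • innerSL ℝ s) s :=
    (hasStrictFDerivAt_norm_sq s).hasFDerivAt
  have h2 := (h1.log h0).const_mul (1 / 2 : ℝ)
  have h3 : (fun z : ℂ => (1 / 2 : ℝ) * Real.log (‖z‖ ^ 2)) = fun z : ℂ => Real.log ‖z‖ := by
    funext z
    rw [Real.log_pow]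
    push_cast
    ring
  rw [h3] at h2
  have h4 : (1 / 2 : ℝ) • (‖s‖ ^ 2)⁻¹ • 2 • innerSL ℝ s = (‖s‖ ^ 2)⁻¹ • innerSL ℝ s := by
    module
  rwa [h4] at h2

private theorem pot_lap (φ φ' w : ℝ → ℝ) (h1 : ∀ u, HasDerivAt φ (φ' u) u)
    (h2 : ∀ u, HasDerivAt φ' (-w u) u) (s : ℂ) (hs : s ≠ 0) :
    Laplacian.laplacian (fun z : ℂ => φ (Real.log ‖z‖)) s =
      -(w (Real.log ‖s‖) / ‖s‖ ^ 2) := by
  have h0 : ‖s‖ ^ 2 ≠ 0 := by positivity
  have hfd : ∀ z : ℂ, z ≠ 0 → fderiv ℝ (fun z : ℂ => φ (Real.log ‖z‖)) z =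
      (φ' (Real.log ‖z‖) * (‖z‖ ^ 2)⁻¹) • innerSL ℝ z := by
    intro z hz
    have := ((h1 (Real.log ‖z‖)).hasFDerivAt.comp z (pot_log z hz)).fderiv
    rw [show (fun z : ℂ => φ (Real.log ‖z‖)) = φ ∘ fun z : ℂ => Real.log ‖z‖ from rfl, this]
    ext v
    simp
    ring
  have hev : fderiv ℝ (fun z : ℂ => φ (Real.log ‖z‖)) =ᶠ[𝓝 s]
      fun z => (φ' (Real.log ‖z‖) * (‖z‖ ^ 2)⁻¹) • innerSL ℝ z := by
    filter_upwards [isOpen_ne.mem_nhds hs] with z hz
    exact hfd z hz
  have hn : HasFDerivAt (fun z : ℂ => ‖z‖ ^ 2) (2 • innerSL ℝ s) s :=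
    (hasStrictFDerivAt_norm_sq s).hasFDerivAt
  have hA : HasFDerivAt (fun z : ℂ => φ' (Real.log ‖z‖))
      ((-w (Real.log ‖s‖)) • ((‖s‖ ^ 2)⁻¹ • innerSL ℝ s)) s :=
    (h2 (Real.log ‖s‖)).comp_hasFDerivAt s (pot_log s hs)
  have hB : HasFDerivAt (fun z : ℂ => (‖z‖ ^ 2)⁻¹) (-((‖s‖ ^ 2) ^ 2)⁻¹ • (2 • innerSL ℝ s)) s :=
    (hasDerivAt_inv h0).comp_hasFDerivAt s hn
  have hC : HasFDerivAt (fun z : ℂ => innerSL ℝ z) (innerSL ℝ (E := ℂ)) s :=
    (innerSL ℝ (E := ℂ)).hasFDerivAt
  have hD := (hA.mul hB).smul hC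
  have hfin : fderiv ℝ (fderiv ℝ (fun z : ℂ => φ (Real.log ‖z‖))) s = _ :=
    (hev.fderiv_eq).trans hD.fderiv
  rw [InnerProductSpace.laplacian_eq_iteratedFDeriv_complexPlane]
  simp only [iteratedFDeriv_two_apply]
  rw [hfin]
  have hsq : ‖s‖ ^ 2 = s.re ^ 2 + s.im ^ 2 := by
    rw [← Complex.normSq_eq_norm_sq, Complex.normSq_apply]; ring
  have h0' : s.re ^ 2 + s.im ^ 2 ≠ 0 := hsq ▸ h0
  have e1 : (innerSL ℝ (1 : ℂ)) 1 = 1 := by
    rw [innerSL_apply_apply, real_inner_self_eq_norm_sq]; simp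
  have e2 : (innerSL ℝ Complex.I) Complex.I = 1 := by
    rw [innerSL_apply_apply, real_inner_self_eq_norm_sq]; simp
  simp [e1, e2]
  simp only [hsq]
  field_simp
  ring

theorem pot (r1 r2 : ℝ) (h1 : 0 < r1) (h2 : r1 < r2) :
    ∃ (V T : ℂ → ℝ) (L : ℝ), IsPot r1 r2 V T L := by
  have hr2 : 0 < r2 := h1.trans h2
  obtain ⟨φ, φ', w, L, hwc, hw0, hws, hd, hd', hnp, hlow, hzero, hnear, hL1, hL2, ha, hb⟩ :=
    pot_one (Real.log r1) (Real.log r2) (Real.log_lt_log h1 h2)
  have hT0 : ∀ s : ℂ, w (Real.log ‖s‖) / (2 * Real.pi * ‖s‖ ^ 2) ≠ 0 → r1 ≤ ‖s‖ ∧ ‖s‖ ≤ r2 := by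
    intro s hs
    have hs0 : s ≠ 0 := by
      rintro rfl
      simp at hs
    have hsn : 0 < ‖s‖ := norm_pos_iff.2 hs0
    have hw : w (Real.log ‖s‖) ≠ 0 := fun h0 => hs (by rw [h0, zero_div])
    obtain ⟨h3, h4⟩ := hws _ hw
    exact ⟨(Real.log_le_log_iff h1 hsn).1 h3, (Real.log_le_log_iff hsn hr2).1 h4⟩
  refine ⟨fun s => φ (Real.log ‖s‖), fun s => w (Real.log ‖s‖) / (2 * Real.pi * ‖s‖ ^ 2), L,
    ⟨?_, ?_, ?_, hT0, ?_, ?_, fun s => hnp _, ?_, ?_, ?_, hL1, hL2⟩⟩
  · -- smoothness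
    have hφ' : ContDiff ℝ 1 φ' := by
      rw [contDiff_one_iff_deriv]
      refine ⟨fun u => (hd' u).differentiableAt, ?_⟩
      have : deriv φ' = fun u => -w u := funext fun u => (hd' u).deriv
      rw [this]
      exact hwc.neg
    have hφ : ContDiff ℝ 2 φ := by
      rw [show (2 : WithTop ℕ∞) = 1 + 1 from rfl, contDiff_succ_iff_deriv]
      refine ⟨fun u => (hd u).differentiableAt, by simp, ?_⟩
      have : deriv φ = φ' := funext fun u => (hd u).deriv
      rw [this]
      exact hφ'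
    apply hφ.comp_contDiffOn
    intro s hs
    have hs0 : s ≠ 0 := hs
    exact ((contDiffAt_norm ℝ hs0).log (norm_ne_zero_iff.2 hs0)).contDiffWithinAt
  · -- continuity
    rw [continuous_iff_continuousAt]
    intro s
    by_cases hs0 : s = 0
    · subst hs0
      have hev : (fun s : ℂ => w (Real.log ‖s‖) / (2 * Real.pi * ‖s‖ ^ 2)) =ᶠ[𝓝 0] fun _ => 0 := by
        have : Metric.ball (0 : ℂ) r1 ∈ 𝓝 (0 : ℂ) := Metric.ball_mem_nhds _ h1
        filter_upwards [this] with z hz
        by_contra hne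
        have := (hT0 z hne).1
        rw [mem_ball_zero_iff] at hz
        linarith
      exact hev.continuousAt
    · have hsn : ‖s‖ ≠ 0 := norm_ne_zero_iff.2 hs0
      apply ContinuousAt.div
      · exact hwc.continuousAt.comp (ContinuousAt.log continuous_norm.continuousAt hsn)
      · fun_prop
      · have := Real.pi_pos
        positivity
  · intro s
    have := Real.pi_pos
    exact div_nonneg (hw0 _) (by positivity)
  · -- mass
    have hkey := integral_fun_norm_addHaar (volume : Measure ℂ)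
      (fun y : ℝ => w (Real.log y) / (2 * Real.pi * y ^ 2))
    rw [hkey]
    have hvol : (volume : Measure ℂ).real (Metric.ball 0 1) = Real.pi := by
      rw [Measure.real, Complex.volume_ball]
      simp
    rw [hvol, Complex.finrank_real_complex]
    have hI : ∫ y in Set.Ioi (0 : ℝ), y ^ (2 - 1) • (w (Real.log y) / (2 * Real.pi * y ^ 2)) =
        (2 * Real.pi)⁻¹ := by
      have e1 : ∫ y in Set.Ioi (0 : ℝ), y ^ (2 - 1) • (w (Real.log y) / (2 * Real.pi * y ^ 2)) =
          ∫ y in Set.Icc r1 r2, y ^ (2 - 1) • (w (Real.log y) / (2 * Real.pi * y ^ 2)) := by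
        apply setIntegral_eq_of_subset_of_forall_sdiff_eq_zero measurableSet_Ioi
        · intro y hy
          exact lt_of_lt_of_le h1 hy.1
        · intro y hy
          have hy0 : 0 < y := hy.1
          have hw : w (Real.log y) = 0 := by
            by_contra hne
            obtain ⟨h3, h4⟩ := hws _ hne
            exact hy.2 ⟨(Real.log_le_log_iff h1 hy0).1 h3, (Real.log_le_log_iff hy0 hr2).1 h4⟩
          simp [hw]
      rw [e1, integral_Icc_eq_integral_Ioc, ← intervalIntegral.integral_of_le h2.le]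
      have hder : ∀ y ∈ Set.uIcc r1 r2, HasDerivAt
          (fun y => -(2 * Real.pi)⁻¹ * φ' (Real.log y))
          (y ^ (2 - 1) • (w (Real.log y) / (2 * Real.pi * y ^ 2))) y := by
        intro y hy
        rw [Set.uIcc_of_le h2.le] at hy
        have hy0 : 0 < y := lt_of_lt_of_le h1 hy.1
        have h3 := ((hd' (Real.log y)).comp y (Real.hasDerivAt_log hy0.ne')).const_mul
          (-(2 * Real.pi)⁻¹)
        have h5 : -(2 * Real.pi)⁻¹ * (-w (Real.log y) * y⁻¹) =
            y ^ (2 - 1) • (w (Real.log y) / (2 * Real.pi * y ^ 2)) := by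
          have := Real.pi_pos
          rw [smul_eq_mul, show (2 - 1 : ℕ) = 1 from rfl, pow_one]
          field_simp
        rwa [h5] at h3
      rw [intervalIntegral.integral_eq_sub_of_hasDerivAt hder]
      · rw [ha, hb]
        ring
      · apply ContinuousOn.intervalIntegrable
        intro y hy
        rw [Set.uIcc_of_le h2.le] at hy
        have hy0 : 0 < y := lt_of_lt_of_le h1 hy.1
        have hpi := Real.pi_pos
        apply ContinuousAt.continuousWithinAt
        apply ContinuousAt.fun_smul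
        · fun_prop
        · apply ContinuousAt.div
          · exact hwc.continuousAt.comp (Real.continuousAt_log hy0.ne')
          · fun_prop
          · positivity
    rw [hI]
    have := Real.pi_pos
    simp
    try field_simp
  · intro s hs
    rw [pot_lap φ φ' w hd hd' s hs]
    have := Real.pi_pos
    have hsn : ‖s‖ ≠ 0 := norm_ne_zero_iff.2 hs
    field_simp
  · intro s hs
    have hsn : 0 < ‖s‖ := norm_pos_iff.2 hs
    refine le_trans ?_ (hlow _)
    rw [← Real.log_div hsn.ne' hr2.ne', le_min_iff]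
    have h3 : 0 < ‖s‖ / r2 := div_pos hsn hr2
    constructor
    · exact Real.log_nonpos (by positivity) (min_le_left _ _)
    · exact Real.log_le_log (by positivity) (min_le_right _ _)
  · intro s hs
    exact hzero _ (Real.log_le_log hr2 hs)
  · intro s hs hs1
    exact hnear _ (Real.log_le_log (norm_pos_iff.2 hs) hs1)

end ALC
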