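import Pool.Agent.ALC.Sq
import Pool.Agent.ALC.Green
import Pool.Agent.ALC.Pot
import Pool.Agent.ALC.Dens

/-!
The value at the pole. f(x) = G(x, Y x) - V(x - b) is bounded and of class C^2 on the disc outside
the bad points and b, Delta f = 2 pi (T - rho), and f -> l + L at b (IsGreen.pole). Test with
psi_eps = V(x - b) - V_eps(x - b), where (V_eps, T_eps, L_eps) is a radial potential for
(eps/2, eps): psi_eps is constant near b, of class C^2 with compact support in the disc;
green_loc: int psi_eps 2 pi (T - rho) = int f 2 pi (T_eps - T); eps -> 0 (dominated convergence,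
rho e x (Y x) is bounded near b almost everywhere by `dens`).
-/

open Polynomial MeasureTheory Metric Filter Topology

namespace ALC

private theorem po_inv (R : ℝ) : Integrable ((ball (0 : ℂ) R).indicator fun s : ℂ => ‖s‖⁻¹) := by
  rw [integrable_indicator_iff measurableSet_ball]
  refine (integrableOn_fun_norm_addHaar (volume : Measure ℂ) (f := fun t : ℝ => t⁻¹)
    (r := R)).2 ?_
  have h : IntegrableOn (fun _ : ℝ => (1 : ℝ)) (Set.Ioo 0 R) :=
    integrableOn_const (by simp)
  refine h.congr_fun ?_ measurableSet_Ioo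
  intro y hy
  have hy0 : y ≠ 0 := hy.1.ne'
  simp only [Complex.finrank_real_complex, smul_eq_mul]
  norm_num
  field_simp

private theorem po_aesm (U : Set ℂ) (hU : MeasurableSet U) (S : Finset ℂ) (f : ℂ → ℝ)
    (hf : ContinuousOn f (U \ S)) : AEStronglyMeasurable f (volume.restrict U) := by
  have hS : MeasurableSet ((S : Set ℂ)) := S.finite_toSet.measurableSet
  have h1 := hf.aestronglyMeasurable (μ := volume) (hU.diff hS)
  have h2 : (U \ (S : Set ℂ) : Set ℂ) =ᵐ[volume] U :=
    sdiff_null_ae_eq_self (S.finite_toSet.measure_zero _)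
  rwa [Measure.restrict_congr_set h2] at h1

private theorem po_prod (U : Set ℂ) (hU : MeasurableSet U) (w h : ℂ → ℝ) (hw : Integrable w)
    (hw0 : ∀ x, x ∉ U → w x = 0) (hh : AEStronglyMeasurable h (volume.restrict U)) (C : ℝ)
    (hC : ∀ᵐ x, x ∈ U → |h x| ≤ C) :
    Integrable (fun x => w x * h x) ∧ |∫ x, w x * h x| ≤ C * ∫ x, |w x| := by
  have h1 : (fun x => w x * h x) = fun x => w x * U.indicator h x := by
    funext x
    by_cases hx : x ∈ U
    · rw [Set.indicator_of_mem hx]
    · rw [hw0 x hx, zero_mul, zero_mul]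
  have h2 : AEStronglyMeasurable (U.indicator h) volume :=
    (aestronglyMeasurable_indicator_iff hU).2 hh
  have hb : ∀ᵐ x, ‖w x * h x‖ ≤ C * |w x| := by
    filter_upwards [hC] with x hx
    by_cases hxU : x ∈ U
    · rw [norm_mul, Real.norm_eq_abs, Real.norm_eq_abs, mul_comm]
      exact mul_le_mul_of_nonneg_right (hx hxU) (abs_nonneg _)
    · rw [hw0 x hxU]
      simp
  have h3 : Integrable (fun x => C * |w x|) := hw.abs.const_mul C
  refine ⟨h3.mono' ?_ hb, ?_⟩
  · rw [h1]
    exact hw.aestronglyMeasurable.mul h2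
  · have h4 := norm_integral_le_of_norm_le h3 hb
    rw [integral_const_mul] at h4
    exact h4

private theorem po_T {r1 r2 : ℝ} {V T : ℂ → ℝ} {L : ℝ} (hP : IsPot r1 r2 V T L) (b : ℂ) :
    Integrable (fun x => T (x - b)) ∧ ∫ x, |T (x - b)| = 1 ∧ ∫ x, T (x - b) = 1 := by
  have h1 : HasCompactSupport T := by
    refine HasCompactSupport.intro (K := closedBall 0 r2) (isCompact_closedBall 0 r2) fun x hx => ?_
    by_contra h
    exact hx (mem_closedBall_zero_iff.2 (hP.supp x h).2)
  have h2 : Integrable T := hP.cont.integrable_of_hasCompactSupport h1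
  have h3 : ∫ x, T (x - b) = 1 := by
    rw [integral_sub_right_eq_self (fun x => T x) b]
    exact hP.mass
  refine ⟨h2.comp_sub_right b, ?_, h3⟩
  rw [← h3]
  congr 1
  funext x
  exact abs_of_nonneg (hP.nonneg _)

private theorem po_V_le {r1 r2 : ℝ} (h1 : 0 < r1) (h12 : r1 < r2) {V T : ℂ → ℝ} {L : ℝ}
    (hP : IsPot r1 r2 V T L) (s : ℂ) (hs : s ≠ 0) :
    |V s| ≤ (ball (0 : ℂ) r2).indicator (fun s : ℂ => r2 * ‖s‖⁻¹) s := by
  have hs0 : 0 < ‖s‖ := norm_pos_iff.2 hs
  have hr2 : 0 < r2 := h1.trans h12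
  by_cases h : ‖s‖ < r2
  · rw [Set.indicator_of_mem (mem_ball_zero_iff.2 h), abs_of_nonpos (hP.nonpos s)]
    have h2 := hP.lower s hs
    have h3 : ‖s‖ / r2 < 1 := by rwa [div_lt_one hr2]
    rw [min_eq_right h3.le] at h2
    have h4 := Real.log_le_sub_one_of_pos (show 0 < r2 / ‖s‖ by positivity)
    have h5 : Real.log (r2 / ‖s‖) = -Real.log (‖s‖ / r2) := by
      rw [← Real.log_inv, inv_div]
    rw [h5] at h4
    have h6 : r2 / ‖s‖ = r2 * ‖s‖⁻¹ := div_eq_mul_inv _ _
    linarith
  · have h2 : s ∉ ball (0 : ℂ) r2 := fun h3 => h (mem_ball_zero_iff.1 h3)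
    rw [Set.indicator_of_notMem h2, hP.zero s (not_lt.1 h), abs_zero]

private theorem po_V {r1 r2 : ℝ} (h1 : 0 < r1) (h12 : r1 < r2) {V T : ℂ → ℝ} {L : ℝ}
    (hP : IsPot r1 r2 V T L) (b : ℂ) :
    Integrable (fun x => V (x - b)) ∧
      ∫ x, |V (x - b)| ≤ r2 * ∫ x, (ball (0 : ℂ) r2).indicator (fun s : ℂ => ‖s‖⁻¹) x := by
  have hm : AEStronglyMeasurable V volume := by
    have h2 := po_aesm Set.univ MeasurableSet.univ {0} V (by
      have h3 : Set.univ \ ((({0} : Finset ℂ) : Set ℂ)) = {0}ᶜ := by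
        ext x
        simp
      rw [h3]
      exact hP.smooth.continuousOn)
    rwa [Measure.restrict_univ] at h2
  have he : (ball (0 : ℂ) r2).indicator (fun s : ℂ => r2 * ‖s‖⁻¹) =
      fun x => r2 * (ball (0 : ℂ) r2).indicator (fun s : ℂ => ‖s‖⁻¹) x := by
    funext x
    by_cases hx : x ∈ ball (0 : ℂ) r2
    · rw [Set.indicator_of_mem hx, Set.indicator_of_mem hx]
    · rw [Set.indicator_of_notMem hx, Set.indicator_of_notMem hx, mul_zero]
  have hi : Integrable (fun x => r2 * (ball (0 : ℂ) r2).indicator (fun s : ℂ => ‖s‖⁻¹) x) :=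
    (po_inv r2).const_mul r2
  have hae : ∀ᵐ x : ℂ, x ≠ 0 := by
    have := (Set.countable_singleton (0 : ℂ)).ae_notMem volume
    filter_upwards [this] with x hx
    exact hx
  have hb : ∀ᵐ x, ‖V x‖ ≤ r2 * (ball (0 : ℂ) r2).indicator (fun s : ℂ => ‖s‖⁻¹) x := by
    filter_upwards [hae] with x hx
    have h3 := po_V_le h1 h12 hP x hx
    rw [he] at h3
    exact h3
  have hV : Integrable V := hi.mono' hm hb
  refine ⟨hV.comp_sub_right b, ?_⟩
  rw [integral_sub_right_eq_self (fun x => |V x|) b, ← integral_const_mul]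
  exact integral_mono_ae hV.abs hi hb

private theorem po_lap (g : ℂ → ℝ) (b x : ℂ) :
    Laplacian.laplacian (fun x => g (x - b)) x = Laplacian.laplacian g (x - b) := by
  rw [InnerProductSpace.laplacian_eq_iteratedFDeriv_complexPlane,
    InnerProductSpace.laplacian_eq_iteratedFDeriv_complexPlane, iteratedFDeriv_comp_sub']

private theorem po_Vsub {r1 r2 : ℝ} {V T : ℂ → ℝ} {L : ℝ} (hP : IsPot r1 r2 V T L) (b x : ℂ)
    (hx : x ≠ b) : ContDiffAt ℝ 2 (fun x => V (x - b)) x := by
  have h1 : ContDiffAt ℝ 2 V (x - b) :=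
    hP.smooth.contDiffAt (isOpen_compl_singleton.mem_nhds (sub_ne_zero.2 hx))
  exact h1.comp x (contDiffAt_id.sub contDiffAt_const)

private theorem po_lapV {r1 r2 : ℝ} {V T : ℂ → ℝ} {L : ℝ} (hP : IsPot r1 r2 V T L) (b x : ℂ)
    (hx : x ≠ b) : Laplacian.laplacian (fun x => V (x - b)) x = -(2 * Real.pi * T (x - b)) := by
  rw [po_lap]
  exact hP.lap _ (sub_ne_zero.2 hx)

private theorem po_evalEval (p : ℂ[X][X]) (x y : ℂ) :
    p.evalEval x y = ∑ i ∈ Finset.range (p.natDegree + 1), (p.coeff i).eval x * y ^ i := by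
  have h : eval (C y) p = ∑ i ∈ Finset.range (p.natDegree + 1), p.coeff i * (C y) ^ i :=
    eval_eq_sum_range (C y)
  rw [evalEval, h, eval_finsetSum]
  refine Finset.sum_congr rfl fun i _ => ?_
  rw [eval_mul, eval_pow, eval_C]

private theorem po_cont (p : ℂ[X][X]) : Continuous (fun v : ℂ × ℂ => p.evalEval v.1 v.2) := by
  simp only [po_evalEval]
  refine continuous_finsetSum _ fun i _ => ?_
  exact ((p.coeff i).continuous.comp continuous_fst).mul (continuous_snd.pow i)

private theorem po_rat (φ : ℂ[X][X] × ℂ[X]) (x0 : ℂ) (Y : ℂ → ℂ) (hY : ContinuousAt Y x0)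
    (h : φ.2.eval x0 ≠ 0) : ContinuousAt (fun x => rat φ x (Y x)) x0 := by
  unfold rat
  refine ContinuousAt.div ?_ φ.2.continuous.continuousAt h
  exact (po_cont φ.1).continuousAt.comp (f := fun x => (x, Y x)) (continuousAt_id.prodMk hY)

/-- the density along a branch is measurable -/
private theorem po_rho {g : ℕ} (e : Fin g → ℂ[X][X] × ℂ[X]) (he : ∀ k, (e k).2 ≠ 0) (b : ℂ) (r : ℝ)
    (Y : ℂ → ℂ) (hY : DifferentiableOn ℂ Y (ball b r)) :
    AEStronglyMeasurable (fun x => rho e x (Y x)) (volume.restrict (ball b r)) := by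
  classical
  set D : ℂ[X] := ∏ k, (e k).2 with hDdef
  have hD : D ≠ 0 := Finset.prod_ne_zero_iff.2 fun k _ => he k
  refine po_aesm (ball b r) measurableSet_ball D.roots.toFinset _ ?_
  intro x hx
  apply ContinuousAt.continuousWithinAt
  have h1 : D.eval x ≠ 0 := by
    intro h
    exact hx.2 (Finset.mem_coe.2 (Multiset.mem_toFinset.2 ((mem_roots hD).2 h)))
  have h2 : ∀ k, (e k).2.eval x ≠ 0 := by
    intro k
    rw [hDdef, eval_prod] at h1
    exact Finset.prod_ne_zero_iff.1 h1 k (Finset.mem_univ k)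
  have h3 : ContinuousAt Y x := (hY.differentiableAt (isOpen_ball.mem_nhds hx.1)).continuousAt
  unfold rho
  refine continuousAt_const.mul ?_
  refine tendsto_finsetSum _ fun k _ => ?_
  exact ((po_rat (e k) x Y h3 (h2 k)).norm.pow 2)

theorem pole_id (F : ℂ[X][X]) (hF : F.Monic) (b y0 : ℂ) (hb : (at_ F b).Separable) (g : ℕ)
    (e : Fin g → ℂ[X][X] × ℂ[X]) (he : IsONB F g e) (G : ℂ → ℂ → ℝ) (l : ℝ)
    (hG : IsGreen F e b y0 G l) (r : ℝ) (Y : ℂ → ℂ)
    (hY : DifferentiableOn ℂ Y (ball b r)) (hYb : Y b = y0)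
    (hYF : ∀ x ∈ ball b r, (at_ F x).eval (Y x) = 0) (r1 r2 : ℝ) (h1 : 0 < r1) (h12 : r1 < r2)
    (h2 : r2 < r) (V T : ℂ → ℝ) (L : ℝ) (hP : IsPot r1 r2 V T L) :
    ∫ x, (G x (Y x) - V (x - b)) * T (x - b) =
      l + L - (∫ x, V (x - b) * T (x - b)) + ∫ x in ball b r, V (x - b) * rho e x (Y x) := by
  classical
  have hr2 : 0 < r2 := h1.trans h12
  have hr : 0 < r := hr2.trans h2
  have hbr : b ∈ ball b r := mem_ball_self hr
  -- the bad points
  set Sb : Finset ℂ := (bad_finite F hF b hb).toFinset with hSb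
  have hSbm : ∀ x, x ∉ Sb → (at_ F x).Separable := by
    intro x hx
    by_contra hn
    exact hx ((Set.Finite.mem_toFinset _).2 hn)
  have hbSb : b ∉ Sb := by
    rw [hSb, Set.Finite.mem_toFinset]
    exact fun h => h hb
  set D : ℂ[X] := ∏ k, (e k).2 with hDdef
  have hD : D ≠ 0 := Finset.prod_ne_zero_iff.2 fun k _ => (he.1 k).1
  set S : Finset ℂ := insert b (Sb ∪ D.roots.toFinset) with hS
  have hDS : ∀ x, x ∉ S → ∀ k, (e k).2.eval x ≠ 0 := by
    intro x hx k hk
    apply hx
    rw [hS]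
    refine Finset.mem_insert_of_mem (Finset.mem_union_right _ ?_)
    rw [Multiset.mem_toFinset, mem_roots hD, IsRoot.def, hDdef, eval_prod]
    exact Finset.prod_eq_zero (Finset.mem_univ k) hk
  set f : ℂ → ℝ := fun x => G x (Y x) - V (x - b) with hf
  set ρ : ℂ → ℝ := fun x => rho e x (Y x) with hρ
  set h : ℂ → ℝ := fun x => T (x - b) - ρ x with hh
  have hopen : IsOpen (ball b r \ (S : Set ℂ)) := isOpen_ball.sdiff S.finite_toSet.isClosed
  have hnotb : ∀ x ∈ ball b r \ (S : Set ℂ), x ≠ b := by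
    intro x hx hxb
    exact hx.2 (by rw [hxb, hS]; exact Finset.mem_coe.2 (Finset.mem_insert_self _ _))
  -- the branch
  have hbr0 : IsBranch F (ball b r \ (S : Set ℂ)) Y := by
    refine ⟨hopen, hY.mono Set.sdiff_subset, fun x hx => ⟨?_, hYF x hx.1⟩⟩
    exact hSbm x fun hxS => hx.2 (Finset.mem_coe.2 (Finset.mem_insert_of_mem
      (Finset.mem_union_left _ hxS)))
  have hbr1 : IsBranch F (ball b r \ (Sb : Set ℂ)) Y := by
    refine ⟨isOpen_ball.sdiff Sb.finite_toSet.isClosed, hY.mono Set.sdiff_subset,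
      fun x hx => ⟨?_, hYF x hx.1⟩⟩
    exact hSbm x fun hxS => hx.2 (Finset.mem_coe.2 hxS)
  have hne : ∀ x ∈ ball b r \ (S : Set ℂ), (x, Y x) ≠ (b, y0) := by
    intro x hx hxe
    exact hnotb x hx (congrArg Prod.fst hxe)
  obtain ⟨hlap1, hlap2⟩ := hG.lap _ Y hbr0 hne
  -- the limit of f at b
  have hlim : ∀ η : ℝ, 0 < η → ∃ δ : ℝ, 0 < δ ∧ ∀ x, x ≠ b → ‖x - b‖ < δ → |f x - (l + L)| ≤ η := by
    intro η hη
    have hp := (hG.pole _ Y hbr1 ⟨hbr, fun hbS => hbSb (Finset.mem_coe.1 hbS)⟩ hYb).continuousAt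
    have hp2 := Metric.continuousAt_iff.1 hp η hη
    obtain ⟨δ, hδ, hδ2⟩ := hp2
    refine ⟨min δ r1, lt_min hδ h1, fun x hx hxd => ?_⟩
    have h3 := hδ2 (x := x) (by
      rw [dist_eq_norm]
      exact lt_of_lt_of_le hxd (min_le_left _ _))
    simp only [if_neg hx, if_true] at h3
    rw [Real.dist_eq] at h3
    have h4 := hP.near (x - b) (sub_ne_zero.2 hx) (hxd.le.trans (min_le_right _ _))
    have h5 : f x - (l + L) = G x (Y x) - Real.log ‖x - b‖ - l := by
      simp only [hf]
      rw [h4]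
      ring
    rw [h5]
    exact h3.le
  -- f is bounded
  obtain ⟨M0, hM0⟩ := hG.bdd
  obtain ⟨M, hM⟩ : ∃ M : ℝ, ∀ x ∈ ball b r \ (S : Set ℂ), |f x| ≤ M := by
    obtain ⟨δ, hδ, hδ2⟩ := hlim 1 one_pos
    refine ⟨max (|l + L| + 1) (M0 + |Real.log (min 1 δ)| + |Real.log (min 1 (δ / r2))|),
      fun x hx => ?_⟩
    by_cases hxd : ‖x - b‖ < δ
    · refine le_trans ?_ (le_max_left _ _)
      have h3 := hδ2 x (hnotb x hx) hxd
      calc |f x| = |(l + L) + (f x - (l + L))| := by congr 1; ring
        _ ≤ |l + L| + |f x - (l + L)| := abs_add_le _ _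
        _ ≤ |l + L| + 1 := by linarith
    · refine le_trans ?_ (le_max_right _ _)
      push Not at hxd
      have h3 := hM0 x (Y x) (hbr0.2.2 x hx).1 (hbr0.2.2 x hx).2 (hne x hx)
      have hxb := sub_ne_zero.2 (hnotb x hx)
      set A := Real.log (min 1 (‖x - b‖ + ‖Y x - y0‖)) with hA
      have hmin : 0 < min 1 δ := lt_min one_pos hδ
      have h4 : Real.log (min 1 δ) ≤ A := by
        apply Real.log_le_log hmin
        apply min_le_min le_rfl
        linarith [norm_nonneg (Y x - y0)]
      have h5 : A ≤ 0 := by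
        apply Real.log_nonpos
        · apply le_min zero_le_one
          positivity
        · exact min_le_left _ _
      have h6 : |A| ≤ |Real.log (min 1 δ)| := by
        rw [abs_of_nonpos h5, abs_of_nonpos (h4.trans h5)]
        linarith
      have h7 : Real.log (min 1 (δ / r2)) ≤ V (x - b) := by
        refine le_trans ?_ (hP.lower (x - b) hxb)
        apply Real.log_le_log (lt_min one_pos (by positivity))
        apply min_le_min le_rfl
        exact div_le_div_of_nonneg_right hxd hr2.le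
      have h8 := hP.nonpos (x - b)
      have h9 : |V (x - b)| ≤ |Real.log (min 1 (δ / r2))| := by
        rw [abs_of_nonpos h8, abs_of_nonpos (h7.trans h8)]
        linarith
      calc |f x| = |(G x (Y x) - A) + A - V (x - b)| := by
            simp only [hf]
            congr 1
            ring
        _ ≤ |(G x (Y x) - A) + A| + |V (x - b)| := abs_sub _ _
        _ ≤ |G x (Y x) - A| + |A| + |V (x - b)| := by
            linarith [abs_add_le (G x (Y x) - A) A]
        _ ≤ _ := by linarith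
  -- f is smooth
  have hfC : ContDiffOn ℝ 2 f (ball b r \ (S : Set ℂ)) := by
    intro x hx
    exact ((hlap1 x hx).sub (po_Vsub hP b x (hnotb x hx)).contDiffWithinAt)
  have hflap : ∀ x ∈ ball b r \ (S : Set ℂ),
      Laplacian.laplacian f x = 2 * Real.pi * h x := by
    intro x hx
    have h3 : ContDiffAt ℝ 2 (fun x => G x (Y x)) x := hlap1.contDiffAt (hopen.mem_nhds hx)
    have h4 := h3.laplacian_sub (po_Vsub hP b x (hnotb x hx))
    have h5 : (fun x => G x (Y x)) - (fun x => V (x - b)) = f := rfl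
    rw [h5, hlap2 x hx (hDS x fun h6 => hx.2 (Finset.mem_coe.2 h6)),
      po_lapV hP b x (hnotb x hx)] at h4
    rw [h4]
    simp only [hh, hρ]
    ring
  -- null sets
  have haeS : ∀ᵐ x : ℂ, x ∉ S := by
    have h3 : (S : Set ℂ).Countable := S.countable_toSet
    exact h3.ae_notMem volume
  have haeb : ∀ᵐ x : ℂ, x ≠ b := by
    filter_upwards [haeS] with x hx hxb
    exact hx (by rw [hxb, hS]; exact Finset.mem_insert_self _ _)
  -- the disc
  set U : Set ℂ := closedBall b r2 with hU
  have hUb : U ⊆ ball b r := closedBall_subset_ball h2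
  have hUm : MeasurableSet U := measurableSet_closedBall
  have hρm : AEStronglyMeasurable ρ (volume.restrict U) :=
    (po_rho e (fun k => (he.1 k).1) b r Y hY).mono_measure (Measure.restrict_mono_set _ hUb)
  have hfm : AEStronglyMeasurable f (volume.restrict U) :=
    (po_aesm (ball b r) measurableSet_ball S f hfC.continuousOn).mono_measure
      (Measure.restrict_mono_set _ hUb)
  have hTm : AEStronglyMeasurable (fun x => T (x - b)) (volume.restrict U) :=
    (hP.cont.comp (continuous_id.sub continuous_const)).aestronglyMeasurable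
  obtain ⟨S1, hS1⟩ := dens F hF b hb g e he r Y hY hYF
  have haeS1 : ∀ᵐ x : ℂ, x ∉ S1 := by
    have h3 : (S1 : Set ℂ).Countable := S1.countable_toSet
    exact h3.ae_notMem volume
  have hρ0 : ∀ x, 0 ≤ ρ x := by
    intro x
    simp only [hρ, rho]
    positivity
  obtain ⟨Cρ, hCρ⟩ : ∃ Cρ : ℝ, ∀ᵐ x, x ∈ U → |ρ x| ≤ Cρ := by
    refine ⟨1 / g * (r ^ 2 / (Real.pi * (r ^ 2 - r2 ^ 2) ^ 2)), ?_⟩
    filter_upwards [haeS1] with x hx hxU
    rw [abs_of_nonneg (hρ0 x)]
    refine (hS1 x (hUb hxU) hx).trans ?_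
    have h3 : ‖x - b‖ ≤ r2 := by
      rw [hU, mem_closedBall, dist_eq_norm] at hxU
      exact hxU
    have h4 : ‖x - b‖ ^ 2 ≤ r2 ^ 2 := pow_le_pow_left₀ (norm_nonneg _) h3 2
    have h5 : r2 ^ 2 < r ^ 2 := pow_lt_pow_left₀ h2 hr2.le (by norm_num)
    have h6 : (r ^ 2 - r2 ^ 2) ^ 2 ≤ (r ^ 2 - ‖x - b‖ ^ 2) ^ 2 :=
      pow_le_pow_left₀ (by linarith) (by linarith) 2
    have h7 : 0 < (r ^ 2 - r2 ^ 2) ^ 2 := pow_pos (by linarith) 2
    apply mul_le_mul_of_nonneg_left _ (by positivity)
    apply div_le_div_of_nonneg_left (by positivity) (mul_pos Real.pi_pos h7)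
    exact mul_le_mul_of_nonneg_left h6 Real.pi_pos.le
  obtain ⟨CT, hCT⟩ : ∃ CT : ℝ, ∀ x, |T (x - b)| ≤ CT := by
    have h3 : HasCompactSupport T := by
      refine HasCompactSupport.intro (K := closedBall 0 r2) (isCompact_closedBall 0 r2)
        fun x hx => ?_
      by_contra h
      exact hx (mem_closedBall_zero_iff.2 (hP.supp x h).2)
    obtain ⟨C, hC⟩ := h3.exists_bound_of_continuous hP.cont
    exact ⟨C, fun x => hC _⟩
  have hhm : AEStronglyMeasurable h (volume.restrict U) := hTm.sub hρm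
  have hCh : ∀ᵐ x, x ∈ U → |h x| ≤ CT + Cρ := by
    filter_upwards [hCρ] with x hx hxU
    simp only [hh]
    exact (abs_sub _ _).trans (add_le_add (hCT x) (hx hxU))
  have hMf : ∀ᵐ x, x ∈ U → |f x| ≤ M := by
    filter_upwards [haeS] with x hx hxU
    exact hM x ⟨hUb hxU, fun h3 => hx (Finset.mem_coe.1 h3)⟩
  have hV0 : ∀ x, x ∉ U → V (x - b) = 0 := by
    intro x hx
    apply hP.zero
    rw [hU, mem_closedBall, dist_eq_norm, not_le] at hx
    exact hx.le
  have hT0 : ∀ x, x ∉ U → T (x - b) = 0 := by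
    intro x hx
    by_contra h3
    apply hx
    rw [hU, mem_closedBall, dist_eq_norm]
    exact (hP.supp _ h3).2
  obtain ⟨hTi, hTa, hT1⟩ := po_T hP b
  obtain ⟨hVi, -⟩ := po_V h1 h12 hP b
  have hVT := po_prod U hUm (fun x => V (x - b)) (fun x => T (x - b)) hVi hV0 hTm CT
    (Eventually.of_forall fun x _ => hCT x)
  have hVρ := po_prod U hUm (fun x => V (x - b)) ρ hVi hV0 hρm Cρ hCρ
  have hVh := po_prod U hUm (fun x => V (x - b)) h hVi hV0 hhm (CT + Cρ) hCh
  have hTf := po_prod U hUm (fun x => T (x - b)) f hTi hT0 hfm M hMf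
  set K0 : ℝ := ∫ x, (ball (0 : ℂ) 1).indicator (fun s : ℂ => ‖s‖⁻¹) x with hK0
  have hK00 : 0 ≤ K0 := integral_nonneg fun x => Set.indicator_nonneg (fun s _ => by positivity) x
  -- the estimate
  have key : ∀ η : ℝ, 0 < η → ∀ δ : ℝ, 0 < δ → (∀ x, x ≠ b → ‖x - b‖ < δ → |f x - (l + L)| ≤ η) →
      ∀ ε : ℝ, 0 < ε → ε ≤ 1 → ε ≤ r2 → ε < δ →
      |(∫ x, (G x (Y x) - V (x - b)) * T (x - b)) -
        (l + L - (∫ x, V (x - b) * T (x - b)) + ∫ x in ball b r, V (x - b) * rho e x (Y x))| ≤
        η + (CT + Cρ) * (ε * K0) := by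
    intro η hη δ hδ hfδ ε hε hε1 hεr hεδ
    obtain ⟨Vε, Tε, Lε, hPε⟩ := pot (ε / 2) ε (by linarith) (by linarith)
    obtain ⟨hTεi, hTεa, hTε1⟩ := po_T hPε b
    obtain ⟨hVεi, hVεa⟩ := po_V (by linarith) (by linarith) hPε b
    have hVε0 : ∀ x, x ∉ U → Vε (x - b) = 0 := by
      intro x hx
      apply hPε.zero
      rw [hU, mem_closedBall, dist_eq_norm, not_le] at hx
      linarith
    have hTε0 : ∀ x, x ∉ U → Tε (x - b) = 0 := by
      intro x hx
      by_contra h3
      apply hx
      rw [hU, mem_closedBall, dist_eq_norm]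
      exact ((hPε.supp _ h3).2).trans hεr
    have hVεh := po_prod U hUm (fun x => Vε (x - b)) h hVεi hVε0 hhm (CT + Cρ) hCh
    have hTεf := po_prod U hUm (fun x => Tε (x - b)) f hTεi hTε0 hfm M hMf
    -- the test function
    set ψ : ℂ → ℝ := fun x => if x = b then Lε - L else V (x - b) - Vε (x - b) with hψ
    have hψn : ∀ x, x ≠ b → ψ =ᶠ[𝓝 x] fun x => V (x - b) - Vε (x - b) := by
      intro x hx
      filter_upwards [isOpen_compl_singleton.mem_nhds (show x ∈ ({b}ᶜ : Set ℂ) from hx)] with z hz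
      simp only [hψ]
      rw [if_neg (show ¬ z = b from hz)]
    have hψb : ψ =ᶠ[𝓝 b] fun _ => Lε - L := by
      filter_upwards [ball_mem_nhds b (show 0 < min r1 (ε / 2) from lt_min h1 (by linarith))]
        with z hz
      simp only [hψ]
      split_ifs with hzb
      · rfl
      · rw [mem_ball, dist_eq_norm] at hz
        rw [hP.near _ (sub_ne_zero.2 hzb) (hz.le.trans (min_le_left _ _)),
          hPε.near _ (sub_ne_zero.2 hzb) (hz.le.trans (min_le_right _ _))]
        ring
    have hψC : ContDiff ℝ 2 ψ := by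
      rw [contDiff_iff_contDiffAt]
      intro x
      by_cases hx : x = b
      · rw [hx]
        exact contDiffAt_const.congr_of_eventuallyEq hψb
      · exact ((po_Vsub hP b x hx).sub (po_Vsub hPε b x hx)).congr_of_eventuallyEq (hψn x hx)
    have hψ0 : ∀ x, x ∉ U → ψ x = 0 := by
      intro x hx
      have hxb : x ≠ b := by
        rintro rfl
        exact hx (mem_closedBall_self hr2.le)
      simp only [hψ]
      rw [if_neg hxb, hV0 x hx, hVε0 x hx, sub_zero]
    have hψc : HasCompactSupport ψ :=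
      HasCompactSupport.intro (isCompact_closedBall b r2) hψ0
    have hψs : tsupport ψ ⊆ ball b r := by
      refine (closure_minimal ?_ isClosed_closedBall).trans hUb
      intro x hx
      by_contra h3
      exact hx (hψ0 x h3)
    have hψlap : ∀ x, x ≠ b → Laplacian.laplacian ψ x = 2 * Real.pi * (Tε (x - b) - T (x - b)) := by
      intro x hx
      have h3 := (po_Vsub hP b x hx).laplacian_sub (po_Vsub hPε b x hx)
      rw [po_lapV hP b x hx, po_lapV hPε b x hx] at h3
      rw [(InnerProductSpace.laplacian_congr_nhds (hψn x hx)).eq_of_nhds]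
      have h4 : (fun x => V (x - b)) - (fun x => Vε (x - b)) =
        fun x => V (x - b) - Vε (x - b) := rfl
      rw [h4] at h3
      rw [h3]
      ring
    have hψh : (fun x => ψ x * (2 * Real.pi * h x)) =ᵐ[volume]
        fun x => 2 * Real.pi * (V (x - b) * h x - Vε (x - b) * h x) := by
      filter_upwards [haeb] with x hx
      simp only [hψ]
      rw [if_neg hx]
      ring
    have hfψ : (fun x => f x * Laplacian.laplacian ψ x) =ᵐ[volume]
        fun x => 2 * Real.pi * (Tε (x - b) * f x - T (x - b) * f x) := by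
      filter_upwards [haeb] with x hx
      rw [hψlap x hx]
      ring
    have hg := green_loc S (ball b r) isOpen_ball f (fun x => 2 * Real.pi * h x) ψ hfC M hM hflap
      hψC hψc hψs (((hVh.1.sub hVεh.1).const_mul (2 * Real.pi)).congr hψh.symm)
    rw [integral_congr_ae hψh, integral_congr_ae hfψ, integral_const_mul, integral_const_mul,
      integral_sub hVh.1 hVεh.1, integral_sub hTεf.1 hTf.1] at hg
    have hg2 : (∫ x, V (x - b) * h x) - ∫ x, Vε (x - b) * h x =
        (∫ x, Tε (x - b) * f x) - ∫ x, T (x - b) * f x :=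
      mul_left_cancel₀ (mul_ne_zero two_ne_zero Real.pi_ne_zero) hg
    have hsplit : ∫ x, V (x - b) * h x = (∫ x, V (x - b) * T (x - b)) -
        ∫ x, V (x - b) * ρ x := by
      rw [← integral_sub hVT.1 hVρ.1]
      congr 1
      funext x
      simp only [hh]
      ring
    have hball : ∫ x in ball b r, V (x - b) * rho e x (Y x) = ∫ x, V (x - b) * ρ x := by
      apply setIntegral_eq_integral_of_forall_compl_eq_zero
      intro x hx
      rw [hV0 x (fun h3 => hx (hUb h3)), zero_mul]
    have hcomm : ∫ x, (G x (Y x) - V (x - b)) * T (x - b) = ∫ x, T (x - b) * f x := by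
      congr 1
      funext x
      simp only [hf]
      ring
    -- the mean over the small circles
    have hmean : |(∫ x, Tε (x - b) * f x) - (l + L)| ≤ η := by
      have hUε : MeasurableSet (closedBall b ε) := measurableSet_closedBall
      have h3 := po_prod (closedBall b ε) hUε (fun x => Tε (x - b)) (fun x => f x - (l + L)) hTεi
        (by
          intro x hx
          by_contra h4
          apply hx
          rw [mem_closedBall, dist_eq_norm]
          exact (hPε.supp _ h4).2)
        ((hfm.mono_measure (Measure.restrict_mono_set _ (closedBall_subset_closedBall hεr))).sub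
          aestronglyMeasurable_const) η
        (by
          filter_upwards [haeb] with x hx hxε
          apply hfδ x hx
          rw [mem_closedBall, dist_eq_norm] at hxε
          linarith)
      have h4 : ∫ x, Tε (x - b) * (f x - (l + L)) = (∫ x, Tε (x - b) * f x) - (l + L) := by
        have h5 : (fun x => Tε (x - b) * (f x - (l + L))) =
            fun x => Tε (x - b) * f x - Tε (x - b) * (l + L) := by
          funext x
          ring
        rw [h5, integral_sub hTεf.1 (hTεi.mul_const _), integral_mul_const, hTε1, one_mul]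
      rw [← h4]
      have h5 := h3.2
      rw [hTεa, mul_one] at h5
      exact h5
    have hsmall : |∫ x, Vε (x - b) * h x| ≤ (CT + Cρ) * (ε * K0) := by
      have hC0 : 0 ≤ CT + Cρ := by
        have h3 : 0 ≤ CT := (abs_nonneg _).trans (hCT b)
        have h4 : 0 ≤ Cρ := by
          have h5 : ∃ᶠ x in ae (volume : Measure ℂ), x ∈ U := by
            intro h6
            have h7 : volume U = 0 := measure_eq_zero_iff_ae_notMem.2 h6
            have h8 : 0 < volume U := measure_closedBall_pos volume b hr2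
            exact h8.ne' h7
          obtain ⟨x, hx1, hx2⟩ := (h5.and_eventually hCρ).exists
          exact (abs_nonneg _).trans (hx2 hx1)
        linarith
      refine hVεh.2.trans (mul_le_mul_of_nonneg_left (hVεa.trans ?_) hC0)
      apply mul_le_mul_of_nonneg_left _ hε.le
      apply integral_mono (po_inv ε) (po_inv 1)
      intro x
      apply Set.indicator_le_indicator_of_subset (ball_subset_ball hε1)
      intro s
      positivity
    rw [hcomm, hball]
    have h3 : (∫ x, T (x - b) * f x) - (l + L - (∫ x, V (x - b) * T (x - b)) +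
        ∫ x, V (x - b) * ρ x) = ((∫ x, Tε (x - b) * f x) - (l + L)) + ∫ x, Vε (x - b) * h x := by
      rw [hsplit] at hg2
      linarith
    rw [h3]
    exact (abs_add_le _ _).trans (add_le_add hmean hsmall)
  -- the conclusion
  apply eq_of_abs_sub_le_all
  intro η hη
  obtain ⟨δ, hδ, hδ2⟩ := hlim (η / 2) (by linarith)
  set Q : ℝ := |CT + Cρ| * K0 + 1 with hQ
  have hQ0 : 0 < Q := by positivity
  set ε : ℝ := min (min 1 r2) (min (δ / 2) (η / 2 / Q)) with hε
  have hε0 : 0 < ε := by
    apply lt_min (lt_min one_pos hr2) (lt_min (by linarith) (by positivity))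
  have h3 := key (η / 2) (by linarith) δ hδ hδ2 ε hε0
    ((min_le_left _ _).trans (min_le_left _ _)) ((min_le_left _ _).trans (min_le_right _ _))
    (lt_of_le_of_lt ((min_le_right _ _).trans (min_le_left _ _)) (by linarith))
  refine h3.trans ?_
  have h4 : ε ≤ η / 2 / Q := (min_le_right _ _).trans (min_le_right _ _)
  have h5 : ε * Q ≤ η / 2 := by
    rwa [le_div_iff₀ hQ0] at h4
  have h6 : (CT + Cρ) * (ε * K0) ≤ ε * Q := by
    have h7 : (CT + Cρ) * (ε * K0) ≤ |CT + Cρ| * (ε * K0) :=
      mul_le_mul_of_nonneg_right (le_abs_self _) (by positivity)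
    rw [hQ]
    nlinarith
  linarith

end ALC
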