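import Mathlib

/-!
int_(|s| < a) log(a/|s|) r^2 / (pi (r^2 - |s|^2)^2) = - (1/2) log(1 - a^2/r^2), 0 < a < r
(polar coordinates, t = |s|^2/r^2; int_0^c log(c/t) / (1-t)^2 dt = - log(1-c)).
-/

open MeasureTheory Metric

namespace ALC

/-- the primitive -/
noncomputable def rIntH (a r y : ℝ) : ℝ :=
  (Real.log a * y - y * Real.log y) * (y / (2 * r ^ 2 * (r ^ 2 - y ^ 2))) -
    (1 / (4 * r ^ 2)) * Real.log (r ^ 2 - y ^ 2)

theorem rInt_pos (a r y : ℝ) (ha : 0 < a) (har : a < r) (hy0 : 0 ≤ y) (hy : y ≤ a) :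
    0 < r ^ 2 - y ^ 2 := by
  have : y < r := lt_of_le_of_lt hy har
  nlinarith

theorem rInt_deriv (a r y : ℝ) (ha : 0 < a) (har : a < r) (hy0 : 0 < y) (hy : y < a) :
    HasDerivAt (rIntH a r) ((Real.log a - Real.log y) * (y / (r ^ 2 - y ^ 2) ^ 2)) y := by
  have hp := rInt_pos a r y ha har hy0.le hy.le
  have hr : 0 < r := ha.trans har
  have h1 : HasDerivAt (fun y : ℝ => Real.log a * y - y * Real.log y)
      (Real.log a * 1 - (1 * Real.log y + y * y⁻¹)) y :=
    ((hasDerivAt_id y).const_mul _).sub ((hasDerivAt_id y).mul (Real.hasDerivAt_log hy0.ne'))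
  have h2 : HasDerivAt (fun y : ℝ => 2 * r ^ 2 * (r ^ 2 - y ^ 2)) (2 * r ^ 2 * (-(2 * y))) y := by
    have h := (((hasDerivAt_pow 2 y).const_sub (r ^ 2))).const_mul (2 * r ^ 2)
    have e : (2 * r ^ 2 * (-(2 * y)) : ℝ) = 2 * r ^ 2 * -(((2 : ℕ) : ℝ) * y ^ (2 - 1)) := by
      norm_num
    rw [e]
    exact h
  have h3 : HasDerivAt (fun y : ℝ => y / (2 * r ^ 2 * (r ^ 2 - y ^ 2)))
      ((1 * (2 * r ^ 2 * (r ^ 2 - y ^ 2)) - y * (2 * r ^ 2 * (-(2 * y)))) /
        (2 * r ^ 2 * (r ^ 2 - y ^ 2)) ^ 2) y :=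
    (hasDerivAt_id y).div h2 (by positivity)
  have h4 : HasDerivAt (fun y : ℝ => Real.log (r ^ 2 - y ^ 2)) (-(2 * y) / (r ^ 2 - y ^ 2)) y := by
    have h := (((hasDerivAt_pow 2 y).const_sub (r ^ 2))).log hp.ne'
    have e : (-(2 * y) / (r ^ 2 - y ^ 2) : ℝ) =
        -(((2 : ℕ) : ℝ) * y ^ (2 - 1)) / (r ^ 2 - y ^ 2) := by
      norm_num
    rw [e]
    exact h
  have h5 := (h1.mul h3).sub (h4.const_mul (1 / (4 * r ^ 2)))
  have e : (Real.log a - Real.log y) * (y / (r ^ 2 - y ^ 2) ^ 2) =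
      (Real.log a * 1 - (1 * Real.log y + y * y⁻¹)) * (y / (2 * r ^ 2 * (r ^ 2 - y ^ 2))) +
      (Real.log a * y - y * Real.log y) *
        ((1 * (2 * r ^ 2 * (r ^ 2 - y ^ 2)) - y * (2 * r ^ 2 * (-(2 * y)))) /
        (2 * r ^ 2 * (r ^ 2 - y ^ 2)) ^ 2) -
      1 / (4 * r ^ 2) * (-(2 * y) / (r ^ 2 - y ^ 2)) := by
    have hp' := hp.ne'
    field_simp
    ring
  rw [e]
  exact h5

theorem rInt_cont (a r : ℝ) (ha : 0 < a) (har : a < r) :
    ContinuousOn (rIntH a r) (Set.Icc 0 a) := by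
  have hr : 0 < r := ha.trans har
  unfold rIntH
  refine ContinuousOn.sub (ContinuousOn.mul ?_ (ContinuousOn.div ?_ ?_ ?_))
    (ContinuousOn.mul continuousOn_const (ContinuousOn.log ?_ ?_))
  · exact ((continuous_const.mul continuous_id).sub Real.continuous_mul_log).continuousOn
  · exact continuousOn_id
  · fun_prop
  · intro x hx
    have := rInt_pos a r x ha har hx.1 hx.2
    positivity
  · fun_prop
  · intro x hx
    exact (rInt_pos a r x ha har hx.1 hx.2).ne'

theorem rInt_nonneg (a r y : ℝ) (hy0 : 0 < y) (hy : y < a) :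
    0 ≤ (Real.log a - Real.log y) * (y / (r ^ 2 - y ^ 2) ^ 2) := by
  have h1 : Real.log y ≤ Real.log a := Real.log_le_log hy0 hy.le
  have h2 : 0 ≤ Real.log a - Real.log y := by linarith
  positivity

theorem rInt_integrable (a r : ℝ) (ha : 0 < a) (har : a < r) :
    IntegrableOn (fun y : ℝ => (Real.log a - Real.log y) * (y / (r ^ 2 - y ^ 2) ^ 2))
      (Set.Ioc 0 a) :=
  intervalIntegral.integrableOn_deriv_of_nonneg (rInt_cont a r ha har)
    (fun y hy => rInt_deriv a r y ha har hy.1 hy.2)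
    (fun y hy => rInt_nonneg a r y hy.1 hy.2)

theorem rInt_eq (a r : ℝ) (ha : 0 < a) (har : a < r) :
    ∫ y in Set.Ioc 0 a, (Real.log a - Real.log y) * (y / (r ^ 2 - y ^ 2) ^ 2) =
      -(1 / (4 * r ^ 2)) * Real.log (1 - a ^ 2 / r ^ 2) := by
  have hr : 0 < r := ha.trans har
  rw [← intervalIntegral.integral_of_le ha.le,
    intervalIntegral.integral_eq_sub_of_hasDerivAt_of_le ha.le (rInt_cont a r ha har)
      (fun y hy => rInt_deriv a r y ha har hy.1 hy.2)
      ((intervalIntegrable_iff_integrableOn_Ioc_of_le ha.le).mpr (rInt_integrable a r ha har))]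
  have hp := rInt_pos a r a ha har ha.le le_rfl
  have h1 : 1 - a ^ 2 / r ^ 2 = (r ^ 2 - a ^ 2) / r ^ 2 := by field_simp
  rw [h1, Real.log_div hp.ne' (by positivity)]
  unfold rIntH
  simp
  ring

theorem rInt_key (a r y : ℝ) (ha : 0 < a) (har : a < r) (hy0 : 0 < y) (hy : y ≤ a) :
    y ^ (Module.finrank ℝ ℂ - 1) • (-Real.log (min 1 (y / a)) *
      (r ^ 2 / (Real.pi * (r ^ 2 - y ^ 2) ^ 2))) =
    (r ^ 2 / Real.pi) * ((Real.log a - Real.log y) * (y / (r ^ 2 - y ^ 2) ^ 2)) := by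
  have hp := rInt_pos a r y ha har hy0.le hy
  have h1 : min 1 (y / a) = y / a := min_eq_right ((div_le_one ha).mpr hy)
  rw [Complex.finrank_real_complex, h1, Real.log_div hy0.ne' ha.ne']
  simp only [smul_eq_mul]
  have := Real.pi_pos
  field_simp
  ring

theorem rInt_zero (a r y : ℝ) (ha : 0 < a) (hy : a < y) :
    y ^ (Module.finrank ℝ ℂ - 1) • (-Real.log (min 1 (y / a)) *
      (r ^ 2 / (Real.pi * (r ^ 2 - y ^ 2) ^ 2))) = 0 := by
  have h1 : min 1 (y / a) = 1 := min_eq_left ((one_le_div ha).mpr hy.le)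
  rw [h1, Real.log_one]
  simp

theorem r_int (a r : ℝ) (ha : 0 < a) (har : a < r) :
    IntegrableOn (fun s : ℂ => -Real.log (min 1 (‖s‖ / a)) *
      (r ^ 2 / (Real.pi * (r ^ 2 - ‖s‖ ^ 2) ^ 2))) (ball 0 r) ∧
    ∫ s in ball (0 : ℂ) r, -Real.log (min 1 (‖s‖ / a)) *
      (r ^ 2 / (Real.pi * (r ^ 2 - ‖s‖ ^ 2) ^ 2)) = -(1 / 2) * Real.log (1 - a ^ 2 / r ^ 2) := by
  have hr : 0 < r := ha.trans har
  let g : ℝ → ℝ := fun t => -Real.log (min 1 (t / a)) *
      (r ^ 2 / (Real.pi * (r ^ 2 - t ^ 2) ^ 2))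
  have hI : IntegrableOn (fun y => y ^ (Module.finrank ℝ ℂ - 1) • g y) (Set.Ioc 0 a) := by
    refine (IntegrableOn.congr_fun (Integrable.const_mul (rInt_integrable a r ha har)
      (r ^ 2 / Real.pi)) ?_ measurableSet_Ioc)
    intro y hy
    exact (rInt_key a r y ha har hy.1 hy.2).symm
  constructor
  · refine (integrableOn_fun_norm_addHaar volume (f := g) (r := r) (E := ℂ)).mpr ?_
    refine hI.of_forall_sdiff_eq_zero measurableSet_Ioo ?_
    intro y hy
    have hy2 : a < y := by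
      by_contra h
      exact hy.2 ⟨hy.1.1, not_lt.mp h⟩
    exact rInt_zero a r y ha hy2
  · have h1 : ∫ s in ball (0 : ℂ) r, g ‖s‖ = ∫ s : ℂ, (Set.Iio r).indicator g ‖s‖ := by
      rw [← integral_indicator measurableSet_ball]
      congr 1
      funext s
      simp [Set.indicator]
    have h2 : ∫ s : ℂ, (Set.Iio r).indicator g ‖s‖ =
        2 • Real.pi • ∫ y in Set.Ioi (0 : ℝ), y ^ (Module.finrank ℝ ℂ - 1) •
          (Set.Iio r).indicator g y := by
      rw [integral_fun_norm_addHaar volume ((Set.Iio r).indicator g)]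
      rw [Complex.finrank_real_complex]
      congr 2
      rw [Measure.real, Complex.volume_ball]
      simp
    have h3 : ∫ y in Set.Ioi (0 : ℝ), y ^ (Module.finrank ℝ ℂ - 1) • (Set.Iio r).indicator g y =
        ∫ y in Set.Ioc (0 : ℝ) a, y ^ (Module.finrank ℝ ℂ - 1) • (Set.Iio r).indicator g y := by
      refine setIntegral_eq_of_subset_of_forall_sdiff_eq_zero measurableSet_Ioi ?_ ?_
      · intro y hy
        exact hy.1
      · intro y hy
        have hy2 : a < y := by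
          by_contra h
          exact hy.2 ⟨hy.1, not_lt.mp h⟩
        by_cases hyr : y < r
        · rw [Set.indicator_of_mem (show y ∈ Set.Iio r from hyr)]
          exact rInt_zero a r y ha hy2
        · rw [Set.indicator_of_notMem (show y ∉ Set.Iio r from hyr), smul_zero]
    have h4 : ∫ y in Set.Ioc (0 : ℝ) a, y ^ (Module.finrank ℝ ℂ - 1) •
        (Set.Iio r).indicator g y =
        (r ^ 2 / Real.pi) * ∫ y in Set.Ioc (0 : ℝ) a,
          (Real.log a - Real.log y) * (y / (r ^ 2 - y ^ 2) ^ 2) := by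
      rw [← integral_const_mul]
      refine setIntegral_congr_fun measurableSet_Ioc ?_
      intro y hy
      have hyr : y < r := lt_of_le_of_lt hy.2 har
      show y ^ (Module.finrank ℝ ℂ - 1) • (Set.Iio r).indicator g y = _
      rw [Set.indicator_of_mem (show y ∈ Set.Iio r from hyr)]
      exact rInt_key a r y ha har hy.1 hy.2
    show ∫ s in ball (0 : ℂ) r, g ‖s‖ = _
    rw [h1, h2, h3, h4, rInt_eq a r ha har]
    have := Real.pi_pos
    simp only [smul_eq_mul, nsmul_eq_mul]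
    push_cast
    field_simp
    ring

end ALC
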