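import Pool.Agent.ALC.Ser

/-!
Majorants: the power series solutions of a linear differential equation with coefficients analytic
in |s| < r converge in |s| < r.
1/ser b D has coefficients O(r1^-k) for every r1 < r (r' < r1 < r): product of geometric series.
So u' = M u with |M_k| <= C r1^-k, (k+1) u_(k+1) = sum M_(k-j) u_j; with v_k = |u_k| r1^k
(maximum over the components) (k+1) v_(k+1) <= C' sum_(j<=k) v_j; S_k = v_0+...+v_k grows
polynomially (S_(k+1) <= (1 + C'/(k+1)) S_k), so v_k <= C'' (r1/r')^k.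
-/

open Polynomial

namespace ALC

namespace Maj

/-- The power series converges absolutely at radius `ρ`. -/
def AbsC (ρ : ℝ) (f : PowerSeries ℂ) : Prop := Summable fun k => ‖f.coeff k‖ * ρ ^ k

theorem AbsC.add {ρ : ℝ} (hρ : 0 ≤ ρ) {f g : PowerSeries ℂ} (hf : AbsC ρ f) (hg : AbsC ρ g) :
    AbsC ρ (f + g) := by
  refine Summable.of_nonneg_of_le (fun k => by positivity) (fun k => ?_) (Summable.add hf hg)
  rw [map_add, ← add_mul]
  exact mul_le_mul_of_nonneg_right (norm_add_le _ _) (by positivity)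

theorem AbsC.zero (ρ : ℝ) : AbsC ρ 0 := by
  unfold AbsC
  simp only [map_zero, norm_zero, zero_mul]
  exact summable_zero

theorem AbsC.sum {ρ : ℝ} (hρ : 0 ≤ ρ) {ι : Type*} (s : Finset ι) (f : ι → PowerSeries ℂ)
    (h : ∀ i ∈ s, AbsC ρ (f i)) : AbsC ρ (∑ i ∈ s, f i) := by
  classical
  induction s using Finset.induction_on with
  | empty => simpa using AbsC.zero ρ
  | insert a s ha ih =>
    rw [Finset.sum_insert ha]
    exact AbsC.add hρ (h a (Finset.mem_insert_self _ _))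
      (ih fun i hi => h i (Finset.mem_insert_of_mem hi))

theorem AbsC.mul {ρ : ℝ} (hρ : 0 ≤ ρ) {f g : PowerSeries ℂ} (hf : AbsC ρ f) (hg : AbsC ρ g) :
    AbsC ρ (f * g) := by
  have h := summable_sum_mul_antidiagonal_of_summable_mul
    (f := fun k => ‖f.coeff k‖ * ρ ^ k) (g := fun k => ‖g.coeff k‖ * ρ ^ k)
    (hf.mul_of_nonneg hg (fun k => by positivity) (fun k => by positivity))
  refine Summable.of_nonneg_of_le (fun k => by positivity) (fun k => ?_) h
  rw [PowerSeries.coeff_mul]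
  calc ‖∑ p ∈ Finset.HasAntidiagonal.antidiagonal k, f.coeff p.1 * g.coeff p.2‖ * ρ ^ k ≤
      (∑ p ∈ Finset.HasAntidiagonal.antidiagonal k, ‖f.coeff p.1‖ * ‖g.coeff p.2‖) * ρ ^ k := by
        apply mul_le_mul_of_nonneg_right _ (by positivity)
        refine (norm_sum_le _ _).trans (Finset.sum_le_sum fun p _ => ?_)
        rw [norm_mul]
    _ = ∑ p ∈ Finset.HasAntidiagonal.antidiagonal k, ‖f.coeff p.1‖ * ρ ^ p.1 * (‖g.coeff p.2‖ * ρ ^ p.2) := by
        rw [Finset.sum_mul]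
        apply Finset.sum_congr rfl
        intro p hp
        rw [← Finset.HasAntidiagonal.mem_antidiagonal.mp hp, pow_add]
        ring

theorem AbsC.poly (ρ : ℝ) (p : ℂ[X]) : AbsC ρ (p : PowerSeries ℂ) := by
  apply summable_of_ne_finset_zero (s := Finset.range (p.natDegree + 1))
  intro k hk
  rw [Polynomial.coeff_coe, Polynomial.coeff_eq_zero_of_natDegree_lt]
  · simp
  · simp at hk; omega

theorem AbsC.ser (ρ : ℝ) (b : ℂ) (p : ℂ[X]) : AbsC ρ (ALC.ser b p) := AbsC.poly ρ _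

theorem AbsC.bound {ρ : ℝ} (hρ : 0 ≤ ρ) {f : PowerSeries ℂ} (hf : AbsC ρ f) :
    ∃ C : ℝ, 0 ≤ C ∧ ∀ k, ‖f.coeff k‖ * ρ ^ k ≤ C :=
  ⟨∑' k, ‖f.coeff k‖ * ρ ^ k, tsum_nonneg fun k => by positivity,
    fun k => hf.le_tsum k fun j _ => by positivity⟩

theorem AbsC.mono {ρ ρ' : ℝ} (h0 : 0 ≤ ρ) (h : ρ ≤ ρ') {f : PowerSeries ℂ} (hf : AbsC ρ' f) :
    AbsC ρ f := by
  refine Summable.of_nonneg_of_le (fun k => by positivity) (fun k => ?_) hf
  exact mul_le_mul_of_nonneg_left (pow_le_pow_left₀ h0 h k) (norm_nonneg _)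

theorem AbsC.of_bound {ρ q : ℝ} (h0 : 0 ≤ ρ) (h : ρ < q) {f : PowerSeries ℂ} {C : ℝ}
    (hf : ∀ k, ‖f.coeff k‖ * q ^ k ≤ C) : AbsC ρ f := by
  have hq : 0 < q := lt_of_le_of_lt h0 h
  have hs : Summable fun k : ℕ => C * (ρ / q) ^ k :=
    (summable_geometric_of_lt_one (by positivity) ((div_lt_one hq).mpr h)).mul_left C
  refine Summable.of_nonneg_of_le (fun k => by positivity) (fun k => ?_) hs
  have h1 : ‖f.coeff k‖ * ρ ^ k = ‖f.coeff k‖ * q ^ k * (ρ / q) ^ k := by
    rw [div_pow]; field_simp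
  rw [h1]
  exact mul_le_mul_of_nonneg_right (hf k) (by positivity)

theorem geom {ρ : ℝ} (hρ : 0 ≤ ρ) (α : ℂ) (h : ρ < ‖α‖) :
    ∃ g : PowerSeries ℂ, AbsC ρ g ∧ g * (PowerSeries.X - PowerSeries.C α) = 1 := by
  have hα : α ≠ 0 := by
    intro h0
    rw [h0, norm_zero] at h
    linarith
  refine ⟨PowerSeries.mk fun k => -(α⁻¹) ^ (k + 1), ?_, ?_⟩
  · have hn : 0 < ‖α‖ := norm_pos_iff.mpr hα
    have hs : Summable fun k : ℕ => ‖α‖⁻¹ * (ρ / ‖α‖) ^ k :=
      (summable_geometric_of_lt_one (by positivity) ((div_lt_one hn).mpr h)).mul_left _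
    refine hs.congr fun k => ?_
    rw [PowerSeries.coeff_mk, norm_neg, norm_pow, norm_inv, div_pow, pow_succ, inv_pow]
    field_simp
  · rw [mul_sub]
    ext k
    rw [map_sub, PowerSeries.coeff_mul_C]
    cases k with
    | zero =>
      rw [PowerSeries.coeff_zero_mul_X, PowerSeries.coeff_mk, PowerSeries.coeff_one]
      simp [hα]
    | succ k =>
      rw [PowerSeries.coeff_succ_mul_X, PowerSeries.coeff_mk, PowerSeries.coeff_mk,
        PowerSeries.coeff_one, if_neg (Nat.succ_ne_zero k), pow_succ (α⁻¹) (k + 1)]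
      field_simp
      ring

theorem ser_mul (b : ℂ) (p q : ℂ[X]) : ALC.ser b (p * q) = ALC.ser b p * ALC.ser b q := by
  unfold ALC.ser
  rw [Polynomial.taylor_mul, Polynomial.coe_mul]

theorem inv_prod {ρ r : ℝ} (hρ : 0 ≤ ρ) (h : ρ < r) (b : ℂ) (s : Multiset ℂ)
    (hs : ∀ a ∈ s, r ≤ ‖a - b‖) :
    ∃ g : PowerSeries ℂ, AbsC ρ g ∧
      g * ALC.ser b (s.map fun a => (X - Polynomial.C a : ℂ[X])).prod = 1 := by
  induction s using Multiset.induction_on with
  | empty =>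
    refine ⟨1, ?_, ?_⟩
    · have := AbsC.poly ρ (1 : ℂ[X])
      rwa [Polynomial.coe_one] at this
    · unfold ALC.ser
      simp [Polynomial.taylor_one]
  | cons a s ih =>
    obtain ⟨g, hg, hg1⟩ := ih fun a' ha' => hs a' (Multiset.mem_cons_of_mem ha')
    obtain ⟨f, hf, hf1⟩ := geom hρ (a - b) (h.trans_le (hs a (Multiset.mem_cons_self a s)))
    refine ⟨f * g, AbsC.mul hρ hf hg, ?_⟩
    rw [Multiset.map_cons, Multiset.prod_cons, ser_mul]
    have h1 : ALC.ser b (X - Polynomial.C a : ℂ[X]) = PowerSeries.X - PowerSeries.C (a - b) := by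
      unfold ALC.ser
      rw [map_sub, Polynomial.taylor_X, Polynomial.taylor_C]
      rw [map_sub, Polynomial.coe_sub, Polynomial.coe_add, Polynomial.coe_X, Polynomial.coe_C,
        Polynomial.coe_C]
      ring
    rw [h1]
    calc f * g * ((PowerSeries.X - PowerSeries.C (a - b)) *
          ALC.ser b (s.map fun a => (X - Polynomial.C a : ℂ[X])).prod) =
          (f * (PowerSeries.X - PowerSeries.C (a - b))) *
            (g * ALC.ser b (s.map fun a => (X - Polynomial.C a : ℂ[X])).prod) := by ring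
      _ = 1 := by rw [hf1, hg1, one_mul]

theorem inv_ser {ρ r : ℝ} (hρ : 0 ≤ ρ) (h : ρ < r) (b : ℂ) (D : ℂ[X]) (hD : D ≠ 0)
    (hr : ∀ a, D.IsRoot a → r ≤ ‖a - b‖) :
    ∃ g : PowerSeries ℂ, AbsC ρ g ∧ g * ALC.ser b D = 1 := by
  obtain ⟨g, hg, hg1⟩ := inv_prod hρ h b D.roots fun a ha =>
    hr a ((Polynomial.mem_roots hD).mp ha)
  have hlc : D.leadingCoeff ≠ 0 := Polynomial.leadingCoeff_ne_zero.mpr hD
  have hsp : D = Polynomial.C D.leadingCoeff *
      (D.roots.map fun a => (X - Polynomial.C a : ℂ[X])).prod :=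
    (IsAlgClosed.splits D).eq_prod_roots
  refine ⟨((Polynomial.C D.leadingCoeff⁻¹ : ℂ[X]) : PowerSeries ℂ) * g,
    AbsC.mul hρ (AbsC.poly ρ _) hg, ?_⟩
  have h2 : ALC.ser b D = PowerSeries.C D.leadingCoeff *
      ALC.ser b (D.roots.map fun a => (X - Polynomial.C a : ℂ[X])).prod := by
    conv_lhs => rw [hsp]
    rw [ser_mul]
    congr 1
    unfold ALC.ser
    rw [Polynomial.taylor_C, Polynomial.coe_C]
  rw [h2, Polynomial.coe_C]
  calc PowerSeries.C D.leadingCoeff⁻¹ * g * (PowerSeries.C D.leadingCoeff *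
        ALC.ser b (D.roots.map fun a => (X - Polynomial.C a : ℂ[X])).prod) =
        (PowerSeries.C D.leadingCoeff⁻¹ * PowerSeries.C D.leadingCoeff) *
        (g * ALC.ser b (D.roots.map fun a => (X - Polynomial.C a : ℂ[X])).prod) := by ring
    _ = 1 := by rw [hg1, mul_one, ← map_mul, inv_mul_cancel₀ hlc, map_one]

/-- Growth of a sequence with `(k+1) v (k+1) ≤ C * (v 0 + ... + v k)`. -/
theorem growth (v : ℕ → ℝ) (hv : ∀ k, 0 ≤ v k) (C : ℝ) (hC : 0 ≤ C)
    (h : ∀ k : ℕ, (k + 1 : ℝ) * v (k + 1) ≤ C * ∑ j ∈ Finset.range (k + 1), v j) (q : ℝ)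
    (hq : 1 < q) : ∃ K : ℝ, ∀ k, v k ≤ K * q ^ k := by
  set S : ℕ → ℝ := fun k => ∑ j ∈ Finset.range (k + 1), v j with hS
  have hS0 : ∀ k, 0 ≤ S k := fun k => Finset.sum_nonneg fun j _ => hv j
  obtain ⟨k₀, hk₀⟩ := exists_nat_ge (C / (q - 1))
  have hq0 : 0 < q - 1 := by linarith
  have hstep : ∀ k, k₀ ≤ k → S (k + 1) ≤ q * S k := by
    intro k hk
    have h1 : S (k + 1) = S k + v (k + 1) := by
      rw [hS]; exact Finset.sum_range_succ _ _
    have h2 : C ≤ (q - 1) * (k + 1 : ℝ) := by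
      have : C ≤ (q - 1) * k₀ := by
        rw [div_le_iff₀ hq0] at hk₀; linarith
      have hk' : (k₀ : ℝ) ≤ k := by exact_mod_cast hk
      nlinarith
    have h3 : (k + 1 : ℝ) * v (k + 1) ≤ (k + 1 : ℝ) * ((q - 1) * S k) := by
      refine (h k).trans ?_
      have := mul_le_mul_of_nonneg_right h2 (hS0 k)
      calc C * ∑ j ∈ Finset.range (k + 1), v j ≤ (q - 1) * (k + 1 : ℝ) * S k := this
        _ = _ := by ring
    have h4 : v (k + 1) ≤ (q - 1) * S k := le_of_mul_le_mul_left h3 (by positivity)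
    rw [h1]; linarith
  have hmain : ∀ m, S (k₀ + m) ≤ S k₀ * q ^ m := by
    intro m
    induction m with
    | zero => simp
    | succ m ih =>
      have := hstep (k₀ + m) (by omega)
      calc S (k₀ + (m + 1)) ≤ q * S (k₀ + m) := this
        _ ≤ q * (S k₀ * q ^ m) := mul_le_mul_of_nonneg_left ih (by linarith)
        _ = S k₀ * q ^ (m + 1) := by ring
  have hvS : ∀ k, v k ≤ S k := fun k =>
    Finset.single_le_sum (fun j _ => hv j) (Finset.self_mem_range_succ k)
  refine ⟨S k₀, fun k => ?_⟩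
  rcases le_total k₀ k with hk | hk
  · obtain ⟨m, rfl⟩ := Nat.exists_eq_add_of_le hk
    refine ((hvS _).trans (hmain m)).trans ?_
    apply mul_le_mul_of_nonneg_left _ (hS0 _)
    exact pow_le_pow_right₀ hq.le (by omega)
  · have h1 : v k ≤ S k₀ := Finset.single_le_sum (fun j _ => hv j)
      (Finset.mem_range.mpr (by omega))
    refine h1.trans (le_mul_of_one_le_right (hS0 _) (one_le_pow₀ hq.le))

theorem solution {n : ℕ} (u : Fin n → PowerSeries ℂ) (Mt : Fin n → Fin n → PowerSeries ℂ)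
    {r1 : ℝ} (hr1 : 0 < r1) (hM : ∀ i j, AbsC r1 (Mt i j))
    (h1 : ∀ i, PowerSeries.derivative ℂ (u i) = ∑ j, Mt i j * u j) {ρ : ℝ} (hρ : 0 < ρ)
    (hρ1 : ρ < r1) (i : Fin n) : ∃ K : ℝ, ∀ k, ‖(u i).coeff k‖ * ρ ^ k ≤ K := by
  have hB : ∀ i j, ∃ C : ℝ, 0 ≤ C ∧ ∀ k, ‖(Mt i j).coeff k‖ * r1 ^ k ≤ C :=
    fun i j => (hM i j).bound hr1.le
  choose B hB0 hB1 using hB
  set C : ℝ := ∑ i, ∑ j, B i j with hC
  have hC0 : 0 ≤ C := Finset.sum_nonneg fun i _ => Finset.sum_nonneg fun j _ => hB0 i j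
  set v : ℕ → ℝ := fun k => ∑ i, ‖(u i).coeff k‖ * r1 ^ k with hv
  have hv0 : ∀ k, 0 ≤ v k := fun k => Finset.sum_nonneg fun i _ => by positivity
  have hrec : ∀ k : ℕ, (k + 1 : ℝ) * v (k + 1) ≤
      (r1 * C) * ∑ j ∈ Finset.range (k + 1), v j := by
    intro k
    have hi : ∀ i, (k + 1 : ℝ) * (‖(u i).coeff (k + 1)‖ * r1 ^ (k + 1)) ≤
        r1 * ((∑ j, B i j) * ∑ l ∈ Finset.range (k + 1), v l) := by
      intro i
      have e1 := congrArg (PowerSeries.coeff k) (h1 i)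
      rw [PowerSeries.coeff_derivative, map_sum] at e1
      have e2 : ‖(u i).coeff (k + 1)‖ * (k + 1 : ℝ) ≤
          ∑ j, ∑ p ∈ Finset.HasAntidiagonal.antidiagonal k, ‖(Mt i j).coeff p.1‖ * ‖(u j).coeff p.2‖ := by
        have e3 : ‖(u i).coeff (k + 1)‖ * (k + 1 : ℝ) = ‖(u i).coeff (k + 1) * ((k : ℂ) + 1)‖ := by
          rw [norm_mul]
          congr 1
          have : ((k : ℂ) + 1) = ((k + 1 : ℝ) : ℂ) := by push_cast; ring
          rw [this, Complex.norm_real, Real.norm_eq_abs, abs_of_nonneg (by positivity)]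
        rw [e3, e1]
        refine (norm_sum_le _ _).trans (Finset.sum_le_sum fun j _ => ?_)
        rw [PowerSeries.coeff_mul]
        refine (norm_sum_le _ _).trans (Finset.sum_le_sum fun p _ => ?_)
        rw [norm_mul]
      calc (k + 1 : ℝ) * (‖(u i).coeff (k + 1)‖ * r1 ^ (k + 1)) =
            (‖(u i).coeff (k + 1)‖ * (k + 1 : ℝ)) * r1 ^ (k + 1) := by ring
        _ ≤ (∑ j, ∑ p ∈ Finset.HasAntidiagonal.antidiagonal k, ‖(Mt i j).coeff p.1‖ * ‖(u j).coeff p.2‖) *
              r1 ^ (k + 1) := mul_le_mul_of_nonneg_right e2 (by positivity)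
        _ = r1 * ∑ j, ∑ p ∈ Finset.HasAntidiagonal.antidiagonal k,
              (‖(Mt i j).coeff p.1‖ * r1 ^ p.1) * (‖(u j).coeff p.2‖ * r1 ^ p.2) := by
            rw [pow_succ, ← mul_assoc, mul_comm _ r1, Finset.sum_mul]
            congr 1
            apply Finset.sum_congr rfl
            intro j _
            rw [Finset.sum_mul]
            apply Finset.sum_congr rfl
            intro p hp
            rw [← Finset.HasAntidiagonal.mem_antidiagonal.mp hp, pow_add]
            ring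
        _ ≤ r1 * ∑ j, B i j * ∑ l ∈ Finset.range (k + 1), v l := by
            apply mul_le_mul_of_nonneg_left _ hr1.le
            apply Finset.sum_le_sum
            intro j _
            calc ∑ p ∈ Finset.HasAntidiagonal.antidiagonal k,
                  (‖(Mt i j).coeff p.1‖ * r1 ^ p.1) * (‖(u j).coeff p.2‖ * r1 ^ p.2) ≤
                  ∑ p ∈ Finset.HasAntidiagonal.antidiagonal k, B i j * v p.2 := by
                  apply Finset.sum_le_sum
                  intro p _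
                  apply mul_le_mul (hB1 i j p.1) _ (by positivity) (hB0 i j)
                  exact Finset.single_le_sum (f := fun i => ‖(u i).coeff p.2‖ * r1 ^ p.2)
                    (fun i _ => by positivity) (Finset.mem_univ j)
              _ = B i j * ∑ l ∈ Finset.range (k + 1), v l := by
                  rw [← Finset.mul_sum]
                  congr 1
                  rw [Finset.Nat.sum_antidiagonal_eq_sum_range_succ_mk]
                  exact Finset.sum_range_reflect v (k + 1)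
        _ = r1 * ((∑ j, B i j) * ∑ l ∈ Finset.range (k + 1), v l) := by
            rw [Finset.sum_mul]
    calc (k + 1 : ℝ) * v (k + 1) =
          ∑ i, (k + 1 : ℝ) * (‖(u i).coeff (k + 1)‖ * r1 ^ (k + 1)) := by
          rw [hv, Finset.mul_sum]
      _ ≤ ∑ i, r1 * ((∑ j, B i j) * ∑ l ∈ Finset.range (k + 1), v l) :=
          Finset.sum_le_sum fun i _ => hi i
      _ = (r1 * C) * ∑ j ∈ Finset.range (k + 1), v j := by
          rw [← Finset.mul_sum, ← Finset.sum_mul]; ring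
  obtain ⟨K, hK⟩ := growth v hv0 (r1 * C) (by positivity) hrec (r1 / ρ) ((one_lt_div hρ).mpr hρ1)
  refine ⟨K, fun k => ?_⟩
  have h2 : ‖(u i).coeff k‖ * r1 ^ k ≤ K * (r1 / ρ) ^ k :=
    (Finset.single_le_sum (f := fun i => ‖(u i).coeff k‖ * r1 ^ k)
      (fun i _ => by positivity) (Finset.mem_univ i)).trans (hK k)
  have h3 : ‖(u i).coeff k‖ * ρ ^ k = ‖(u i).coeff k‖ * r1 ^ k * (ρ / r1) ^ k := by
    rw [div_pow]; field_simp
  have h4 : K * (r1 / ρ) ^ k * (ρ / r1) ^ k = K := by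
    rw [mul_assoc, ← mul_pow]
    have : r1 / ρ * (ρ / r1) = 1 := by field_simp
    rw [this, one_pow, mul_one]
  rw [h3, ← h4]
  exact mul_le_mul_of_nonneg_right h2 (by positivity)

end Maj

open Maj in
theorem majorant (n : ℕ) (b : ℂ) (D : ℂ[X]) (u : Fin n → PowerSeries ℂ)
    (N : Fin n → Fin n → ℂ[X]) (w : Fin n → ℂ[X]) (Y : PowerSeries ℂ) (hD : D ≠ 0) (r : ℝ)
    (hr : ∀ a, D.IsRoot a → r ≤ ‖a - b‖)
    (h1 : ∀ i, ser b D * PowerSeries.derivative ℂ (u i) = ∑ j, ser b (N i j) * u j)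
    (h2 : ser b D * Y = ∑ j, ser b (w j) * u j) (r' : ℝ) (hr0 : 0 < r') (hr1 : r' < r) :
    ∃ C : ℝ, ∀ k, ‖Y.coeff k‖ ≤ C * (1 / r') ^ k := by
  obtain ⟨r1, hr1a, hr1b⟩ := exists_between hr1
  obtain ⟨r2, hr2a, hr2b⟩ := exists_between hr1a
  have hr1p : 0 < r1 := hr0.trans hr1a
  have hr2p : 0 < r2 := hr0.trans hr2a
  obtain ⟨g, hg, hg1⟩ := inv_ser hr1p.le hr1b b D hD hr
  have h1' : ∀ i, PowerSeries.derivative ℂ (u i) = ∑ j, (g * ser b (N i j)) * u j := by
    intro i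
    calc PowerSeries.derivative ℂ (u i) = (g * ser b D) * PowerSeries.derivative ℂ (u i) := by
          rw [hg1, one_mul]
      _ = g * (ser b D * PowerSeries.derivative ℂ (u i)) := by ring
      _ = ∑ j, (g * ser b (N i j)) * u j := by
          rw [h1 i, Finset.mul_sum]
          exact Finset.sum_congr rfl fun j _ => by ring
  have hu : ∀ i, AbsC r' (u i) := by
    intro i
    obtain ⟨K, hK⟩ := solution u (fun i j => g * ser b (N i j)) hr1p
      (fun i j => AbsC.mul hr1p.le hg (AbsC.ser r1 b _)) h1' hr2p hr2b i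
    exact AbsC.of_bound hr0.le hr2a hK
  have hY : AbsC r' Y := by
    have h3 : Y = g * ∑ j, ser b (w j) * u j := by
      rw [← h2, ← mul_assoc, hg1, one_mul]
    rw [h3]
    apply AbsC.mul hr0.le (AbsC.mono hr0.le hr1a.le hg)
    exact AbsC.sum hr0.le _ _ fun j _ => AbsC.mul hr0.le (AbsC.ser r' b _) (hu j)
  obtain ⟨C, _, hC⟩ := hY.bound hr0.le
  refine ⟨C, fun k => ?_⟩
  have := hC k
  rw [one_div, inv_pow, ← div_eq_mul_inv, le_div_iff₀ (by positivity)]
  exact this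

end ALC
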