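import Pool.Agent.ALC.Coord

/-!
The linear differential equation of an integral basis whose discriminant is supported in A:
no poles outside A.

Let Phi : k(x)[y]/F -> k((s)) be the expansion at P (x = b + s, y = Y), u_i = Phi(theta_i), which
lies in k[[s]] (integral over k[[s]]). By `coord`, theta_i theta_j = sum_k c_ijk theta_k with
Delta c_ijk in k[x]. Let theta*_i be the trace-dual basis (theta*_i = sum g_ij theta_j,
Delta g_ij in k[x]); for f: sum_i (f theta_i) (x) theta*_i = sum_i theta_i (x) (f theta*_i).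
D0(sum r_i theta_i) = sum r_i' theta_i, delta(f,g) = D0(fg) - f D0(g) - g D0(f) (bilinear over
k(x)). Then lambda(f) = Phi(f)' - Phi(D0 f) is k(x)-linear, lambda(fg) = Phi(f) lambda(g) +
Phi(g) lambda(f) + ... , and hence lambda(f) = sum_i Phi(theta_i) Phi(delta(theta*_i, f)) up to
sign. All coefficients have denominators powers of Delta. Take D a power of Delta.
(Any other proof is fine.)
-/

set_option linter.unusedSectionVars false
set_option linter.unusedVariables false

open Polynomial

namespace ALC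

/-- A derivation extends to the field of fractions. -/
theorem Ode_frac {R K : Type*} [CommRing R] [IsDomain R] [Field K] [Algebra R K]
    [IsFractionRing R K] (d : R → R) (hadd : ∀ a b, d (a + b) = d a + d b)
    (hmul : ∀ a b, d (a * b) = a * d b + b * d a) :
    ∃ D : K → K, (∀ a b, D (a + b) = D a + D b) ∧ (∀ a b, D (a * b) = a * D b + b * D a) ∧
      ∀ r, D (algebraMap R K r) = algebraMap R K (d r) := by
  have h0 : d 0 = 0 := by
    have := hadd 0 0
    rw [add_zero] at this
    simpa using this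
  have h1 : d 1 = 0 := by
    have := hmul 1 1
    rw [one_mul, one_mul] at this
    simpa using this
  let ψ : R →+* TrivSqZeroExt K K :=
    { toFun := fun r => TrivSqZeroExt.inl (algebraMap R K r) +
        TrivSqZeroExt.inr (algebraMap R K (d r))
      map_one' := by
        ext <;> simp [h1]
      map_zero' := by
        ext <;> simp [h0]
      map_add' := by
        intro a b
        ext
        · simp only [TrivSqZeroExt.fst_add, TrivSqZeroExt.fst_inl, TrivSqZeroExt.fst_inr,
            add_zero, map_add]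
        · simp only [TrivSqZeroExt.snd_add, TrivSqZeroExt.snd_inl, TrivSqZeroExt.snd_inr,
            zero_add, hadd, map_add]
      map_mul' := by
        intro a b
        ext
        · simp only [TrivSqZeroExt.fst_add, TrivSqZeroExt.fst_inl, TrivSqZeroExt.fst_inr,
            add_zero, map_mul, TrivSqZeroExt.fst_mul]
        · simp only [TrivSqZeroExt.snd_add, TrivSqZeroExt.snd_inl, TrivSqZeroExt.snd_inr,
            zero_add, hmul, map_add, map_mul, TrivSqZeroExt.snd_mul, TrivSqZeroExt.fst_add,
            TrivSqZeroExt.fst_inl, TrivSqZeroExt.fst_inr, add_zero, smul_eq_mul,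
            MulOpposite.smul_eq_mul_unop, MulOpposite.unop_op]
          ring }
  have hψ1 : ∀ r, (ψ r).fst = algebraMap R K r := by
    intro r
    simp [ψ]
  have hψ2 : ∀ r, (ψ r).snd = algebraMap R K (d r) := by
    intro r
    show (TrivSqZeroExt.inl (algebraMap R K r) +
        TrivSqZeroExt.inr (algebraMap R K (d r)) : TrivSqZeroExt K K).snd = _
    rw [TrivSqZeroExt.snd_add, TrivSqZeroExt.snd_inl, TrivSqZeroExt.snd_inr, zero_add]
  have hu : ∀ y : nonZeroDivisors R, IsUnit (ψ y) := by
    intro y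
    rw [TrivSqZeroExt.isUnit_iff_isUnit_fst, hψ1]
    exact IsLocalization.map_units K y
  let Ψ : K →+* TrivSqZeroExt K K := IsLocalization.lift (M := nonZeroDivisors R) hu
  have hΨ : ∀ r, Ψ (algebraMap R K r) = ψ r := fun r => IsLocalization.lift_eq hu r
  have hfst : ∀ a, (Ψ a).fst = a := by
    have h2 : ((TrivSqZeroExt.fstHom K K K : TrivSqZeroExt K K →+* K).comp Ψ) = RingHom.id K := by
      apply IsLocalization.ringHom_ext (nonZeroDivisors R)
      ext r
      simp only [RingHom.comp_apply, hΨ, RingHom.id_apply]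
      exact hψ1 r
    intro a
    exact congrArg (fun φ : K →+* K => φ a) h2
  refine ⟨fun a => (Ψ a).snd, ?_, ?_, ?_⟩
  · intro a b
    simp
  · intro a b
    simp only [map_mul, TrivSqZeroExt.snd_mul, hfst, smul_eq_mul, MulOpposite.smul_eq_mul_unop,
      MulOpposite.unop_op]
    ring
  · intro r
    simp only [hΨ, hψ2]

section abstr

variable {K E L ι : Type*} [Field K] [Field E] [Algebra K E] [FiniteDimensional K E]
  [Algebra.IsSeparable K E] [CommRing L] [Fintype ι] [DecidableEq ι]

/-- The derivative of the coordinates. -/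
noncomputable def Ode_D0 (β : Module.Basis ι K E) (dK : K → K) (f : E) : E :=
  ∑ i, dK (β.repr f i) • β i

theorem Ode_D0_add (β : Module.Basis ι K E) (dK : K → K) (ha : ∀ a b, dK (a + b) = dK a + dK b)
    (f g : E) : Ode_D0 β dK (f + g) = Ode_D0 β dK f + Ode_D0 β dK g := by
  unfold Ode_D0
  rw [← Finset.sum_add_distrib]
  apply Finset.sum_congr rfl
  intro i _
  rw [map_add, Finsupp.add_apply, ha, add_smul]

theorem Ode_D0_smul (β : Module.Basis ι K E) (dK : K → K)
    (hm : ∀ a b, dK (a * b) = a * dK b + b * dK a)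
    (q : K) (f : E) : Ode_D0 β dK (q • f) = dK q • f + q • Ode_D0 β dK f := by
  unfold Ode_D0
  conv_rhs => rw [← β.sum_repr f]
  rw [Finset.smul_sum, Finset.smul_sum, ← Finset.sum_add_distrib]
  apply Finset.sum_congr rfl
  intro i _
  rw [map_smul, Finsupp.smul_apply, smul_eq_mul, hm, add_smul, smul_smul, smul_smul]
  have : β.repr (∑ i, β.repr f i • β i) i = β.repr f i := by rw [β.sum_repr]
  rw [this, add_comm]
  congr 1
  rw [mul_comm]

theorem Ode_E2 (β : Module.Basis ι K E) (g : E) :
    g = ∑ i, Algebra.trace K E (g * β.traceDual i) • β i := by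
  have h := β.traceDual.traceDual.sum_repr g
  rw [← h]
  rw [Module.Basis.traceDual_traceDual] at h ⊢
  conv_lhs => rw [← β.traceDual_traceDual]
  rw [Module.Basis.traceDual_traceDual]
  apply Finset.sum_congr rfl
  intro i _
  congr 1
  conv_rhs => rw [h]
  have := Module.Basis.traceDual_repr_apply β.traceDual g i
  rw [Module.Basis.traceDual_traceDual] at this
  exact this

theorem Ode_E1 (β : Module.Basis ι K E) (g : E) :
    g = ∑ i, Algebra.trace K E (g * β i) • β.traceDual i := by
  have h := Ode_E2 β.traceDual g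
  rwa [Module.Basis.traceDual_traceDual] at h

theorem Ode_E3 (β : Module.Basis ι K E) : ∑ i, β i * β.traceDual i = 1 := by
  have hnd := traceForm_nondegenerate K E
  have key : ∀ g : E, Algebra.trace K E (g * (∑ i, β i * β.traceDual i)) = Algebra.trace K E g := by
    intro g
    rw [Finset.mul_sum, map_sum, Algebra.trace_eq_matrix_trace β g, Matrix.trace]
    apply Finset.sum_congr rfl
    intro i _
    rw [Matrix.diag_apply, Algebra.leftMulMatrix_eq_repr_mul]
    have h := Module.Basis.traceDual_repr_apply β.traceDual (g * β i) i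
    rw [Module.Basis.traceDual_traceDual] at h
    rw [h, Algebra.traceForm_apply, mul_assoc]
  have h2 : ∀ g : E, Algebra.traceForm K E (∑ i, β i * β.traceDual i - 1) g = 0 := by
    intro g
    rw [Algebra.traceForm_apply, sub_mul, one_mul, map_sub, mul_comm, key, sub_self]
  have h3 := hnd.1 _ h2
  exact sub_eq_zero.1 h3

/-- A derivation along `Φ` in terms of the derivation of the coordinates. -/
theorem Ode_key (β : Module.Basis ι K E) (dK : K → K) (ha : ∀ a b, dK (a + b) = dK a + dK b)
    (hm : ∀ a b, dK (a * b) = a * dK b + b * dK a) (Φ : E →+* L) (dL : L → L)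
    (hLa : ∀ a b, dL (a + b) = dL a + dL b) (hLm : ∀ a b, dL (a * b) = a * dL b + b * dL a)
    (hc : ∀ q : K, dL (Φ (algebraMap K E q)) = Φ (algebraMap K E (dK q))) (f : E) :
    dL (Φ f) = Φ (Ode_D0 β dK f + ∑ i, β i * (Ode_D0 β dK (f * β.traceDual i) -
      f * Ode_D0 β dK (β.traceDual i) - β.traceDual i * Ode_D0 β dK f)) := by
  set D0 := Ode_D0 β dK with hD0
  let lam : E → L := fun f => dL (Φ f) - Φ (D0 f)
  have hla : ∀ f g, lam (f + g) = lam f + lam g := by
    intro f g
    simp only [lam, hD0, map_add, hLa, Ode_D0_add β dK ha]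
    ring
  have hl0 : lam 0 = 0 := by
    have := hla 0 0
    rw [add_zero] at this
    simpa using this
  have hlsum : ∀ (s : Finset ι) (F : ι → E), lam (∑ i ∈ s, F i) = ∑ i ∈ s, lam (F i) := by
    intro s F
    induction s using Finset.induction_on with
    | empty => simpa using hl0
    | insert a s has ih => rw [Finset.sum_insert has, Finset.sum_insert has, hla, ih]
  have hls : ∀ (q : K) (f : E), lam (q • f) = Φ (algebraMap K E q) * lam f := by
    intro q f
    show dL (Φ (q • f)) - Φ (Ode_D0 β dK (q • f)) = Φ (algebraMap K E q) * (dL (Φ f) - Φ (D0 f))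
    rw [Ode_D0_smul β dK hm]
    simp only [hD0, Algebra.smul_def, map_mul, map_add, hLm, hc]
    ring
  have hlm : ∀ f g, lam (f * g) = Φ f * lam g + Φ g * lam f -
      Φ (D0 (f * g) - f * D0 g - g * D0 f) := by
    intro f g
    simp only [lam, map_mul, hLm, map_sub]
    ring
  have h1 : ∑ i, Φ (β i) * lam (f * β.traceDual i) = Φ f * ∑ i, Φ (β i) * lam (β.traceDual i) := by
    have e1 : ∀ i, lam (f * β.traceDual i) = ∑ j,
        Φ (algebraMap K E (Algebra.trace K E (f * β.traceDual i * β j))) *
          lam (β.traceDual j) := by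
      intro i
      conv_lhs => rw [Ode_E1 β (f * β.traceDual i)]
      rw [hlsum]
      exact Finset.sum_congr rfl (fun j _ => hls _ _)
    have e2 : ∀ j, Φ f * Φ (β j) = ∑ i,
        Φ (algebraMap K E (Algebra.trace K E (f * β.traceDual i * β j))) * Φ (β i) := by
      intro j
      rw [← map_mul]
      conv_lhs => rw [Ode_E2 β (f * β j)]
      rw [map_sum]
      apply Finset.sum_congr rfl
      intro i _
      rw [Algebra.smul_def, map_mul]
      congr 4
      ring
    simp only [e1]
    rw [Finset.mul_sum]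
    simp only [Finset.mul_sum]
    rw [Finset.sum_comm]
    apply Finset.sum_congr rfl
    intro j _
    rw [← mul_assoc, e2 j, Finset.sum_mul]
    apply Finset.sum_congr rfl
    intro i _
    ring
  have h2 : ∑ i, Φ (β i) * lam (f * β.traceDual i) =
      Φ f * (∑ i, Φ (β i) * lam (β.traceDual i)) + lam f -
      Φ (∑ i, β i * (D0 (f * β.traceDual i) - f * D0 (β.traceDual i) -
        β.traceDual i * D0 f)) := by
    have e3 : lam f = ∑ i, Φ (β i) * (Φ (β.traceDual i) * lam f) := by
      have h3 := congrArg Φ (Ode_E3 β)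
      rw [map_sum, map_one] at h3
      calc lam f = 1 * lam f := (one_mul _).symm
        _ = (∑ i, Φ (β i * β.traceDual i)) * lam f := by rw [h3]
        _ = _ := by
          rw [Finset.sum_mul]
          apply Finset.sum_congr rfl
          intro i _
          rw [map_mul, mul_assoc]
    conv_rhs => rw [e3]
    rw [map_sum, Finset.mul_sum, ← Finset.sum_add_distrib, ← Finset.sum_sub_distrib]
    apply Finset.sum_congr rfl
    intro i _
    rw [hlm, map_mul Φ (β i)]
    ring
  have h3 : lam f = Φ (∑ i, β i * (D0 (f * β.traceDual i) - f * D0 (β.traceDual i) -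
        β.traceDual i * D0 f)) := by
    rw [h2] at h1
    linear_combination h1
  have h4 : dL (Φ f) = lam f + Φ (D0 f) := by
    simp only [lam]
    ring
  rw [h4, h3, map_add]
  ring

end abstr


section conc

variable {k E ι : Type*} [Field k] [Field E] [Algebra k[X] E] [Algebra (RatFunc k) E]
  [IsScalarTower k[X] (RatFunc k) E] [FiniteDimensional (RatFunc k) E]
  [Algebra.IsSeparable (RatFunc k) E] [Fintype ι] [DecidableEq ι]

/-- integral up to powers of `Δ` -/
def Ode_In (E : Type*) [Field E] [Algebra k[X] E] (Δ : k[X]) (f : E) : Prop :=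
  ∃ e : ℕ, IsIntegral k[X] (algebraMap k[X] E Δ ^ e * f)

theorem Ode_In_of {Δ : k[X]} {f : E} (h : IsIntegral k[X] f) : Ode_In E Δ f :=
  ⟨0, by simpa using h⟩

theorem Ode_In_add {Δ : k[X]} {f g : E} (hf : Ode_In E Δ f) (hg : Ode_In E Δ g) :
    Ode_In E Δ (f + g) := by
  obtain ⟨e, he⟩ := hf
  obtain ⟨e', he'⟩ := hg
  refine ⟨e + e', ?_⟩
  have h1 : IsIntegral k[X] (algebraMap k[X] E Δ) := isIntegral_algebraMap
  have h2 := ((h1.pow e').mul he).add ((h1.pow e).mul he')
  have e1 : algebraMap k[X] E Δ ^ (e + e') * (f + g) =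
    algebraMap k[X] E Δ ^ e' * (algebraMap k[X] E Δ ^ e * f) +
    algebraMap k[X] E Δ ^ e * (algebraMap k[X] E Δ ^ e' * g) := by ring
  rw [e1]
  exact h2

theorem Ode_In_mul {Δ : k[X]} {f g : E} (hf : Ode_In E Δ f) (hg : Ode_In E Δ g) :
    Ode_In E Δ (f * g) := by
  obtain ⟨e, he⟩ := hf
  obtain ⟨e', he'⟩ := hg
  refine ⟨e + e', ?_⟩
  have e1 : algebraMap k[X] E Δ ^ (e + e') * (f * g) =
    (algebraMap k[X] E Δ ^ e * f) * (algebraMap k[X] E Δ ^ e' * g) := by ring
  rw [e1]
  exact he.mul he'

theorem Ode_In_neg {Δ : k[X]} {f : E} (hf : Ode_In E Δ f) : Ode_In E Δ (-f) := by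
  obtain ⟨e, he⟩ := hf
  refine ⟨e, ?_⟩
  rw [mul_neg]
  exact he.neg

theorem Ode_In_sub {Δ : k[X]} {f g : E} (hf : Ode_In E Δ f) (hg : Ode_In E Δ g) :
    Ode_In E Δ (f - g) := by
  rw [sub_eq_add_neg]
  exact Ode_In_add hf (Ode_In_neg hg)

theorem Ode_In_sum {Δ : k[X]} {F : ι → E} (hf : ∀ i, Ode_In E Δ (F i)) :
    Ode_In E Δ (∑ i, F i) := by
  have : ∀ s : Finset ι, Ode_In E Δ (∑ i ∈ s, F i) := by
    intro s
    induction s using Finset.induction_on with
    | empty =>
      rw [Finset.sum_empty]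
      exact Ode_In_of isIntegral_zero
    | insert a s has ih =>
      rw [Finset.sum_insert has]
      exact Ode_In_add (hf a) ih
  exact this _

theorem Ode_coords (β : Module.Basis ι (RatFunc k) E) {Δ : k[X]} (hΔ : Δ ≠ 0)
    (hco : ∀ f : E, IsIntegral k[X] f → ∃ q : ι → k[X],
      algebraMap k[X] E Δ * f = ∑ j, algebraMap k[X] E (q j) * β j)
    {f : E} (hf : Ode_In E Δ f) : ∃ (e : ℕ) (q : ι → k[X]),
      algebraMap k[X] E Δ ^ e * f = ∑ j, algebraMap k[X] E (q j) * β j := by
  obtain ⟨e, he⟩ := hf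
  obtain ⟨q, hq⟩ := hco _ he
  refine ⟨e + 1, q, ?_⟩
  rw [← hq]
  ring

theorem Ode_In_D0 (β : Module.Basis ι (RatFunc k) E) {Δ : k[X]} (hΔ : Δ ≠ 0)
    (hint : ∀ i, IsIntegral k[X] (β i))
    (hco : ∀ f : E, IsIntegral k[X] f → ∃ q : ι → k[X],
      algebraMap k[X] E Δ * f = ∑ j, algebraMap k[X] E (q j) * β j)
    (dK : RatFunc k → RatFunc k)
    (hm : ∀ a b, dK (a * b) = a * dK b + b * dK a)
    (hp : ∀ q : k[X], dK (algebraMap k[X] (RatFunc k) q) =
      algebraMap k[X] (RatFunc k) (derivative q))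
    {f : E} (hf : Ode_In E Δ f) : Ode_In E Δ (Ode_D0 β dK f) := by
  obtain ⟨e, q, hq⟩ := Ode_coords β hΔ hco hf
  have hr : ∀ j, algebraMap k[X] (RatFunc k) (Δ ^ e) * β.repr f j =
      algebraMap k[X] (RatFunc k) (q j) := by
    intro j
    have h1 : (algebraMap k[X] (RatFunc k) (Δ ^ e)) • f =
        ∑ j, (algebraMap k[X] (RatFunc k) (q j)) • β j := by
      simp only [Algebra.smul_def, ← IsScalarTower.algebraMap_apply]
      rw [map_pow]
      exact hq
    have h2 := congrArg (fun g => β.repr g j) h1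
    simp only [map_smul, Finsupp.smul_apply, smul_eq_mul] at h2
    rw [h2, β.repr_sum_self]
  refine ⟨e + e, ?_⟩
  unfold Ode_D0
  rw [Finset.mul_sum]
  have h3 : ∀ j, algebraMap k[X] E Δ ^ (e + e) * (dK (β.repr f j) • β j) =
      algebraMap k[X] E (Δ ^ e * derivative (q j) - q j * derivative (Δ ^ e)) * β j := by
    intro j
    have h4 := congrArg dK (hr j)
    rw [hm, hp, hp] at h4
    have h5 : algebraMap k[X] (RatFunc k) (Δ ^ e) * algebraMap k[X] (RatFunc k) (Δ ^ e) *
        dK (β.repr f j) = algebraMap k[X] (RatFunc k)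
          (Δ ^ e * derivative (q j) - q j * derivative (Δ ^ e)) := by
      rw [map_sub, map_mul, map_mul, ← hr j]
      linear_combination (algebraMap k[X] (RatFunc k) (Δ ^ e)) * h4
    rw [IsScalarTower.algebraMap_apply k[X] (RatFunc k) E
      (Δ ^ e * derivative (q j) - q j * derivative (Δ ^ e)), ← h5, Algebra.smul_def,
      map_mul, map_mul, ← IsScalarTower.algebraMap_apply k[X] (RatFunc k) E, map_pow]
    ring
  rw [Finset.sum_congr rfl (fun j _ => h3 j)]
  exact IsIntegral.sum _ (fun j _ => isIntegral_algebraMap.mul (hint j))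

theorem Ode_In_dual (β : Module.Basis ι (RatFunc k) E) {Δ : k[X]} (hΔ : Δ ≠ 0)
    (hint : ∀ i, IsIntegral k[X] (β i))
    (hd : Algebra.discr (RatFunc k) β = algebraMap k[X] (RatFunc k) Δ) (i : ι) :
    Ode_In E Δ (β.traceDual i) := by
  have hT : ∀ i j, ∃ t : k[X], algebraMap k[X] (RatFunc k) t =
      Algebra.trace (RatFunc k) E (β i * β j) := by
    intro i j
    have h1 : IsIntegral k[X] (Algebra.trace (RatFunc k) E (β i * β j)) :=
      Algebra.isIntegral_trace ((hint i).mul (hint j))
    exact IsIntegrallyClosed.isIntegral_iff.1 h1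
  choose t ht using hT
  let T : Matrix ι ι k[X] := Matrix.of t
  have hdet : T.det = Δ := by
    apply FaithfulSMul.algebraMap_injective k[X] (RatFunc k)
    rw [← hd, Algebra.discr_def, RingHom.map_det]
    congr 1
    ext i j
    show algebraMap k[X] (RatFunc k) (t i j) = _
    rw [ht, Algebra.traceMatrix_apply, Algebra.traceForm_apply]
  refine ⟨1, ?_⟩
  rw [pow_one]
  have h2 : algebraMap k[X] E Δ * β.traceDual i =
      ∑ j, algebraMap k[X] E (T.adjugate i j) * β j := by
    conv_rhs => rw [Ode_E1 β (∑ j, algebraMap k[X] E (T.adjugate i j) * β j)]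
    have h3 : ∀ l, Algebra.trace (RatFunc k) E
        ((∑ j, algebraMap k[X] E (T.adjugate i j) * β j) * β l) =
        if i = l then algebraMap k[X] (RatFunc k) Δ else 0 := by
      intro l
      rw [Finset.sum_mul, map_sum]
      have h4 : ∀ j, Algebra.trace (RatFunc k) E
          (algebraMap k[X] E (T.adjugate i j) * β j * β l) =
          algebraMap k[X] (RatFunc k) (T.adjugate i j * T j l) := by
        intro j
        rw [IsScalarTower.algebraMap_apply k[X] (RatFunc k) E, mul_assoc, ← Algebra.smul_def,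
          map_smul, smul_eq_mul, map_mul (algebraMap k[X] (RatFunc k))]
        congr 1
        exact (ht j l).symm
      rw [Finset.sum_congr rfl (fun j _ => h4 j), ← map_sum, ← Matrix.mul_apply,
        Matrix.adjugate_mul, hdet, Matrix.smul_apply, Matrix.one_apply]
      split_ifs <;> simp
    simp only [h3, ite_smul, zero_smul]
    rw [Finset.sum_ite_eq Finset.univ i]
    rw [if_pos (Finset.mem_univ i), Algebra.smul_def, ← IsScalarTower.algebraMap_apply]
  rw [h2]
  exact IsIntegral.sum _ (fun j _ => isIntegral_algebraMap.mul (hint j))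

theorem Ode_gen (β : Module.Basis ι (RatFunc k) E) {Δ : k[X]} (hΔ : Δ ≠ 0)
    (hint : ∀ i, IsIntegral k[X] (β i))
    (hd : Algebra.discr (RatFunc k) β = algebraMap k[X] (RatFunc k) Δ)
    (hco : ∀ f : E, IsIntegral k[X] f → ∃ q : ι → k[X],
      algebraMap k[X] E Δ * f = ∑ j, algebraMap k[X] E (q j) * β j)
    (dK : RatFunc k → RatFunc k)
    (hm : ∀ a b, dK (a * b) = a * dK b + b * dK a)
    (hp : ∀ q : k[X], dK (algebraMap k[X] (RatFunc k) q) =
      algebraMap k[X] (RatFunc k) (derivative q)) :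
    ∃ e : ℕ, ∀ j, ∃ q : ι → k[X], algebraMap k[X] E Δ ^ e *
      (Ode_D0 β dK (β j) + ∑ i, β i * (Ode_D0 β dK (β j * β.traceDual i) -
      β j * Ode_D0 β dK (β.traceDual i) - β.traceDual i * Ode_D0 β dK (β j))) =
      ∑ l, algebraMap k[X] E (q l) * β l := by
  have hIn : ∀ j, Ode_In E Δ (Ode_D0 β dK (β j) +
      ∑ i, β i * (Ode_D0 β dK (β j * β.traceDual i) -
      β j * Ode_D0 β dK (β.traceDual i) - β.traceDual i * Ode_D0 β dK (β j))) := by
    intro j
    have hb : ∀ i, Ode_In E Δ (β i) := fun i => Ode_In_of (hint i)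
    have hb' : ∀ i, Ode_In E Δ (β.traceDual i) := fun i => Ode_In_dual β hΔ hint hd i
    have hD : ∀ {f : E}, Ode_In E Δ f → Ode_In E Δ (Ode_D0 β dK f) :=
      fun hf => Ode_In_D0 β hΔ hint hco dK hm hp hf
    refine Ode_In_add (hD (hb j)) (Ode_In_sum (fun i => ?_))
    exact Ode_In_mul (hb i) (Ode_In_sub (Ode_In_sub (hD (Ode_In_mul (hb j) (hb' i)))
      (Ode_In_mul (hb j) (hD (hb' i)))) (Ode_In_mul (hb' i) (hD (hb j))))
  choose e q hq using fun j => Ode_coords β hΔ hco (hIn j)
  refine ⟨∑ j, e j, fun j => ⟨fun l => Δ ^ (∑ i ∈ Finset.univ.erase j, e i) * q j l, ?_⟩⟩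
  rw [← Finset.add_sum_erase _ _ (Finset.mem_univ j), add_comm, pow_add, mul_assoc, hq j,
    Finset.mul_sum]
  apply Finset.sum_congr rfl
  intro l _
  rw [map_mul, map_pow]
  ring

end conc


section fin

variable {k : Type*} [Field k]

/-- `ser b` as a ring homomorphism -/
noncomputable def Ode_hom (b : k) : k[X] →+* PowerSeries k :=
  (coeToPowerSeries.ringHom (R := k)).comp (taylorAlgHom b).toRingHom

theorem Ode_hom_apply (b : k) (q : k[X]) : Ode_hom b q = ser b q := rfl

theorem Ode_hom_inj (b : k) : Function.Injective (Ode_hom b) := by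
  intro p q h
  have h1 : ((taylor b p : k[X]) : PowerSeries k) = ((taylor b q : k[X]) : PowerSeries k) := h
  exact taylor_injective b (Polynomial.coe_injective k h1)

theorem Ode_hom_eval (b : k) : Ode_hom b =
    Polynomial.eval₂RingHom (PowerSeries.C (R := k)) (PowerSeries.C b + PowerSeries.X) := by
  apply Polynomial.ringHom_ext
  · intro a
    rw [Ode_hom_apply, ser, taylor_C, Polynomial.coe_C]
    simp
  · rw [Ode_hom_apply, ser, taylor_X]
    simp [add_comm]

theorem Ode_ser_deriv (b : k) (q : k[X]) :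
    PowerSeries.derivative k (ser b q) = ser b (derivative q) := by
  unfold ser
  rw [PowerSeries.derivative_coe]
  congr 1
  rw [taylor_apply, taylor_apply, derivative_comp]
  simp

theorem Ode_fin {E ι : Type*} [Field E] [Algebra k[X] E] [Algebra (RatFunc k) E]
    [IsScalarTower k[X] (RatFunc k) E] [FiniteDimensional (RatFunc k) E]
    [Algebra.IsSeparable (RatFunc k) E] [Fintype ι] [DecidableEq ι]
    (β : Module.Basis ι (RatFunc k) E) {Δ : k[X]} (hΔ : Δ ≠ 0)
    (hint : ∀ i, IsIntegral k[X] (β i))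
    (hd : Algebra.discr (RatFunc k) β = algebraMap k[X] (RatFunc k) Δ)
    (hco : ∀ f : E, IsIntegral k[X] f → ∃ q : ι → k[X],
      algebraMap k[X] E Δ * f = ∑ j, algebraMap k[X] E (q j) * β j)
    (b : k) (Φ : E →+* FractionRing (PowerSeries k))
    (hΦ : ∀ q : k[X], Φ (algebraMap k[X] E q) =
      algebraMap (PowerSeries k) (FractionRing (PowerSeries k)) (ser b q))
    (y : E) (hy : IsIntegral k[X] y) (Y : PowerSeries k)
    (hY : Φ y = algebraMap (PowerSeries k) (FractionRing (PowerSeries k)) Y) :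
    ∃ (e : ℕ) (u : ι → PowerSeries k) (N : ι → ι → k[X]) (w : ι → k[X]),
      (∀ i, ser b (Δ ^ e) * PowerSeries.derivative k (u i) = ∑ j, ser b (N i j) * u j) ∧
      ser b (Δ ^ e) * Y = ∑ j, ser b (w j) * u j := by
  obtain ⟨dK, hKa, hKm, hKp⟩ := Ode_frac (R := k[X]) (K := RatFunc k) (fun q => derivative q)
    (fun a b => by simp) (fun a b => by simp only [derivative_mul]; ring)
  obtain ⟨dL, hLa, hLm, hLp⟩ := Ode_frac (R := PowerSeries k) (K := FractionRing (PowerSeries k))
    (fun q => PowerSeries.derivative k q) (fun a b => map_add _ a b)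
    (fun a b => by rw [Derivation.leibniz, smul_eq_mul, smul_eq_mul])
  have hinj := IsFractionRing.injective (PowerSeries k) (FractionRing (PowerSeries k))
  have hc : ∀ q : RatFunc k, dL (Φ (algebraMap (RatFunc k) E q)) =
      Φ (algebraMap (RatFunc k) E (dK q)) := by
    intro q
    obtain ⟨a, c, hcne, hq⟩ := IsFractionRing.div_surjective (A := k[X]) q
    have hc0 : c ≠ 0 := nonZeroDivisors.ne_zero hcne
    have hc1 : algebraMap k[X] (RatFunc k) c ≠ 0 := by
      rw [Ne, FaithfulSMul.algebraMap_eq_zero_iff]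
      exact hc0
    have h1 : algebraMap k[X] (RatFunc k) c * q = algebraMap k[X] (RatFunc k) a := by
      rw [← hq]
      field_simp
    have h2 := congrArg dK h1
    rw [hKm, hKp, hKp] at h2
    have h3 := congrArg (fun z => dL (Φ (algebraMap (RatFunc k) E z))) h1
    simp only [map_mul, hLm, ← IsScalarTower.algebraMap_apply, hΦ, hLp] at h3
    have h4 := congrArg (fun z => Φ (algebraMap (RatFunc k) E z)) h2
    simp only [map_mul, map_add, ← IsScalarTower.algebraMap_apply, hΦ] at h4
    rw [Ode_ser_deriv, Ode_ser_deriv] at h3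
    have h5 : algebraMap (PowerSeries k) (FractionRing (PowerSeries k)) (ser b c) ≠ 0 := by
      intro h
      have h6 : ser b c = 0 := by
        apply hinj
        rw [h, map_zero]
      apply hc0
      apply Ode_hom_inj b
      rw [map_zero]
      exact h6
    apply mul_left_cancel₀ h5
    linear_combination h3 - h4
  have hu : ∀ i, ∃ u : PowerSeries k,
      algebraMap (PowerSeries k) (FractionRing (PowerSeries k)) u = Φ (β i) := by
    intro i
    have h1 : IsIntegral (PowerSeries k) (Φ (β i)) := by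
      refine IsIntegral.map_of_comp_eq (Ode_hom b) Φ ?_ (hint i)
      apply RingHom.ext
      intro q
      exact (hΦ q).symm
    exact IsIntegrallyClosed.isIntegral_iff.1 h1
  choose u hu using hu
  obtain ⟨e₁, h₁⟩ := Ode_gen β hΔ hint hd hco dK hKm hKp
  choose q₁ hq₁ using h₁
  obtain ⟨e₂, q₂, hq₂⟩ := Ode_coords β hΔ hco (Ode_In_of (Δ := Δ) hy)
  refine ⟨e₁ + e₂, u, fun i j => Δ ^ e₂ * q₁ i j, fun j => Δ ^ e₁ * q₂ j, ?_, ?_⟩
  · intro i
    apply hinj
    have h3 := Ode_key β dK hKa hKm Φ dL hLa hLm hc (β i)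
    rw [← hu i, hLp] at h3
    have h4 := congrArg Φ (hq₁ i)
    rw [map_mul, map_pow, hΦ, map_sum] at h4
    rw [map_mul, map_sum]
    have h5 : algebraMap (PowerSeries k) (FractionRing (PowerSeries k)) (ser b (Δ ^ (e₁ + e₂))) =
        algebraMap (PowerSeries k) (FractionRing (PowerSeries k)) (ser b Δ) ^ e₂ *
        algebraMap (PowerSeries k) (FractionRing (PowerSeries k)) (ser b Δ) ^ e₁ := by
      rw [← hΦ, ← hΦ, map_pow, map_pow, pow_add, mul_comm]
    rw [h5, h3, mul_assoc, h4, Finset.mul_sum]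
    apply Finset.sum_congr rfl
    intro j _
    rw [map_mul, map_mul, hu, hΦ, ← hΦ (Δ ^ e₂ * q₁ i j), map_mul, map_mul, map_pow, map_pow, hΦ,
      hΦ, mul_assoc]
  · apply hinj
    have h4 := congrArg Φ hq₂
    rw [map_mul, map_pow, hΦ, map_sum, hY] at h4
    rw [map_mul, map_sum]
    have h5 : algebraMap (PowerSeries k) (FractionRing (PowerSeries k)) (ser b (Δ ^ (e₁ + e₂))) =
        algebraMap (PowerSeries k) (FractionRing (PowerSeries k)) (ser b Δ) ^ e₁ *
        algebraMap (PowerSeries k) (FractionRing (PowerSeries k)) (ser b Δ) ^ e₂ := by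
      rw [← hΦ, ← hΦ, map_pow, map_pow, pow_add]
    rw [h5, mul_assoc, h4, Finset.mul_sum]
    apply Finset.sum_congr rfl
    intro j _
    rw [map_mul, map_mul, hu, hΦ, ← hΦ (Δ ^ e₁ * q₂ j), map_mul, map_mul, map_pow, map_pow, hΦ,
      hΦ, mul_assoc]

variable [CharZero k]

theorem ode (F : k[X][X]) (hF : F.Monic)
    (hirr : Irreducible (F.map (algebraMap k[X] (RatFunc k)))) (A : Finset k)
    (hun : UnramifiedOutside F A) (b y0 : k) (Y : PowerSeries k)
    (hY : IsSer F b y0 Y) :
    ∃ (n : ℕ) (D : k[X]) (u : Fin n → PowerSeries k) (N : Fin n → Fin n → k[X]) (w : Fin n → k[X]),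
      D ≠ 0 ∧ D.Splits ∧ (∀ a, D.IsRoot a → a ∈ A) ∧
      (∀ i, ser b D * PowerSeries.derivative k (u i) = ∑ j, ser b (N i j) * u j) ∧
      ser b D * Y = ∑ j, ser b (w j) * u j := by
  have : Fact (Irreducible (F.map (algebraMap k[X] (RatFunc k)))) := ⟨hirr⟩
  obtain ⟨θ, Δ, hθ, hd, hΔ, hsp, hro⟩ := hun
  have hmon : (F.map (algebraMap k[X] (RatFunc k))).Monic := hF.map _
  let pb : PowerBasis (RatFunc k) (FF F) := AdjoinRoot.powerBasis' hmon
  have : FiniteDimensional (RatFunc k) (FF F) := pb.finite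
  have : CharZero (RatFunc k) :=
    charZero_of_injective_algebraMap (FaithfulSMul.algebraMap_injective k (RatFunc k))
  have : Algebra.IsSeparable (RatFunc k) (FF F) := inferInstance
  have hfr : Module.finrank (RatFunc k) (FF F) = F.natDegree := by
    rw [pb.finrank]
    show (F.map (algebraMap k[X] (RatFunc k))).natDegree = _
    exact hF.natDegree_map _
  have hli : LinearIndependent (RatFunc k) θ := by
    by_contra hli
    have h1 := Algebra.discr_zero_of_not_linearIndependent (RatFunc k) hli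
    rw [hd, FaithfulSMul.algebraMap_eq_zero_iff] at h1
    exact hΔ h1
  have : Nonempty (Fin F.natDegree) := by
    rw [← hfr]
    exact ⟨⟨0, Module.finrank_pos⟩⟩
  let β : Module.Basis (Fin F.natDegree) (RatFunc k) (FF F) :=
    basisOfLinearIndependentOfCardEqFinrank hli (by rw [Fintype.card_fin, hfr])
  have hβ : ∀ i, β i = θ i := by
    intro i
    exact congrFun (coe_basisOfLinearIndependentOfCardEqFinrank hli _) i
  have hβ' : (β : Fin F.natDegree → FF F) = θ := funext hβ
  let ι : RatFunc k →+* FractionRing (PowerSeries k) :=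
    IsFractionRing.lift (A := k[X])
      (g := (algebraMap (PowerSeries k) (FractionRing (PowerSeries k))).comp (Ode_hom b))
      ((IsFractionRing.injective (PowerSeries k) (FractionRing (PowerSeries k))).comp
        (Ode_hom_inj b))
  have hι : ∀ q : k[X], ι (algebraMap k[X] (RatFunc k) q) =
      algebraMap (PowerSeries k) (FractionRing (PowerSeries k)) (ser b q) := by
    intro q
    exact IsFractionRing.lift_algebraMap _ q
  have hιc : ι.comp (algebraMap k[X] (RatFunc k)) =
      (algebraMap (PowerSeries k) (FractionRing (PowerSeries k))).comp (Ode_hom b) := by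
    apply RingHom.ext
    intro q
    exact hι q
  have hroot : (F.map (algebraMap k[X] (RatFunc k))).eval₂ ι
      (algebraMap (PowerSeries k) (FractionRing (PowerSeries k)) Y) = 0 := by
    rw [eval₂_map, hιc, ← Polynomial.hom_eval₂, Ode_hom_eval]
    have h1 : F.eval₂ (Polynomial.eval₂RingHom (PowerSeries.C (R := k))
      (PowerSeries.C b + PowerSeries.X)) Y = 0 := hY.1
    rw [h1, map_zero]
  let Φ : FF F →+* FractionRing (PowerSeries k) := AdjoinRoot.lift ι _ hroot
  have hΦ : ∀ q : k[X], Φ (algebraMap k[X] (FF F) q) =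
      algebraMap (PowerSeries k) (FractionRing (PowerSeries k)) (ser b q) := by
    intro q
    rw [IsScalarTower.algebraMap_apply k[X] (RatFunc k) (FF F), ← hι q]
    exact AdjoinRoot.lift_of hroot
  have hΦy : Φ (AdjoinRoot.root _) =
      algebraMap (PowerSeries k) (FractionRing (PowerSeries k)) Y := AdjoinRoot.lift_root hroot
  have hyint : IsIntegral k[X] (AdjoinRoot.root (F.map (algebraMap k[X] (RatFunc k)))) := by
    refine ⟨F, hF, ?_⟩
    have h1 := AdjoinRoot.eval₂_root (F.map (algebraMap k[X] (RatFunc k)))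
    rw [eval₂_map] at h1
    exact h1
  obtain ⟨e, u, N, w, h1, h2⟩ := Ode_fin β hΔ (fun i => by rw [hβ]; exact hθ i)
    (by rw [hβ']; exact hd)
    (fun f hf => by
      obtain ⟨q, hq⟩ := coord F hF hirr θ hθ Δ hΔ hd f hf
      exact ⟨q, by simpa only [hβ] using hq⟩)
    b Φ hΦ _ hyint Y hΦy
  refine ⟨F.natDegree, Δ ^ e, u, N, w, pow_ne_zero _ hΔ, hsp.pow e, ?_, h1, h2⟩
  intro a ha
  have ha' : (Δ ^ e).eval a = 0 := ha
  rw [eval_pow] at ha'
  exact hro a (eq_zero_of_pow_eq_zero ha')

end fin

end ALC
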