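import Pool.Agent.ALC.Irr
import Pool.Agent.ALC.Ode
import Pool.Agent.ALC.Maj

/-!
The analytic section over the disc |x - b| < r free of branch points.
-/

open Polynomial Metric

namespace ALC

/-- `P` converges absolutely at `s` with value `v` -/
private def HS (s : ℂ) (P : PowerSeries ℂ) (v : ℂ) : Prop :=
  Summable (fun k => ‖P.coeff k * s ^ k‖) ∧ ∑' k, P.coeff k * s ^ k = v

private theorem HS.add {s : ℂ} {P Q : PowerSeries ℂ} {u v : ℂ} (hP : HS s P u) (hQ : HS s Q v) :
    HS s (P + Q) (u + v) := by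
  have e : (fun k => (P + Q).coeff k * s ^ k) =
      fun k => P.coeff k * s ^ k + Q.coeff k * s ^ k := by
    funext k
    rw [map_add, add_mul]
  refine ⟨?_, ?_⟩
  · refine Summable.of_nonneg_of_le (fun _ => norm_nonneg _) (fun k => ?_) (hP.1.add hQ.1)
    rw [map_add, add_mul]
    exact norm_add_le _ _
  · rw [e, hP.1.of_norm.tsum_add hQ.1.of_norm, hP.2, hQ.2]

private theorem HS.mul {s : ℂ} {P Q : PowerSeries ℂ} {u v : ℂ} (hP : HS s P u) (hQ : HS s Q v) :
    HS s (P * Q) (u * v) := by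
  have e : (fun k => (P * Q).coeff k * s ^ k) =
      fun n => ∑ kl ∈ Finset.HasAntidiagonal.antidiagonal n, (P.coeff kl.1 * s ^ kl.1) * (Q.coeff kl.2 * s ^ kl.2) := by
    funext n
    rw [PowerSeries.coeff_mul, Finset.sum_mul]
    refine Finset.sum_congr rfl fun kl hkl => ?_
    rw [← Finset.HasAntidiagonal.mem_antidiagonal.1 hkl, pow_add]
    ring
  refine ⟨?_, ?_⟩
  · have h := summable_norm_sum_mul_antidiagonal_of_summable_norm hP.1 hQ.1
    have e' : (fun k => ‖(P * Q).coeff k * s ^ k‖) = fun n => ‖∑ kl ∈ Finset.HasAntidiagonal.antidiagonal n,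
        (P.coeff kl.1 * s ^ kl.1) * (Q.coeff kl.2 * s ^ kl.2)‖ := by
      funext k
      exact congrArg norm (congrFun e k)
    rw [e']
    exact h
  · rw [e, ← tsum_mul_tsum_eq_tsum_sum_antidiagonal_of_summable_norm hP.1 hQ.1, hP.2, hQ.2]

private theorem HS.poly (s : ℂ) (q : ℂ[X]) : HS s (q : PowerSeries ℂ) (q.eval s) := by
  have h0 : ∀ k ∉ Finset.range (q.natDegree + 1), (q : PowerSeries ℂ).coeff k * s ^ k = 0 := by
    intro k hk
    rw [Polynomial.coeff_coe, Polynomial.coeff_eq_zero_of_natDegree_lt (by simpa using hk), zero_mul]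
  refine ⟨?_, ?_⟩
  · refine summable_of_ne_finset_zero (s := Finset.range (q.natDegree + 1)) fun k hk => ?_
    rw [h0 k hk, norm_zero]
  · rw [tsum_eq_sum h0, Polynomial.eval_eq_sum_range]
    refine Finset.sum_congr rfl fun k _ => ?_
    rw [Polynomial.coeff_coe]

private theorem HS.base (b s : ℂ) (q : ℂ[X]) :
    HS s (Polynomial.eval₂RingHom (PowerSeries.C (R := ℂ)) (PowerSeries.C b + PowerSeries.X) q)
      (q.eval (b + s)) := by
  have e : Polynomial.eval₂RingHom (PowerSeries.C (R := ℂ)) (PowerSeries.C b + PowerSeries.X) q =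
      ((q.comp (Polynomial.C b + Polynomial.X) : ℂ[X]) : PowerSeries ℂ) := by
    induction q using Polynomial.induction_on' with
    | add p q hp hq => rw [map_add, hp, hq, Polynomial.add_comp, Polynomial.coe_add]
    | monomial n a =>
      rw [Polynomial.coe_eval₂RingHom, Polynomial.eval₂_monomial, Polynomial.monomial_comp]
      simp
  rw [e]
  have h := HS.poly s (q.comp (Polynomial.C b + Polynomial.X))
  rw [Polynomial.eval_comp] at h
  simpa using h

private theorem HS.pow {s : ℂ} {P : PowerSeries ℂ} {u : ℂ} (hP : HS s P u) (n : ℕ) :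
    HS s (P ^ n) (u ^ n) := by
  induction n with
  | zero =>
    have h := HS.poly s (1 : ℂ[X])
    simpa using h
  | succ n ih =>
    rw [pow_succ, pow_succ]
    exact ih.mul hP

private theorem HS.eval {b s : ℂ} {Y : PowerSeries ℂ} {v : ℂ} (hY : HS s Y v) (F : ℂ[X][X]) :
    HS s (F.eval₂ (Polynomial.eval₂RingHom (PowerSeries.C (R := ℂ))
      (PowerSeries.C b + PowerSeries.X)) Y) ((at_ F (b + s)).eval v) := by
  induction F using Polynomial.induction_on' with
  | add p q hp hq =>
    rw [Polynomial.eval₂_add]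
    have e : (at_ (p + q) (b + s)).eval v = (at_ p (b + s)).eval v + (at_ q (b + s)).eval v := by
      simp [at_]
    rw [e]
    exact hp.add hq
  | monomial n a =>
    rw [Polynomial.eval₂_monomial]
    have e : (at_ (Polynomial.monomial n a) (b + s)).eval v = a.eval (b + s) * v ^ n := by
      simp [at_]
    rw [e]
    exact (HS.base b s a).mul (hY.pow n)

/-- a formal branch that converges is an analytic branch -/
theorem sec_of_bound (F : ℂ[X][X]) (b y0 : ℂ) (Y : PowerSeries ℂ) (hY : IsSer F b y0 Y) (r : ℝ)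
    (hr : 0 < r) (h : ∀ r' : ℝ, 0 < r' → r' < r → ∃ C : ℝ, ∀ k, ‖Y.coeff k‖ ≤ C * (1 / r') ^ k) :
    ∃ f : ℂ → ℂ, DifferentiableOn ℂ f (ball b r) ∧ f b = y0 ∧
      ∀ x ∈ ball b r, (at_ F x).eval (f x) = 0 := by
  classical
  have hbd : ∀ ρ : ℝ, 0 ≤ ρ → ρ < r → ∃ u : ℕ → ℝ, Summable u ∧
      ∀ s : ℂ, ‖s‖ ≤ ρ → ∀ k, ‖Y.coeff k * s ^ k‖ ≤ u k := by
    intro ρ h0 h1
    obtain ⟨C, hC⟩ := h ((ρ + r) / 2) (by linarith) (by linarith)
    have hp : 0 < (ρ + r) / 2 := by linarith
    have hq : ρ / ((ρ + r) / 2) < 1 := by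
      rw [div_lt_one hp]
      linarith
    refine ⟨fun k => C * (ρ / ((ρ + r) / 2)) ^ k,
      (summable_geometric_of_lt_one (div_nonneg h0 hp.le) hq).mul_left C, fun s hs k => ?_⟩
    rw [norm_mul, norm_pow]
    calc ‖Y.coeff k‖ * ‖s‖ ^ k ≤ (C * (1 / ((ρ + r) / 2)) ^ k) * ρ ^ k := by
          refine mul_le_mul (hC k) (pow_le_pow_left₀ (norm_nonneg _) hs k) (by positivity) ?_
          exact le_trans (norm_nonneg _) (hC k)
      _ = C * (ρ / ((ρ + r) / 2)) ^ k := by
          rw [mul_assoc, ← mul_pow]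
          congr 2
          rw [one_div, mul_comm, ← div_eq_mul_inv]
  refine ⟨fun x => ∑' k, Y.coeff k * (x - b) ^ k, ?_, ?_, ?_⟩
  · intro x hx
    have hx' : ‖x - b‖ < r := by
      rw [← dist_eq_norm]
      exact mem_ball.1 hx
    set ρ : ℝ := (‖x - b‖ + r) / 2 with hρ
    have hρ1 : ‖x - b‖ < ρ := by rw [hρ]; linarith
    have hρ2 : ρ < r := by rw [hρ]; linarith
    obtain ⟨u, hu, hle⟩ := hbd ρ (le_trans (norm_nonneg _) hρ1.le) hρ2
    have hd : DifferentiableOn ℂ (fun x => ∑' k, Y.coeff k * (x - b) ^ k) (ball b ρ) := by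
      refine Complex.differentiableOn_tsum_of_summable_norm hu (fun k => ?_) isOpen_ball (fun k w hw => ?_)
      · exact (((differentiable_id.sub_const b).pow k).const_mul _).differentiableOn
      · refine hle _ ?_ k
        rw [← dist_eq_norm]
        exact (mem_ball.1 hw).le
    have hxm : x ∈ ball b ρ := by
      rw [mem_ball, dist_eq_norm]
      exact hρ1
    exact (hd.differentiableAt (isOpen_ball.mem_nhds hxm)).differentiableWithinAt
  · show ∑' k, Y.coeff k * (b - b) ^ k = y0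
    rw [tsum_eq_single 0]
    · simpa using hY.2
    · intro k hk
      rw [sub_self, zero_pow hk, mul_zero]
  · intro x hx
    have hx' : ‖x - b‖ < r := by
      rw [← dist_eq_norm]
      exact mem_ball.1 hx
    obtain ⟨u, hu, hle⟩ := hbd ‖x - b‖ (norm_nonneg _) hx'
    have hs : HS (x - b) Y (∑' k, Y.coeff k * (x - b) ^ k) :=
      ⟨Summable.of_nonneg_of_le (fun _ => norm_nonneg _) (fun k => hle _ le_rfl k) hu, rfl⟩
    have h1 := (hs.eval (b := b) F).2
    have h2 := hY.1
    rw [OnCurve] at h2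
    rw [h2] at h1
    rw [add_sub_cancel] at h1
    rw [← h1]
    simp

/-- assembly: `ode` over `K`, mapped to `ℂ` by `σ`, `majorant`, `sec_of_bound` -/
theorem arch_section {K : Type*} [Field K] [CharZero K] (F : K[X][X]) (hF : F.Monic)
    (hg : GeomIrred F) (A : Finset K) (hun : UnramifiedOutside F A) (b y0 : K)
    (hs : (at_ F b).Separable) (h0 : (at_ F b).eval y0 = 0) (σ : K →+* ℂ) (r : ℝ) (hr : 0 < r)
    (hrA : ∀ a ∈ A, r ≤ ‖σ (b - a)‖) :
    ∃ f : ℂ → ℂ, DifferentiableOn ℂ f (ball (σ b) r) ∧ f (σ b) = σ y0 ∧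
      ∀ x ∈ ball (σ b) r, (at_ (bc σ F) x).eval (f x) = 0 := by
  classical
  obtain ⟨Y, hY⟩ := exists_ser F b y0 hs h0
  obtain ⟨n, D, u, N, w, hD0, hDs, hDA, h1, h2⟩ := ode F hF (irr_rat F hF hg) A hun b y0 Y hY
  have hser : ∀ q : K[X], PowerSeries.map σ (ser b q) = ser (σ b) (q.map σ) := by
    intro q
    rw [ser, ser, ← Polynomial.map_taylor]
    ext k
    simp only [PowerSeries.coeff_map, Polynomial.coeff_coe, Polynomial.coeff_map]
  have hder : ∀ P : PowerSeries K, PowerSeries.map σ (PowerSeries.derivative K P) =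
      PowerSeries.derivative ℂ (PowerSeries.map σ P) := by
    intro P
    ext k
    simp [PowerSeries.coeff_derivative]
  refine sec_of_bound (bc σ F) (σ b) (σ y0) (PowerSeries.map σ Y) (ser_map σ F b y0 Y hY) r hr ?_
  intro r' hr0 hr1
  refine majorant n (σ b) (D.map σ) (fun i => PowerSeries.map σ (u i)) (fun i j => (N i j).map σ)
    (fun j => (w j).map σ) (PowerSeries.map σ Y) ?_ r ?_ ?_ ?_ r' hr0 hr1
  · exact (Polynomial.map_ne_zero_iff σ.injective).2 hD0
  · intro a ha
    have ha' : a ∈ (D.map σ).roots :=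
      (Polynomial.mem_roots ((Polynomial.map_ne_zero_iff σ.injective).2 hD0)).2 ha
    rw [hDs.roots_map_of_injective σ.injective, Multiset.mem_map] at ha'
    obtain ⟨c, hc, rfl⟩ := ha'
    have hcA : c ∈ A := hDA c ((Polynomial.mem_roots hD0).1 hc)
    have h3 := hrA c hcA
    rw [map_sub] at h3
    rw [norm_sub_rev]
    exact h3
  · intro i
    have h3 := congrArg (PowerSeries.map σ) (h1 i)
    rw [map_mul, hser, hder, map_sum] at h3
    rw [h3]
    refine Finset.sum_congr rfl fun j _ => ?_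
    rw [map_mul, hser]
  · have h3 := congrArg (PowerSeries.map σ) h2
    rw [map_mul, hser, map_sum] at h3
    rw [h3]
    refine Finset.sum_congr rfl fun j _ => ?_
    rw [map_mul, hser]

end ALC
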