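import Pool.Agent.ALC.Energy
import Pool.Agent.ALC.Pole
import Pool.Agent.ALC.RInt
import Pool.Agent.ALC.Sec

/-!
The archimedean term: assembly. By `energy` and `pole_id`
l <= - L + int V T - 2 int V rho <= - log r1 + 2 int (- log min(1, |x-b|/r2)) (1/g) K(x - b),
`dens`, `r_int`; r1 -> r2, r2^2/r^2 = g/(g+1).
-/

open Polynomial MeasureTheory Metric

namespace ALC

theorem arch_aux (F : ℂ[X][X]) (hF : F.Monic) (b y0 : ℂ) (hb : (at_ F b).Separable) (g : ℕ)
    (hg : 1 ≤ g) (e : Fin g → ℂ[X][X] × ℂ[X]) (he : IsONB F g e) (G : ℂ → ℂ → ℝ) (l : ℝ)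
    (hG : IsGreen F e b y0 G l) (r : ℝ) (hr : 0 < r) (Y : ℂ → ℂ)
    (hY : DifferentiableOn ℂ Y (ball b r)) (hYb : Y b = y0)
    (hYF : ∀ x ∈ ball b r, (at_ F x).eval (Y x) = 0) (r1 r2 : ℝ) (h1 : 0 < r1) (h12 : r1 < r2)
    (h2 : r2 < r) :
    l ≤ -Real.log r1 - (1 / g) * Real.log (1 - r2 ^ 2 / r ^ 2) := by
  obtain ⟨V, T, L, hP⟩ := pot r1 r2 h1 h12
  have hE := energy F hF b y0 hb g e he G l hG r Y hY hYb hYF r1 r2 h1 h12 h2 V T L hP
  have hI := pole_id F hF b y0 hb g e he G l hG r Y hY hYb hYF r1 r2 h1 h12 h2 V T L hP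
  have hr2 : 0 < r2 := h1.trans h12
  have hg0 : (0 : ℝ) < g := by exact_mod_cast (by omega : 0 < g)
  obtain ⟨S, hS⟩ := dens F hF b hb g e he r Y hY hYF
  set K : ℂ → ℝ := fun s => r ^ 2 / (Real.pi * (r ^ 2 - ‖s‖ ^ 2) ^ 2) with hK
  set W : ℂ → ℝ := fun s => -Real.log (min 1 (‖s‖ / r2)) * K s with hW
  obtain ⟨hint, hval⟩ := r_int r2 r hr2 h2
  have hVT : ∫ x, V (x - b) * T (x - b) ≤ 0 :=
    integral_nonpos fun x => mul_nonpos_of_nonpos_of_nonneg (hP.nonpos _) (hP.nonneg _)
  -- translation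
  have htrans : ∀ f : ℂ → ℝ, ∫ x in ball b r, f (x - b) = ∫ s in ball (0 : ℂ) r, f s := by
    intro f
    have hmp : MeasurePreserving (fun x : ℂ => x - b) volume volume := measurePreserving_sub_right _ b
    have := hmp.setIntegral_preimage_emb (MeasurableEquiv.subRight b).measurableEmbedding f (ball 0 r)
    rw [← this]
    congr 2
    ext x
    simp [dist_eq_norm]
  have hint' : IntegrableOn (fun x => W (x - b)) (ball b r) := by
    have hmp : MeasurePreserving (fun x : ℂ => x - b) volume volume := measurePreserving_sub_right _ b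
    have h := (hmp.integrableOn_comp_preimage (MeasurableEquiv.subRight b).measurableEmbedding
      (f := W) (s := ball 0 r)).2 hint
    have hset : (fun x : ℂ => x - b) ⁻¹' ball 0 r = ball b r := by
      ext x
      simp [dist_eq_norm]
    rw [hset] at h
    exact h
  have hJ : ∫ x in ball b r, -V (x - b) * rho e x (Y x) ≤
      ∫ x in ball b r, (1 / (g : ℝ)) * W (x - b) := by
    apply integral_mono_of_nonneg
    · refine Filter.Eventually.of_forall fun x => mul_nonneg ?_ ?_
      · linarith [hP.nonpos (x - b)]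
      · unfold rho
        positivity
    · exact hint'.const_mul _
    · have hSb : ∀ᵐ x ∂(volume.restrict (ball b r)), x ∉ (insert b S : Finset ℂ) := by
        refine ae_restrict_of_ae ?_
        have h0 : volume ((insert b S : Finset ℂ) : Set ℂ) = 0 := Finset.measure_zero _ _
        rw [ae_iff]
        refine measure_mono_null (fun z hz => ?_) h0
        by_contra hcon
        exact hz (fun hmem => hcon (by exact_mod_cast hmem))
      filter_upwards [hSb, ae_restrict_mem measurableSet_ball] with x hx hxb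
      rw [Finset.mem_insert, not_or] at hx
      have hne : x - b ≠ 0 := sub_ne_zero.2 hx.1
      have hd := hS x hxb hx.2
      have hl := hP.lower (x - b) hne
      have hn := hP.nonpos (x - b)
      have hρ : 0 ≤ rho e x (Y x) := by unfold rho; positivity
      have hKn : 0 ≤ K (x - b) := by
        simp only [hK]
        positivity
      calc -V (x - b) * rho e x (Y x) ≤ -Real.log (min 1 (‖x - b‖ / r2)) *
            (1 / g * (r ^ 2 / (Real.pi * (r ^ 2 - ‖x - b‖ ^ 2) ^ 2))) := by
            apply mul_le_mul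
            · linarith
            · exact hd
            · exact hρ
            · linarith
        _ = 1 / (g : ℝ) * W (x - b) := by
            simp only [hW, hK]
            ring
  have hJ2 : ∫ x in ball b r, (1 / (g : ℝ)) * W (x - b) =
      (1 / g) * (-(1 / 2) * Real.log (1 - r2 ^ 2 / r ^ 2)) := by
    rw [integral_const_mul, htrans W, ← hval]
  have hJ3 : ∫ x in ball b r, -V (x - b) * rho e x (Y x) =
      -∫ x in ball b r, V (x - b) * rho e x (Y x) := by
    rw [← integral_neg]
    congr 1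
    ext x
    ring
  have hL := hP.low
  have hfin : l ≤ -L + 2 * ((1 / g) * (-(1 / 2) * Real.log (1 - r2 ^ 2 / r ^ 2))) := by
    rw [hJ3, hJ2] at hJ
    linarith
  calc l ≤ -L + 2 * ((1 / g) * (-(1 / 2) * Real.log (1 - r2 ^ 2 / r ^ 2))) := hfin
    _ ≤ -Real.log r1 - (1 / g) * Real.log (1 - r2 ^ 2 / r ^ 2) := by
      have : 2 * ((1 / (g : ℝ)) * (-(1 / 2) * Real.log (1 - r2 ^ 2 / r ^ 2))) =
        -((1 / g) * Real.log (1 - r2 ^ 2 / r ^ 2)) := by ring
      rw [this]
      linarith

theorem arch (F : ℂ[X][X]) (hF : F.Monic) (b y0 : ℂ) (hb : (at_ F b).Separable) (g : ℕ)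
    (hg : 1 ≤ g) (e : Fin g → ℂ[X][X] × ℂ[X]) (he : IsONB F g e) (G : ℂ → ℂ → ℝ) (l : ℝ)
    (hG : IsGreen F e b y0 G l) (r : ℝ) (hr : 0 < r) (Y : ℂ → ℂ)
    (hY : DifferentiableOn ℂ Y (ball b r)) (hYb : Y b = y0)
    (hYF : ∀ x ∈ ball b r, (at_ F x).eval (Y x) = 0) :
    l ≤ -Real.log r + (1 / 2) * Real.log (1 + 1 / g) + (1 / g) * Real.log (1 + g) := by
  have hg0 : (0 : ℝ) < g := by exact_mod_cast (by omega : 0 < g)
  set q : ℝ := g / (g + 1) with hq
  have hq0 : 0 < q := by positivity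
  have hq1 : q < 1 := by
    rw [hq, div_lt_one (by positivity)]
    linarith
  set r2 : ℝ := r * Real.sqrt q with hr2
  have hs0 : 0 < Real.sqrt q := Real.sqrt_pos.2 hq0
  have hs1 : Real.sqrt q < 1 := by
    rw [Real.sqrt_lt' one_pos]
    simpa using hq1
  have hr20 : 0 < r2 := by positivity
  have hr2r : r2 < r := by
    rw [hr2]
    nlinarith
  have h1 : 1 - r2 ^ 2 / r ^ 2 = 1 / (1 + g) := by
    rw [hr2, mul_pow, Real.sq_sqrt hq0.le, hq]
    field_simp
    ring
  have hkey : ∀ r1 : ℝ, 0 < r1 → r1 < r2 → l ≤ -Real.log r1 + (1 / g) * Real.log (1 + g) := by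
    intro r1 h10 h12
    have := arch_aux F hF b y0 hb g hg e he G l hG r hr Y hY hYb hYF r1 r2 h10 h12 hr2r
    rw [h1, one_div (1 + (g : ℝ)), Real.log_inv] at this
    linarith
  have hlim : l ≤ -Real.log r2 + (1 / g) * Real.log (1 + g) := by
    have hcont : ContinuousAt (fun r1 : ℝ => -Real.log r1 + (1 / g) * Real.log (1 + g)) r2 :=
      ((Real.continuousAt_log hr20.ne').neg).add continuousAt_const
    refine ge_of_tendsto (hcont.tendsto.mono_left (nhdsWithin_le_nhds (s := Set.Iio r2))) ?_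
    filter_upwards [self_mem_nhdsWithin, nhdsWithin_le_nhds (Ioi_mem_nhds hr20)] with r1 h12 h10
    exact hkey r1 h10 h12
  have h2 : Real.log r2 = Real.log r + (1 / 2) * Real.log q := by
    rw [hr2, Real.log_mul hr.ne' hs0.ne', Real.log_sqrt hq0.le]
    ring
  have h3 : Real.log q = -Real.log (1 + 1 / g) := by
    rw [← Real.log_inv, hq]
    congr 1
    field_simp
  rw [h2, h3] at hlim
  linarith

end ALC
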