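import Pool.Agent.ALC.Defs

/-!
Formal branches: existence (Hensel in k[[s]], e.g. by Newton or coefficient by coefficient, or
Mathlib's Hensel for adically complete rings), uniqueness, base change.
-/

open Polynomial

namespace ALC

variable {k l : Type*} [Field k] [Field l]

/-- `Y` is the formal branch of `F(b + s, Y) = 0` with constant term `y0`. -/
def IsSer (F : k[X][X]) (b y0 : k) (Y : PowerSeries k) : Prop :=
  OnCurve F (PowerSeries.C b + PowerSeries.X) Y ∧ Y.coeff 0 = y0

/-- The expansion at `b` of a polynomial. -/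
noncomputable def ser (b : k) (q : k[X]) : PowerSeries k := ((taylor b q : k[X]) : PowerSeries k)

/-- The homomorphism `q ↦ q(b + s)`. -/
private noncomputable def phi (b : k) : k[X] →+* PowerSeries k :=
  Polynomial.eval₂RingHom (PowerSeries.C (R := k)) (PowerSeries.C b + PowerSeries.X)

private theorem cc_phi (b : k) : (PowerSeries.constantCoeff (R := k)).comp (phi b) = evalRingHom b := by
  apply Polynomial.ringHom_ext
  · intro a
    simp [phi]
  · simp [phi]

private theorem onCurve_iff (F : k[X][X]) (b : k) (Y : PowerSeries k) :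
    OnCurve F (PowerSeries.C b + PowerSeries.X) Y ↔ (F.map (phi b)).eval Y = 0 := by
  rw [Polynomial.eval_map]
  rfl

private theorem cc_eval (F : k[X][X]) (b : k) (Y : PowerSeries k) :
    PowerSeries.constantCoeff ((F.map (phi b)).eval Y)
      = (at_ F b).eval (PowerSeries.constantCoeff Y) := by
  rw [← Polynomial.eval_map_apply, Polynomial.map_map, cc_phi]
  rfl

private theorem cc_der (F : k[X][X]) (b : k) (Y : PowerSeries k) :
    PowerSeries.constantCoeff ((F.map (phi b)).derivative.eval Y)
      = (at_ F b).derivative.eval (PowerSeries.constantCoeff Y) := by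
  rw [← Polynomial.eval_map_apply, ← Polynomial.derivative_map, Polynomial.map_map, cc_phi]
  rfl

private theorem der_ne (F : k[X][X]) (b y0 : k) (hs : (at_ F b).Separable)
    (h0 : (at_ F b).eval y0 = 0) : (at_ F b).derivative.eval y0 ≠ 0 := by
  intro h1
  obtain ⟨p, q, hpq⟩ := hs
  have := congrArg (Polynomial.eval y0) hpq
  rw [Polynomial.eval_add, Polynomial.eval_mul, Polynomial.eval_mul, h0, h1] at this
  simp at this

theorem exists_ser (F : k[X][X]) (b y0 : k) (hs : (at_ F b).Separable)
    (h0 : (at_ F b).eval y0 = 0) : ∃ Y, IsSer F b y0 Y := by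
  have hu := der_ne F b y0 hs h0
  set u : k := (at_ F b).derivative.eval y0 with hudef
  set P := F.map (phi b) with hP
  let c : ℕ → PowerSeries k := fun n => Nat.recOn n (PowerSeries.C y0)
    fun _ Z => Z - PowerSeries.C u⁻¹ * P.eval Z
  have hc : ∀ n, c (n + 1) = c n - PowerSeries.C u⁻¹ * P.eval (c n) := fun n => rfl
  have hcc : ∀ n, PowerSeries.constantCoeff (c n) = y0 := by
    intro n
    induction n with
    | zero => simp [c]
    | succ n ih =>
      rw [hc, map_sub, map_mul, hP, cc_eval, ih, h0]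
      simp
  have hdiv : ∀ n, PowerSeries.X ^ (n + 1) ∣ P.eval (c n) := by
    intro n
    induction n with
    | zero =>
      rw [zero_add, pow_one, PowerSeries.X_dvd_iff, hP, cc_eval, hcc, h0]
    | succ n ih =>
      obtain ⟨m, hm⟩ := Polynomial.binomExpansion P (c n) (-(PowerSeries.C u⁻¹ * P.eval (c n)))
      have e : P.eval (c (n + 1)) = P.eval (c n) * (1 - PowerSeries.C u⁻¹ *
          P.derivative.eval (c n)) + m * (PowerSeries.C u⁻¹ ^ 2 * P.eval (c n) ^ 2) := by
        rw [hc, sub_eq_add_neg, hm]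
        ring
      rw [e]
      refine dvd_add ?_ ?_
      · rw [pow_succ (PowerSeries.X : PowerSeries k) (n + 1)]
        refine mul_dvd_mul ih ?_
        rw [PowerSeries.X_dvd_iff, map_sub, map_mul, hP, cc_der, hcc, ← hudef]
        simp [hu]
      · refine Dvd.dvd.mul_left (Dvd.dvd.mul_left ?_ _) _
        refine (pow_dvd_pow _ (by omega : n + 1 + 1 ≤ (n + 1) * 2)).trans ?_
        rw [pow_mul]
        exact pow_dvd_pow_of_dvd ih 2
  have hstep : ∀ n, PowerSeries.X ^ (n + 1) ∣ c (n + 1) - c n := by
    intro n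
    rw [hc, sub_sub_cancel_left, dvd_neg]
    exact Dvd.dvd.mul_left (hdiv n) _
  have hstab : ∀ n m, n ≤ m → PowerSeries.X ^ (n + 1) ∣ c m - c n := by
    intro n m hnm
    induction m, hnm using Nat.le_induction with
    | base => simp
    | succ m hnm ih =>
      have h1 : PowerSeries.X ^ (n + 1) ∣ c (m + 1) - c m :=
        (pow_dvd_pow _ (by omega)).trans (hstep m)
      have := dvd_add h1 ih
      rwa [sub_add_sub_cancel] at this
  let Y : PowerSeries k := PowerSeries.mk fun n => (c n).coeff n
  have hY : ∀ n, PowerSeries.X ^ (n + 1) ∣ Y - c n := by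
    intro n
    rw [PowerSeries.X_pow_dvd_iff]
    intro i hi
    have h1 := (PowerSeries.X_pow_dvd_iff.1 (hstab i n (by omega))) i (by omega)
    rw [map_sub] at h1 ⊢
    rw [PowerSeries.coeff_mk]
    rw [sub_eq_zero] at h1 ⊢
    exact h1.symm
  refine ⟨Y, (onCurve_iff F b Y).2 ?_, ?_⟩
  · rw [← hP]
    ext n
    have h1 : PowerSeries.X ^ (n + 1) ∣ P.eval Y - P.eval (c n) :=
      (hY n).trans (Polynomial.sub_dvd_eval_sub _ _ P)
    have h2 : PowerSeries.X ^ (n + 1) ∣ P.eval Y := by
      have := dvd_add h1 (hdiv n)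
      rwa [sub_add_cancel] at this
    exact (PowerSeries.X_pow_dvd_iff.1 h2) n (by omega)
  · rw [PowerSeries.coeff_mk]
    simpa using hcc 0

theorem ser_unique (F : k[X][X]) (b y0 : k) (hs : (at_ F b).Separable) (Y Z : PowerSeries k)
    (hY : IsSer F b y0 Y) (hZ : IsSer F b y0 Z) : Y = Z := by
  have hY1 := (onCurve_iff F b Y).1 hY.1
  have hZ1 := (onCurve_iff F b Z).1 hZ.1
  have hYc : PowerSeries.constantCoeff Y = y0 := by simpa using hY.2
  have hZc : PowerSeries.constantCoeff Z = y0 := by simpa using hZ.2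
  have h0 : (at_ F b).eval y0 = 0 := by
    rw [← hYc, ← cc_eval, hY1, map_zero]
  have hu := der_ne F b y0 hs h0
  obtain ⟨m, hm⟩ := Polynomial.binomExpansion (F.map (phi b)) Z (Y - Z)
  rw [add_sub_cancel, hY1, hZ1, zero_add] at hm
  have e : (Y - Z) * ((F.map (phi b)).derivative.eval Z + m * (Y - Z)) = 0 := by
    rw [hm]
    ring
  rcases mul_eq_zero.1 e with h | h
  · exact sub_eq_zero.1 h
  · exfalso
    have h1 := congrArg (PowerSeries.constantCoeff (R := k)) h
    rw [map_add, map_mul, map_sub, cc_der, hYc, hZc, sub_self, mul_zero, add_zero, map_zero] at h1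
    exact hu h1

theorem ser_map (σ : k →+* l) (F : k[X][X]) (b y0 : k) (Y : PowerSeries k) (hY : IsSer F b y0 Y) :
    IsSer (bc σ F) (σ b) (σ y0) (PowerSeries.map σ Y) := by
  refine ⟨?_, ?_⟩
  · have h1 := congrArg (PowerSeries.map σ) hY.1
    rw [map_zero, Polynomial.hom_eval₂] at h1
    have e : (Polynomial.eval₂RingHom (PowerSeries.C (R := l)) (PowerSeries.C (σ b) +
        PowerSeries.X)).comp (mapRingHom σ) = (PowerSeries.map σ).comp
          (Polynomial.eval₂RingHom (PowerSeries.C (R := k)) (PowerSeries.C b + PowerSeries.X)) := by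
      apply Polynomial.ringHom_ext
      · intro a
        simp
      · simp
    rw [← e, ← Polynomial.eval₂_map] at h1
    exact h1
  · rw [PowerSeries.coeff_map, hY.2]

theorem at_bc (σ : k →+* l) (F : k[X][X]) (x : k) : at_ (bc σ F) (σ x) = (at_ F x).map σ := by
  unfold at_ bc
  rw [Polynomial.map_map, Polynomial.map_map]
  congr 1
  apply Polynomial.ringHom_ext
  · intro a
    simp
  · simp

theorem sep_bc (σ : k →+* l) (F : k[X][X]) (x : k) (h : (at_ F x).Separable) :
    (at_ (bc σ F) (σ x)).Separable := by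
  rw [at_bc]
  exact h.map

end ALC
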