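import Pool.Agent.ALC.Irr
import Pool.Agent.ALC.Ser

/-!
Base change of an integral basis and of the formal branch along x = b + eta s, K -> L.
-/

open Polynomial

namespace ALC

private theorem repr_comm {R S R' S' ι : Type*} [CommRing R] [CommRing S] [CommRing R']
    [CommRing S'] [Algebra R S] [Algebra R' S'] [Fintype ι] (β : Module.Basis ι R S)
    (β' : Module.Basis ι R' S') (ψ : R →+* R') (Φ : S →+* S') (hb : ∀ i, Φ (β i) = β' i)
    (hψ : ∀ r, Φ (algebraMap R S r) = algebraMap R' S' (ψ r)) (s : S) (i : ι) :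
    β'.repr (Φ s) i = ψ (β.repr s i) := by
  classical
  have h1 : Φ s = ∑ k, ψ (β.repr s k) • β' k := by
    conv_lhs => rw [← β.sum_repr s]
    rw [map_sum]
    refine Finset.sum_congr rfl fun k _ => ?_
    rw [Algebra.smul_def, map_mul, hψ, hb, Algebra.smul_def]
  rw [h1, β'.repr_sum_self]

private theorem trace_comm {R S R' S' ι : Type*} [CommRing R] [CommRing S] [CommRing R']
    [CommRing S'] [Algebra R S] [Algebra R' S'] [Fintype ι] (β : Module.Basis ι R S)
    (β' : Module.Basis ι R' S') (ψ : R →+* R') (Φ : S →+* S') (hb : ∀ i, Φ (β i) = β' i)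
    (hψ : ∀ r, Φ (algebraMap R S r) = algebraMap R' S' (ψ r)) (s : S) :
    Algebra.trace R' S' (Φ s) = ψ (Algebra.trace R S s) := by
  classical
  rw [Algebra.trace_eq_matrix_trace β', Algebra.trace_eq_matrix_trace β, Matrix.trace,
    Matrix.trace, map_sum]
  refine Finset.sum_congr rfl fun i _ => ?_
  rw [Matrix.diag_apply, Matrix.diag_apply, Algebra.leftMulMatrix_eq_repr_mul,
    Algebra.leftMulMatrix_eq_repr_mul, ← hb, ← map_mul, repr_comm β β' ψ Φ hb hψ]

private theorem discr_comm {R S R' S' ι κ : Type*} [CommRing R] [CommRing S] [CommRing R']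
    [CommRing S'] [Algebra R S] [Algebra R' S'] [Fintype ι] [Fintype κ] [DecidableEq κ]
    (β : Module.Basis ι R S)
    (β' : Module.Basis ι R' S') (ψ : R →+* R') (Φ : S →+* S') (hb : ∀ i, Φ (β i) = β' i)
    (hψ : ∀ r, Φ (algebraMap R S r) = algebraMap R' S' (ψ r)) (θ : κ → S) :
    Algebra.discr R' (fun k => Φ (θ k)) = ψ (Algebra.discr R θ) := by
  rw [Algebra.discr_def, Algebra.discr_def, RingHom.map_det]
  congr 1
  ext i k
  rw [RingHom.mapMatrix_apply, Matrix.map_apply, Algebra.traceMatrix_apply,
    Algebra.traceMatrix_apply, Algebra.traceForm_apply, Algebra.traceForm_apply, ← map_mul,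
    trace_comm β β' ψ Φ hb hψ]

private theorem sub_inj {K L : Type*} [Field K] [Field L] (j : K →+* L) (b η : L) (hη : η ≠ 0) :
    Function.Injective (sub j b η) := by
  rw [injective_iff_map_eq_zero]
  intro p hp
  have h1 : (p.map j).comp (C b + C η * X) = 0 := by
    rw [← hp]
    simp [sub, Polynomial.comp, Polynomial.eval₂_map]
  rw [Polynomial.comp_eq_zero_iff] at h1
  rcases h1 with h1 | ⟨-, h1⟩
  · exact (Polynomial.map_eq_zero_iff j.injective).1 h1
  · exfalso
    have h2 := congrArg (fun q => Polynomial.coeff q 1) h1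
    simp only [coeff_add, coeff_C_mul, coeff_X_one, mul_one, coeff_C_succ, zero_add] at h2
    exact hη h2

/-- The function field homomorphism `K(x)[y]/F → L(s)[y]/F(b + η s, y)` maps `θ` to integral
elements with discriminant `Δ(b + η s)`. -/
theorem base_change {K L : Type*} [Field K] [Field L] [CharZero K] (j : K →+* L) (F : K[X][X])
    (hF : F.Monic) (b η : L) (hη : η ≠ 0) (θ : Fin F.natDegree → FF F)
    (hθ : ∀ i, IsIntegral K[X] (θ i)) (Δ : K[X])
    (hd : Algebra.discr (RatFunc K) θ = algebraMap K[X] (RatFunc K) Δ) :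
    ∃ θ' : Fin (F.map (sub j b η)).natDegree → FF (F.map (sub j b η)),
      (∀ i, IsIntegral L[X] (θ' i)) ∧
      Algebra.discr (RatFunc L) θ' = algebraMap L[X] (RatFunc L) (sub j b η Δ) := by
  classical
  have key : ∀ d' : ℕ, d' = F.natDegree → ∃ θ' : Fin d' → FF (F.map (sub j b η)),
      (∀ i, IsIntegral L[X] (θ' i)) ∧
      Algebra.discr (RatFunc L) θ' = algebraMap L[X] (RatFunc L) (sub j b η Δ) := by
    intro d' hd'
    subst hd'
    have hinj : Function.Injective ((algebraMap L[X] (RatFunc L)).comp (sub j b η)) := by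
      rw [RingHom.coe_comp]
      exact (RatFunc.algebraMap_injective L).comp (sub_inj j b η hη)
    let ψ : RatFunc K →+* RatFunc L := IsFractionRing.lift hinj
    have hψ : ∀ p : K[X], ψ (algebraMap K[X] (RatFunc K) p) =
        algebraMap L[X] (RatFunc L) (sub j b η p) := fun p =>
      IsFractionRing.lift_algebraMap hinj p
    have hψ' : ψ.comp (algebraMap K[X] (RatFunc K)) =
        (algebraMap L[X] (RatFunc L)).comp (sub j b η) := RingHom.ext hψ
    set g : (RatFunc K)[X] := F.map (algebraMap K[X] (RatFunc K)) with hg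
    set g' : (RatFunc L)[X] := (F.map (sub j b η)).map (algebraMap L[X] (RatFunc L)) with hg'
    have hgg : g.map ψ = g' := by
      rw [hg, hg', Polynomial.map_map, Polynomial.map_map, hψ']
    have hgm : g.Monic := hF.map _
    have hgm' : g'.Monic := (hF.map _).map _
    have hroot : g.eval₂ ((AdjoinRoot.of g').comp ψ) (AdjoinRoot.root g') = 0 := by
      rw [← Polynomial.eval₂_map, hgg]
      exact AdjoinRoot.eval₂_root g'
    let Φ : AdjoinRoot g →+* AdjoinRoot g' :=
      AdjoinRoot.lift ((AdjoinRoot.of g').comp ψ) (AdjoinRoot.root g') hroot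
    have hΦr : Φ (AdjoinRoot.root g) = AdjoinRoot.root g' := AdjoinRoot.lift_root hroot
    have hΦa : ∀ r, Φ (algebraMap (RatFunc K) (AdjoinRoot g) r) =
        algebraMap (RatFunc L) (AdjoinRoot g') (ψ r) := by
      intro r
      rw [AdjoinRoot.algebraMap_eq, AdjoinRoot.algebraMap_eq]
      exact AdjoinRoot.lift_of hroot
    have hΦp : ∀ p : K[X], Φ (algebraMap K[X] (AdjoinRoot g) p) =
        algebraMap L[X] (AdjoinRoot g') (sub j b η p) := by
      intro p
      rw [IsScalarTower.algebraMap_apply K[X] (RatFunc K) (AdjoinRoot g), hΦa, hψ,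
        ← IsScalarTower.algebraMap_apply L[X] (RatFunc L) (AdjoinRoot g')]
    let pb := AdjoinRoot.powerBasis' hgm
    let pb' := AdjoinRoot.powerBasis' hgm'
    have hdim : pb'.dim = pb.dim := by
      change g'.natDegree = g.natDegree
      rw [← hgg, hgm.natDegree_map]
    let β' : Module.Basis (Fin pb.dim) (RatFunc L) (AdjoinRoot g') :=
      pb'.basis.reindex (finCongr hdim)
    have hb : ∀ i, Φ (pb.basis i) = β' i := by
      intro i
      rw [pb.basis_eq_pow, map_pow, Module.Basis.reindex_apply, pb'.basis_eq_pow]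
      change Φ (AdjoinRoot.root g) ^ (i : ℕ) = AdjoinRoot.root g' ^ (i : ℕ)
      rw [hΦr]
    refine ⟨fun i => Φ (θ i), ?_, ?_⟩
    · intro i
      obtain ⟨q, hqm, hq⟩ := hθ i
      refine ⟨q.map (sub j b η), hqm.map _, ?_⟩
      have h1 := congrArg Φ hq
      rw [map_zero, Polynomial.hom_eval₂] at h1
      rw [Polynomial.eval₂_map]
      rw [← h1]
      congr 1
      exact RingHom.ext fun p => (hΦp p).symm
    · have h2 := discr_comm pb.basis β' ψ Φ hb hΦa θ
      rw [hd, hψ] at h2
      exact h2
  exact key _ (hF.natDegree_map _)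

private theorem rescale_C' {L : Type*} [Field L] (η a : L) :
    PowerSeries.rescale η (PowerSeries.C a) = PowerSeries.C a := by
  ext k
  rw [PowerSeries.coeff_rescale, PowerSeries.coeff_C]
  split_ifs with h
  · rw [h, pow_zero, one_mul]
  · rw [mul_zero]

/-- The formal branch after the substitution. -/
theorem ser_sub {K L : Type*} [Field K] [Field L] (j : K →+* L) (F : K[X][X])
    (b y0 : K) (η : L) (Y : PowerSeries K) (hY : IsSer F b y0 Y) :
    IsSer (F.map (sub j (j b) η)) 0 (j y0)
      (PowerSeries.mk fun k => η ^ k * j (Y.coeff k)) := by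
  have hZ : (PowerSeries.mk fun k => η ^ k * j (Y.coeff k)) =
      ((PowerSeries.rescale η).comp (PowerSeries.map j)) Y := by
    ext k
    simp [PowerSeries.coeff_rescale]
  refine ⟨?_, ?_⟩
  · have h1 := congrArg ((PowerSeries.rescale η).comp (PowerSeries.map j)) hY.1
    rw [map_zero, Polynomial.hom_eval₂] at h1
    rw [hZ, OnCurve, Polynomial.eval₂_map, ← h1]
    congr 1
    apply Polynomial.ringHom_ext
    · intro a
      simp [sub, rescale_C']
    · simp [sub, PowerSeries.rescale_X, rescale_C']
  · rw [PowerSeries.coeff_mk, pow_zero, one_mul, hY.2]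

theorem at_sub {K L : Type*} [Field K] [Field L] (j : K →+* L) (F : K[X][X]) (b : K) (η : L) :
    at_ (F.map (sub j (j b) η)) 0 = (at_ F b).map j := by
  unfold at_
  rw [Polynomial.map_map, Polynomial.map_map]
  congr 1
  apply Polynomial.ringHom_ext
  · intro a
    simp [sub]
  · simp [sub]

end ALC
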