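import Pool.Agent.ALC.Ser

/-!
Coordinates with respect to a basis of integral elements: for f integral over k[x],
Delta f is a combination of the theta_j with coefficients in k[x] (Tr(f theta_i) in k[x], Cramer).
-/

open Polynomial

namespace ALC

variable {k : Type*} [Field k] [CharZero k]

theorem coord (F : k[X][X]) (hF : F.Monic)
    (hirr : Irreducible (F.map (algebraMap k[X] (RatFunc k))))
    (θ : Fin F.natDegree → FF F) (hθ : ∀ i, IsIntegral k[X] (θ i)) (Δ : k[X]) (hΔ : Δ ≠ 0)
    (hd : Algebra.discr (RatFunc k) θ = algebraMap k[X] (RatFunc k) Δ)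
    (f : FF F) (hf : IsIntegral k[X] f) :
    ∃ q : Fin F.natDegree → k[X],
      algebraMap k[X] (FF F) Δ * f = ∑ j, algebraMap k[X] (FF F) (q j) * θ j := by
  classical
  have : Fact (Irreducible (F.map (algebraMap k[X] (RatFunc k)))) := ⟨hirr⟩
  have hinj : Function.Injective (algebraMap k[X] (RatFunc k)) :=
    IsFractionRing.injective k[X] (RatFunc k)
  have hfin : Module.Finite (RatFunc k) (FF F) :=
    (AdjoinRoot.powerBasis hirr.ne_zero).finite
  have hrank : Module.finrank (RatFunc k) (FF F) = F.natDegree := by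
    rw [(AdjoinRoot.powerBasis hirr.ne_zero).finrank, AdjoinRoot.powerBasis_dim,
      hF.natDegree_map]
  -- integral traces
  have htr : ∀ x : FF F, IsIntegral k[X] x →
      ∃ t : k[X], algebraMap k[X] (RatFunc k) t = Algebra.trace (RatFunc k) (FF F) x := by
    intro x hx
    have h1 : IsIntegral k[X] (Algebra.trace (RatFunc k) (FF F) x) :=
      Algebra.isIntegral_trace hx
    exact IsIntegrallyClosed.isIntegral_iff.1 h1
  choose t ht using fun i j => htr (θ i * θ j) ((hθ i).mul (hθ j))
  choose s hs using fun i => htr (θ i * f) ((hθ i).mul hf)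
  set TA : Matrix (Fin F.natDegree) (Fin F.natDegree) k[X] := Matrix.of t with hTA
  have hT : TA.map (algebraMap k[X] (RatFunc k)) = Algebra.traceMatrix (RatFunc k) θ := by
    ext i j
    rw [Matrix.map_apply, hTA, Matrix.of_apply, ht, Algebra.traceMatrix_apply,
      Algebra.traceForm_apply]
  have hdet : TA.det = Δ := by
    apply hinj
    rw [← hd, Algebra.discr_def, ← hT]
    exact RingHom.map_det _ _
  have hli : LinearIndependent (RatFunc k) θ := by
    by_contra hcon
    have h1 := Algebra.discr_zero_of_not_linearIndependent (RatFunc k) hcon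
    rw [hd] at h1
    exact hΔ (hinj (by rw [h1, map_zero]))
  have hpos : 0 < F.natDegree := by
    rw [← hrank]
    exact Module.finrank_pos
  have hne : Nonempty (Fin F.natDegree) := ⟨⟨0, hpos⟩⟩
  obtain ⟨B, hB⟩ : ∃ B : Module.Basis (Fin F.natDegree) (RatFunc k) (FF F), ∀ i, B i = θ i :=
    ⟨basisOfLinearIndependentOfCardEqFinrank hli (by rw [Fintype.card_fin, hrank]), fun i => by
      rw [coe_basisOfLinearIndependentOfCardEqFinrank]⟩
  set c : Fin F.natDegree → RatFunc k := fun j => B.repr f j with hc
  have hf2 : f = ∑ j, c j • θ j := by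
    have h1 := B.sum_repr f
    rw [← h1]
    refine Finset.sum_congr rfl fun j _ => ?_
    rw [hB, hc]
  have hTc : (TA.map (algebraMap k[X] (RatFunc k))).mulVec c =
      fun i => algebraMap k[X] (RatFunc k) (s i) := by
    funext i
    rw [hs, Matrix.mulVec, dotProduct]
    have h1 : θ i * f = ∑ j, c j • (θ i * θ j) := by
      conv_lhs => rw [hf2]
      rw [Finset.mul_sum]
      refine Finset.sum_congr rfl fun j _ => ?_
      rw [mul_smul_comm]
    rw [h1, map_sum]
    refine Finset.sum_congr rfl fun j _ => ?_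
    rw [map_smul, Matrix.map_apply, hTA, Matrix.of_apply, ht, smul_eq_mul, mul_comm]
  set q : Fin F.natDegree → k[X] := (TA.adjugate).mulVec s with hq
  have hqc : ∀ j, algebraMap k[X] (RatFunc k) (q j) = algebraMap k[X] (RatFunc k) Δ * c j := by
    have h1 : ((TA.map (algebraMap k[X] (RatFunc k))).adjugate).mulVec
        ((TA.map (algebraMap k[X] (RatFunc k))).mulVec c) =
        (TA.map (algebraMap k[X] (RatFunc k))).det • c := by
      rw [Matrix.mulVec_mulVec, Matrix.adjugate_mul, Matrix.smul_mulVec, Matrix.one_mulVec]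
    have h2 : (TA.map (algebraMap k[X] (RatFunc k))).det = algebraMap k[X] (RatFunc k) Δ := by
      rw [← hdet]
      exact (RingHom.map_det _ _).symm
    rw [hTc, h2] at h1
    intro j
    have h3 := congrFun h1 j
    rw [Pi.smul_apply, smul_eq_mul] at h3
    rw [← h3, hq, Matrix.mulVec, dotProduct, map_sum, Matrix.mulVec, dotProduct]
    refine Finset.sum_congr rfl fun i _ => ?_
    rw [map_mul]
    congr 1
    have h4 : (TA.map (algebraMap k[X] (RatFunc k))).adjugate =
        TA.adjugate.map (algebraMap k[X] (RatFunc k)) :=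
      ((algebraMap k[X] (RatFunc k)).map_adjugate TA).symm
    rw [h4, Matrix.map_apply]
  refine ⟨q, ?_⟩
  conv_lhs => rw [hf2]
  rw [Finset.mul_sum]
  refine Finset.sum_congr rfl fun j _ => ?_
  rw [IsScalarTower.algebraMap_apply k[X] (RatFunc k) (FF F) (q j), hqc,
    IsScalarTower.algebraMap_apply k[X] (RatFunc k) (FF F) Δ, map_mul, Algebra.smul_def, mul_assoc]

end ALC
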