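import Mathlib

/-!
Logarithmic cut-off functions in the plane. Radial functions chi(x) = theta(log |x| / L) with
theta a smooth step: int |Delta chi| = 2 pi int |theta''| / L, so it tends to 0 as L -> oo, and
int |grad chi| <= 2 pi sup r int |theta'| -> 0 if the support shrinks to 0.
-/

open MeasureTheory Filter Topology

namespace ALC

/-- the step function -/
private noncomputable def Cut_th : ℝ → ℝ := Real.smoothTransition

private theorem Cut_th_cd (n : ℕ∞) : ContDiff ℝ n Cut_th := Real.smoothTransition.contDiff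

private theorem Cut_th_diff (t : ℝ) : HasDerivAt Cut_th (deriv Cut_th t) t :=
  ((Cut_th_cd 1).differentiable (by norm_num) t).hasDerivAt

private theorem Cut_th_cd1 : ContDiff ℝ 1 (deriv Cut_th) := by
  have h : ContDiff ℝ (1 + 1 : ℕ∞) Cut_th := Cut_th_cd _
  have h2 : ContDiff ℝ ((1 : WithTop ℕ∞) + 1) Cut_th := by exact_mod_cast h
  exact (contDiff_succ_iff_deriv.1 h2).2.2

private theorem Cut_th_diff2 (t : ℝ) : HasDerivAt (deriv Cut_th) (deriv (deriv Cut_th) t) t :=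
  (Cut_th_cd1.differentiable (by norm_num) t).hasDerivAt

private theorem Cut_th_cont2 : Continuous (deriv (deriv Cut_th)) := by
  have h2 : ContDiff ℝ ((0 : WithTop ℕ∞) + 1) (deriv Cut_th) := by simpa using Cut_th_cd1
  exact (contDiff_succ_iff_deriv.1 h2).2.2.continuous

private theorem Cut_out (t : ℝ) (ht : t < 0 ∨ 1 < t) : deriv Cut_th =ᶠ[𝓝 t] fun _ => 0 := by
  rcases ht with ht | ht
  · have h1 : ∀ᶠ s in 𝓝 t, s < 0 := gt_mem_nhds ht
    filter_upwards [h1.eventually_nhds] with s hs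
    have h2 : Cut_th =ᶠ[𝓝 s] fun _ => 0 := by
      filter_upwards [hs] with r hr
      exact Real.smoothTransition.zero_of_nonpos hr.le
    rw [h2.deriv_eq]
    simp
  · have h1 : ∀ᶠ s in 𝓝 t, 1 < s := lt_mem_nhds ht
    filter_upwards [h1.eventually_nhds] with s hs
    have h2 : Cut_th =ᶠ[𝓝 s] fun _ => 1 := by
      filter_upwards [hs] with r hr
      exact Real.smoothTransition.one_of_one_le hr.le
    rw [h2.deriv_eq]
    simp

private theorem Cut_bd : ∃ M : ℝ, 0 ≤ M ∧ ∀ t, |deriv Cut_th t| ≤ 2 * M / (1 + t ^ 2) ∧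
    |deriv (deriv Cut_th) t| ≤ 2 * M / (1 + t ^ 2) := by
  obtain ⟨M1, hM1⟩ := isCompact_Icc.exists_bound_of_continuousOn (s := Set.Icc (0 : ℝ) 1)
    Cut_th_cd1.continuous.continuousOn
  obtain ⟨M2, hM2⟩ := isCompact_Icc.exists_bound_of_continuousOn (s := Set.Icc (0 : ℝ) 1)
    Cut_th_cont2.continuousOn
  have hM10 : 0 ≤ M1 := (norm_nonneg _).trans (hM1 0 (by simp))
  have hM20 : 0 ≤ M2 := (norm_nonneg _).trans (hM2 0 (by simp))
  refine ⟨M1 + M2, by positivity, fun t => ?_⟩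
  by_cases ht : t ∈ Set.Icc (0 : ℝ) 1
  · have h1 := hM1 t ht
    have h2 := hM2 t ht
    rw [Real.norm_eq_abs] at h1 h2
    have h3 : t ^ 2 ≤ 1 := by nlinarith [ht.1, ht.2]
    have h4 : M1 + M2 ≤ 2 * (M1 + M2) / (1 + t ^ 2) := by
      rw [le_div_iff₀ (by positivity)]
      nlinarith
    constructor <;> linarith
  · have h1 : t < 0 ∨ 1 < t := by
      by_contra hcon
      push Not at hcon
      exact ht ⟨hcon.1, hcon.2⟩
    have h2 := Cut_out t h1
    have h3 : deriv Cut_th t = 0 := h2.self_of_nhds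
    have h4 : deriv (deriv Cut_th) t = 0 := by rw [h2.deriv_eq]; simp
    rw [h3, h4]
    constructor <;> · rw [abs_zero]; positivity

/-- the argument of the step -/
private noncomputable def Cut_u (c a L : ℝ) (x : ℂ) : ℝ := L⁻¹ * (Real.log (‖x‖ ^ 2 + c) - a)

private noncomputable def Cut_chi (c a L : ℝ) (x : ℂ) : ℝ := Cut_th (Cut_u c a L x)

private theorem Cut_q_pos {c : ℝ} (hc : 0 < c) (x : ℂ) : 0 < ‖x‖ ^ 2 + c := by positivity

private theorem Cut_u_cd {c : ℝ} (hc : 0 < c) (a L : ℝ) : ContDiff ℝ 2 (Cut_u c a L) := by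
  unfold Cut_u
  refine contDiff_const.mul (ContDiff.sub ?_ contDiff_const)
  exact ((contDiff_norm_sq ℝ).add contDiff_const).log fun x => (Cut_q_pos hc x).ne'

private theorem Cut_chi_cd {c : ℝ} (hc : 0 < c) (a L : ℝ) : ContDiff ℝ 2 (Cut_chi c a L) := by
  have h : ContDiff ℝ 2 Cut_th := Cut_th_cd 2
  exact h.comp (Cut_u_cd hc a L)

private theorem Cut_q_deriv (c : ℝ) (x : ℂ) :
    HasFDerivAt (fun x : ℂ => ‖x‖ ^ 2 + c) (2 • (innerSL ℝ x)) x :=
  (hasStrictFDerivAt_norm_sq x).hasFDerivAt.add_const c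

private theorem Cut_u_deriv {c : ℝ} (hc : 0 < c) (a L : ℝ) (x : ℂ) :
    HasFDerivAt (Cut_u c a L) (L⁻¹ • ((‖x‖ ^ 2 + c)⁻¹ • (2 • (innerSL ℝ x)))) x := by
  unfold Cut_u
  exact (((Cut_q_deriv c x).log (Cut_q_pos hc x).ne').sub_const a).const_mul L⁻¹

private theorem Cut_chi_fderiv {c : ℝ} (hc : 0 < c) (a L : ℝ) (x : ℂ) :
    fderiv ℝ (Cut_chi c a L) x =
      deriv Cut_th (Cut_u c a L x) • (L⁻¹ • ((‖x‖ ^ 2 + c)⁻¹ • (2 • (innerSL ℝ x)))) :=
  ((Cut_th_diff _).comp_hasFDerivAt x (Cut_u_deriv hc a L x)).fderiv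

/-- second derivative in the direction `w` -/
private theorem Cut_second {c : ℝ} (hc : 0 < c) (a L : ℝ) (x w : ℂ) :
    fderiv ℝ (fderiv ℝ (Cut_chi c a L)) x w w =
      deriv (deriv Cut_th) (Cut_u c a L x) * (L⁻¹ * ((‖x‖ ^ 2 + c)⁻¹ * (2 * inner ℝ w x))) ^ 2 +
      deriv Cut_th (Cut_u c a L x) * (L⁻¹ * ((‖x‖ ^ 2 + c)⁻¹ * (2 * inner ℝ w w) -
        ((‖x‖ ^ 2 + c)⁻¹) ^ 2 * (2 * inner ℝ w x) ^ 2)) := by
  have hd : DifferentiableAt ℝ (fderiv ℝ (Cut_chi c a L)) x := by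
    have h := (Cut_chi_cd hc a L).fderiv_right (m := 1) (by norm_num)
    exact h.differentiable (by norm_num) x
  have h1 : HasFDerivAt (fun y => fderiv ℝ (Cut_chi c a L) y w)
      ((fderiv ℝ (fderiv ℝ (Cut_chi c a L)) x).flip w) x := by
    have := hd.hasFDerivAt.clm_apply (hasFDerivAt_const w x)
    simpa using this
  have hf : (fun y => fderiv ℝ (Cut_chi c a L) y w) = fun y =>
      deriv Cut_th (Cut_u c a L y) * (L⁻¹ * ((‖y‖ ^ 2 + c)⁻¹ * (2 * innerSL ℝ w y))) := by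
    funext y
    rw [Cut_chi_fderiv hc a L y]
    simp only [smul_apply, innerSL_apply_apply, smul_eq_mul, nsmul_eq_mul]
    rw [real_inner_comm]
    push_cast
    ring
  have hA : HasFDerivAt (fun y => deriv Cut_th (Cut_u c a L y))
      (deriv (deriv Cut_th) (Cut_u c a L x) • (L⁻¹ • ((‖x‖ ^ 2 + c)⁻¹ • (2 • (innerSL ℝ x))))) x :=
    (Cut_th_diff2 _).comp_hasFDerivAt x (Cut_u_deriv hc a L x)
  have hq : HasFDerivAt (fun y : ℂ => (‖y‖ ^ 2 + c)⁻¹)
      ((-((‖x‖ ^ 2 + c) ^ 2)⁻¹) • (2 • (innerSL ℝ x))) x :=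
    (hasDerivAt_inv (Cut_q_pos hc x).ne').comp_hasFDerivAt x (Cut_q_deriv c x)
  have hi : HasFDerivAt (fun y : ℂ => 2 * innerSL ℝ w y) ((2 : ℝ) • innerSL ℝ w) x :=
    (innerSL ℝ w).hasFDerivAt.const_mul 2
  have hB := (hA.mul ((hq.mul hi).const_mul L⁻¹))
  rw [hf] at h1
  have h2 := h1.unique hB
  have h3 := congrArg (fun T : ℂ →L[ℝ] ℝ => T w) h2
  simp only [ContinuousLinearMap.flip_apply, add_apply,
    smul_apply, innerSL_apply_apply, smul_eq_mul, nsmul_eq_mul, Pi.mul_apply] at h3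
  rw [h3, real_inner_comm w x]
  push_cast
  have hq0 := (Cut_q_pos hc x).ne'
  field_simp
  ring

private theorem Cut_lap {c : ℝ} (hc : 0 < c) (a L : ℝ) (x : ℂ) :
    Laplacian.laplacian (Cut_chi c a L) x =
      deriv (deriv Cut_th) (Cut_u c a L x) * (4 * ‖x‖ ^ 2 * (L⁻¹ * (‖x‖ ^ 2 + c)⁻¹) ^ 2) +
      deriv Cut_th (Cut_u c a L x) * (4 * c * L⁻¹ * ((‖x‖ ^ 2 + c)⁻¹) ^ 2) := by
  rw [InnerProductSpace.laplacian_eq_iteratedFDeriv_complexPlane]
  simp only [iteratedFDeriv_two_apply, Matrix.cons_val_zero, Matrix.cons_val_one]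
  rw [Cut_second hc, Cut_second hc]
  have e1 : inner ℝ (1 : ℂ) x = x.re := by simp
  have e2 : inner ℝ Complex.I x = x.im := by simp
  have e3 : inner ℝ (1 : ℂ) (1 : ℂ) = 1 := by simp
  have e4 : inner ℝ Complex.I Complex.I = 1 := by simp
  have e5 : ‖x‖ ^ 2 = x.re ^ 2 + x.im ^ 2 := by
    rw [Complex.sq_norm, Complex.normSq_apply]
    ring
  rw [e1, e2, e3, e4]
  have hq0 : x.re ^ 2 + x.im ^ 2 + c ≠ 0 := by
    rw [← e5]
    exact (Cut_q_pos hc x).ne'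
  rw [e5]
  field_simp
  ring

private theorem Cut_radial (g : ℝ → ℝ) :
    ∫ x : ℂ, g ‖x‖ = 2 * (Real.pi * ∫ y in Set.Ioi (0 : ℝ), y * g y) := by
  rw [integral_fun_norm_addHaar volume g, Complex.finrank_real_complex]
  have h : (volume : Measure ℂ).real (Metric.ball 0 1) = Real.pi := by
    rw [Measure.real, Complex.volume_ball]
    simp
  rw [h]
  simp only [nsmul_eq_mul, smul_eq_mul, Nat.cast_ofNat, Nat.add_one_sub_one, pow_one]

private theorem Cut_radial_int (g : ℝ → ℝ) (h : IntegrableOn (fun y => y * g y) (Set.Ioi (0 : ℝ))) :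
    Integrable (fun x : ℂ => g ‖x‖) := by
  have h2 := (integrable_fun_norm_addHaar (E := ℂ) volume (f := g)).2
  refine h2 ?_
  simpa [Complex.finrank_real_complex] using h

private theorem Cut_int : ∃ K : ℝ, 0 ≤ K ∧ ∀ c a L : ℝ, 0 < c → 0 < L →
    ∫ x, |Laplacian.laplacian (Cut_chi c a L) x| ≤ K / L := by
  obtain ⟨M, hM, hb⟩ := Cut_bd
  refine ⟨2 * (Real.pi * (4 * M * (Real.pi + 1))), by positivity, fun c a L hc hL => ?_⟩
  set t : ℝ → ℝ := fun y => L⁻¹ * (Real.log (y ^ 2 + c) - a) with ht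
  set g : ℝ → ℝ := fun y => 8 * M / (1 + t y ^ 2) * (L⁻¹ ^ 2 * (y ^ 2 + c)⁻¹) +
    8 * M * c * L⁻¹ * ((y ^ 2 + c)⁻¹) ^ 2 with hg
  set Φ : ℝ → ℝ := fun y => 4 * M * L⁻¹ * Real.arctan (t y) - 4 * M * c * L⁻¹ * (y ^ 2 + c)⁻¹ with hΦ
  have hq : ∀ y : ℝ, 0 < y ^ 2 + c := fun y => by positivity
  have hqd : ∀ y : ℝ, HasDerivAt (fun y : ℝ => y ^ 2 + c) (2 * y) y := by
    intro y
    have := (hasDerivAt_pow 2 y).add_const c
    simpa using this
  have htd : ∀ y : ℝ, HasDerivAt t (L⁻¹ * (2 * y / (y ^ 2 + c))) y := by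
    intro y
    exact (((hqd y).log (hq y).ne').sub_const a).const_mul L⁻¹
  have hΦd : ∀ y : ℝ, HasDerivAt Φ (y * g y) y := by
    intro y
    have h1 := ((htd y).arctan).const_mul (4 * M * L⁻¹)
    have h2 := ((hqd y).inv (hq y).ne').const_mul (4 * M * c * L⁻¹)
    have h3 := h1.sub h2
    refine h3.congr_deriv ?_
    have h4 : 1 + t y ^ 2 ≠ 0 := by positivity
    have h5 := (hq y).ne'
    simp only [hg]
    field_simp
    ring
  have hg0 : ∀ y, 0 ≤ g y := fun y => by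
    simp only [hg]
    have := hq y
    positivity
  have hlim : Tendsto Φ atTop (𝓝 (4 * M * L⁻¹ * (Real.pi / 2) - 4 * M * c * L⁻¹ * 0)) := by
    have h1 : Tendsto (fun y : ℝ => y ^ 2 + c) atTop atTop :=
      tendsto_atTop_add_const_right _ _ (tendsto_pow_atTop (by norm_num))
    have h2 : Tendsto t atTop atTop := by
      refine Tendsto.const_mul_atTop (by positivity) ?_
      exact tendsto_atTop_add_const_right _ (-a) (Real.tendsto_log_atTop.comp h1)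
    refine Tendsto.sub ?_ ?_
    · exact ((tendsto_nhds_of_tendsto_nhdsWithin Real.tendsto_arctan_atTop).comp h2).const_mul _
    · exact (tendsto_inv_atTop_zero.comp h1).const_mul _
  have hpos : ∀ y ∈ Set.Ioi (0 : ℝ), 0 ≤ y * g y := fun y hy => mul_nonneg (le_of_lt hy) (hg0 y)
  have hI := integral_Ioi_of_hasDerivAt_of_nonneg' (a := (0 : ℝ)) (fun y _ => hΦd y) hpos hlim
  have hInt := integrableOn_Ioi_deriv_of_nonneg' (a := (0 : ℝ)) (fun y _ => hΦd y) hpos hlim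
  have hbound : ∀ x : ℂ, |Laplacian.laplacian (Cut_chi c a L) x| ≤ g ‖x‖ := by
    intro x
    rw [Cut_lap hc]
    obtain ⟨b1, b2⟩ := hb (Cut_u c a L x)
    have hq' := hq ‖x‖
    have htu : Cut_u c a L x = t ‖x‖ := rfl
    rw [htu] at b1 b2 ⊢
    have h1 : 0 < 1 + t ‖x‖ ^ 2 := by positivity
    refine (abs_add_le _ _).trans ?_
    rw [abs_mul (deriv (deriv Cut_th) (t ‖x‖)), abs_mul (deriv Cut_th (t ‖x‖))]
    have e1 : |4 * ‖x‖ ^ 2 * (L⁻¹ * (‖x‖ ^ 2 + c)⁻¹) ^ 2| = 4 * ‖x‖ ^ 2 * (L⁻¹ * (‖x‖ ^ 2 + c)⁻¹) ^ 2 :=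
      abs_of_nonneg (by positivity)
    have e2 : |4 * c * L⁻¹ * ((‖x‖ ^ 2 + c)⁻¹) ^ 2| = 4 * c * L⁻¹ * ((‖x‖ ^ 2 + c)⁻¹) ^ 2 :=
      abs_of_nonneg (by positivity)
    rw [e1, e2]
    refine add_le_add ?_ ?_
    · have h2 : 4 * ‖x‖ ^ 2 * (L⁻¹ * (‖x‖ ^ 2 + c)⁻¹) ^ 2 ≤ 4 * (L⁻¹ ^ 2 * (‖x‖ ^ 2 + c)⁻¹) := by
        have h3 : ‖x‖ ^ 2 * (‖x‖ ^ 2 + c)⁻¹ ≤ 1 := by
          rw [← div_eq_mul_inv, div_le_one hq']
          linarith
        have h4 : 4 * ‖x‖ ^ 2 * (L⁻¹ * (‖x‖ ^ 2 + c)⁻¹) ^ 2 =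
            4 * (L⁻¹ ^ 2 * (‖x‖ ^ 2 + c)⁻¹) * (‖x‖ ^ 2 * (‖x‖ ^ 2 + c)⁻¹) := by ring
        rw [h4]
        exact mul_le_of_le_one_right (by positivity) h3
      calc _ ≤ 2 * M / (1 + t ‖x‖ ^ 2) * (4 * (L⁻¹ ^ 2 * (‖x‖ ^ 2 + c)⁻¹)) :=
            mul_le_mul b2 h2 (by positivity) (by positivity)
        _ = 8 * M / (1 + t ‖x‖ ^ 2) * (L⁻¹ ^ 2 * (‖x‖ ^ 2 + c)⁻¹) := by ring
    · have h2 : |deriv Cut_th (t ‖x‖)| ≤ 2 * M := by
        refine b1.trans ?_
        rw [div_le_iff₀ h1]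
        nlinarith [sq_nonneg (t ‖x‖), mul_nonneg hM (sq_nonneg (t ‖x‖))]
      calc _ ≤ 2 * M * (4 * c * L⁻¹ * ((‖x‖ ^ 2 + c)⁻¹) ^ 2) :=
            mul_le_mul_of_nonneg_right h2 (by positivity)
        _ = 8 * M * c * L⁻¹ * ((‖x‖ ^ 2 + c)⁻¹) ^ 2 := by ring
  have h1 : ∫ x, |Laplacian.laplacian (Cut_chi c a L) x| ≤ ∫ x : ℂ, g ‖x‖ :=
    integral_mono_of_nonneg (Eventually.of_forall fun x => abs_nonneg _) (Cut_radial_int g hInt)
      (Eventually.of_forall hbound)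
  rw [Cut_radial, hI] at h1
  refine h1.trans ?_
  have h2 : -(Real.pi / 2) ≤ Real.arctan (t 0) := (Real.neg_pi_div_two_lt_arctan _).le
  have h3 : Φ 0 = 4 * M * L⁻¹ * Real.arctan (t 0) - 4 * M * L⁻¹ := by
    simp only [hΦ]
    field_simp
    ring
  have h4 : 4 * M * L⁻¹ * (Real.pi / 2) - 4 * M * c * L⁻¹ * 0 - Φ 0 ≤ 4 * M * (Real.pi + 1) / L := by
    rw [h3]
    have h5 : 4 * M * L⁻¹ * -(Real.pi / 2) ≤ 4 * M * L⁻¹ * Real.arctan (t 0) :=
      mul_le_mul_of_nonneg_left h2 (by positivity)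
    have h6 : 4 * M * (Real.pi + 1) / L = 4 * M * L⁻¹ * Real.pi + 4 * M * L⁻¹ := by
      field_simp
    rw [h6]
    linarith
  calc 2 * (Real.pi * (4 * M * L⁻¹ * (Real.pi / 2) - 4 * M * c * L⁻¹ * 0 - Φ 0))
      ≤ 2 * (Real.pi * (4 * M * (Real.pi + 1) / L)) := by
        have := mul_le_mul_of_nonneg_left h4 Real.pi_pos.le
        linarith
    _ = 2 * (Real.pi * (4 * M * (Real.pi + 1))) / L := by ring

private theorem Cut_grad : ∃ K : ℝ, 0 ≤ K ∧ ∀ c a L δ : ℝ, 0 < c → 0 < L → 0 < δ →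
    Real.exp (a + L) ≤ δ ^ 2 → ∫ x, ‖fderiv ℝ (Cut_chi c a L) x‖ ≤ K * δ / L := by
  obtain ⟨M, hM, hb⟩ := Cut_bd
  refine ⟨2 * (Real.pi * (4 * M)), by positivity, fun c a L δ hc hL hδ he => ?_⟩
  set g : ℝ → ℝ := fun y => if y < δ then 4 * M * L⁻¹ * y⁻¹ else 0 with hg
  have hfun : ∀ y ∈ Set.Ioi (0 : ℝ), y * g y = (Set.Iio δ).indicator (fun _ => 4 * M * L⁻¹) y := by
    intro y hy
    have hy' : y ≠ 0 := ne_of_gt hy
    by_cases h : y < δ
    · rw [Set.indicator_of_mem (show y ∈ Set.Iio δ from h)]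
      simp only [hg]
      rw [if_pos h]
      field_simp
    · rw [Set.indicator_of_notMem (show y ∉ Set.Iio δ from h)]
      simp only [hg]
      rw [if_neg h, mul_zero]
  have hInt : IntegrableOn (fun y => y * g y) (Set.Ioi (0 : ℝ)) := by
    rw [integrableOn_congr_fun hfun measurableSet_Ioi, integrableOn_indicator_iff measurableSet_Iio]
    exact integrableOn_const (by
      rw [Set.Iio_inter_Ioi, Real.volume_Ioo]
      exact ENNReal.ofReal_ne_top)
  have hI : ∫ y in Set.Ioi (0 : ℝ), y * g y = 4 * M * L⁻¹ * δ := by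
    rw [setIntegral_congr_fun measurableSet_Ioi hfun, setIntegral_indicator measurableSet_Iio,
      Set.Ioi_inter_Iio, setIntegral_const, Measure.real, Real.volume_Ioo,
      ENNReal.toReal_ofReal (by linarith), smul_eq_mul]
    ring
  have hbound : ∀ x : ℂ, ‖fderiv ℝ (Cut_chi c a L) x‖ ≤ g ‖x‖ := by
    intro x
    have hq := Cut_q_pos hc x
    rw [Cut_chi_fderiv hc]
    have hn : ‖deriv Cut_th (Cut_u c a L x) • (L⁻¹ • ((‖x‖ ^ 2 + c)⁻¹ • (2 • (innerSL ℝ x))))‖ ≤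
        |deriv Cut_th (Cut_u c a L x)| * (L⁻¹ * ((‖x‖ ^ 2 + c)⁻¹ * (2 * ‖x‖))) := by
      rw [norm_smul, norm_smul, norm_smul, Real.norm_eq_abs, Real.norm_eq_abs, Real.norm_eq_abs,
        abs_of_pos (inv_pos.2 hL), abs_of_pos (inv_pos.2 hq)]
      have h2 : ‖2 • (innerSL ℝ x)‖ ≤ 2 * ‖x‖ := by
        refine (norm_nsmul_le).trans ?_
        rw [innerSL_apply_norm]
        simp
      gcongr
    refine hn.trans ?_
    by_cases hx : ‖x‖ < δ
    · simp only [hg]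
      rw [if_pos hx]
      have h3 : |deriv Cut_th (Cut_u c a L x)| ≤ 2 * M := by
        refine (hb _).1.trans ?_
        rw [div_le_iff₀ (by positivity)]
        nlinarith [mul_nonneg hM (sq_nonneg (Cut_u c a L x))]
      have h4 : (‖x‖ ^ 2 + c)⁻¹ * (2 * ‖x‖) ≤ 2 * ‖x‖⁻¹ := by
        by_cases h0 : ‖x‖ = 0
        · rw [h0]
          simp
        · have h5 : 0 < ‖x‖ := lt_of_le_of_ne (norm_nonneg _) (Ne.symm h0)
          rw [inv_mul_le_iff₀ hq, ← div_eq_mul_inv, mul_div_assoc', le_div_iff₀ h5]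
          nlinarith
      calc _ ≤ 2 * M * (L⁻¹ * (2 * ‖x‖⁻¹)) := by
            refine mul_le_mul h3 (mul_le_mul_of_nonneg_left h4 (by positivity)) (by positivity) (by positivity)
        _ = 4 * M * L⁻¹ * ‖x‖⁻¹ := by ring
    · simp only [hg]
      rw [if_neg hx]
      push Not at hx
      have h6 : 1 < Cut_u c a L x := by
        unfold Cut_u
        rw [lt_inv_mul_iff₀ hL, mul_one]
        have h7 : Real.exp (a + L) < ‖x‖ ^ 2 + c := by
          have : δ ^ 2 ≤ ‖x‖ ^ 2 := by gcongr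
          linarith
        have h8 := (Real.lt_log_iff_exp_lt hq).2 h7
        linarith
      have h9 : deriv Cut_th (Cut_u c a L x) = 0 := (Cut_out _ (Or.inr h6)).self_of_nhds
      rw [h9]
      simp
  have h1 : ∫ x, ‖fderiv ℝ (Cut_chi c a L) x‖ ≤ ∫ x : ℂ, g ‖x‖ :=
    integral_mono_of_nonneg (Eventually.of_forall fun x => norm_nonneg _) (Cut_radial_int g hInt)
      (Eventually.of_forall hbound)
  rw [Cut_radial, hI] at h1
  refine h1.trans (le_of_eq ?_)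
  field_simp

theorem cut_near (ε δ : ℝ) (hε : 0 < ε) (hδ : 0 < δ) :
    ∃ χ : ℂ → ℝ, ContDiff ℝ 2 χ ∧ (∀ x, 0 ≤ χ x ∧ χ x ≤ 1) ∧ (∀ᶠ x in 𝓝 (0 : ℂ), χ x = 0) ∧
      (∀ x, δ ≤ ‖x‖ → χ x = 1) ∧ ∫ x, |Laplacian.laplacian χ x| ≤ ε ∧ ∫ x, ‖fderiv ℝ χ x‖ ≤ ε := by
  obtain ⟨K, hK, hint⟩ := Cut_int
  obtain ⟨K', hK', hgrad⟩ := Cut_grad
  set L : ℝ := (K + K' * δ) / ε + 1 with hL
  have hL0 : 0 < L := by positivity
  have hLK : K / L ≤ ε := by
    rw [div_le_iff₀ hL0]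
    have h1 : ε * L = K + K' * δ + ε := by
      rw [hL]
      field_simp
    have : 0 ≤ K' * δ := by positivity
    linarith
  have hLK' : K' * δ / L ≤ ε := by
    rw [div_le_iff₀ hL0]
    have h1 : ε * L = K + K' * δ + ε := by
      rw [hL]
      field_simp
    linarith
  set a : ℝ := Real.log (δ ^ 2) - L with ha
  have hexp : Real.exp (a + L) = δ ^ 2 := by
    rw [ha, sub_add_cancel, Real.exp_log (by positivity)]
  set c : ℝ := Real.exp a / 2 with hc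
  have hc0 : 0 < c := by positivity
  refine ⟨Cut_chi c a L, Cut_chi_cd hc0 a L, fun x => ⟨Real.smoothTransition.nonneg _,
    Real.smoothTransition.le_one _⟩, ?_, ?_, (hint c a L hc0 hL0).trans hLK,
    (hgrad c a L δ hc0 hL0 hδ hexp.le).trans hLK'⟩
  · have h1 : ∀ᶠ x in 𝓝 (0 : ℂ), ‖x‖ ^ 2 < c := by
      have h2 : Continuous fun x : ℂ => ‖x‖ ^ 2 := by fun_prop
      have h3 : Tendsto (fun x : ℂ => ‖x‖ ^ 2) (𝓝 0) (𝓝 0) := by
        have := h2.tendsto 0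
        simpa using this
      exact h3 (gt_mem_nhds hc0)
    filter_upwards [h1] with x hx
    refine Real.smoothTransition.zero_of_nonpos ?_
    unfold Cut_u
    have h4 : Real.log (‖x‖ ^ 2 + c) ≤ a := by
      rw [Real.log_le_iff_le_exp (Cut_q_pos hc0 x)]
      linarith
    exact mul_nonpos_of_nonneg_of_nonpos (by positivity) (by linarith)
  · intro x hx
    refine Real.smoothTransition.one_of_one_le ?_
    unfold Cut_u
    rw [le_inv_mul_iff₀ hL0, mul_one]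
    have h7 : Real.exp (a + L) ≤ ‖x‖ ^ 2 + c := by
      rw [hexp]
      have : δ ^ 2 ≤ ‖x‖ ^ 2 := by gcongr
      linarith
    have h8 := (Real.le_log_iff_exp_le (Cut_q_pos hc0 x)).2 h7
    linarith

theorem cut_far (ε R : ℝ) (hε : 0 < ε) :
    ∃ χ : ℂ → ℝ, ContDiff ℝ 2 χ ∧ (∀ x, 0 ≤ χ x ∧ χ x ≤ 1) ∧ HasCompactSupport χ ∧
      (∀ x, ‖x‖ ≤ R → χ x = 1) ∧ ∫ x, |Laplacian.laplacian χ x| ≤ ε := by
  obtain ⟨K, hK, hint⟩ := Cut_int
  set L : ℝ := K / ε + 1 with hL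
  have hL0 : 0 < L := by positivity
  have hLK : K / L ≤ ε := by
    rw [div_le_iff₀ hL0]
    have h1 : ε * L = K + ε := by
      rw [hL]
      field_simp
    linarith
  set a : ℝ := Real.log (R ^ 2 + 1) with ha
  have h10 : (0 : ℝ) < 1 := one_pos
  refine ⟨fun x => 1 - Cut_chi 1 a L x, contDiff_const.sub (Cut_chi_cd h10 a L), fun x =>
    ⟨sub_nonneg.2 (Real.smoothTransition.le_one _), ?_⟩, ?_, ?_, ?_⟩
  · have : 0 ≤ Cut_chi 1 a L x := Real.smoothTransition.nonneg _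
    linarith
  · refine HasCompactSupport.intro (isCompact_closedBall (0 : ℂ) (Real.exp (a + L))) fun x hx => ?_
    rw [Metric.mem_closedBall, dist_zero_right, not_le] at hx
    have h1 : Cut_chi 1 a L x = 1 := by
      refine Real.smoothTransition.one_of_one_le ?_
      unfold Cut_u
      rw [le_inv_mul_iff₀ hL0, mul_one]
      have h7 : Real.exp (a + L) ≤ ‖x‖ ^ 2 + 1 := by nlinarith [sq_nonneg (‖x‖ - 1)]
      have h8 := (Real.le_log_iff_exp_le (Cut_q_pos h10 x)).2 h7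
      linarith
    rw [h1, sub_self]
  · intro x hx
    have h1 : Cut_chi 1 a L x = 0 := by
      refine Real.smoothTransition.zero_of_nonpos ?_
      unfold Cut_u
      have h4 : Real.log (‖x‖ ^ 2 + 1) ≤ a := by
        refine Real.log_le_log (Cut_q_pos h10 x) ?_
        have : ‖x‖ ^ 2 ≤ R ^ 2 := by gcongr
        linarith
      exact mul_nonpos_of_nonneg_of_nonpos (by positivity) (by linarith)
    change 1 - Cut_chi 1 a L x = 1
    rw [h1, sub_zero]
  · refine le_trans (le_of_eq ?_) ((hint 1 a L h10 hL0).trans hLK)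
    refine integral_congr_ae (Eventually.of_forall fun x => ?_)
    have h1 : Laplacian.laplacian (fun x => 1 - Cut_chi 1 a L x) x =
        -Laplacian.laplacian (Cut_chi 1 a L) x := by
      rw [InnerProductSpace.laplacian_eq_iteratedFDeriv_complexPlane,
        InnerProductSpace.laplacian_eq_iteratedFDeriv_complexPlane]
      simp only [iteratedFDeriv_two_apply, Matrix.cons_val_zero, Matrix.cons_val_one]
      have h2 : fderiv ℝ (fun x => 1 - Cut_chi 1 a L x) = fun x => -fderiv ℝ (Cut_chi 1 a L) x := by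
        funext y
        rw [fderiv_const_sub]
      rw [h2, fderiv_fun_neg]
      simp only [neg_apply]
      ring
    change |Laplacian.laplacian (fun x => 1 - Cut_chi 1 a L x) x| = _
    rw [h1, abs_neg]

end ALC
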