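import Mathlib

/-!
Stable Arakelov heights of points on curves over number fields: definitions.

K is a number field, X the smooth projective curve over K with function field K(x)[y]/(F), where F
is a polynomial in K[x][y], monic of degree d in y and irreducible over the algebraic closure of K.
So x : X -> P^1 is a morphism of degree d. P = (b, y0) is a K-rational point with finite x(P) = b;
F(b, .) is assumed separable (x is unramified over b and y separates the points over b; every
non-branch point of every morphism has such a model). So x - b is a uniformiser at P.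

The stable Arakelov height of P (for genus g > 0) is the degree of the restriction to P of the
relative dualizing sheaf of the minimal regular model over an extension with semi-stable reduction,
with the Arakelov metric, divided by the degree of the extension. As d(x - b) generates the
cotangent space of X at P,
  h(P) = - (1/[K:Q]) (sum_sigma log |dx|_Ar,sigma + sum_p sum_tau log |dx|_tau),
sigma through the embeddings of K in C, tau through those in C_p.
- Archimedean terms. Differentials phi dx with phi in C(x)[y]/(F) are holomorphic on X if and only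
  if they are square integrable, and (i/2) dx wedge conj dx is the area; an orthonormal basis of
  them gives the canonical form mu = (1/g) sum |phi_k|^2 (area of the x-plane) on X. The Arakelov
  Green function G = log G(P, .) is smooth on X minus P, log |x - b| + smooth at P, satisfies
  (1 / (pi i)) d dbar G = mu - delta_P and int G mu = 0; it exists and is unique (a function with
  these properties outside finitely many points of X near which it is bounded is G). Then
  - log |dx|_Ar is the value at P of G - log |x - b| (Arakelov).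
- Terms at p. Over a finite extension with semi-stable reduction the residue class of P in the
  minimal regular model is an open disc, x - b = c t + ... in its parameter t, the term is
  - log |c|, and |c| is the largest absolute value of the first coefficient of x - b for rigid
  analytic maps of the open unit disc over C_p to X with centre mapped to P (g > 0): the image of
  such a map avoids the minimal skeleton, then the lemma of Schwarz.
-/

open Polynomial MeasureTheory ComplexConjugate Filter Topology

namespace ALC

/-- The polynomial `F(x, ·)` for `F` in `k[x][y]`. -/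
noncomputable def at_ {k : Type*} [Field k] (F : k[X][X]) (x : k) : k[X] := F.map (evalRingHom x)

/-- `F` with coefficients mapped by an embedding of fields. -/
noncomputable def bc {k l : Type*} [Field k] [Field l] (σ : k →+* l) (F : k[X][X]) : l[X][X] :=
  F.map (mapRingHom σ)

/-- `F` is irreducible over the algebraic closure. -/
def GeomIrred {k : Type*} [Field k] (F : k[X][X]) : Prop :=
  Irreducible (bc (algebraMap k (AlgebraicClosure k)) F)

/-- The function field `k(x)[y]/(F)`. -/
abbrev FF {k : Type*} [Field k] (F : k[X][X]) : Type _ :=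
  AdjoinRoot (F.map (algebraMap k[X] (RatFunc k)))

/-- The morphism `x : X → P^1` is unramified outside `A` and infinity: there are functions
`θ_1, ..., θ_d`, integral over `k[x]`, whose discriminant is a nonzero constant times a product of
factors `x - a`, `a ∈ A`. -/
def UnramifiedOutside {k : Type*} [Field k] (F : k[X][X]) (A : Finset k) : Prop :=
  ∃ (θ : Fin F.natDegree → FF F) (Δ : k[X]), (∀ i, IsIntegral k[X] (θ i)) ∧
    Algebra.discr (RatFunc k) θ = algebraMap k[X] (RatFunc k) Δ ∧ Δ ≠ 0 ∧ Δ.Splits ∧
    ∀ a, Δ.IsRoot a → a ∈ A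

section complex

variable (F : ℂ[X][X])

/-- The roots of `F(x, ·)`, that is the points of the curve over `x` (if it is separable). -/
noncomputable def fib (x : ℂ) : Finset ℂ :=
  haveI := Classical.decEq ℂ
  (at_ F x).roots.toFinset

/-- The value at `(x, y)` of the rational function `Q(x, y) / D(x)` on the curve. -/
noncomputable def rat (φ : ℂ[X][X] × ℂ[X]) (x y : ℂ) : ℂ := φ.1.evalEval x y / φ.2.eval x

/-- The differential `φ dx` is holomorphic on `X` (square integrable). -/
def IsHol (φ : ℂ[X][X] × ℂ[X]) : Prop :=
  φ.2 ≠ 0 ∧ Integrable (fun x : ℂ => ∑ y ∈ fib F x, ‖rat φ x y‖ ^ 2)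

/-- `e k dx`, `k < g`, is an orthonormal basis of the holomorphic differentials on `X`. -/
def IsONB (g : ℕ) (e : Fin g → ℂ[X][X] × ℂ[X]) : Prop :=
  (∀ k, IsHol F (e k)) ∧
  (∀ k l, ∫ x : ℂ, ∑ y ∈ fib F x, rat (e k) x y * conj (rat (e l) x y) = if k = l then 1 else 0) ∧
  ∀ φ, IsHol F φ → ∃ c : Fin g → ℂ, ∀ᵐ x : ℂ, ∀ y ∈ fib F x, rat φ x y = ∑ k, c k * rat (e k) x y

/-- The density of the canonical form with respect to the area of the `x`-plane. -/
noncomputable def rho {g : ℕ} (e : Fin g → ℂ[X][X] × ℂ[X]) (x y : ℂ) : ℝ :=
  (1 / (g : ℝ)) * ∑ k, ‖rat (e k) x y‖ ^ 2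

/-- `Y` is a branch of `F(x, y) = 0` over the open set `U`, over which `F(x, ·)` is separable. -/
def IsBranch (U : Set ℂ) (Y : ℂ → ℂ) : Prop :=
  IsOpen U ∧ DifferentiableOn ℂ Y U ∧ ∀ x ∈ U, (at_ F x).Separable ∧ (at_ F x).eval (Y x) = 0

/-- `G` is the Arakelov Green function of `X` with pole at `P = (b, y0)` (defined at the points of
`X` over the `x` with `F(x, ·)` separable), and `l` is the value at `P` of `G - log |x - b|`. -/
structure IsGreen {g : ℕ} (e : Fin g → ℂ[X][X] × ℂ[X]) (b y0 : ℂ) (G : ℂ → ℂ → ℝ) (l : ℝ) :
    Prop where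
  bdd : ∃ M : ℝ, ∀ x y : ℂ, (at_ F x).Separable → (at_ F x).eval y = 0 → (x, y) ≠ (b, y0) →
    |G x y - Real.log (min 1 (‖x - b‖ + ‖y - y0‖))| ≤ M
  lap : ∀ U Y, IsBranch F U Y → (∀ x ∈ U, (x, Y x) ≠ (b, y0)) →
    ContDiffOn ℝ 2 (fun x => G x (Y x)) U ∧ ∀ x ∈ U, (∀ k, (e k).2.eval x ≠ 0) →
      Laplacian.laplacian (fun x => G x (Y x)) x = -(2 * Real.pi * rho e x (Y x))
  pole : ∀ U Y, IsBranch F U Y → b ∈ U → Y b = y0 →
    ContDiffAt ℝ 2 (fun x => if x = b then l else G x (Y x) - Real.log ‖x - b‖) b
  mean : ∫ x : ℂ, ∑ y ∈ fib F x, G x y * rho e x y = 0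

end complex

/-- A quotient of power series with bounded coefficients (a meromorphic function on the open unit
disc, regular at the centre). -/
def IsBdd {C : Type*} [NormedField C] (f : PowerSeries C) : Prop :=
  ∃ U V : PowerSeries C, (∀ k, ‖U.coeff k‖ ≤ 1 ∧ ‖V.coeff k‖ ≤ 1) ∧ V ≠ 0 ∧ V * f = U

/-- The power series `x, y` satisfy `F(x, y) = 0`. -/
def OnCurve {C : Type*} [Field C] (F : C[X][X]) (x y : PowerSeries C) : Prop :=
  F.eval₂ (Polynomial.eval₂RingHom (PowerSeries.C (R := C)) x) y = 0

/-- Over `C = ℂ_[p]`: there is a rigid analytic map from the open unit disc to the curve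
`F(x, y) = 0`, centre mapped to `(b, y0)`, `x = b + c t + ...`. -/
def IsDisc {C : Type*} [NormedField C] (F : C[X][X]) (b y0 c : C) : Prop :=
  c ≠ 0 ∧ ∃ x y : PowerSeries C, IsBdd x ∧ IsBdd y ∧ OnCurve F x y ∧
    x.coeff 0 = b ∧ x.coeff 1 = c ∧ y.coeff 0 = y0

/-- The supremum of `log |c|` over these maps. -/
noncomputable def logRadius {C : Type*} [NormedField C] (F : C[X][X]) (b y0 : C) : EReal :=
  ⨆ c ∈ {c : C | IsDisc F b y0 c}, ((Real.log ‖c‖ : ℝ) : EReal)

section numberField

variable (K : Type*) [Field K] [NumberField K]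

/-- The sum of the terms at the primes in `S`, with the sign changed. -/
noncomputable def finPart (F : K[X][X]) (b y0 : K) (S : Finset Nat.Primes) : EReal :=
  ∑ p ∈ S, haveI : Fact (p : ℕ).Prime := ⟨p.2⟩
    ∑ τ : K →+* ℂ_[(p : ℕ)], logRadius (bc τ F) (τ b) (τ y0)

/-- The stable Arakelov height of `P = (b, y0)`, where `l σ` are the values at `P` of
`G_σ - log |x - b|_σ` (limit over the finite sets of primes). -/
noncomputable def height (F : K[X][X]) (b y0 : K) (l : (K →+* ℂ) → ℝ) : EReal :=
  Filter.limsup (fun S : Finset Nat.Primes => ((1 / (Module.finrank ℚ K : ℝ) : ℝ) : EReal) *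
    (((∑ σ : K →+* ℂ, l σ : ℝ) : EReal) - finPart K F b y0 S)) Filter.atTop

/-- The absolute logarithmic (projective) Weil height of the vector `(1 / (b - a))`, `a ∈ A`. -/
noncomputable def branchHeight (A : Finset K) (b : K) : ℝ :=
  (1 / (Module.finrank ℚ K : ℝ)) *
    (∑ σ : K →+* ℂ, Real.log (⨆ a : A, ‖σ (1 / (b - a))‖) +
    ∑ᶠ p : Nat.Primes, haveI : Fact (p : ℕ).Prime := ⟨p.2⟩
      ∑ τ : K →+* ℂ_[(p : ℕ)], Real.log (⨆ a : A, ‖τ (1 / (b - a))‖))

end numberField

end ALC
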