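import Pool.Agent.ALC.Gauss

/-!
The dual basis up to w^m. R is an integrally closed domain with fraction field K, A a discrete
valuation ring with the same fraction field (the localisation of R at the prime w).
C = integral closure of R in L with R-basis b. If some integral elements theta_i have discriminant
w^a * unit, then det(Tr b_i b_j) = w^a' * unit, so the dual basis has coordinates in R[1/w]; it lies in the
dual of the integral closure of A (which is A * C: clear denominators prime to w), so by
`gauss` w^m * (dual basis) is integral over A; its coordinates with respect to b are in A and in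
R[1/w], hence in R.
-/

namespace ALC

theorem dualInt_hom {R A K : Type*} [CommRing R] [CommRing A] [IsDomain A] [Field K]
    [Algebra R K] [Algebra A K] [IsFractionRing A K]
    (hRA : ∀ r : R, ∃ a : A, algebraMap A K a = algebraMap R K r) :
    ∃ f : R →+* A, ∀ r, algebraMap A K (f r) = algebraMap R K r := by
  have hinj : Function.Injective (algebraMap A K) := IsFractionRing.injective A K
  choose g hg using hRA
  refine ⟨{ toFun := g, map_one' := hinj ?_, map_mul' := fun x y => hinj ?_,
            map_zero' := hinj ?_, map_add' := fun x y => hinj ?_ }, hg⟩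
  · rw [hg, map_one, map_one]
  · rw [hg, map_mul, map_mul, hg, hg]
  · rw [hg, map_zero, map_zero]
  · rw [hg, map_add, map_add, hg, hg]

theorem dualInt_clear {R A K L : Type*} [CommRing R] [CommRing A] [IsDomain A] [Field K]
    [Algebra R K] [IsFractionRing R K] [Algebra A K] [IsFractionRing A K] [Field L] [Algebra K L]
    [Algebra R L] [IsScalarTower R K L] [Algebra A L] [IsScalarTower A K L]
    (hRA : ∀ r : R, ∃ a : A, algebraMap A K a = algebraMap R K r)
    (hloc : ∀ a : A, ∃ (r t : R) (u : Aˣ), algebraMap A K u = algebraMap R K t ∧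
      algebraMap A K a * algebraMap R K t = algebraMap R K r) (c : L) (hc : IsIntegral A c) :
    ∃ (t : R) (u : Aˣ), algebraMap A K u = algebraMap R K t ∧
      IsIntegral R (algebraMap R L t * c) := by
  obtain ⟨f, hf⟩ := dualInt_hom hRA
  have hinj : Function.Injective (algebraMap A K) := IsFractionRing.injective A K
  have hinjR : Function.Injective (algebraMap R K) := IsFractionRing.injective R K
  letI : Algebra R A := f.toAlgebra
  have hfa : ∀ r, algebraMap R A r = f r := fun _ => rfl
  have : IsScalarTower R A L := IsScalarTower.of_algebraMap_eq (fun r => by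
    rw [IsScalarTower.algebraMap_apply R K L, IsScalarTower.algebraMap_apply A K L, hfa, hf])
  let M : Submonoid R := (IsUnit.submonoid A).comap f
  have hM : IsLocalization M A := by
    rw [isLocalization_iff]
    refine ⟨fun y => y.2, fun z => ?_, fun {x y} h => ⟨1, ?_⟩⟩
    · obtain ⟨r, t, u, hu, hz⟩ := hloc z
      have htu : f t = u := hinj (by rw [hf, hu])
      have ht : t ∈ M := by
        change IsUnit (f t)
        rw [htu]
        exact u.isUnit
      refine ⟨(r, ⟨t, ht⟩), ?_⟩
      apply hinj
      change algebraMap A K (z * f t) = algebraMap A K (f r)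
      rw [map_mul, hf, hf, hz]
    · have hxy : x = y := by
        apply hinjR
        rw [← hf, ← hf]
        rw [hfa, hfa] at h
        rw [h]
      rw [hxy]
  obtain ⟨t, ht⟩ := IsIntegral.exists_multiple_integral_of_isLocalization M c hc
  have ht2 : IsUnit (f t) := t.2
  refine ⟨t, ht2.unit, ?_, ?_⟩
  · rw [IsUnit.unit_spec, hf]
  · rw [Submonoid.smul_def, Algebra.smul_def] at ht
    exact ht

theorem dual_int {R A K L : Type*} [CommRing R] [IsDomain R] [IsIntegrallyClosed R]
    [CommRing A] [IsDomain A] [IsDiscreteValuationRing A] [Field K]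
    [Algebra R K] [IsFractionRing R K] [Algebra A K] [IsFractionRing A K] [Field L] [Algebra K L]
    [FiniteDimensional K L] [Algebra.IsSeparable K L] [Algebra R L] [IsScalarTower R K L]
    (w : R) (wA : A) (hw : Prime w) (hwA : Irreducible wA)
    (hww : algebraMap A K wA = algebraMap R K w)
    (hRA : ∀ r : R, ∃ a : A, algebraMap A K a = algebraMap R K r)
    (hloc : ∀ a : A, ∃ (r t : R) (u : Aˣ), algebraMap A K u = algebraMap R K t ∧
      algebraMap A K a * algebraMap R K t = algebraMap R K r)
    (hcap : ∀ z : K, (∃ a : A, algebraMap A K a = z) →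
      (∃ (k : ℕ) (r : R), algebraMap R K w ^ k * z = algebraMap R K r) →
      ∃ r : R, z = algebraMap R K r)
    {ι : Type*} [Fintype ι] [DecidableEq ι] (θ : ι → L) (hθ : ∀ i, IsIntegral R (θ i))
    (hι : Fintype.card ι = Module.finrank K L)
    (hdisc : ∃ (a : ℕ) (u : Rˣ), Algebra.discr K θ = algebraMap R K (w ^ a * u))
    (m : ℕ) (hm : ∀ n : ℕ, 1 ≤ n → n ≤ Module.finrank K L → ¬ wA ^ m ∣ (n : A))
    (b : Module.Basis ι R (integralClosure R L)) :
    ∃ b' : ι → integralClosure R L, ∀ i j,
      Algebra.trace K L ((b' i : L) * (b j : L)) =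
        if i = j then algebraMap R K w ^ m else 0 := by
  classical
  have hinj : Function.Injective (algebraMap A K) := IsFractionRing.injective A K
  have hinjR : Function.Injective (algebraMap R K) := IsFractionRing.injective R K
  letI : Algebra A L := ((algebraMap K L).comp (algebraMap A K)).toAlgebra
  have hST : IsScalarTower A K L := IsScalarTower.of_algebraMap_eq (fun _ => rfl)
  have hLoc : IsLocalization
      (Algebra.algebraMapSubmonoid (integralClosure R L) (nonZeroDivisors R)) L :=
    IsIntegralClosure.isLocalization R K L (integralClosure R L)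
  let bK : Module.Basis ι K L := b.localizationLocalization K (nonZeroDivisors R) L
  have hbK : ∀ i, bK i = (b i : L) := fun i =>
    b.localizationLocalization_apply K (nonZeroDivisors R) L i
  have hrepr : ∀ (z : L) (hz : IsIntegral R z) (i), bK.repr z i =
      algebraMap R K (b.repr ⟨z, hz⟩ i) :=
    fun z hz i => b.localizationLocalization_repr_algebraMap K (nonZeroDivisors R) L ⟨z, hz⟩ i
  have htr : ∀ z : L, IsIntegral R z → ∃ r : R, algebraMap R K r = Algebra.trace K L z :=
    fun z hz => IsIntegrallyClosed.isIntegral_iff.mp (Algebra.isIntegral_trace hz)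
  -- the discriminant
  obtain ⟨a, u, hau⟩ := hdisc
  let P : Matrix ι ι R := fun i j => b.repr ⟨θ j, hθ j⟩ i
  have hP : θ = Matrix.vecMul bK ((P.map (algebraMap R K)).map (algebraMap K L)) := by
    funext j
    conv_lhs => rw [← bK.sum_repr (θ j)]
    simp only [Matrix.vecMul, dotProduct]
    apply Finset.sum_congr rfl
    intro i _
    rw [hrepr _ (hθ j), Algebra.smul_def, mul_comm]
    rfl
  have hd : Algebra.discr K θ = (P.map (algebraMap R K)).det ^ 2 * Algebra.discr K bK := by
    conv_lhs => rw [hP]
    rw [Algebra.discr_of_matrix_vecMul]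
  obtain ⟨δ, hδ⟩ : ∃ δ : R, algebraMap R K δ = Algebra.discr K bK :=
    IsIntegrallyClosed.isIntegral_iff.mp (Algebra.discr_isIntegral K (fun i => by
      rw [hbK]
      exact (b i).2))
  have hδ' : δ ∣ w ^ a := by
    have h1 : w ^ a * u = P.det ^ 2 * δ := by
      apply hinjR
      rw [← hau, hd, map_mul, map_pow, hδ, RingHom.map_det]
      rfl
    refine ⟨P.det ^ 2 * ((u⁻¹ : Rˣ) : R), ?_⟩
    calc w ^ a = (w ^ a * u) * ((u⁻¹ : Rˣ) : R) := by rw [mul_assoc, Units.mul_inv, mul_one]
      _ = _ := by rw [h1]; ring
  obtain ⟨a', -, v, hv⟩ := (dvd_prime_pow hw a).1 hδ'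
  -- the dual basis
  let y := (Algebra.traceForm K L).dualBasis (traceForm_nondegenerate K L) bK
  have hy1 : ∀ i j, Algebra.trace K L (y i * bK j) = if i = j then 1 else 0 := by
    intro i j
    have := LinearMap.BilinForm.apply_dualBasis_left (traceForm_nondegenerate K L) bK i j
    rw [Algebra.traceForm_apply] at this
    rw [this]
    simp only [eq_comm]
  have hy2 : ∀ i z, Algebra.trace K L (y i * z) = bK.repr z i := by
    intro i z
    conv_lhs => rw [← bK.sum_repr z]
    rw [Finset.mul_sum, map_sum]
    simp only [mul_smul_comm, map_smul, hy1]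
    simp
  have hy3 : ∀ i j, ∃ r : R, algebraMap R K w ^ a' * bK.repr (y i) j = algebraMap R K r := by
    intro i j
    have hT : ∀ k l, ∃ r : R, algebraMap R K r = Algebra.trace K L (bK k * bK l) := by
      intro k l
      apply htr
      rw [hbK, hbK]
      exact (b k).2.mul (b l).2
    choose T hT using hT
    let TR : Matrix ι ι R := fun k l => T k l
    have hTR : TR.map (algebraMap R K) = Algebra.traceMatrix K bK := by
      ext k l
      rw [Matrix.map_apply, Algebra.traceMatrix_apply, Algebra.traceForm_apply]
      exact hT k l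
    have e1 : Matrix.mulVec (Algebra.traceMatrix K bK) (bK.equivFun (y i)) =
        fun j => if i = j then (1 : K) else 0 := by
      rw [Algebra.traceMatrix_of_basis_mulVec]
      funext k
      exact hy1 i k
    have e2 : Matrix.mulVec (Algebra.traceMatrix K bK).adjugate
        (Matrix.mulVec (Algebra.traceMatrix K bK) (bK.equivFun (y i))) =
        (Algebra.traceMatrix K bK).det • bK.equivFun (y i) := by
      rw [Matrix.mulVec_mulVec, Matrix.adjugate_mul, Matrix.smul_mulVec, Matrix.one_mulVec]
    rw [e1] at e2
    have e3 := congrFun e2 j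
    rw [Pi.smul_apply, smul_eq_mul, Module.Basis.equivFun_apply, ← Algebra.discr_def, ← hδ] at e3
    have e4 : Matrix.mulVec (Algebra.traceMatrix K bK).adjugate
        (fun j => if i = j then (1 : K) else 0) j = algebraMap R K (TR.adjugate j i) := by
      simp only [Matrix.mulVec, dotProduct, mul_ite, mul_one, mul_zero]
      rw [Finset.sum_ite_eq]
      rw [if_pos (Finset.mem_univ i), ← hTR]
      have := RingHom.map_adjugate (algebraMap R K) TR
      have h2 := congrFun (congrFun this j) i
      exact h2.symm
    rw [e4] at e3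
    refine ⟨TR.adjugate j i * v, ?_⟩
    rw [← map_pow, ← hv, map_mul, map_mul, e3]
    ring
  obtain ⟨f, hf⟩ := dualInt_hom hRA
  have hyA : ∀ i, ∀ c : L, IsIntegral A c →
      ∃ a : A, Algebra.trace K L (y i * c) = algebraMap A K a := by
    intro i c hc
    obtain ⟨t, u, htu, ht⟩ := dualInt_clear hRA hloc c hc
    have h1 := hy2 i (algebraMap R L t * c)
    obtain ⟨r, hr⟩ : ∃ r : R, bK.repr (algebraMap R L t * c) i = algebraMap R K r :=
      ⟨_, hrepr _ ht i⟩
    rw [hr] at h1
    have h2 : y i * (algebraMap R L t * c) = algebraMap R K t • (y i * c) := by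
      rw [IsScalarTower.algebraMap_apply R K L, Algebra.smul_def]
      ring
    rw [h2, map_smul, smul_eq_mul, ← htu, ← hf] at h1
    refine ⟨((u⁻¹ : Aˣ) : A) * f r, ?_⟩
    rw [map_mul (algebraMap A K), ← h1, ← mul_assoc, ← map_mul (algebraMap A K), Units.inv_mul,
      map_one, one_mul]
  have hz : ∀ i, IsIntegral A (algebraMap A L wA ^ m * y i) := fun i =>
    gauss wA hwA m hm (y i) (hyA i)
  have hz2 : ∀ i, algebraMap A L wA ^ m * y i = algebraMap R K w ^ m • y i := by
    intro i
    rw [IsScalarTower.algebraMap_apply A K L, hww, Algebra.smul_def, map_pow]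
  have hs : ∀ i j, ∃ r : R, bK.repr (algebraMap R K w ^ m • y i) j = algebraMap R K r := by
    intro i j
    apply hcap
    · have h0 := hz i
      rw [hz2] at h0
      obtain ⟨t, u, htu, ht⟩ := dualInt_clear hRA hloc _ h0
      obtain ⟨r, hr⟩ : ∃ r : R, bK.repr (algebraMap R L t * (algebraMap R K w ^ m • y i)) j =
        algebraMap R K r := ⟨_, hrepr _ ht j⟩
      have h2 : algebraMap R L t * (algebraMap R K w ^ m • y i) =
          algebraMap R K t • (algebraMap R K w ^ m • y i) := by
        rw [IsScalarTower.algebraMap_apply R K L, Algebra.smul_def (algebraMap R K t)]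
      refine ⟨((u⁻¹ : Aˣ) : A) * f r, ?_⟩
      rw [map_mul (algebraMap A K), hf, ← hr, h2, map_smul, Finsupp.smul_apply, smul_eq_mul, ← htu,
        ← mul_assoc, ← map_mul (algebraMap A K), Units.inv_mul, map_one, one_mul]
    · obtain ⟨r, hr⟩ := hy3 i j
      refine ⟨a', w ^ m * r, ?_⟩
      rw [map_smul, Finsupp.smul_apply, smul_eq_mul, map_mul, ← hr, map_pow]
      ring
  choose s hs using hs
  refine ⟨fun i => ∑ j, s i j • b j, fun i j => ?_⟩
  have hco : ((∑ k, s i k • b k : integralClosure R L) : L) = algebraMap R K w ^ m • y i := by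
    rw [← bK.sum_repr (algebraMap R K w ^ m • y i)]
    rw [AddSubmonoidClass.coe_finsetSum]
    apply Finset.sum_congr rfl
    intro k _
    rw [hs, hbK, algebraMap_smul]
    rfl
  change Algebra.trace K L (((∑ k, s i k • b k : integralClosure R L) : L) * (b j : L)) = _
  rw [hco, ← hbK, smul_mul_assoc, map_smul, hy1, smul_eq_mul]
  split_ifs <;> simp

end ALC
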