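import Pool.Agent.ALC.Sq
import Pool.Agent.ALC.Green
import Pool.Agent.ALC.Pot
import Pool.Agent.ALC.Dens

/-!
Energy inequality (helper92's argument). f = G - v with v = V(x - b) on the section y = Y(x),
|x - b| < r, and v = 0 elsewhere. f is bounded and of class C^2 on all sheets outside a finite set S
(the bad points and b), with Delta f = 2 pi (T 1_section - rho). By `sq` and `green_ineq`
int sum_y f (T 1_section - rho) <= 0; int sum_y G rho = 0 (IsGreen.mean).
-/

open Polynomial MeasureTheory Metric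

namespace ALC

open Filter Topology in
private theorem en_lap_cont {f : ℂ → ℝ} {U : Set ℂ} (hU : IsOpen U) (hf : ContDiffOn ℝ 2 f U) :
    ContinuousOn (Laplacian.laplacian f) U := by
  intro x hx
  refine ContinuousAt.continuousWithinAt ?_
  have h1 : ContDiffAt ℝ 2 f x := hf.contDiffAt (hU.mem_nhds hx)
  have h2 : ContDiffAt ℝ 0 (iteratedFDeriv ℝ 2 f) x := h1.iteratedFDeriv_right (by norm_num)
  have h3 : ContinuousAt (iteratedFDeriv ℝ 2 f) x := h2.continuousAt
  rw [InnerProductSpace.laplacian_eq_iteratedFDeriv_complexPlane]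
  exact (h3.eval_const _).add (h3.eval_const _)

private theorem en_lap_shift (V : ℂ → ℝ) (b x : ℂ) :
    Laplacian.laplacian (fun z => V (z - b)) x = Laplacian.laplacian V (x - b) := by
  rw [InnerProductSpace.laplacian_eq_iteratedFDeriv_complexPlane,
    InnerProductSpace.laplacian_eq_iteratedFDeriv_complexPlane]
  simp only [iteratedFDeriv_comp_sub]

/-- sums over the fibre -/
private theorem en_sum {F : ℂ[X][X]} {x0 : ℂ} {r : ℝ} {Y : Fin F.natDegree → ℂ → ℂ} {x : ℂ}
    (hx : x ∈ ball x0 r)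
    (h : ∀ x ∈ ball x0 r, Function.Injective (fun j => Y j x) ∧ ∀ y, y ∈ fib F x ↔ ∃ j, Y j x = y)
    (φ : ℂ → ℝ) : ∑ y ∈ fib F x, φ y = ∑ j, φ (Y j x) := by
  classical
  have h1 : fib F x = Finset.univ.image (fun j => Y j x) := by
    ext y
    rw [(h x hx).2 y, Finset.mem_image]
    simp
  rw [h1, Finset.sum_image fun i _ j _ hij => (h x hx).1 hij]

private theorem en_cont (F : ℂ[X][X]) (hF : F.Monic) (S : Finset ℂ)
    (hS : ∀ x, x ∉ S → (at_ F x).Separable) (φ : ℂ → ℂ → ℝ)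
    (hφ : ∀ U Y, IsBranch F U Y → (∀ x ∈ U, x ∉ S) → ContinuousOn (fun x => φ x (Y x)) U) :
    ContinuousOn (fun x => ∑ y ∈ fib F x, φ x y) ((S : Set ℂ)ᶜ) := by
  intro x1 hx1
  have hx1' : x1 ∉ S := hx1
  refine ContinuousAt.continuousWithinAt ?_
  obtain ⟨r, hr, Y, hY, hfib⟩ := sheets F hF x1 (hS x1 hx1')
  have hopen : IsOpen ((S : Set ℂ)ᶜ) := S.finite_toSet.isClosed.isOpen_compl
  obtain ⟨r', hr', hsub⟩ := Metric.isOpen_iff.mp hopen x1 hx1
  have hr2 : 0 < min r r' := lt_min hr hr'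
  have hb1 : ball x1 (min r r') ⊆ ball x1 r := ball_subset_ball (min_le_left _ _)
  have hb2 : ball x1 (min r r') ⊆ ball x1 r' := ball_subset_ball (min_le_right _ _)
  have hev : (fun x => ∑ j, φ x (Y j x)) =ᶠ[nhds x1] fun x => ∑ y ∈ fib F x, φ x y := by
    filter_upwards [ball_mem_nhds x1 hr] with x hx
    exact (en_sum hx hfib (φ x)).symm
  refine ContinuousAt.congr ?_ hev
  refine tendsto_finsetSum _ fun j _ => ?_
  have hbr : IsBranch F (ball x1 (min r r')) (Y j) :=
    ⟨isOpen_ball, (hY j).2.1.mono hb1, fun x hx => (hY j).2.2 x (hb1 hx)⟩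
  exact (hφ _ _ hbr fun x hx hxS => hsub (hb2 hx) hxS).continuousAt (ball_mem_nhds x1 hr2)

/-- the section -/
private def enSec (b : ℂ) (r : ℝ) (Y : ℂ → ℂ) (x y : ℂ) : Prop := x ∈ ball b r ∧ y = Y x

open Classical in
private noncomputable def enCut (b : ℂ) (r : ℝ) (Y : ℂ → ℂ) (V : ℂ → ℝ) (x y : ℂ) : ℝ :=
  if enSec b r Y x y then V (x - b) else 0

open Filter Topology in
/-- the local structure of the cut off potential -/
private theorem en_cut_loc (F : ℂ[X][X]) (hF : F.Monic)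
    (b : ℂ) (r r1 r2 : ℝ) (Y : ℂ → ℂ)
    (hY : DifferentiableOn ℂ Y (ball b r))
    (hYF : ∀ x ∈ ball b r, (at_ F x).eval (Y x) = 0) (h2 : r2 < r) (V T : ℂ → ℝ) (L : ℝ)
    (hP : IsPot r1 r2 V T L) (U : Set ℂ) (Z : ℂ → ℂ) (hZ : IsBranch F U Z) (x1 : ℂ) (hx1 : x1 ∈ U) :
    ((fun x => enCut b r Y V x (Z x)) =ᶠ[𝓝 x1] (fun _ => 0) ∧ enCut b r Y T x1 (Z x1) = 0) ∨
    ((fun x => enCut b r Y V x (Z x)) =ᶠ[𝓝 x1] (fun x => V (x - b)) ∧
      enCut b r Y T x1 (Z x1) = T (x1 - b)) := by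
  by_cases hr : r2 < ‖x1 - b‖
  · left
    have hc : Continuous fun x : ℂ => ‖x - b‖ := by fun_prop
    refine ⟨?_, ?_⟩
    · filter_upwards [hc.continuousAt.eventually (lt_mem_nhds hr)] with x hx
      unfold enCut
      split_ifs
      · exact hP.zero _ (le_of_lt hx)
      · rfl
    · unfold enCut
      split_ifs
      · by_contra hT
        exact absurd (hP.supp _ hT).2 (not_le.mpr hr)
      · rfl
  · have hr' : ‖x1 - b‖ ≤ r2 := not_lt.mp hr
    have hxb : x1 ∈ ball b r := by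
      rw [mem_ball, dist_eq_norm]
      linarith
    have hopen : IsOpen (U ∩ ball b r) := hZ.1.inter isOpen_ball
    obtain ⟨ε, hε, hsub⟩ := Metric.isOpen_iff.mp hopen x1 ⟨hx1, hxb⟩
    by_cases hzy : Z x1 = Y x1
    · right
      have hbZ : IsBranch F (ball x1 ε) Z :=
        ⟨isOpen_ball, hZ.2.1.mono fun x hx => (hsub hx).1, fun x hx => hZ.2.2 x (hsub hx).1⟩
      have hbY : IsBranch F (ball x1 ε) Y :=
        ⟨isOpen_ball, hY.mono fun x hx => (hsub hx).2, fun x hx =>
          ⟨(hZ.2.2 x (hsub hx).1).1, hYF x (hsub hx).2⟩⟩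
      have heq := branch_eq F hF (ball x1 ε) (convex_ball x1 ε).isPreconnected Z Y hbZ hbY x1
        (mem_ball_self hε) hzy
      refine ⟨?_, ?_⟩
      · filter_upwards [ball_mem_nhds x1 hε] with x hx
        unfold enCut
        rw [if_pos]
        exact ⟨(hsub hx).2, heq x hx⟩
      · unfold enCut
        rw [if_pos]
        exact ⟨hxb, hzy⟩
    · left
      have hcZ : ContinuousAt Z x1 := (hZ.2.1.continuousOn).continuousAt (hZ.1.mem_nhds hx1)
      have hcY : ContinuousAt Y x1 := (hY.continuousOn).continuousAt (isOpen_ball.mem_nhds hxb)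
      refine ⟨?_, ?_⟩
      · filter_upwards [(hcZ.sub hcY).eventually_ne (sub_ne_zero.mpr hzy)] with x hx
        unfold enCut
        rw [if_neg]
        exact fun hs => hx (sub_eq_zero.mpr hs.2)
      · unfold enCut
        rw [if_neg]
        exact fun hs => hzy hs.2

/-- the function `f` on the branches -/
private theorem en_branch (F : ℂ[X][X]) (hF : F.Monic) (S : Finset ℂ)
    (b y0 : ℂ) (hbS : b ∈ S) (g : ℕ) (e : Fin g → ℂ[X][X] × ℂ[X]) (G : ℂ → ℂ → ℝ) (l : ℝ)
    (hG : IsGreen F e b y0 G l) (r r1 r2 : ℝ) (Y : ℂ → ℂ)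
    (hY : DifferentiableOn ℂ Y (ball b r))
    (hYF : ∀ x ∈ ball b r, (at_ F x).eval (Y x) = 0) (h2 : r2 < r) (V T : ℂ → ℝ) (L : ℝ)
    (hP : IsPot r1 r2 V T L) (hden : ∀ x, x ∉ S → ∀ k, (e k).2.eval x ≠ 0)
    (U : Set ℂ) (Z : ℂ → ℂ) (hZ : IsBranch F U Z)
    (hUS : ∀ x ∈ U, x ∉ S) :
    ContDiffOn ℝ 2 (fun x => G x (Z x) - enCut b r Y V x (Z x)) U ∧
      ∀ x ∈ U, Laplacian.laplacian (fun x => G x (Z x) - enCut b r Y V x (Z x)) x =
        -(2 * Real.pi * rho e x (Z x)) + 2 * Real.pi * enCut b r Y T x (Z x) := by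
  have hne : ∀ x ∈ U, x ≠ b := fun x hx hxb => hUS x hx (hxb ▸ hbS)
  obtain ⟨hc, hl⟩ := hG.lap U Z hZ fun x hx he => hne x hx (congrArg Prod.fst he)
  have key : ∀ x ∈ U, ContDiffAt ℝ 2 (fun x => G x (Z x) - enCut b r Y V x (Z x)) x ∧
      Laplacian.laplacian (fun x => G x (Z x) - enCut b r Y V x (Z x)) x =
        -(2 * Real.pi * rho e x (Z x)) + 2 * Real.pi * enCut b r Y T x (Z x) := by
    intro x hx
    have hcx : ContDiffAt ℝ 2 (fun x => G x (Z x)) x := hc.contDiffAt (hZ.1.mem_nhds hx)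
    rcases en_cut_loc F hF b r r1 r2 Y hY hYF h2 V T L hP U Z hZ x hx with ⟨h3, h4⟩ | ⟨h3, h4⟩
    · have h5 : (fun x => G x (Z x) - enCut b r Y V x (Z x)) =ᶠ[nhds x] fun x => G x (Z x) := by
        filter_upwards [h3] with z hz
        rw [hz, sub_zero]
      refine ⟨hcx.congr_of_eventuallyEq h5, ?_⟩
      rw [(InnerProductSpace.laplacian_congr_nhds h5).eq_of_nhds, h4, hl x hx (hden x (hUS x hx)),
        mul_zero, add_zero]
    · have h5 : (fun x => G x (Z x) - enCut b r Y V x (Z x)) =ᶠ[nhds x]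
          (fun x => G x (Z x)) - (fun x => V (x - b)) := by
        filter_upwards [h3] with z hz
        rw [hz]
        rfl
      have h0 : x - b ≠ 0 := sub_ne_zero.mpr (hne x hx)
      have hVx : ContDiffAt ℝ 2 V (x - b) := hP.smooth.contDiffAt (isOpen_compl_singleton.mem_nhds h0)
      have hVc : ContDiffAt ℝ 2 (fun x => V (x - b)) x :=
        ContDiffAt.comp x hVx (contDiffAt_id.sub contDiffAt_const)
      refine ⟨(hcx.sub hVc).congr_of_eventuallyEq h5, ?_⟩
      rw [(InnerProductSpace.laplacian_congr_nhds h5).eq_of_nhds, h4, hcx.laplacian_sub hVc,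
        en_lap_shift, hl x hx (hden x (hUS x hx)), hP.lap _ h0]
      ring
  exact ⟨fun x hx => (key x hx).1.contDiffWithinAt, fun x hx => (key x hx).2⟩

private theorem en_log_min {c t : ℝ} (hc : 0 < c) (h : c ≤ t) :
    |Real.log (min 1 t)| ≤ |Real.log (min 1 c)| := by
  have h1 : 0 < min 1 c := lt_min one_pos hc
  have h2 : min 1 c ≤ min 1 t := min_le_min_left _ h
  have h3 : Real.log (min 1 c) ≤ Real.log (min 1 t) := Real.log_le_log h1 h2
  have h4 : Real.log (min 1 t) ≤ 0 := Real.log_nonpos (h1.trans_le h2).le (min_le_left _ _)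
  rw [abs_of_nonpos h4, abs_of_nonpos (h3.trans h4)]
  linarith

open Filter Topology in
/-- boundedness -/
private theorem en_bdd (F : ℂ[X][X]) (hF : F.Monic) (S : Finset ℂ)
    (hS : ∀ x, x ∉ S → (at_ F x).Separable)
    (b y0 : ℂ) (hbS : b ∈ S) (hb : (at_ F b).Separable) (g : ℕ) (e : Fin g → ℂ[X][X] × ℂ[X])
    (G : ℂ → ℂ → ℝ) (l : ℝ)
    (hG : IsGreen F e b y0 G l) (r r1 r2 : ℝ) (Y : ℂ → ℂ)
    (hY : DifferentiableOn ℂ Y (ball b r)) (hYb : Y b = y0)
    (hYF : ∀ x ∈ ball b r, (at_ F x).eval (Y x) = 0) (h1 : 0 < r1) (h12 : r1 < r2) (h2 : r2 < r)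
    (V T : ℂ → ℝ) (L : ℝ) (hP : IsPot r1 r2 V T L) :
    ∃ M : ℝ, 0 ≤ M ∧ ∀ x, x ∉ S → ∀ y ∈ fib F x, |G x y - enCut b r Y V x y| ≤ M := by
  obtain ⟨M, hM⟩ := hG.bdd
  obtain ⟨r0, hr0, Z, hZ, hfib⟩ := sheets F hF b hb
  have hr : 0 < r := by linarith
  have hbr : b ∈ ball b r := mem_ball_self hr
  have hYd : DifferentiableAt ℂ Y b := hY.differentiableAt (isOpen_ball.mem_nhds hbr)
  obtain ⟨Cy, hCy⟩ := hYd.isBigO_sub.bound
  have hoth : ∀ j, ∃ B : ℝ, 0 ≤ B ∧ ∀ᶠ x in 𝓝 b, Z j b ≠ y0 →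
      |Real.log (min 1 (‖x - b‖ + ‖Z j x - y0‖))| ≤ B := by
    intro j
    by_cases hj : Z j b = y0
    · exact ⟨0, le_rfl, Eventually.of_forall fun x h => absurd hj h⟩
    · have hn : 0 < ‖Z j b - y0‖ := norm_pos_iff.mpr (sub_ne_zero.mpr hj)
      refine ⟨|Real.log (min 1 (‖Z j b - y0‖ / 2))|, abs_nonneg _, ?_⟩
      have hcZ : ContinuousAt (fun x => ‖Z j x - y0‖) b :=
        (((hZ j).2.1.continuousOn.continuousAt ((hZ j).1.mem_nhds (mem_ball_self hr0))).sub
          continuousAt_const).norm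
      filter_upwards [hcZ.eventually (lt_mem_nhds (half_lt_self hn))] with x hx _
      refine en_log_min (half_pos hn) ?_
      have := norm_nonneg (x - b)
      linarith
  choose B hB0 hB using hoth
  have hall : ∀ᶠ x in 𝓝 b, ∀ j, Z j b ≠ y0 →
      |Real.log (min 1 (‖x - b‖ + ‖Z j x - y0‖))| ≤ B j := eventually_all.mpr hB
  obtain ⟨ρ0, hρ0, hρ⟩ := Metric.eventually_nhds_iff_ball.mp (hCy.and hall)
  obtain ⟨ρ, hρd⟩ : ∃ ρ, ρ = min (min ρ0 r0) (min r1 1) := ⟨_, rfl⟩
  have hρp : 0 < ρ := by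
    rw [hρd]
    exact lt_min (lt_min hρ0 hr0) (lt_min h1 one_pos)
  have hρ1 : ρ ≤ ρ0 := by rw [hρd]; exact (min_le_left _ _).trans (min_le_left _ _)
  have hρ2 : ρ ≤ r0 := by rw [hρd]; exact (min_le_left _ _).trans (min_le_right _ _)
  have hρ3 : ρ ≤ r1 := by rw [hρd]; exact (min_le_right _ _).trans (min_le_left _ _)
  have hρ4 : ρ ≤ 1 := by rw [hρd]; exact (min_le_right _ _).trans (min_le_right _ _)
  have hr2 : 0 < r2 := h1.trans h12
  have hBs : ∀ j, B j ≤ ∑ i, B i := fun j =>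
    Finset.single_le_sum (f := B) (fun i _ => hB0 i) (Finset.mem_univ j)
  have hBs0 : 0 ≤ ∑ i, B i := Finset.sum_nonneg fun i _ => hB0 i
  have hCl : 0 ≤ Real.log (1 + |Cy|) := Real.log_nonneg (by linarith [abs_nonneg Cy])
  refine ⟨|M| + |Real.log (min 1 ρ)| + |Real.log (min 1 (ρ / r2))| + Real.log (1 + |Cy|) + |L| +
    ∑ i, B i, by positivity, fun x hx y hy => ?_⟩
  have hxb : x ≠ b := fun h => hx (h ▸ hbS)
  have hn0 : 0 < ‖x - b‖ := norm_pos_iff.mpr (sub_ne_zero.mpr hxb)
  have hev : (at_ F x).eval y = 0 := (mem_fib F hF x y).mp hy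
  have hGx := hM x y (hS x hx) hev fun h => hxb (congrArg Prod.fst h)
  have hM' := le_abs_self M
  have a1 := abs_nonneg M
  have a2 := abs_nonneg (Real.log (min 1 ρ))
  have a3 := abs_nonneg (Real.log (min 1 (ρ / r2)))
  have a4 := abs_nonneg L
  rcases le_or_gt ρ ‖x - b‖ with hfar | hnear
  · -- far from the pole
    have h3 : |Real.log (min 1 (‖x - b‖ + ‖y - y0‖))| ≤ |Real.log (min 1 ρ)| :=
      en_log_min hρp (by linarith [norm_nonneg (y - y0)])
    have h4 : |enCut b r Y V x y| ≤ |Real.log (min 1 (ρ / r2))| := by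
      unfold enCut
      split_ifs
      · have h5 := hP.nonpos (x - b)
        have h6 := hP.lower (x - b) (sub_ne_zero.mpr hxb)
        have h7 : Real.log (min 1 (ρ / r2)) ≤ Real.log (min 1 (‖x - b‖ / r2)) := by
          refine Real.log_le_log (lt_min one_pos (by positivity)) (min_le_min_left _ ?_)
          gcongr
        rw [abs_of_nonpos h5, abs_of_nonpos (h7.trans (h6.trans h5))]
        linarith
      · rw [abs_zero]
        exact a3
    have h5 : |G x y| ≤ |G x y - Real.log (min 1 (‖x - b‖ + ‖y - y0‖))| +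
        |Real.log (min 1 (‖x - b‖ + ‖y - y0‖))| := by
      have := abs_add_le (G x y - Real.log (min 1 (‖x - b‖ + ‖y - y0‖)))
        (Real.log (min 1 (‖x - b‖ + ‖y - y0‖)))
      rwa [sub_add_cancel] at this
    have h6 := abs_sub (G x y) (enCut b r Y V x y)
    linarith
  · -- near the pole
    have hxρ : x ∈ ball b ρ0 := by
      rw [mem_ball, dist_eq_norm]
      linarith
    obtain ⟨k1, k2⟩ := hρ x hxρ
    have hxr : x ∈ ball b r := by
      rw [mem_ball, dist_eq_norm]
      linarith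
    by_cases hyY : y = Y x
    · -- the section
      have h3 : enCut b r Y V x y = Real.log ‖x - b‖ - L := by
        unfold enCut
        rw [if_pos ⟨hxr, hyY⟩]
        exact hP.near _ (sub_ne_zero.mpr hxb) (by linarith)
      have h4 : ‖y - y0‖ ≤ |Cy| * ‖x - b‖ := by
        rw [hyY, ← hYb]
        exact k1.trans (mul_le_mul_of_nonneg_right (le_abs_self Cy) hn0.le)
      have h5 : ‖x - b‖ ≤ min 1 (‖x - b‖ + ‖y - y0‖) :=
        le_min (by linarith) (by linarith [norm_nonneg (y - y0)])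
      have h6 : min 1 (‖x - b‖ + ‖y - y0‖) ≤ (1 + |Cy|) * ‖x - b‖ := by
        refine (min_le_right _ _).trans ?_
        linarith
      have h7 : Real.log ‖x - b‖ ≤ Real.log (min 1 (‖x - b‖ + ‖y - y0‖)) := Real.log_le_log hn0 h5
      have h8 : Real.log (min 1 (‖x - b‖ + ‖y - y0‖)) ≤ Real.log (1 + |Cy|) + Real.log ‖x - b‖ := by
        rw [← Real.log_mul (by positivity) hn0.ne']
        exact Real.log_le_log (hn0.trans_le h5) h6
      rw [h3]
      have h9 := abs_le.mp hGx
      have h10 := abs_le.mp (le_refl |L|)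
      rw [abs_le]
      constructor <;> linarith [h9.1, h9.2, h10.1, h10.2]
    · -- the other sheets
      have h3 : enCut b r Y V x y = 0 := by
        unfold enCut
        rw [if_neg fun h => hyY h.2]
      have hxr0 : x ∈ ball b r0 := by
        rw [mem_ball, dist_eq_norm]
        linarith
      obtain ⟨j, hj⟩ := ((hfib x hxr0).2 y).mp hy
      have hjb : Z j b ≠ y0 := by
        intro hjb
        have hsub1 : ball b (min r0 r) ⊆ ball b r0 := ball_subset_ball (min_le_left _ _)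
        have hsub2 : ball b (min r0 r) ⊆ ball b r := ball_subset_ball (min_le_right _ _)
        have hb1 : IsBranch F (ball b (min r0 r)) (Z j) :=
          ⟨isOpen_ball, (hZ j).2.1.mono hsub1, fun z hz => (hZ j).2.2 z (hsub1 hz)⟩
        have hb2 : IsBranch F (ball b (min r0 r)) Y :=
          ⟨isOpen_ball, hY.mono hsub2, fun z hz => ⟨((hZ j).2.2 z (hsub1 hz)).1, hYF z (hsub2 hz)⟩⟩
        have h4 := branch_eq F hF (ball b (min r0 r)) (convex_ball _ _).isPreconnected (Z j) Y
          hb1 hb2 b (mem_ball_self (lt_min hr0 hr)) (by rw [hjb, hYb]) x ?_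
        · exact hyY (by rw [← hj, h4])
        · rw [mem_ball] at hxr0 hxr ⊢
          exact lt_min hxr0 hxr
      have h4 := k2 j hjb
      rw [hj] at h4
      have h5 : |G x y| ≤ |G x y - Real.log (min 1 (‖x - b‖ + ‖y - y0‖))| +
          |Real.log (min 1 (‖x - b‖ + ‖y - y0‖))| := by
        have := abs_add_le (G x y - Real.log (min 1 (‖x - b‖ + ‖y - y0‖)))
          (Real.log (min 1 (‖x - b‖ + ‖y - y0‖)))
        rwa [sub_add_cancel] at this
      rw [h3, sub_zero]
      have h6 := hBs j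
      linarith

open Classical in
private theorem en_sum_cut (b : ℂ) (r : ℝ) (Y : ℂ → ℂ) (W : ℂ → ℝ) (x : ℂ) (s : Finset ℂ)
    (φ : ℂ → ℝ) : ∑ y ∈ s, enCut b r Y W x y * φ y =
      if x ∈ ball b r ∧ Y x ∈ s then W (x - b) * φ (Y x) else 0 := by
  by_cases hx : x ∈ ball b r
  · have h1 : ∀ y ∈ s, enCut b r Y W x y * φ y = if y = Y x then W (x - b) * φ (Y x) else 0 := by
      intro y _
      unfold enCut enSec
      by_cases hy : y = Y x
      · rw [if_pos ⟨hx, hy⟩, if_pos hy, hy]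
      · rw [if_neg fun h => hy h.2, if_neg hy, zero_mul]
    rw [Finset.sum_congr rfl h1, Finset.sum_ite_eq']
    by_cases hs : Y x ∈ s
    · rw [if_pos hs, if_pos ⟨hx, hs⟩]
    · rw [if_neg hs, if_neg fun h => hs h.2]
  · rw [if_neg fun h => hx h.1]
    refine Finset.sum_eq_zero fun y _ => ?_
    unfold enCut enSec
    rw [if_neg fun h => hx h.1, zero_mul]

private theorem en_rho_nonneg {g : ℕ} (e : Fin g → ℂ[X][X] × ℂ[X]) (x y : ℂ) : 0 ≤ rho e x y := by
  unfold rho
  positivity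

private theorem en_rho_int (F : ℂ[X][X]) {g : ℕ} (e : Fin g → ℂ[X][X] × ℂ[X]) (he : IsONB F g e) :
    Integrable (fun x => ∑ y ∈ fib F x, rho e x y) := by
  have h1 : (fun x => ∑ y ∈ fib F x, rho e x y) =
      fun x => (1 / (g : ℝ)) * ∑ k, ∑ y ∈ fib F x, ‖rat (e k) x y‖ ^ 2 := by
    funext x
    unfold rho
    rw [← Finset.mul_sum, Finset.sum_comm]
  rw [h1]
  exact (integrable_finsetSum _ fun k _ => (he.1 k).2).const_mul _

private theorem en_K_int (ρ : ℝ) :
    Integrable ((ball (0 : ℂ) ρ).indicator fun x => ‖x‖ ^ (-(1 : ℝ))) := by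
  rw [integrable_indicator_iff measurableSet_ball]
  refine integrableOn_ball_of_norm_le_rpow (C := 1) (α := 1) ?_ ?_ ?_ ?_
  · rw [Complex.finrank_real_complex]
    norm_num
  · rw [Complex.finrank_real_complex]
    norm_num
  · refine Filter.Eventually.of_forall fun x => ?_
    rw [one_mul, Real.norm_of_nonneg (Real.rpow_nonneg (norm_nonneg _) _)]
  · exact (measurable_norm.pow_const _).aestronglyMeasurable

theorem energy (F : ℂ[X][X]) (hF : F.Monic) (b y0 : ℂ) (hb : (at_ F b).Separable) (g : ℕ)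
    (e : Fin g → ℂ[X][X] × ℂ[X]) (he : IsONB F g e) (G : ℂ → ℂ → ℝ) (l : ℝ)
    (hG : IsGreen F e b y0 G l) (r : ℝ) (Y : ℂ → ℂ)
    (hY : DifferentiableOn ℂ Y (ball b r)) (hYb : Y b = y0)
    (hYF : ∀ x ∈ ball b r, (at_ F x).eval (Y x) = 0) (r1 r2 : ℝ) (h1 : 0 < r1) (h12 : r1 < r2)
    (h2 : r2 < r) (V T : ℂ → ℝ) (L : ℝ) (hP : IsPot r1 r2 V T L) :
    (∫ x, (G x (Y x) - V (x - b)) * T (x - b)) +
      ∫ x in ball b r, V (x - b) * rho e x (Y x) ≤ 0 := by
  classical
  have hr2 : 0 < r2 := h1.trans h12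
  have hr : 0 < r := hr2.trans h2
  have hpi := Real.pi_pos
  obtain ⟨S, hSd⟩ : ∃ S : Finset ℂ, S = insert b ((bad_finite F hF b hb).toFinset ∪
      Finset.univ.biUnion fun k => (e k).2.roots.toFinset) := ⟨_, rfl⟩
  have hbS : b ∈ S := by rw [hSd]; exact Finset.mem_insert_self _ _
  have hS : ∀ x, x ∉ S → (at_ F x).Separable := by
    intro x hx
    by_contra hns
    apply hx
    rw [hSd, Finset.mem_insert, Finset.mem_union, Set.Finite.mem_toFinset]
    exact Or.inr (Or.inl hns)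
  have hden : ∀ x, x ∉ S → ∀ k, (e k).2.eval x ≠ 0 := by
    intro x hx k hk
    apply hx
    rw [hSd, Finset.mem_insert, Finset.mem_union, Finset.mem_biUnion]
    refine Or.inr (Or.inr ⟨k, Finset.mem_univ k, ?_⟩)
    rw [Multiset.mem_toFinset, Polynomial.mem_roots (he.1 k).1]
    exact hk
  have hne : ∀ x, x ∉ S → x ≠ b := fun x hx h => hx (h ▸ hbS)
  have haeS : ∀ᵐ x : ℂ, x ∉ S := S.countable_toSet.ae_notMem volume
  obtain ⟨M, hM0, hM⟩ := en_bdd F hF S hS b y0 hbS hb g e G l hG r r1 r2 Y hY hYb hYF h1 h12 h2 V T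
    L hP
  have hbr := en_branch F hF S b y0 hbS g e G l hG r r1 r2 Y hY hYF h2 V T L hP hden
  have hYfib : ∀ x ∈ ball b r, Y x ∈ fib F x := fun x hx => (mem_fib F hF x _).mpr (hYF x hx)
  have hcutV : ∀ x ∈ ball b r, enCut b r Y V x (Y x) = V (x - b) := by
    intro x hx
    unfold enCut
    rw [if_pos ⟨hx, rfl⟩]
  have hT0 : ∀ x, x ∉ ball b r → T (x - b) = 0 := by
    intro x hx
    by_contra hT
    apply hx
    rw [mem_ball, dist_eq_norm]
    linarith [(hP.supp _ hT).2]
  have hTi : Integrable T := by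
    by_contra hT
    have := hP.mass
    rw [integral_undef hT] at this
    exact zero_ne_one this
  have hTi' : Integrable (fun x => T (x - b)) := hTi.comp_sub_right b
  have hRi := en_rho_int F e he
  obtain ⟨hq, hle⟩ := sq F hF S hS (fun x y => G x y - enCut b r Y V x y)
    (fun x y => -(2 * Real.pi * rho e x y) + 2 * Real.pi * enCut b r Y T x y)
    (fun U Z hZ hU => hbr U Z hZ hU)
  obtain ⟨h, hh⟩ : ∃ h : ℂ → ℝ, h = fun x => 2 * ∑ y ∈ fib F x, (G x y - enCut b r Y V x y) *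
      (-(2 * Real.pi * rho e x y) + 2 * Real.pi * enCut b r Y T x y) := ⟨_, rfl⟩
  -- `h` is integrable
  have hcont : ContinuousOn h ((S : Set ℂ)ᶜ) := by
    rw [hh]
    refine continuousOn_const.mul (en_cont F hF S hS _ fun U Z hZ hU => ?_)
    obtain ⟨k1, k2⟩ := hbr U Z hZ hU
    refine k1.continuousOn.mul ?_
    exact (en_lap_cont hZ.1 k1).congr fun x hx => (k2 x hx).symm
  have hSm : MeasurableSet ((S : Set ℂ)ᶜ) := S.finite_toSet.measurableSet.compl
  have hrestr : (volume : Measure ℂ).restrict ((S : Set ℂ)ᶜ) = volume :=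
    Measure.restrict_eq_self_of_ae_mem haeS
  have hmeas : AEStronglyMeasurable h volume := by
    have := hcont.aestronglyMeasurable hSm (μ := volume)
    rwa [hrestr] at this
  have hcutT0 : ∀ x y, 0 ≤ enCut b r Y T x y := by
    intro x y
    unfold enCut
    split_ifs
    · exact hP.nonneg _
    · exact le_rfl
  have hhi : Integrable h := by
    refine Integrable.mono' (((hRi.const_mul (2 * Real.pi)).add
      (hTi'.const_mul (2 * Real.pi))).const_mul (2 * M)) hmeas ?_
    filter_upwards [haeS] with x hx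
    rw [hh, Real.norm_eq_abs, abs_mul, abs_of_pos (by norm_num : (0 : ℝ) < 2)]
    have k1 : |∑ y ∈ fib F x, (G x y - enCut b r Y V x y) *
        (-(2 * Real.pi * rho e x y) + 2 * Real.pi * enCut b r Y T x y)| ≤
        ∑ y ∈ fib F x, M * (2 * Real.pi * rho e x y + 2 * Real.pi * (enCut b r Y T x y * 1)) := by
      refine (Finset.abs_sum_le_sum_abs _ _).trans (Finset.sum_le_sum fun y hy => ?_)
      rw [abs_mul, mul_one]
      refine mul_le_mul (hM x hx y hy) ?_ (abs_nonneg _) hM0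
      have k2 := en_rho_nonneg e x y
      have k3 := hcutT0 x y
      rw [abs_le]
      constructor <;> nlinarith [mul_nonneg hpi.le k2, mul_nonneg hpi.le k3]
    rw [← Finset.mul_sum, Finset.sum_add_distrib, ← Finset.mul_sum, ← Finset.mul_sum,
      en_sum_cut] at k1
    have k4 : (if x ∈ ball b r ∧ Y x ∈ fib F x then T (x - b) * 1 else 0) ≤ T (x - b) := by
      split_ifs
      · rw [mul_one]
      · exact hP.nonneg _
    have k5 : M * (2 * Real.pi * ∑ y ∈ fib F x, rho e x y + 2 * Real.pi *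
        (if x ∈ ball b r ∧ Y x ∈ fib F x then T (x - b) * 1 else 0)) ≤
        M * (2 * Real.pi * ∑ y ∈ fib F x, rho e x y + 2 * Real.pi * T (x - b)) := by
      refine mul_le_mul_of_nonneg_left ?_ hM0
      have := mul_le_mul_of_nonneg_left k4 (by positivity : 0 ≤ 2 * Real.pi)
      linarith
    calc _ ≤ 2 * (M * (2 * Real.pi * ∑ y ∈ fib F x, rho e x y + 2 * Real.pi * T (x - b))) := by
          linarith
      _ = 2 * M * (2 * Real.pi * ∑ y ∈ fib F x, rho e x y + 2 * Real.pi * T (x - b)) := by ring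
      _ = _ := rfl
  -- Green
  have hneg : ∫ x, h x ≤ 0 := by
    refine green_ineq S _ h hq (F.natDegree * M ^ 2) (fun x hx => ?_) hhi fun x hx => ?_
    · have k1 : ∀ y ∈ fib F x, (G x y - enCut b r Y V x y) ^ 2 ≤ M ^ 2 := fun y hy =>
        sq_le_sq' (abs_le.mp (hM x hx y hy)).1 (abs_le.mp (hM x hx y hy)).2
      rw [abs_of_nonneg (Finset.sum_nonneg fun y _ => sq_nonneg _)]
      refine (Finset.sum_le_card_nsmul _ _ _ k1).trans ?_
      rw [nsmul_eq_mul]
      refine mul_le_mul_of_nonneg_right ?_ (sq_nonneg M)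
      have k2 : (fib F x).card ≤ F.natDegree := by
        unfold fib
        refine (Multiset.toFinset_card_le _).trans ((Polynomial.card_roots' _).trans ?_)
        exact Polynomial.natDegree_map_le
      exact_mod_cast k2
    · rw [hh]
      exact hle x hx
  -- the open set where the section is good
  have hDo : IsOpen (ball b r \ (S : Set ℂ)) := isOpen_ball.sdiff S.finite_toSet.isClosed
  have hDY : IsBranch F (ball b r \ (S : Set ℂ)) Y :=
    ⟨hDo, hY.mono fun x hx => hx.1, fun x hx => ⟨hS x hx.2, hYF x hx.1⟩⟩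
  obtain ⟨hGc, hGl⟩ := hG.lap _ Y hDY fun x hx he' => hne x hx.2 (congrArg Prod.fst he')
  have hVc : ContinuousOn (fun x => V (x - b)) (ball b r \ (S : Set ℂ)) := by
    refine (hP.smooth.continuousOn).comp (continuous_id.sub continuous_const).continuousOn ?_
    intro x hx
    exact sub_ne_zero.mpr (hne x hx.2)
  have hRc : ContinuousOn (fun x => rho e x (Y x)) (ball b r \ (S : Set ℂ)) := by
    refine ((en_lap_cont hDo hGc).const_smul (-(1 / (2 * Real.pi)))).congr fun x hx => ?_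
    show rho e x (Y x) = -(1 / (2 * Real.pi)) * Laplacian.laplacian (fun x => G x (Y x)) x
    rw [hGl x hx (hden x hx.2)]
    field_simp
  have hae_ind : ∀ (φ : ℂ → ℝ), (∀ x, x ∉ ball b r → φ x = 0) →
      ContinuousOn φ (ball b r \ (S : Set ℂ)) → AEStronglyMeasurable φ volume := by
    intro φ h0 hc
    have k1 := hc.aestronglyMeasurable hDo.measurableSet (μ := volume)
    rw [← aestronglyMeasurable_indicator_iff hDo.measurableSet] at k1
    refine k1.congr ?_
    filter_upwards [haeS] with x hx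
    by_cases hxb : x ∈ ball b r
    · rw [Set.indicator_of_mem (show x ∈ ball b r \ (S : Set ℂ) from ⟨hxb, hx⟩)]
    · rw [h0 x hxb, Set.indicator_of_notMem fun h => hxb h.1]
  -- `B`
  obtain ⟨B, hB⟩ : ∃ B : ℂ → ℝ, B = fun x => (G x (Y x) - V (x - b)) * T (x - b) := ⟨_, rfl⟩
  have hB0 : ∀ x, x ∉ ball b r → B x = 0 := by
    intro x hx
    rw [hB]
    show (G x (Y x) - V (x - b)) * T (x - b) = 0
    rw [hT0 x hx, mul_zero]
  have hBm : AEStronglyMeasurable B volume := by
    refine hae_ind B hB0 ?_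
    rw [hB]
    exact (hGc.continuousOn.sub hVc).mul
      (hP.cont.comp (continuous_id.sub continuous_const)).continuousOn
  have hBi : Integrable B := by
    refine Integrable.mono' (hTi'.const_mul M) hBm ?_
    filter_upwards [haeS] with x hx
    by_cases hxb : x ∈ ball b r
    · have k1 := hM x hx (Y x) (hYfib x hxb)
      rw [hcutV x hxb] at k1
      rw [hB, Real.norm_eq_abs, abs_mul, abs_of_nonneg (hP.nonneg _)]
      exact mul_le_mul_of_nonneg_right k1 (hP.nonneg _)
    · rw [hB0 x hxb, norm_zero]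
      exact mul_nonneg hM0 (hP.nonneg _)
  -- `C`
  obtain ⟨C, hC⟩ : ∃ C : ℂ → ℝ, C = (ball b r).indicator fun x => V (x - b) * rho e x (Y x) :=
    ⟨_, rfl⟩
  have hC0 : ∀ x, x ∉ ball b r → C x = 0 := by
    intro x hx
    rw [hC, Set.indicator_of_notMem hx]
  have hCm : AEStronglyMeasurable C volume := by
    refine hae_ind C hC0 ?_
    refine (hVc.mul hRc).congr fun x hx => ?_
    rw [hC, Set.indicator_of_mem hx.1]
    rfl
  obtain ⟨S', hS'⟩ := dens F hF b hb g e he r Y hY hYF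
  have haeS' : ∀ᵐ x : ℂ, x ∉ S' := S'.countable_toSet.ae_notMem volume
  have hCi : Integrable C := by
    obtain ⟨c, hc⟩ : ∃ c : ℝ, c = 1 / g * (r ^ 2 / (Real.pi * (r ^ 2 - r2 ^ 2) ^ 2)) := ⟨_, rfl⟩
    have hc0 : 0 ≤ c := by rw [hc]; positivity
    refine Integrable.mono' (((en_K_int r2).comp_sub_right b).const_mul (c * r2)) hCm ?_
    filter_upwards [haeS, haeS'] with x hx hx'
    rcases lt_or_ge ‖x - b‖ r2 with hlt | hge
    · have hxb : x ∈ ball b r := by
        rw [mem_ball, dist_eq_norm]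
        linarith
      have hn : 0 < ‖x - b‖ := norm_pos_iff.mpr (sub_ne_zero.mpr (hne x hx))
      rw [Set.indicator_of_mem (show x - b ∈ ball (0 : ℂ) r2 by rwa [mem_ball_zero_iff]), hC,
        Set.indicator_of_mem hxb, Real.norm_eq_abs, abs_mul, abs_of_nonneg (en_rho_nonneg e _ _),
        Real.rpow_neg_one]
      have k1 : |V (x - b)| ≤ r2 * ‖x - b‖⁻¹ := by
        have k2 := hP.nonpos (x - b)
        have k3 := hP.lower (x - b) (sub_ne_zero.mpr (hne x hx))
        have k4 : ‖x - b‖ / r2 ≤ 1 := by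
          rw [div_le_one hr2]
          exact hlt.le
        rw [min_eq_right k4] at k3
        have k5 : 1 - (‖x - b‖ / r2)⁻¹ ≤ Real.log (‖x - b‖ / r2) :=
          Real.one_sub_inv_le_log_of_pos (by positivity)
        rw [abs_of_nonpos k2]
        have k6 : (‖x - b‖ / r2)⁻¹ = r2 * ‖x - b‖⁻¹ := by
          rw [inv_div]
          rfl
        linarith
      have k2 : rho e x (Y x) ≤ c := by
        refine (hS' x hxb hx').trans ?_
        rw [hc]
        have k3 : 0 < r ^ 2 - r2 ^ 2 := by nlinarith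
        have k4 : r ^ 2 - r2 ^ 2 ≤ r ^ 2 - ‖x - b‖ ^ 2 := by nlinarith
        gcongr
      calc |V (x - b)| * rho e x (Y x) ≤ (r2 * ‖x - b‖⁻¹) * c :=
            mul_le_mul k1 k2 (en_rho_nonneg e _ _) (by positivity)
        _ = c * r2 * ‖x - b‖⁻¹ := by ring
    · have k1 : C x = 0 := by
        by_cases hxb : x ∈ ball b r
        · rw [hC, Set.indicator_of_mem hxb, hP.zero _ hge, zero_mul]
        · exact hC0 x hxb
      rw [k1, norm_zero]
      refine mul_nonneg (by positivity) (Set.indicator_nonneg (fun z _ => ?_) _)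
      positivity
  -- the identity
  have hid : ∀ x, x ∉ S → ∑ y ∈ fib F x, G x y * rho e x y = B x + C x - h x / (4 * Real.pi) := by
    intro x hx
    have k1 : ∑ y ∈ fib F x, (G x y - enCut b r Y V x y) *
        (-(2 * Real.pi * rho e x y) + 2 * Real.pi * enCut b r Y T x y) =
        -(2 * Real.pi) * ∑ y ∈ fib F x, G x y * rho e x y +
        2 * Real.pi * ∑ y ∈ fib F x, enCut b r Y V x y * rho e x y +
        2 * Real.pi * ∑ y ∈ fib F x, enCut b r Y T x y * (G x y - enCut b r Y V x y) := by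
      rw [Finset.mul_sum, Finset.mul_sum, Finset.mul_sum, ← Finset.sum_add_distrib,
        ← Finset.sum_add_distrib]
      refine Finset.sum_congr rfl fun y _ => ?_
      ring
    have k2 : ∑ y ∈ fib F x, enCut b r Y V x y * rho e x y = C x := by
      rw [en_sum_cut]
      by_cases hxb : x ∈ ball b r
      · rw [if_pos ⟨hxb, hYfib x hxb⟩, hC, Set.indicator_of_mem hxb]
      · rw [if_neg fun h => hxb h.1, hC0 x hxb]
    have k3 : ∑ y ∈ fib F x, enCut b r Y T x y * (G x y - enCut b r Y V x y) = B x := by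
      rw [en_sum_cut]
      by_cases hxb : x ∈ ball b r
      · rw [if_pos ⟨hxb, hYfib x hxb⟩, hcutV x hxb, hB]
        ring
      · rw [if_neg fun h => hxb h.1, hB0 x hxb]
    rw [k2, k3] at k1
    have k4 : h x = 2 * (-(2 * Real.pi) * ∑ y ∈ fib F x, G x y * rho e x y +
        2 * Real.pi * C x + 2 * Real.pi * B x) := by
      rw [hh]
      show 2 * ∑ y ∈ fib F x, _ = _
      rw [k1]
    rw [k4]
    field_simp
    ring
  have hA : ∫ x, (B x + C x - h x / (4 * Real.pi)) = 0 := by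
    rw [← hG.mean]
    refine integral_congr_ae ?_
    filter_upwards [haeS] with x hx
    exact (hid x hx).symm
  have hA2 : ∫ x, (B x + C x - h x / (4 * Real.pi)) =
      (∫ x, B x + C x) - ∫ x, h x / (4 * Real.pi) :=
    integral_sub (f := fun x => B x + C x) (hBi.add hCi) (hhi.div_const _)
  rw [hA2, integral_add hBi hCi, integral_div] at hA
  have hCe : ∫ x, C x = ∫ x in ball b r, V (x - b) * rho e x (Y x) := by
    rw [hC, integral_indicator measurableSet_ball]
  rw [← hCe]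
  have hBe : ∫ x, (G x (Y x) - V (x - b)) * T (x - b) = ∫ x, B x := by rw [hB]
  rw [hBe]
  have h5 : (∫ x, h x) / (4 * Real.pi) ≤ 0 := div_nonpos_of_nonpos_of_nonneg hneg (by positivity)
  linarith

end ALC
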