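import Mathlib

/-!
Freeness of the integral closure over a regular local ring R of dimension 2 with parameters s, p:
C = integral closure of R in L is finite (IsIntegralClosure.isNoetherian) and torsion free. C/sC is
torsion free over the discrete valuation ring R/s: if p f in s C, then h = f/s is integral (its
minimal polynomial has coefficients in R[1/s] and in R[1/p]). So C/sC is free over R/s; lift a
basis: it generates C (Nakayama) and is linearly independent (divide a relation by s); the number of
elements is [L:K].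
-/

open Polynomial

namespace ALC

theorem free_minpoly_scale {K L : Type*} [Field K] [Field L] [Algebra K L]
    (h : L) (hh : IsIntegral K h) (s : K) (hs : s ≠ 0) :
    minpoly K (algebraMap K L s * h) = (minpoly K h).scaleRoots s := by
  have hf : IsIntegral K (algebraMap K L s * h) := isIntegral_algebraMap.mul hh
  have h1 : minpoly K (algebraMap K L s * h) ∣ (minpoly K h).scaleRoots s :=
    minpoly.dvd K _ (scaleRoots_aeval_eq_zero (minpoly.aeval K h))
  have h2 : minpoly K h ∣ (minpoly K (algebraMap K L s * h)).scaleRoots s⁻¹ := by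
    refine minpoly.dvd K _ ?_
    have h3 := scaleRoots_aeval_eq_zero (r := s⁻¹) (minpoly.aeval K (algebraMap K L s * h))
    rw [← mul_assoc, ← map_mul, inv_mul_cancel₀ hs, map_one, one_mul] at h3
    exact h3
  have h4 : ((minpoly K h).scaleRoots s).natDegree ≤
      (minpoly K (algebraMap K L s * h)).natDegree := by
    rw [natDegree_scaleRoots]
    have h5 := natDegree_le_of_dvd h2 (((monic_scaleRoots_iff _).mpr (minpoly.monic hf)).ne_zero)
    rwa [natDegree_scaleRoots] at h5
  exact (eq_of_monic_of_dvd_of_natDegree_le (minpoly.monic hf)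
    ((monic_scaleRoots_iff _).mpr (minpoly.monic hh)) h1 h4).symm

theorem free_coeff {R K L : Type*} [CommRing R] [IsDomain R] [IsIntegrallyClosed R] [Field K]
    [Algebra R K] [IsFractionRing R K] [Field L] [Algebra K L] [Algebra R L]
    [IsScalarTower R K L] (s : R) (hs : s ≠ 0) (h : L) (hh : IsIntegral K h)
    (hf : IsIntegral R (algebraMap R L s * h)) (i : ℕ) :
    ∃ (k : ℕ) (r : R), algebraMap R K s ^ k * (minpoly K h).coeff i = algebraMap R K r := by
  refine ⟨(minpoly K h).natDegree - i, (minpoly R (algebraMap R L s * h)).coeff i, ?_⟩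
  have hs' : algebraMap R K s ≠ 0 := by
    rw [Ne, IsFractionRing.to_map_eq_zero_iff]
    exact hs
  have h1 := minpoly.isIntegrallyClosed_eq_field_fractions' K hf
  have h2 := free_minpoly_scale h hh (algebraMap R K s) hs'
  rw [← IsScalarTower.algebraMap_apply R K L] at h2
  rw [h1] at h2
  have h3 := congrArg (fun q => coeff q i) h2
  simp only [coeff_map, coeff_scaleRoots] at h3
  rw [h3, mul_comm]

theorem free_integral {R K L : Type*} [CommRing R] [IsDomain R] [IsIntegrallyClosed R] [Field K]
    [Algebra R K] [IsFractionRing R K] [Field L] [Algebra K L] [Algebra R L]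
    [IsScalarTower R K L] (s p : R) (hs : s ≠ 0) (hp : p ≠ 0)
    (hcap : ∀ z : K, (∃ (k : ℕ) (r : R), algebraMap R K s ^ k * z = algebraMap R K r) →
      (∃ (k : ℕ) (r : R), algebraMap R K p ^ k * z = algebraMap R K r) →
      ∃ r : R, z = algebraMap R K r)
    (h : L) (hh : IsIntegral K h) (hf : IsIntegral R (algebraMap R L s * h))
    (hg : IsIntegral R (algebraMap R L p * h)) : IsIntegral R h := by
  have h1 : minpoly K h ∈ lifts (algebraMap R K) := by
    rw [lifts_iff_coeff_lifts]
    intro i
    obtain ⟨r, hr⟩ := hcap _ (free_coeff s hs h hh hf i) (free_coeff p hp h hh hg i)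
    exact ⟨r, hr.symm⟩
  obtain ⟨q, hq1, _, hq2⟩ := lifts_and_degree_eq_and_monic h1 (minpoly.monic hh)
  refine ⟨q, hq2, ?_⟩
  have h2 := minpoly.aeval K h
  rw [← hq1, aeval_map_algebraMap] at h2
  exact h2

theorem free_lift {R M ι : Type*} [CommRing R] [IsLocalRing R] [IsNoetherianRing R]
    [AddCommGroup M] [Module R M] [Module.Finite R M] [Fintype ι] (s : R)
    (hs1 : s ∈ IsLocalRing.maximalIdeal R) (htf : ∀ x : M, s • x = 0 → x = 0) (b : ι → M)
    (hspan : ∀ x : M, ∃ (c : ι → R) (y : M), x = ∑ i, c i • b i + s • y)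
    (hli : ∀ c : ι → R, (∃ y, ∑ i, c i • b i = s • y) → ∀ i, s ∣ c i) :
    Nonempty (Module.Basis ι R M) := by
  have hjac : Ideal.span {s} ≤ Ideal.jacobson (⊥ : Ideal R) := by
    rw [IsLocalRing.jacobson_eq_maximalIdeal ⊥ bot_ne_top, Ideal.span_le]
    simpa using hs1
  have h1 : ⊤ ≤ Submodule.span R (Set.range b) := by
    refine Submodule.le_of_le_smul_of_le_jacobson_bot (Module.Finite.fg_top) hjac ?_
    intro x _
    obtain ⟨c, y, hx⟩ := hspan x
    rw [hx]
    refine Submodule.add_mem_sup ?_ ?_
    · exact Submodule.sum_mem _ fun i _ => Submodule.smul_mem _ _ (Submodule.subset_span ⟨i, rfl⟩)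
    · exact Submodule.smul_mem_smul (Ideal.mem_span_singleton_self s) Submodule.mem_top
  have h2 : ∀ (k : ℕ) (g : ι → R), ∑ i, g i • b i = 0 → ∀ i, s ^ k ∣ g i := by
    intro k
    induction k with
    | zero => intro g _ i; simp
    | succ k ih =>
      intro g hg i
      have h3 : ∀ i, s ∣ g i := hli g ⟨0, by rw [hg, smul_zero]⟩
      choose g' hg' using h3
      have h4 : ∑ i, g' i • b i = 0 := by
        apply htf
        rw [Finset.smul_sum, ← hg]
        refine Finset.sum_congr rfl fun j _ => ?_
        rw [hg' j, mul_smul]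
      rw [hg' i, pow_succ']
      exact mul_dvd_mul_left s (ih g' h4 i)
  have hne : Ideal.span {s} ≠ ⊤ := by
    intro h
    rw [Ideal.span_singleton_eq_top] at h
    exact (IsLocalRing.mem_maximalIdeal s).mp hs1 h
  have h3 : LinearIndependent R b := by
    rw [Fintype.linearIndependent_iff]
    intro g hg i
    have h4 : g i ∈ ⨅ k : ℕ, (Ideal.span {s}) ^ k := by
      rw [Ideal.mem_iInf]
      intro k
      rw [Ideal.span_singleton_pow, Ideal.mem_span_singleton]
      exact h2 k g hg i
    rw [Ideal.iInf_pow_eq_bot_of_isLocalRing _ hne] at h4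
    exact h4
  exact ⟨Module.Basis.mk h3 h1⟩

theorem free_of_quot {R M : Type*} [CommRing R] [IsLocalRing R] [IsNoetherianRing R]
    [AddCommGroup M] [Module R M] [Module.Finite R M] (s p : R)
    (hs1 : s ∈ IsLocalRing.maximalIdeal R) (htf : ∀ x : M, s • x = 0 → x = 0)
    (hdom : IsDomain (R ⧸ Ideal.span {s})) (hdvr : IsDiscreteValuationRing (R ⧸ Ideal.span {s}))
    (hp : Irreducible (Ideal.Quotient.mk (Ideal.span {s}) p))
    (hps : ∀ x y : M, p • x = s • y → ∃ z, x = s • z) :
    ∃ k : ℕ, Nonempty (Module.Basis (Fin k) R M) := by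
  have hmem : ∀ x : M, x ∈ Ideal.span {s} • (⊤ : Submodule R M) ↔ ∃ z, x = s • z := by
    intro x
    rw [Submodule.ideal_span_singleton_smul, Submodule.mem_smul_pointwise_iff_exists]
    constructor
    · rintro ⟨z, _, hz⟩
      exact ⟨z, hz.symm⟩
    · rintro ⟨z, hz⟩
      exact ⟨z, Submodule.mem_top, hz.symm⟩
  have hsm : ∀ (r : R) (x : M), (Ideal.Quotient.mk (Ideal.span {s}) r) •
      (Submodule.Quotient.mk x : M ⧸ Ideal.span {s} • (⊤ : Submodule R M)) =
        Submodule.Quotient.mk (r • x) := by
    intro r x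
    rfl
  have hfin : Module.Finite (R ⧸ Ideal.span {s}) (M ⧸ Ideal.span {s} • (⊤ : Submodule R M)) :=
    Module.Finite.of_restrictScalars_finite R _ _
  have hreg : IsSMulRegular (M ⧸ Ideal.span {s} • (⊤ : Submodule R M))
      (Ideal.Quotient.mk (Ideal.span {s}) p) := by
    intro x y hxy
    obtain ⟨x, rfl⟩ := Submodule.Quotient.mk_surjective _ x
    obtain ⟨y, rfl⟩ := Submodule.Quotient.mk_surjective _ y
    simp only [hsm] at hxy
    rw [Submodule.Quotient.eq, ← smul_sub, hmem] at hxy
    rw [Submodule.Quotient.eq, hmem]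
    obtain ⟨z, hz⟩ := hxy
    exact hps _ z hz
  have htf' : Module.IsTorsionFree (R ⧸ Ideal.span {s})
      (M ⧸ Ideal.span {s} • (⊤ : Submodule R M)) := by
    constructor
    intro r hr
    have hr0 : r ≠ 0 := hr.ne_zero
    obtain ⟨n, u, hu⟩ := IsDiscreteValuationRing.eq_unit_mul_pow_irreducible hr0 hp
    rw [hu]
    exact (Units.isSMulRegular _ u).mul (hreg.pow n)
  have hfree : Module.Free (R ⧸ Ideal.span {s}) (M ⧸ Ideal.span {s} • (⊤ : Submodule R M)) :=
    Module.free_of_finite_type_torsion_free'
  let b := Module.finBasis (R ⧸ Ideal.span {s}) (M ⧸ Ideal.span {s} • (⊤ : Submodule R M))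
  choose b' hb' using fun i => Submodule.Quotient.mk_surjective _ (b i)
  have hsum : ∀ c : Fin (Module.finrank (R ⧸ Ideal.span {s})
      (M ⧸ Ideal.span {s} • (⊤ : Submodule R M))) → R,
      (Submodule.Quotient.mk (∑ i, c i • b' i) : M ⧸ Ideal.span {s} • (⊤ : Submodule R M)) =
      ∑ i, (Ideal.Quotient.mk (Ideal.span {s}) (c i)) • b i := by
    intro c
    rw [← Submodule.mkQ_apply, map_sum]
    refine Finset.sum_congr rfl fun i _ => ?_
    rw [← hb' i, hsm]
    rfl
  refine ⟨_, free_lift s hs1 htf b' ?_ ?_⟩
  · intro x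
    have h1 := b.sum_repr (Submodule.Quotient.mk x)
    choose c hc using fun i => Ideal.Quotient.mk_surjective (b.repr (Submodule.Quotient.mk x) i)
    have h2 : (Submodule.Quotient.mk x : M ⧸ Ideal.span {s} • (⊤ : Submodule R M)) =
        Submodule.Quotient.mk (∑ i, c i • b' i) := by
      rw [hsum, ← h1]
      refine Finset.sum_congr rfl fun i _ => ?_
      rw [hc i]
    rw [Submodule.Quotient.eq, hmem] at h2
    obtain ⟨z, hz⟩ := h2
    exact ⟨c, z, by rw [← hz]; abel⟩
  · rintro c ⟨y, hy⟩ i
    have h1 : ∑ i, (Ideal.Quotient.mk (Ideal.span {s}) (c i)) • b i = 0 := by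
      rw [← hsum, Submodule.Quotient.mk_eq_zero, hmem]
      exact ⟨y, hy⟩
    have h2 := Fintype.linearIndependent_iff.mp b.linearIndependent _ h1 i
    rwa [Ideal.Quotient.eq_zero_iff_mem, Ideal.mem_span_singleton] at h2

theorem free_int {R K L : Type*} [CommRing R] [IsDomain R] [IsLocalRing R] [IsNoetherianRing R]
    [IsIntegrallyClosed R] [Field K] [Algebra R K] [IsFractionRing R K] [Field L] [Algebra K L]
    [FiniteDimensional K L] [Algebra.IsSeparable K L] [Algebra R L] [IsScalarTower R K L]
    (s p : R) (hs : Prime s) (hs1 : s ∈ IsLocalRing.maximalIdeal R)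
    (hdom : IsDomain (R ⧸ Ideal.span {s})) (hdvr : IsDiscreteValuationRing (R ⧸ Ideal.span {s}))
    (hp : Irreducible (Ideal.Quotient.mk (Ideal.span {s}) p))
    (hcap : ∀ z : K, (∃ (k : ℕ) (r : R), algebraMap R K s ^ k * z = algebraMap R K r) →
      (∃ (k : ℕ) (r : R), algebraMap R K p ^ k * z = algebraMap R K r) →
      ∃ r : R, z = algebraMap R K r) :
    Nonempty (Module.Basis (Fin (Module.finrank K L)) R (integralClosure R L)) := by
  have hs0 : s ≠ 0 := hs.ne_zero
  have hp0 : p ≠ 0 := by
    rintro rfl
    exact hp.ne_zero (map_zero _)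
  have hinj : Function.Injective (algebraMap R L) := by
    rw [IsScalarTower.algebraMap_eq R K L]
    exact (algebraMap K L).injective.comp (IsFractionRing.injective R K)
  have hsL : algebraMap R L s ≠ 0 := (map_ne_zero_iff _ hinj).mpr hs0
  have hfin : Module.Finite R (integralClosure R L) :=
    IsIntegralClosure.finite R K L (integralClosure R L)
  have htf : ∀ x : integralClosure R L, s • x = 0 → x = 0 := by
    intro x hx
    have h1 : algebraMap R L s * (x : L) = 0 := by
      rw [← Algebra.smul_def]
      exact congrArg (fun y : integralClosure R L => (y : L)) hx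
    exact Subtype.ext ((mul_eq_zero.mp h1).resolve_left hsL)
  have hps : ∀ x y : integralClosure R L, p • x = s • y → ∃ z, x = s • z := by
    intro x y hxy
    have h1 : algebraMap R L p * (x : L) = algebraMap R L s * (y : L) := by
      rw [← Algebra.smul_def, ← Algebra.smul_def]
      exact congrArg (fun y : integralClosure R L => (y : L)) hxy
    have h2 : algebraMap R L s * ((x : L) / algebraMap R L s) = x := by
      field_simp
    have h3 : algebraMap R L p * ((x : L) / algebraMap R L s) = y := by
      rw [← mul_div_assoc, h1, mul_div_cancel_left₀ _ hsL]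
    have h4 : IsIntegral R ((x : L) / algebraMap R L s) := by
      refine free_integral (K := K) s p hs0 hp0 hcap _ (Algebra.IsIntegral.isIntegral _) ?_ ?_
      · rw [h2]
        exact x.2
      · rw [h3]
        exact y.2
    refine ⟨⟨(x : L) / algebraMap R L s, h4⟩, Subtype.ext ?_⟩
    show (x : L) = s • ((x : L) / algebraMap R L s)
    rw [Algebra.smul_def, h2]
  obtain ⟨k, ⟨b⟩⟩ := free_of_quot s p hs1 htf hdom hdvr hp hps
  have hloc : IsLocalization (Algebra.algebraMapSubmonoid (integralClosure R L)
      (nonZeroDivisors R)) L := IsIntegralClosure.isLocalization R K L (integralClosure R L)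
  let b' := Module.Basis.localizationLocalization K (nonZeroDivisors R) L b
  have hk : Fintype.card (Fin k) = Module.finrank K L := (Module.finrank_eq_card_basis b').symm
  rw [Fintype.card_fin] at hk
  exact ⟨b.reindex (finCongr hk)⟩

end ALC
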