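import Pool.Agent.ALC.IdTr

/-!
The bound of the different over a discrete valuation ring A (residue field arbitrary, possibly
imperfect): C = integral closure of A in the finite separable extension L of K = Frac A (Dedekind
with finitely many primes, finite free over A). If y is in the trace dual of C and w^m does not
divide n for 1 <= n <= [L:K], then w^m y is in C.
Proof. The dual D is a fractional ideal (FractionalIdeal.dual / Submodule.traceDual). If w^m y is
not in C, some prime P has v_P(D) < - m e_P, e_P = v_P(w). Chinese remainder theorem: eps in C,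
eps = 1 mod P^(N e_P), eps = 0 mod Q^(N e_Q) for the other primes Q over w, N >= m, N >= 1.
Then eps^2 - eps in w^N C, eps not in w C, and w^(-m) eps in D. So w^(-m) Tr(eps) in A, and
Tr(eps) = n + w^N a with 1 <= n <= [L:K] by `idem_trace`: w^m divides n, contradiction.
-/

namespace ALC

open scoped nonZeroDivisors

/-- `u` lies in the fractional ideal generated by `1, u`, which is invertible -/
private theorem gauss_inv {C L : Type*} [CommRing C] [IsDedekindDomain C] [Field L]
    [Algebra C L] [IsFractionRing C L] (u : L) :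
    ∃ a b : C, (∃ c : C, algebraMap C L a * u = algebraMap C L c) ∧
      u * algebraMap C L b = algebraMap C L (1 - a) := by
  classical
  set M : FractionalIdeal C⁰ L := 1 + FractionalIdeal.spanSingleton C⁰ u with hM
  have h1M : (1 : L) ∈ M := by
    rw [hM, FractionalIdeal.mem_add]
    exact ⟨1, FractionalIdeal.one_mem_one _, 0, FractionalIdeal.zero_mem _, add_zero _⟩
  have huM : u ∈ M := by
    rw [hM, FractionalIdeal.mem_add]
    exact ⟨0, FractionalIdeal.zero_mem _, u, FractionalIdeal.mem_spanSingleton_self _ _,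
      zero_add _⟩
  have hM0 : M ≠ 0 := by
    intro h
    rw [h, FractionalIdeal.mem_zero_iff] at h1M
    exact one_ne_zero h1M
  have hinv : (1 : L) ∈ M * M⁻¹ := by
    rw [mul_inv_cancel₀ hM0]
    exact FractionalIdeal.one_mem_one _
  have hinv' : (1 : L) ∈ M⁻¹ + FractionalIdeal.spanSingleton C⁰ u * M⁻¹ := by
    have e : M * M⁻¹ = M⁻¹ + FractionalIdeal.spanSingleton C⁰ u * M⁻¹ := by
      conv_lhs => rw [hM]
      rw [add_mul, one_mul]
    rw [← e]
    exact hinv
  obtain ⟨a, ha, z, hz, haz⟩ := (FractionalIdeal.mem_add _ _ _).1 hinv'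
  obtain ⟨b, hb, rfl⟩ := FractionalIdeal.mem_singleton_mul.1 hz
  rw [FractionalIdeal.mem_inv_iff hM0] at ha hb
  obtain ⟨a', ha'⟩ := (FractionalIdeal.mem_one_iff _).1 (ha 1 h1M)
  obtain ⟨b', hb'⟩ := (FractionalIdeal.mem_one_iff _).1 (hb 1 h1M)
  obtain ⟨c', hc'⟩ := (FractionalIdeal.mem_one_iff _).1 (ha u huM)
  rw [mul_one] at ha' hb'
  refine ⟨a', b', ⟨c', by rw [ha', hc']⟩, ?_⟩
  rw [map_sub, map_one, ha', hb', ← haz]
  ring

theorem gauss {A K L : Type*} [CommRing A] [IsDomain A] [IsDiscreteValuationRing A] [Field K]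
    [Algebra A K] [IsFractionRing A K] [Field L] [Algebra K L] [FiniteDimensional K L]
    [Algebra.IsSeparable K L] [Algebra A L] [IsScalarTower A K L] (w : A) (hw : Irreducible w)
    (m : ℕ) (hm : ∀ n : ℕ, 1 ≤ n → n ≤ Module.finrank K L → ¬ w ^ m ∣ (n : A)) (y : L)
    (hy : ∀ c : L, IsIntegral A c → ∃ a : A, Algebra.trace K L (y * c) = algebraMap A K a) :
    IsIntegral A (algebraMap A L w ^ m * y) := by
  classical
  by_contra hnot
  have hAL : Function.Injective (algebraMap A L) := by
    rw [IsScalarTower.algebraMap_eq A K L]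
    exact (algebraMap K L).injective.comp (IsFractionRing.injective A K)
  haveI : FaithfulSMul A L := (faithfulSMul_iff_algebraMap_injective A L).2 hAL
  haveI : Module.IsTorsionFree A L := inferInstance
  haveI hDC : IsDedekindDomain (integralClosure A L) := integralClosure.isDedekindDomain A K L
  haveI hFC : IsFractionRing (integralClosure A L) L :=
    integralClosure.isFractionRing_of_finite_extension K L
  haveI hfin : Module.Finite A (integralClosure A L) :=
    IsIntegralClosure.finite A K L (integralClosure A L)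
  haveI hfree : Module.Free A (integralClosure A L) :=
    IsIntegralClosure.module_free A K L (integralClosure A L)
  have hrank : Module.finrank A (integralClosure A L) = Module.finrank K L :=
    IsIntegralClosure.rank A K L (integralClosure A L)
  haveI hloc : IsLocalization (Algebra.algebraMapSubmonoid (integralClosure A L) A⁰) L :=
    IsIntegralClosure.isLocalization_of_isSeparable A K L (integralClosure A L)
  set C := integralClosure A L with hC
  set u : L := algebraMap A L w ^ m * y with hu
  have hw0 : w ≠ 0 := hw.ne_zero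
  -- the ideal of denominators
  let I : Ideal C :=
    { carrier := {c | ∃ c' : C, algebraMap C L c * u = algebraMap C L c'}
      add_mem' := by
        rintro a b ⟨a', ha⟩ ⟨b', hb⟩
        exact ⟨a' + b', by rw [map_add, add_mul, ha, hb, map_add]⟩
      zero_mem' := ⟨0, by simp⟩
      smul_mem' := by
        rintro c a ⟨a', ha⟩
        exact ⟨c * a', by rw [smul_eq_mul, map_mul, mul_assoc, ha, map_mul]⟩ }
  have hI1 : I ≠ ⊤ := by
    intro h
    have h1 : (1 : C) ∈ I := by rw [h]; trivial
    obtain ⟨c', hc'⟩ := h1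
    rw [map_one, one_mul] at hc'
    apply hnot
    rw [hc']
    exact c'.2
  obtain ⟨P, hPmax, hIP⟩ := Ideal.exists_le_maximal I hI1
  haveI hPprime : P.IsPrime := hPmax.isPrime
  obtain ⟨a, b, haI, hab⟩ := gauss_inv (C := C) u
  have haP : a ∈ P := hIP haI
  -- w lies in P
  have hwP : algebraMap A C w ∈ P := by
    obtain ⟨⟨c, s⟩, hcs⟩ := IsLocalization.surj (Algebra.algebraMapSubmonoid C A⁰) u
    obtain ⟨a0, ha0, ha0'⟩ := s.2
    have h1 : algebraMap A C a0 ∈ I := by
      refine ⟨c, ?_⟩
      have h2 : u * algebraMap C L (s : C) = algebraMap C L c := hcs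
      rw [ha0', mul_comm]
      exact h2
    have h2 : algebraMap A C a0 ∈ P := hIP h1
    have ha00 : a0 ≠ 0 := nonZeroDivisors.ne_zero ha0
    obtain ⟨k, hk⟩ := IsDiscreteValuationRing.associated_pow_irreducible ha00 hw
    obtain ⟨v, hv⟩ := hk
    have h3 : algebraMap A C w ^ k ∈ P := by
      rw [← map_pow, ← hv, map_mul]
      exact P.mul_mem_right _ h2
    exact hPprime.mem_of_pow_mem k h3
  have hAC : Function.Injective (algebraMap A C) := by
    have h : Function.Injective (algebraMap C L ∘ algebraMap A C) := by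
      rw [← RingHom.coe_comp, ← IsScalarTower.algebraMap_eq A C L]
      exact hAL
    exact h.of_comp
  have hwC0 : algebraMap A C w ≠ 0 := by
    rw [Ne, map_eq_zero_iff _ hAC]
    exact hw0
  -- factorisation of w C
  have hspan0 : Ideal.span {algebraMap A C w} ≠ (0 : Ideal C) := by
    rw [Ne, Ideal.zero_eq_bot, Ideal.span_singleton_eq_bot]
    exact hwC0
  have hPunit : ¬ IsUnit P := by
    rw [Ideal.isUnit_iff]
    exact hPprime.ne_top
  obtain ⟨e, Q, hPQ, hfac⟩ := WfDvdMonoid.max_power_factor' hspan0 hPunit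
  have hcop : IsCoprime P Q := by
    rw [Ideal.isCoprime_iff_sup_eq]
    by_contra h
    obtain ⟨P', hP', hle⟩ := Ideal.exists_le_maximal _ h
    have h1 : P = P' := hPmax.eq_of_le hP'.ne_top (le_trans le_sup_left hle)
    apply hPQ
    rw [Ideal.dvd_iff_le, h1]
    exact le_trans le_sup_right hle
  have hcop2 : IsCoprime ((P ^ e) ^ (m + 1)) (Q ^ (m + 1)) :=
    ((hcop.pow_left (m := e)).pow_left (m := m + 1)).pow_right (n := m + 1)
  obtain ⟨i, hi, ε, hε, hiε⟩ := Ideal.isCoprime_iff_exists.1 hcop2
  have hpow : ∀ k : ℕ, (P ^ e) ^ k * Q ^ k = Ideal.span {algebraMap A C w ^ k} := by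
    intro k
    rw [← mul_pow, ← hfac, Ideal.span_singleton_pow]
  -- the approximate idempotent
  obtain ⟨z, hz⟩ : ∃ z, ε ^ 2 - ε = algebraMap A C w ^ (m + 1) * z := by
    have h1 : i * ε ∈ Ideal.span {algebraMap A C w ^ (m + 1)} := by
      rw [← hpow]
      exact Ideal.mul_mem_mul hi hε
    obtain ⟨z, hz⟩ := Ideal.mem_span_singleton'.1 h1
    refine ⟨-z, ?_⟩
    have h2 : i = 1 - ε := by rw [← hiε]; ring
    have h3 : ε ^ 2 - ε = - (i * ε) := by rw [h2]; ring
    rw [h3, ← hz]
    ring
  have hne : ¬ ∃ z, ε = algebraMap A C w * z := by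
    rintro ⟨z, hz'⟩
    have h1 : ε ∈ P := by
      rw [hz']
      exact P.mul_mem_right _ hwP
    have h2 : i ∈ P := by
      have he : e ≠ 0 := by
        intro h0
        rw [h0, pow_zero, one_mul] at hfac
        apply hPQ
        rw [← hfac, Ideal.dvd_iff_le, Ideal.span_singleton_le_iff_mem]
        exact hwP
      have h3 : (P ^ e) ^ (m + 1) ≤ P := by
        rw [← pow_mul]
        exact Ideal.pow_le_self (mul_ne_zero he (Nat.succ_ne_zero m))
      exact h3 hi
    apply hPprime.ne_top
    rw [Ideal.eq_top_iff_one, ← hiε]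
    exact P.add_mem h2 h1
  obtain ⟨n, hn1, hn2, a', ha'⟩ := idem_trace w hw (m + 1) (Nat.succ_pos m) ε z hz hne
  rw [hrank] at hn2
  -- w^(-m) ε in the dual
  have hkey : ∃ c1 c2 : C, algebraMap C L ε = u * algebraMap C L c1 + algebraMap A L w ^ m *
      algebraMap C L c2 := by
    have h1 : ε * a ^ (e * m) ∈ Ideal.span {algebraMap A C w ^ m} := by
      rw [← hpow, mul_comm ((P ^ e) ^ m)]
      refine Ideal.mul_mem_mul ?_ ?_
      · exact Ideal.pow_le_pow_right (Nat.le_succ m) hε
      · rw [← pow_mul]
        exact Ideal.pow_mem_pow haP _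
    obtain ⟨c2, hc2⟩ := Ideal.mem_span_singleton'.1 h1
    obtain ⟨d, hd⟩ : (1 - a) ∣ 1 - a ^ (e * m) := by
      have := sub_dvd_pow_sub_pow (1 : C) a (e * m)
      rwa [one_pow] at this
    refine ⟨b * d * ε, c2, ?_⟩
    have h2 : ε = (1 - a) * (d * ε) + c2 * algebraMap A C w ^ m := by
      rw [hc2, ← mul_assoc, ← hd]
      ring
    have h3 : algebraMap C L ε = algebraMap C L (1 - a) * algebraMap C L (d * ε) +
        algebraMap C L c2 * algebraMap C L (algebraMap A C w) ^ m := by
      conv_lhs => rw [h2]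
      rw [map_add, map_mul (algebraMap C L) (1 - a), map_mul (algebraMap C L) c2, map_pow]
    rw [h3, ← hab, ← IsScalarTower.algebraMap_apply A C L, map_mul, map_mul, map_mul]
    ring
  obtain ⟨c1, c2, hc⟩ := hkey
  obtain ⟨t1, ht1⟩ := hy (algebraMap C L c1) c1.2
  have hint : IsIntegral A (Algebra.trace K L (algebraMap C L c2)) := Algebra.isIntegral_trace c2.2
  obtain ⟨t2, ht2⟩ := IsIntegrallyClosed.isIntegral_iff.1 hint
  have htr : Algebra.trace K L (algebraMap C L ε) = algebraMap A K (w ^ m * (t1 + t2)) := by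
    have h1 : algebraMap C L ε =
        (w ^ m) • (y * algebraMap C L c1 + algebraMap C L c2) := by
      rw [hc, hu, Algebra.smul_def, map_pow]
      ring
    have h2 : (w ^ m) • (y * algebraMap C L c1 + algebraMap C L c2) =
        (algebraMap A K (w ^ m)) • (y * algebraMap C L c1 + algebraMap C L c2) := by
      rw [algebraMap_smul]
    rw [h1, h2, map_smul, map_add, ht1, ← ht2, smul_eq_mul, map_mul, map_add]
  have htr2 : Algebra.trace K L (algebraMap C L ε) = algebraMap A K (Algebra.trace A C ε) :=
    Algebra.trace_localization A A⁰ ε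
  have hfinal : w ^ m * (t1 + t2) = n + w ^ (m + 1) * a' := by
    apply IsFractionRing.injective A K
    rw [← htr, htr2, ha']
  apply hm n hn1 hn2
  refine ⟨t1 + t2 - w * a', ?_⟩
  have h4 : (n : A) = w ^ m * (t1 + t2) - w ^ (m + 1) * a' := by
    rw [hfinal]
    ring
  rw [h4]
  ring

end ALC
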