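import Mathlib

/-!
Number fields L in C_p: adjoining a root of p, the valuation ring is a discrete valuation ring with
fraction field L, bounds for the absolute value of a uniformiser and of integers.
-/

open Polynomial

universe u

namespace ALC

/-- adjoin an `N`-th root of `p` (AdjoinRoot of the minimal polynomial over `K` of a root in `ℂ_p`) -/
theorem exists_ram {K : Type u} [Field K] [NumberField K] (p : ℕ) [Fact p.Prime]
    (τ : K →+* ℂ_[p]) (N : ℕ) (hN : 0 < N) :
    ∃ (L : Type u) (_ : Field L) (_ : NumberField L) (_ : Algebra K L)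
      (_ : Algebra.IsAlgebraic K L) (τL : L →+* ℂ_[p]),
      τL.comp (algebraMap K L) = τ ∧ ∃ w : L, w ^ N = (p : L) := by
  let _ : Algebra K ℂ_[p] := τ.toAlgebra
  have hτ : algebraMap K ℂ_[p] = τ := rfl
  obtain ⟨r, hr⟩ : ∃ r : ℂ_[p], r ^ N = (p : ℂ_[p]) := IsAlgClosed.exists_pow_nat_eq _ hN
  have hroot : Polynomial.aeval r (X ^ N - C (p : K)) = 0 := by
    simp [hr]
  have hint : IsIntegral K r := ⟨X ^ N - C (p : K), monic_X_pow_sub_C _ hN.ne', by
    rw [← Polynomial.aeval_def]; exact hroot⟩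
  have hirr := minpoly.irreducible hint
  have hfact : Fact (Irreducible (minpoly K r)) := ⟨hirr⟩
  have hfin : Module.Finite K (AdjoinRoot (minpoly K r)) := (minpoly.monic hint).finite_adjoinRoot
  have hnf : NumberField (AdjoinRoot (minpoly K r)) := NumberField.of_module_finite K _
  have halg : Algebra.IsAlgebraic K (AdjoinRoot (minpoly K r)) := Algebra.IsAlgebraic.of_finite K _
  have hev : (minpoly K r).eval₂ τ r = 0 := by
    have := minpoly.aeval K r
    rw [Polynomial.aeval_def, hτ] at this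
    exact this
  refine ⟨AdjoinRoot (minpoly K r), inferInstance, hnf, inferInstance, halg,
    AdjoinRoot.lift τ r hev, ?_, AdjoinRoot.root _, ?_⟩
  · ext x
    simp [AdjoinRoot.algebraMap_eq]
  · have hdvd : minpoly K r ∣ X ^ N - C (p : K) := minpoly.dvd K r hroot
    have h1 : AdjoinRoot.mk (minpoly K r) (X ^ N - C (p : K)) = 0 := by
      rw [AdjoinRoot.mk_eq_zero]
      exact hdvd
    rw [map_sub, map_pow, AdjoinRoot.mk_X, sub_eq_zero] at h1
    rw [h1]
    simp

/-- The valuation ring of `L` in `ℂ_p`. -/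
noncomputable def OO {L : Type*} [Field L] {p : ℕ} [Fact p.Prime] (τ : L →+* ℂ_[p]) :
    Subring L where
  carrier := {x | ‖τ x‖ ≤ 1}
  mul_mem' := by
    intro a b ha hb
    simp only [Set.mem_setOf_eq, map_mul, norm_mul] at *
    exact mul_le_one₀ ha (norm_nonneg _) hb
  one_mem' := by simp
  add_mem' := by
    intro a b ha hb
    simp only [Set.mem_setOf_eq, map_add] at *
    exact (PadicComplex.isNonarchimedean p _ _).trans (max_le ha hb)
  zero_mem' := by simp
  neg_mem' := by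
    intro a ha
    simpa using ha

section

variable {L : Type*} [Field L] [NumberField L] {p : ℕ} [Fact p.Prime] (τ : L →+* ℂ_[p])

open NumberField

private theorem ram_mem (x : L) : x ∈ OO τ ↔ ‖τ x‖ ≤ 1 := Iff.rfl

private theorem ram_int (x : 𝓞 L) : ‖τ (x : L)‖ ≤ 1 := by
  obtain ⟨f, hf, hfx⟩ : IsIntegral ℤ (x : L) := x.2
  let v : Valuation ℂ_[p] NNReal := NormedField.valuation
  have h3 : IsIntegral v.integer (τ (x : L)) := by
    refine ⟨f.map (Int.castRingHom v.integer), hf.map _, ?_⟩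
    rw [Polynomial.eval₂_map]
    have e1 : (algebraMap v.integer ℂ_[p]).comp (Int.castRingHom v.integer)
        = τ.comp (algebraMap ℤ L) := RingHom.ext_int _ _
    rw [e1, ← Polynomial.hom_eval₂, hfx, map_zero]
  have h4 := (Valuation.integer.integers v).mem_of_integral h3
  have h5 : v (τ (x : L)) ≤ 1 := h4
  have h6 : ‖τ (x : L)‖₊ ≤ 1 := h5
  exact_mod_cast h6

private noncomputable def ramP : Ideal (𝓞 L) where
  carrier := {x | ‖τ (x : L)‖ < 1}
  add_mem' := by
    intro a b ha hb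
    simp only [Set.mem_setOf_eq, map_add] at *
    exact (PadicComplex.isNonarchimedean p _ _).trans_lt (max_lt ha hb)
  zero_mem' := by simp
  smul_mem' := by
    intro c x hx
    simp only [Set.mem_setOf_eq, smul_eq_mul, map_mul, norm_mul] at *
    exact mul_lt_one_of_nonneg_of_lt_one_right (ram_int τ c) (norm_nonneg _) hx

private theorem ramP_mem (x : 𝓞 L) : x ∈ ramP τ ↔ ‖τ (x : L)‖ < 1 := Iff.rfl

private theorem ram_norm_p : ‖τ (p : L)‖ = (p : ℝ)⁻¹ := by
  rw [map_natCast]
  have h := PadicComplex.norm_extends' p (p : ℚ_[p])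
  rw [Padic.norm_p] at h
  rw [← h]
  simp

private theorem ramP_prime : (ramP τ).IsPrime := by
  refine ⟨?_, ?_⟩
  · intro h
    have : (1 : 𝓞 L) ∈ ramP τ := by rw [h]; trivial
    rw [ramP_mem] at this
    simp at this
  · intro x y hxy
    rw [ramP_mem, ramP_mem]
    rw [ramP_mem] at hxy
    by_contra hcon
    push Not at hcon
    have hx := le_antisymm (ram_int τ x) hcon.1
    have hy := le_antisymm (ram_int τ y) hcon.2
    simp only [map_mul, norm_mul, hx, hy] at hxy
    norm_num at hxy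

private theorem ramP_ne : ramP τ ≠ ⊥ := by
  intro h
  have hp1 : 1 < (p : ℝ) := by exact_mod_cast (Fact.out : p.Prime).one_lt
  have h1 : ((p : ℕ) : 𝓞 L) ∈ ramP τ := by
    rw [ramP_mem]
    have : (((p : ℕ) : 𝓞 L) : L) = (p : L) := by simp
    rw [this, ram_norm_p]
    exact inv_lt_one_of_one_lt₀ hp1
  rw [h, Ideal.mem_bot] at h1
  exact (Nat.cast_ne_zero.2 (Fact.out : p.Prime).ne_zero) h1

private theorem ram_dvd (x y : OO τ) (hx : x ≠ 0) : x ∣ y ↔ ‖τ (y : L)‖ ≤ ‖τ (x : L)‖ := by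
  have hx0 : (x : L) ≠ 0 := fun h => hx (Subtype.ext h)
  have hpos : 0 < ‖τ (x : L)‖ := by
    rw [norm_pos_iff]
    exact (map_ne_zero τ).2 hx0
  constructor
  · rintro ⟨z, rfl⟩
    have hz : ‖τ (z : L)‖ ≤ 1 := z.2
    simp only [Subring.coe_mul, map_mul, norm_mul]
    exact mul_le_of_le_one_right (norm_nonneg _) hz
  · intro h
    refine ⟨⟨(y : L) / (x : L), ?_⟩, ?_⟩
    · rw [ram_mem, map_div₀, norm_div]
      exact (div_le_one hpos).2 h
    · apply Subtype.ext
      simp only [Subring.coe_mul]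
      field_simp

private theorem ram_unit (x : OO τ) : IsUnit x ↔ ‖τ (x : L)‖ = 1 := by
  constructor
  · intro h
    have h1 : x ∣ 1 := h.dvd
    have hx : x ≠ 0 := h.ne_zero
    rw [ram_dvd τ x 1 hx] at h1
    have h2 : ‖τ (x : L)‖ ≤ 1 := x.2
    simp only [Subring.coe_one, map_one, norm_one] at h1
    exact le_antisymm h2 h1
  · intro h
    have hx : x ≠ 0 := by
      rintro rfl
      simp at h
    apply isUnit_of_dvd_one
    rw [ram_dvd τ x 1 hx]
    simp [h]

private noncomputable def ramG : 𝓞 L →+* OO τ where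
  toFun x := ⟨(x : L), ram_int τ x⟩
  map_one' := by apply Subtype.ext; simp
  map_mul' a b := by apply Subtype.ext; simp
  map_zero' := by apply Subtype.ext; simp
  map_add' a b := by apply Subtype.ext; simp

theorem oo_dvr : IsDiscreteValuationRing (OO τ) := by
  have := ramP_prime τ
  let R := Localization.AtPrime (ramP τ)
  have hR : IsDiscreteValuationRing R :=
    IsLocalization.AtPrime.isDiscreteValuationRing_of_dedekind_domain (𝓞 L) (ramP_ne τ) R
  have hunit : ∀ y : (ramP τ).primeCompl, IsUnit (ramG τ y) := by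
    intro y
    rw [ram_unit]
    have h1 : ¬ ‖τ ((y : 𝓞 L) : L)‖ < 1 := y.2
    exact le_antisymm (ram_int τ _) (not_lt.1 h1)
  let φ : R →+* OO τ := IsLocalization.lift (M := (ramP τ).primeCompl) hunit
  have hφ : ∀ x : 𝓞 L, φ (algebraMap (𝓞 L) R x) = ramG τ x := fun x =>
    IsLocalization.lift_eq hunit x
  have hinj : Function.Injective φ := by
    rw [injective_iff_map_eq_zero]
    intro z hz
    obtain ⟨⟨x, s⟩, hxs⟩ := IsLocalization.surj (ramP τ).primeCompl z
    have h1 : φ (z * algebraMap (𝓞 L) R s) = φ (algebraMap (𝓞 L) R x) := by rw [hxs]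
    rw [map_mul, hz, zero_mul, hφ] at h1
    have h2 : (x : L) = 0 := (congrArg Subtype.val h1).symm
    have h3 : x = 0 := by exact_mod_cast h2
    have h4 : z * algebraMap (𝓞 L) R s = 0 := by rw [hxs, h3, map_zero]
    rcases mul_eq_zero.1 h4 with h5 | h5
    · exact h5
    · exfalso
      have : IsUnit (algebraMap (𝓞 L) R s) := IsLocalization.map_units R s
      exact this.ne_zero h5
  have hinjA : Function.Injective (algebraMap (𝓞 L) R) :=
    IsLocalization.injective R (ramP τ).primeCompl_le_nonZeroDivisors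
  have hsurj : Function.Surjective φ := by
    intro z
    obtain ⟨a, b, hb, hab⟩ := IsFractionRing.div_surjective (A := 𝓞 L) (z : L)
    have hb0 : b ≠ 0 := nonZeroDivisors.ne_zero hb
    have hbL : (b : L) ≠ 0 := by exact_mod_cast hb0
    have hz1 : ‖τ (z : L)‖ ≤ 1 := z.2
    have hab' : (z : L) = (a : L) / (b : L) := hab.symm
    -- key: z = c / s with s outside the prime
    have key : ∃ c s : 𝓞 L, s ∈ (ramP τ).primeCompl ∧ (a : L) * s = b * c := by
      rcases ValuationRing.dvd_total (algebraMap (𝓞 L) R a) (algebraMap (𝓞 L) R b) with h | h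
      · obtain ⟨t, ht⟩ := h
        obtain ⟨⟨x, s⟩, hxs⟩ := IsLocalization.surj (ramP τ).primeCompl t
        have h1 : algebraMap (𝓞 L) R (b * s) = algebraMap (𝓞 L) R (a * x) := by
          rw [map_mul, map_mul, ht, mul_assoc, hxs]
        have h2 := hinjA h1
        have h2L : (b : L) * (s : 𝓞 L) = a * x := by exact_mod_cast congrArg (algebraMap (𝓞 L) L) h2
        by_cases ha0 : (a : L) = 0
        · refine ⟨0, 1, Submonoid.one_mem _, ?_⟩
          rw [ha0]; simp
        · refine ⟨s, x, ?_, h2L.symm⟩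
          intro hx
          have hxl : ‖τ (x : L)‖ < 1 := hx
          have hs1 : ‖τ ((s : 𝓞 L) : L)‖ = 1 := by
            have h1 : ¬ ‖τ ((s : 𝓞 L) : L)‖ < 1 := s.2
            exact le_antisymm (ram_int τ _) (not_lt.1 h1)
          have h3 : ‖τ (b : L)‖ = ‖τ (a : L)‖ * ‖τ (x : L)‖ := by
            have := congrArg (fun t => ‖τ t‖) h2L
            simp only [map_mul, norm_mul, hs1, mul_one] at this
            exact this
          have hbp : 0 < ‖τ (b : L)‖ := norm_pos_iff.2 ((map_ne_zero τ).2 hbL)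
          have hap : 0 < ‖τ (a : L)‖ := norm_pos_iff.2 ((map_ne_zero τ).2 ha0)
          rw [hab', map_div₀, norm_div, div_le_one hbp] at hz1
          have : ‖τ (a : L)‖ * ‖τ (x : L)‖ < ‖τ (a : L)‖ * 1 := by
            exact mul_lt_mul_of_pos_left hxl hap
          linarith
      · obtain ⟨t, ht⟩ := h
        obtain ⟨⟨x, s⟩, hxs⟩ := IsLocalization.surj (ramP τ).primeCompl t
        have h1 : algebraMap (𝓞 L) R (a * s) = algebraMap (𝓞 L) R (b * x) := by
          rw [map_mul, map_mul, ht, mul_assoc, hxs]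
        have h2 := hinjA h1
        refine ⟨x, s, s.2, ?_⟩
        exact_mod_cast congrArg (algebraMap (𝓞 L) L) h2
    obtain ⟨c, s, hs, hcs⟩ := key
    refine ⟨IsLocalization.mk' R c ⟨s, hs⟩, ?_⟩
    have h1 : φ (IsLocalization.mk' R c ⟨s, hs⟩) * ramG τ s = ramG τ c := by
      rw [← hφ, ← hφ, ← map_mul]
      congr 1
      exact IsLocalization.mk'_spec R c ⟨s, hs⟩
    have hs0 : (s : L) ≠ 0 := by
      intro h0
      apply hs
      show ‖τ (s : L)‖ < 1
      rw [h0]; simp
    apply Subtype.ext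
    have h2 : ((φ (IsLocalization.mk' R c ⟨s, hs⟩) : OO τ) : L) * (s : L) = (c : L) :=
      congrArg Subtype.val h1
    rw [hab', eq_div_iff hbL]
    apply mul_right_cancel₀ hs0
    rw [mul_assoc, mul_comm (b : L) (s : L), ← mul_assoc, h2, hcs]
    ring
  exact IsDiscreteValuationRing.RingEquivClass.isDiscreteValuationRing (RingEquiv.ofBijective φ ⟨hinj, hsurj⟩)

theorem oo_frac : IsFractionRing (OO τ) L := by
  refine IsFractionRing.of_field (OO τ) L ?_
  intro z
  by_cases hz : ‖τ z‖ ≤ 1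
  · refine ⟨⟨z, hz⟩, 1, ?_⟩
    simp
    rfl
  · push Not at hz
    refine ⟨1, ⟨z⁻¹, ?_⟩, ?_⟩
    · rw [ram_mem, map_inv₀, norm_inv]
      exact (inv_lt_one_of_one_lt₀ hz).le
    · simp
      show z = (z⁻¹)⁻¹
      rw [inv_inv]

theorem oo_unif (w : OO τ) (hw : Irreducible w) (N : ℕ) (hN : 0 < N)
    (h : ∃ z : L, z ^ N = (p : L)) :
    (p : ℝ) ^ (-(1 / (N : ℝ))) ≤ ‖τ (w : L)‖ ∧ ‖τ (w : L)‖ < 1 := by
  have hp1 : 1 < (p : ℝ) := by exact_mod_cast (Fact.out : p.Prime).one_lt
  have hp0 : 0 < (p : ℝ) := by linarith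
  have hw1 : ‖τ (w : L)‖ < 1 := by
    refine lt_of_le_of_ne w.2 ?_
    intro h1
    exact hw.not_isUnit ((ram_unit τ w).2 h1)
  refine ⟨?_, hw1⟩
  obtain ⟨z, hz⟩ := h
  have hzn : ‖τ z‖ ^ N = (p : ℝ)⁻¹ := by
    rw [← norm_pow, ← map_pow, hz, ram_norm_p]
  have hzr : ‖τ z‖ = (p : ℝ) ^ (-(1 / (N : ℝ))) := by
    rw [Real.rpow_neg hp0.le, one_div, ← Real.inv_rpow hp0.le, ← hzn,
      Real.pow_rpow_inv_natCast (norm_nonneg _) hN.ne']
  have hz1 : ‖τ z‖ < 1 := by
    rw [hzr]
    apply Real.rpow_lt_one_of_one_lt_of_neg hp1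
    have : 0 < 1 / (N : ℝ) := by positivity
    linarith
  rw [← hzr]
  -- w divides z in the dvr
  have := oo_dvr τ
  let z' : OO τ := ⟨z, hz1.le⟩
  have hnu : ¬ IsUnit z' := by
    rw [ram_unit]
    exact hz1.ne
  have hmem : z' ∈ IsLocalRing.maximalIdeal (OO τ) := hnu
  rw [(IsDiscreteValuationRing.irreducible_iff_uniformizer w).1 hw,
    Ideal.mem_span_singleton] at hmem
  exact (ram_dvd τ w z' hw.ne_zero).1 hmem

/-- divisibility in `OO τ` and absolute values -/
theorem oo_dvd (w : OO τ) (hw : Irreducible w) (m n : ℕ) :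
    w ^ m ∣ (n : OO τ) ↔ ‖(n : ℂ_[p])‖ ≤ ‖τ (w : L)‖ ^ m := by
  rw [ram_dvd τ (w ^ m) (n : OO τ) (pow_ne_zero _ hw.ne_zero)]
  simp

end

/-- `|n| ≥ p^(-log_p d)` for `1 ≤ n ≤ d` -/
theorem norm_nat_ge (p : ℕ) [Fact p.Prime] (d n : ℕ) (h1 : 1 ≤ n) (hn : n ≤ d) :
    ((p : ℝ) ^ Nat.log p d)⁻¹ ≤ ‖(n : ℂ_[p])‖ := by
  have hp1 : 1 < (p : ℝ) := by exact_mod_cast (Fact.out : p.Prime).one_lt
  have hp : 1 < p := (Fact.out : p.Prime).one_lt
  have h := PadicComplex.norm_extends' p (n : ℚ_[p])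
  have h2 : ((n : ℚ_[p]) : ℂ_[p]) = (n : ℂ_[p]) := by simp
  rw [h2] at h
  rw [h, Padic.norm_eq_zpow_neg_valuation (by exact_mod_cast (by omega : n ≠ 0)),
    Padic.valuation_natCast, zpow_neg, zpow_natCast]
  apply inv_anti₀ (by positivity)
  apply pow_le_pow_right₀ hp1.le
  have h3 : p ^ padicValNat p n ∣ n := pow_padicValNat_dvd
  have h4 : p ^ padicValNat p n ≤ n := Nat.le_of_dvd (by omega) h3
  exact Nat.le_log_of_pow_le hp (h4.trans hn)

end ALC
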