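import Pool.Agent.ALC.PMain
import Pool.Agent.ALC.Base
import Pool.Agent.ALC.Ram

/-!
The radius at p. Assembly of PMain, Base, Ram: for every N take L from exists_ram, O = OO tau_L, w a
uniformiser, m minimal with w^m not dividing 1, ..., d: |w|^m >= p^(-M - 1/N), M = log_p d;
the roots of Delta are in A, |eta| <= |b - a|: Delta(b + eta s)/Delta(b) = prod (1 + eta s/(b - a))
is in O[s]. So |Y_k| |eta|^k <= C |w|^(-2 m k): the disc of radius |c| for every c in C_p with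
|c| <= |eta| p^(-2M-2/N): x = b + c t, y = sum Y_k c^k t^k.
-/

open Polynomial

namespace ALC

namespace PRadAux

variable {p : ℕ} [Fact p.Prime]

theorem norm_p : ‖(p : ℂ_[p])‖ = (p : ℝ)⁻¹ := by
  have h1 : ((p : ℚ_[p]) : ℂ_[p]) = (p : ℂ_[p]) := by simp
  rw [← h1, PadicComplex.norm_extends', Padic.norm_p]

/-- the polynomial `c * prod (x - a)` after the substitution -/
theorem sub_prod {K L : Type*} [Field K] [Field L] (j : K →+* L) (b : K) (η : L) (S : Multiset K)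
    (hS : ∀ a ∈ S, b - a ≠ 0) (R : Subring L) (hR : ∀ a ∈ S, η / j (b - a) ∈ R) :
    ∃ q : L[X], (∀ k, q.coeff k ∈ R) ∧ q.coeff 0 = 1 ∧
      sub j (j b) η ((S.map fun a => X - C a).prod) =
        C (j ((S.map fun a => b - a).prod)) * q := by
  induction S using Multiset.induction_on with
  | empty =>
    refine ⟨1, ?_, by simp, by simp⟩
    intro k
    rw [coeff_one]
    split_ifs
    · exact R.one_mem
    · exact R.zero_mem
  | cons a S ih =>
    obtain ⟨q, hq1, hq0, hq2⟩ := ih (fun a ha => hS a (Multiset.mem_cons_of_mem ha))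
      (fun a ha => hR a (Multiset.mem_cons_of_mem ha))
    have ha := hS a (Multiset.mem_cons_self a S)
    have ha' := hR a (Multiset.mem_cons_self a S)
    have hja : j (b - a) ≠ 0 := fun h => ha ((map_eq_zero j).1 h)
    refine ⟨(1 + C (η / j (b - a)) * X) * q, ?_, ?_, ?_⟩
    · intro k
      rw [add_mul, one_mul, mul_assoc, coeff_add, coeff_C_mul]
      refine R.add_mem (hq1 k) (R.mul_mem ha' ?_)
      rcases k with _ | k
      · rw [coeff_X_mul_zero]; exact R.zero_mem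
      · rw [coeff_X_mul]; exact hq1 k
    · rw [mul_coeff_zero, hq0]
      simp
    · rw [Multiset.map_cons, Multiset.prod_cons, Multiset.map_cons, Multiset.prod_cons, map_mul,
        hq2, map_mul, map_mul]
      have h1 : sub j (j b) η (X - C a) = C (j (b - a)) * (1 + C (η / j (b - a)) * X) := by
        have h2 : C (j (b - a)) * (C (η / j (b - a)) * X) = C η * (X : L[X]) := by
          rw [← mul_assoc, ← C_mul, mul_div_cancel₀ _ hja]
        rw [mul_add, mul_one, h2]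
        simp only [sub, map_sub, coe_eval₂RingHom, eval₂_X, eval₂_C, RingHom.comp_apply]
        ring
      rw [h1]
      ring

/-- `C x` is bounded after multiplication by a small constant -/
theorem isBdd_of {f : PowerSeries ℂ_[p]} {B : ℝ} (hB : ∀ k, ‖f.coeff k‖ ≤ B) : IsBdd f := by
  have hp : 1 < (p : ℝ) := by exact_mod_cast (Fact.out : p.Prime).one_lt
  have hp0 : (p : ℂ_[p]) ≠ 0 := by exact_mod_cast (Fact.out : p.Prime).ne_zero
  obtain ⟨n, hn⟩ := pow_unbounded_of_one_lt B hp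
  have hnv : ‖(p : ℂ_[p]) ^ n‖ = ((p : ℝ) ^ n)⁻¹ := by rw [norm_pow, norm_p, inv_pow]
  have hpn : 0 < (p : ℝ) ^ n := by positivity
  have hpn1 : 1 ≤ (p : ℝ) ^ n := one_le_pow₀ hp.le
  refine ⟨PowerSeries.C ((p : ℂ_[p]) ^ n) * f, PowerSeries.C ((p : ℂ_[p]) ^ n), ?_, ?_, rfl⟩
  · intro k
    constructor
    · rw [PowerSeries.coeff_C_mul, norm_mul, hnv, inv_mul_le_iff₀ hpn, mul_one]
      exact (hB k).trans hn.le
    · rw [PowerSeries.coeff_C]
      split_ifs
      · rw [hnv]; exact inv_le_one_of_one_le₀ hpn1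
      · rw [norm_zero]; exact zero_le_one
  · intro h
    have h1 := congrArg (PowerSeries.coeff 0) h
    rw [PowerSeries.coeff_C, if_pos rfl, map_zero] at h1
    exact pow_ne_zero n hp0 h1

theorem rescale_C {k : Type*} [Field k] (c a : k) :
    PowerSeries.rescale c (PowerSeries.C a) = PowerSeries.C a := by
  ext n
  rw [PowerSeries.coeff_rescale, PowerSeries.coeff_C]
  split_ifs with h
  · rw [h, pow_zero, one_mul]
  · rw [mul_zero]

theorem onCurve_rescale {k : Type*} [Field k] (F : k[X][X]) (x y : PowerSeries k) (c : k)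
    (h : OnCurve F x y) : OnCurve F (PowerSeries.rescale c x) (PowerSeries.rescale c y) := by
  unfold OnCurve at h ⊢
  have h1 := congrArg (PowerSeries.rescale c) h
  rw [map_zero, Polynomial.hom_eval₂] at h1
  have h2 : (PowerSeries.rescale c).comp
      (Polynomial.eval₂RingHom (PowerSeries.C (R := k)) x) =
      Polynomial.eval₂RingHom (PowerSeries.C (R := k)) (PowerSeries.rescale c x) := by
    refine Polynomial.ringHom_ext (fun a => ?_) ?_
    · simp [rescale_C]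
    · simp
  rw [h2] at h1
  exact h1

end PRadAux

open PRadAux

/-- coefficients -/
theorem p_coeff {K : Type*} [Field K] [NumberField K] (F : K[X][X]) (hF : F.Monic)
    (hg : GeomIrred F) (A : Finset K) (hun : UnramifiedOutside F A) (b y0 : K)
    (hb : b ∉ A) (hs : (at_ F b).Separable) (h0 : (at_ F b).eval y0 = 0) (p : ℕ) [Fact p.Prime]
    (τ : K →+* ℂ_[p]) (η : K) (hη0 : η ≠ 0) (hη : ∀ a ∈ A, ‖τ η‖ ≤ ‖τ (b - a)‖) (N : ℕ)
    (hN : 0 < N) (Y : PowerSeries K) (hY : IsSer F b y0 Y) :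
    ∃ C : ℝ, ∀ k, ‖τ (Y.coeff k)‖ * ‖τ η‖ ^ k ≤
      C * ((p : ℝ) ^ (2 * (Nat.log p F.natDegree : ℝ) + 2 / N)) ^ k := by
  obtain ⟨L, _, _, _, _, τL, hτL, hw⟩ := exists_ram p τ N hN
  obtain ⟨θ, Δ, hθ, hd, hΔ0, hΔs, hΔA⟩ := hun
  have hp1 : 1 < (p : ℝ) := by exact_mod_cast (Fact.out : p.Prime).one_lt
  have hp0 : 0 < (p : ℝ) := by linarith
  set j : K →+* L := algebraMap K L with hj
  have hτj : ∀ x, τL (j x) = τ x := fun x => by rw [← hτL]; rfl
  have hjη : j η ≠ 0 := fun h => hη0 ((map_eq_zero j).1 h)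
  have := oo_dvr τL
  have := oo_frac τL
  -- the polynomial after the substitution
  have hF' : (F.map (sub j (j b) (j η))).Monic := hF.map _
  have hirr : Irreducible (F.map (sub j (j b) (j η))) := irr_sub F hF hg (j b) (j η) hjη
  have hdeg : (F.map (sub j (j b) (j η))).natDegree = F.natDegree := hF.natDegree_map _
  have hs' : (at_ (F.map (sub j (j b) (j η))) 0).Separable := by
    rw [at_sub]; exact hs.map
  have hY' := ser_sub j F b y0 (j η) Y hY
  obtain ⟨θ', hθ', hd'⟩ := base_change j F hF (j b) (j η) hjη θ hθ Δ hd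
  -- the discriminant
  have hroots : ∀ a ∈ Δ.roots, b - a ≠ 0 := by
    intro a ha h
    have h1 : a ∈ A := hΔA a ((mem_roots hΔ0).1 ha)
    rw [sub_eq_zero] at h
    exact hb (h ▸ h1)
  have hrootsR : ∀ a ∈ Δ.roots, j η / j (b - a) ∈ OO τL := by
    intro a ha
    have h1 : a ∈ A := hΔA a ((mem_roots hΔ0).1 ha)
    have h2 : τ (b - a) ≠ 0 := fun h => hroots a ha ((map_eq_zero τ).1 h)
    show ‖τL (j η / j (b - a))‖ ≤ 1
    rw [map_div₀, hτj, hτj, norm_div, div_le_one (norm_pos_iff.2 h2)]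
    exact hη a h1
  obtain ⟨q, hq1, hq0, hq2⟩ := sub_prod j b (j η) Δ.roots hroots (OO τL) hrootsR
  have hΔeq : Δ = C Δ.leadingCoeff * (Δ.roots.map fun a => X - C a).prod :=
    hΔs.eq_prod_roots
  have hcst : j (Δ.leadingCoeff) * j ((Δ.roots.map fun a => b - a).prod) ≠ 0 := by
    refine mul_ne_zero (fun h => leadingCoeff_ne_zero.2 hΔ0 ((map_eq_zero j).1 h)) (fun h => ?_)
    have h1 := (map_eq_zero j).1 h
    rw [Multiset.prod_eq_zero_iff, Multiset.mem_map] at h1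
    obtain ⟨a, ha, h2⟩ := h1
    exact hroots a ha h2
  have hΔ' : sub j (j b) (j η) Δ =
      C (j (Δ.leadingCoeff) * j ((Δ.roots.map fun a => b - a).prod)) * q := by
    conv_lhs => rw [hΔeq]
    rw [map_mul, hq2, C_mul, mul_assoc]
    congr 1
    simp [sub]
  have hΔ'0 : (sub j (j b) (j η) Δ).coeff 0 =
      j (Δ.leadingCoeff) * j ((Δ.roots.map fun a => b - a).prod) := by
    rw [hΔ', coeff_C_mul, hq0, mul_one]
  have hO : ∀ k, ∃ a : OO τL, (sub j (j b) (j η) Δ).coeff k / (sub j (j b) (j η) Δ).coeff 0 =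
      algebraMap (OO τL) L a := by
    intro k
    refine ⟨⟨q.coeff k, hq1 k⟩, ?_⟩
    rw [hΔ'0, hΔ', coeff_C_mul, mul_div_cancel_left₀ _ hcst]
    rfl
  -- the uniformiser
  obtain ⟨w, hw1⟩ := IsDiscreteValuationRing.exists_irreducible (OO τL)
  obtain ⟨hwlo, hwhi⟩ := oo_unif τL w hw1 N hN hw
  have hwpos : 0 < ‖τL (w : L)‖ := lt_of_lt_of_le (Real.rpow_pos_of_pos hp0 _) hwlo
  set M : ℕ := Nat.log p F.natDegree with hM
  have hex : ∃ m : ℕ, ‖τL (w : L)‖ ^ m < ((p : ℝ) ^ M)⁻¹ :=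
    exists_pow_lt_of_lt_one (by positivity) hwhi
  set m : ℕ := Nat.find hex with hm
  have hm1 : ‖τL (w : L)‖ ^ m < ((p : ℝ) ^ M)⁻¹ := Nat.find_spec hex
  have hm0 : m ≠ 0 := by
    intro h
    rw [h, pow_zero] at hm1
    have : ((p : ℝ) ^ M)⁻¹ ≤ 1 := inv_le_one_of_one_le₀ (one_le_pow₀ hp1.le)
    linarith
  have hm2 : ((p : ℝ) ^ M)⁻¹ ≤ ‖τL (w : L)‖ ^ (m - 1) := by
    have := Nat.find_min hex (m := m - 1) (by omega)
    exact not_lt.1 this
  have hmlo : (p : ℝ) ^ (-((M : ℝ) + 1 / N)) ≤ ‖τL (w : L)‖ ^ m := by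
    have h1 : (p : ℝ) ^ (-((M : ℝ) + 1 / N)) = ((p : ℝ) ^ M)⁻¹ * (p : ℝ) ^ (-(1 / (N : ℝ))) := by
      rw [neg_add, Real.rpow_add hp0, Real.rpow_neg hp0.le, Real.rpow_natCast]
    have h2 : ‖τL (w : L)‖ ^ m = ‖τL (w : L)‖ ^ (m - 1) * ‖τL (w : L)‖ := by
      rw [← pow_succ]
      congr 1
      omega
    rw [h1, h2]
    exact mul_le_mul hm2 hwlo (Real.rpow_nonneg hp0.le _) (by positivity)
  have hdvd : ∀ n : ℕ, 1 ≤ n → n ≤ (F.map (sub j (j b) (j η))).natDegree →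
      ¬ w ^ m ∣ (n : OO τL) := by
    intro n h1 h2
    rw [oo_dvd τL w hw1, not_le]
    rw [hdeg] at h2
    exact lt_of_lt_of_le hm1 (norm_nat_ge p F.natDegree n h1 h2)
  obtain ⟨N', hN'⟩ := p_main (O := OO τL) (F.map (sub j (j b) (j η))) hF' hirr (j y0) _ hs' hY' θ'
    hθ' _ (by rw [hΔ'0]; exact hcst) hd' hO w hw1 m hdvd
  refine ⟨(‖τL (w : L)‖ ^ N')⁻¹, fun k => ?_⟩
  obtain ⟨a, ha⟩ := hN' k
  have h1 : ‖τL (w : L)‖ ^ (N' + 2 * m * k) * (‖τ η‖ ^ k * ‖τ (Y.coeff k)‖) ≤ 1 := by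
    have h2 : ‖τL (algebraMap (OO τL) L a)‖ ≤ 1 := a.2
    rw [← ha, PowerSeries.coeff_mk, map_mul, map_mul, map_pow, map_pow, norm_mul, norm_mul,
      norm_pow, norm_pow, hτj, hτj] at h2
    exact h2
  have hW : 0 < ‖τL (w : L)‖ ^ N' := by positivity
  have hWk : 0 < (‖τL (w : L)‖ ^ m) ^ (2 * k) := by positivity
  have h3 : ‖τL (w : L)‖ ^ (N' + 2 * m * k) =
      ‖τL (w : L)‖ ^ N' * (‖τL (w : L)‖ ^ m) ^ (2 * k) := by
    rw [pow_add, ← pow_mul]
    congr 2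
    ring
  rw [h3] at h1
  have h4 : ((‖τL (w : L)‖ ^ m) ^ (2 * k))⁻¹ ≤
      ((p : ℝ) ^ (2 * (M : ℝ) + 2 / N)) ^ k := by
    have h5 : ((p : ℝ) ^ (-((M : ℝ) + 1 / N))) ^ (2 * k) ≤ (‖τL (w : L)‖ ^ m) ^ (2 * k) :=
      pow_le_pow_left₀ (Real.rpow_nonneg hp0.le _) hmlo _
    have h6 : ((p : ℝ) ^ (2 * (M : ℝ) + 2 / N)) ^ k =
        (((p : ℝ) ^ (-((M : ℝ) + 1 / N))) ^ (2 * k))⁻¹ := by
      rw [pow_mul, ← inv_pow, ← Real.rpow_natCast _ 2, ← Real.rpow_mul hp0.le,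
        ← Real.rpow_neg hp0.le]
      congr 2
      push_cast
      ring
    rw [h6]
    exact inv_anti₀ (pow_pos (Real.rpow_pos_of_pos hp0 _) _) h5
  calc ‖τ (Y.coeff k)‖ * ‖τ η‖ ^ k = ‖τ η‖ ^ k * ‖τ (Y.coeff k)‖ := mul_comm _ _
    _ ≤ (‖τL (w : L)‖ ^ N' * (‖τL (w : L)‖ ^ m) ^ (2 * k))⁻¹ := by
        have h5 : 0 < ‖τL (w : L)‖ ^ N' * (‖τL (w : L)‖ ^ m) ^ (2 * k) := mul_pos hW hWk
        rw [inv_eq_one_div, le_div_iff₀ h5, mul_comm]
        exact h1
    _ = (‖τL (w : L)‖ ^ N')⁻¹ * ((‖τL (w : L)‖ ^ m) ^ (2 * k))⁻¹ := mul_inv _ _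
    _ ≤ _ := mul_le_mul_of_nonneg_left h4 (by positivity)

/-- the radius -/
theorem p_radius {K : Type*} [Field K] [NumberField K] (F : K[X][X]) (hF : F.Monic)
    (hg : GeomIrred F) (A : Finset K) (hun : UnramifiedOutside F A) (b y0 : K)
    (hb : b ∉ A) (hs : (at_ F b).Separable) (h0 : (at_ F b).eval y0 = 0) (p : ℕ) [Fact p.Prime]
    (τ : K →+* ℂ_[p]) (η : K) (hη0 : η ≠ 0) (hη : ∀ a ∈ A, ‖τ η‖ ≤ ‖τ (b - a)‖) :
    ((Real.log ‖τ η‖ - 2 * Nat.log p F.natDegree * Real.log p : ℝ) : EReal) ≤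
      logRadius (bc τ F) (τ b) (τ y0) := by
  have hp1 : 1 < (p : ℝ) := by exact_mod_cast (Fact.out : p.Prime).one_lt
  have hp0 : 0 < (p : ℝ) := by linarith
  have hlogp : 0 < Real.log p := Real.log_pos hp1
  have hpc : (p : ℂ_[p]) ≠ 0 := by exact_mod_cast (Fact.out : p.Prime).ne_zero
  have hτη : τ η ≠ 0 := fun h => hη0 ((map_eq_zero τ).1 h)
  set M : ℕ := Nat.log p F.natDegree with hM
  obtain ⟨Y, hY⟩ := exists_ser F b y0 hs h0
  have key : ∀ N : ℕ, 0 < N →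
      ((Real.log ‖τ η‖ - 2 * M * Real.log p - 2 / N * Real.log p : ℝ) : EReal) ≤
        logRadius (bc τ F) (τ b) (τ y0) := by
    intro N hN
    have hN0 : (0 : ℝ) < N := by exact_mod_cast hN
    obtain ⟨C, hC⟩ := p_coeff F hF hg A hun b y0 hb hs h0 p τ η hη0 hη N hN Y hY
    obtain ⟨z, hz⟩ := IsAlgClosed.exists_pow_nat_eq (p : ℂ_[p]) hN
    have hz0 : z ≠ 0 := by
      intro h
      rw [h, zero_pow hN.ne'] at hz
      exact hpc hz.symm
    have hzn : ‖z‖ = (p : ℝ) ^ (-(1 / (N : ℝ))) := by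
      have h1 : ‖z‖ ^ N = (p : ℝ)⁻¹ := by rw [← norm_pow, hz, norm_p]
      have h2 : ((p : ℝ) ^ (-(1 / (N : ℝ)))) ^ N = (p : ℝ)⁻¹ := by
        rw [← Real.rpow_natCast, ← Real.rpow_mul hp0.le]
        have : -(1 / (N : ℝ)) * N = -1 := by field_simp
        rw [this, Real.rpow_neg_one]
      exact (pow_left_inj₀ (norm_nonneg _) (Real.rpow_nonneg hp0.le _) hN.ne').1 (h1.trans h2.symm)
    set c : ℂ_[p] := τ η * (p : ℂ_[p]) ^ (2 * M) * z ^ 2 with hc
    have hc0 : c ≠ 0 := mul_ne_zero (mul_ne_zero hτη (pow_ne_zero _ hpc)) (pow_ne_zero _ hz0)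
    have hcn : ‖c‖ * (p : ℝ) ^ (2 * (M : ℝ) + 2 / N) = ‖τ η‖ := by
      rw [hc, norm_mul, norm_mul, norm_pow, norm_pow, norm_p, hzn, ← Real.rpow_natCast _ 2,
        ← Real.rpow_mul hp0.le, Real.rpow_add hp0]
      have h1 : (p : ℝ) ^ (2 * (M : ℝ)) = (p : ℝ) ^ (2 * M) := by
        rw [← Real.rpow_natCast]
        congr 1
        push_cast
        ring
      have h2 : (p : ℝ) ^ (-(1 / (N : ℝ)) * ((2 : ℕ) : ℝ)) = ((p : ℝ) ^ (2 / (N : ℝ)))⁻¹ := by
        rw [← Real.rpow_neg hp0.le]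
        congr 1
        push_cast
        ring
      have h3 : (p : ℝ) ^ (2 / (N : ℝ)) ≠ 0 := (Real.rpow_pos_of_pos hp0 _).ne'
      rw [h1, h2, inv_pow]
      field_simp
    have hlogc : Real.log ‖c‖ = Real.log ‖τ η‖ - 2 * M * Real.log p - 2 / N * Real.log p := by
      have h1 : Real.log ‖τ η‖ = Real.log ‖c‖ + (2 * (M : ℝ) + 2 / N) * Real.log p := by
        rw [← hcn, Real.log_mul (norm_ne_zero_iff.2 hc0) (Real.rpow_pos_of_pos hp0 _).ne',
          Real.log_rpow hp0]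
      rw [h1]
      ring
    have hdisc : IsDisc (bc τ F) (τ b) (τ y0) c := by
      refine ⟨hc0, PowerSeries.rescale c (PowerSeries.C (τ b) + PowerSeries.X),
        PowerSeries.rescale c (PowerSeries.map τ Y), ?_, ?_, ?_, ?_, ?_, ?_⟩
      · refine isBdd_of (B := max ‖τ b‖ ‖c‖) fun k => ?_
        rw [PowerSeries.coeff_rescale, map_add, PowerSeries.coeff_C, PowerSeries.coeff_X]
        rcases k with _ | _ | k
        · simp
        · simp
        · simp
      · refine isBdd_of (B := C) fun k => ?_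
        rw [PowerSeries.coeff_rescale, PowerSeries.coeff_map, norm_mul, norm_pow]
        have h1 := hC k
        rw [← hcn, mul_pow] at h1
        have h2 : 0 < ((p : ℝ) ^ (2 * (M : ℝ) + 2 / N)) ^ k := pow_pos (Real.rpow_pos_of_pos hp0 _) _
        rw [← mul_assoc] at h1
        have h3 := le_of_mul_le_mul_right h1 h2
        linarith [mul_comm (‖c‖ ^ k) ‖τ (Y.coeff k)‖]
      · exact onCurve_rescale _ _ _ _ (ser_map τ F b y0 Y hY).1
      · rw [map_add, rescale_C]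
        simp
      · rw [map_add, rescale_C]
        simp
      · rw [PowerSeries.coeff_rescale, pow_zero, one_mul, PowerSeries.coeff_map, hY.2]
    rw [← hlogc]
    exact le_iSup₂_of_le (f := fun c _ => ((Real.log ‖c‖ : ℝ) : EReal)) c hdisc le_rfl
  by_contra hcon
  rw [not_le] at hcon
  obtain ⟨r, hr1, hr2⟩ := EReal.lt_iff_exists_real_btwn.1 hcon
  have hr3 : r < Real.log ‖τ η‖ - 2 * M * Real.log p := by exact_mod_cast hr2
  obtain ⟨N, hN⟩ := exists_nat_gt (2 * Real.log p / (Real.log ‖τ η‖ - 2 * M * Real.log p - r))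
  have hd : 0 < Real.log ‖τ η‖ - 2 * M * Real.log p - r := by linarith
  have hNpos : 0 < (N : ℝ) := lt_of_le_of_lt (by positivity) hN
  have hN' : 0 < N := by exact_mod_cast hNpos
  have h1 := lt_of_le_of_lt (key N hN') hr1
  have h2 : Real.log ‖τ η‖ - 2 * M * Real.log p - 2 / N * Real.log p < r := by exact_mod_cast h1
  rw [div_lt_iff₀ hd] at hN
  have h3 : 2 / (N : ℝ) * Real.log p < Real.log ‖τ η‖ - 2 * M * Real.log p - r := by
    rw [div_mul_eq_mul_div, div_lt_iff₀ hNpos]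
    linarith
  linarith

end ALC
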