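import Pool.Agent.ALC.Arch
import Pool.Agent.ALC.PRad

/-!
Final assembly.
-/

open Polynomial

namespace ALC

/-- an integral combination in an ultrametric field -/
private theorem glob_ultra {L : Type*} [NormedField L] [IsUltrametricDist L] (Q : ℤ[X]) (z : L)
    (h0 : eval₂ (Int.castRingHom L) z Q = 0) (h1 : ‖((Q.leadingCoeff : ℤ) : L)‖ = 1) :
    ‖z‖ ≤ 1 := by
  by_contra hz
  push Not at hz
  have hn : Q.natDegree ≠ 0 := by
    intro hn
    rw [eval₂_eq_sum_range, hn] at h0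
    simp only [zero_add, Finset.sum_range_one, pow_zero, mul_one, eq_intCast] at h0
    rw [Polynomial.leadingCoeff, hn, h0, norm_zero] at h1
    exact zero_ne_one h1
  obtain ⟨n, hn'⟩ := Nat.exists_eq_succ_of_ne_zero hn
  rw [eval₂_eq_sum_range, hn', Nat.succ_eq_add_one, Finset.sum_range_succ] at h0
  simp only [eq_intCast] at h0
  have h2 : (Q.coeff (n + 1) : L) * z ^ (n + 1) =
      -∑ i ∈ Finset.range (n + 1), (Q.coeff i : L) * z ^ i := by
    rw [eq_neg_iff_add_eq_zero, add_comm]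
    exact h0
  have h3 : ‖(Q.coeff (n + 1) : L) * z ^ (n + 1)‖ = ‖z‖ ^ (n + 1) := by
    rw [norm_mul, norm_pow]
    rw [Polynomial.leadingCoeff, hn', Nat.succ_eq_add_one] at h1
    rw [h1, one_mul]
  have h4 : ‖∑ i ∈ Finset.range (n + 1), (Q.coeff i : L) * z ^ i‖ ≤ ‖z‖ ^ n := by
    apply IsUltrametricDist.norm_sum_le_of_forall_le_of_nonneg (by positivity)
    intro i hi
    rw [norm_mul, norm_pow]
    have h5 : ‖((Q.coeff i : ℤ) : L)‖ ≤ 1 := IsUltrametricDist.norm_intCast_le_one L _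
    have h6 : ‖z‖ ^ i ≤ ‖z‖ ^ n := pow_le_pow_right₀ hz.le (by
      have := Finset.mem_range.1 hi
      omega)
    calc ‖((Q.coeff i : ℤ) : L)‖ * ‖z‖ ^ i ≤ 1 * ‖z‖ ^ n := by gcongr
      _ = ‖z‖ ^ n := one_mul _
  have h7 : ‖z‖ ^ n < ‖z‖ ^ (n + 1) := pow_lt_pow_right₀ hz (Nat.lt_succ_self n)
  rw [h2, norm_neg] at h3
  linarith

private theorem glob_int (p : ℕ) [Fact p.Prime] (m : ℤ) (h : ¬ (p : ℤ) ∣ m) :
    ‖(m : ℂ_[p])‖ = 1 := by
  have h1 : ‖(m : ℚ_[p])‖ = 1 := by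
    apply le_antisymm (IsUltrametricDist.norm_intCast_le_one _ _)
    by_contra hlt
    push Not at hlt
    exact h (Padic.norm_intCast_lt_one_iff.1 hlt)
  have h2 : (m : ℂ_[p]) = algebraMap ℚ_[p] ℂ_[p] (m : ℚ_[p]) := (map_intCast _ m).symm
  rw [h2, norm_algebraMap', h1]

private theorem glob_unit (p : ℕ) [Fact p.Prime] (Q : ℤ[X]) (h1 : ¬ (p : ℤ) ∣ Q.coeff 0)
    (h2 : ¬ (p : ℤ) ∣ Q.leadingCoeff) (z : ℂ_[p]) (h0 : eval₂ (Int.castRingHom ℂ_[p]) z Q = 0)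
    (hz : z ≠ 0) : ‖z‖ = 1 := by
  have h3 : ‖z‖ ≤ 1 := glob_ultra Q _ h0 (glob_int _ _ h2)
  have hQ0 : Q.coeff 0 ≠ 0 := by
    intro h
    exact h1 (h ▸ dvd_zero _)
  have h4 : ‖z⁻¹‖ ≤ 1 := by
    apply glob_ultra Q.reverse
    · let _ := invertibleOfNonzero hz
      have h5 := (Polynomial.eval₂_reverse_eq_zero_iff (Int.castRingHom ℂ_[p]) z Q).2 h0
      rwa [invOf_eq_inv] at h5
    · rw [Polynomial.reverse_leadingCoeff, Polynomial.trailingCoeff,
        Polynomial.natTrailingDegree_eq_zero.2 (Or.inr hQ0)]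
      exact glob_int _ _ h1
  rw [norm_inv] at h4
  have h5 : 0 < ‖z‖ := norm_pos_iff.2 hz
  apply le_antisymm h3
  exact (inv_le_one_iff₀.1 h4).resolve_left (by linarith)

/-- `|τ x| = 1` for all embeddings in `ℂ_p`, for all but finitely many `p` -/
theorem unit_ae {K : Type*} [Field K] [NumberField K] (x : K) (hx : x ≠ 0) :
    ∃ S : Finset Nat.Primes, ∀ p : Nat.Primes, p ∉ S →
      haveI : Fact (p : ℕ).Prime := ⟨p.2⟩
      ∀ τ : K →+* ℂ_[(p : ℕ)], ‖τ x‖ = 1 := by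
  classical
  obtain ⟨P, hP0, hP⟩ : ∃ P : ℤ[X], P ≠ 0 ∧ aeval x P = 0 :=
    (IsFractionRing.isAlgebraic_iff ℤ ℚ K).2 (Algebra.IsAlgebraic.isAlgebraic x)
  -- constant coefficient
  obtain ⟨Q, hQ0, hQ⟩ : ∃ Q : ℤ[X], Q.coeff 0 ≠ 0 ∧ aeval x Q = 0 := by
    obtain ⟨Q, hQ1, hQ2⟩ := Polynomial.exists_eq_pow_rootMultiplicity_mul_and_not_dvd P hP0 0
    refine ⟨Q, ?_, ?_⟩
    · intro h
      apply hQ2
      rw [map_zero, sub_zero]
      exact Polynomial.X_dvd_iff.2 h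
    · rw [hQ1, map_mul, map_pow] at hP
      rcases mul_eq_zero.1 hP with h | h
      · exfalso
        apply hx
        have h' := eq_zero_of_pow_eq_zero h
        simpa using h'
      · exact h
  have hQne : Q ≠ 0 := by
    rintro rfl
    simp at hQ0
  have hne : Q.coeff 0 * Q.leadingCoeff ≠ 0 :=
    mul_ne_zero hQ0 (Polynomial.leadingCoeff_ne_zero.2 hQne)
  have hfin : {p : Nat.Primes | (p : ℕ) ∣ (Q.coeff 0 * Q.leadingCoeff).natAbs}.Finite := by
    refine ((Q.coeff 0 * Q.leadingCoeff).natAbs.divisors.finite_toSet.preimage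
      (f := fun p : Nat.Primes => (p : ℕ)) (fun a _ b _ h => Subtype.ext h)).subset ?_
    intro p hp
    simp only [Set.mem_preimage, SetLike.mem_coe, Nat.mem_divisors]
    exact ⟨hp, by simpa using hne⟩
  refine ⟨hfin.toFinset, fun p hp => ?_⟩
  have : Fact (p : ℕ).Prime := ⟨p.2⟩
  intro τ
  have hpd : ¬ ((p : ℕ) : ℤ) ∣ Q.coeff 0 * Q.leadingCoeff := by
    intro hd
    apply hp
    rw [Set.Finite.mem_toFinset]
    exact Int.natCast_dvd.1 hd
  refine glob_unit _ Q (fun h => hpd (h.mul_right _)) (fun h => hpd (h.mul_left _)) _ ?_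
    (by simpa using hx)
  have h3 := congrArg τ hQ
  rw [map_zero, Polynomial.aeval_def, Polynomial.hom_eval₂] at h3
  have h4 : τ.comp (algebraMap ℤ K) = Int.castRingHom _ := RingHom.ext_int _ _
  rwa [h4] at h3

/-- the supremum is attained -/
private theorem glob_sup {K L : Type*} [Field K] [NormedField L] (τ : K →+* L) (A : Finset K)
    (hA : A.Nonempty) (b : K) (hb : b ∉ A) : ∃ a0 ∈ A, (∀ a ∈ A, ‖τ (b - a0)‖ ≤ ‖τ (b - a)‖) ∧
      b - a0 ≠ 0 ∧ (⨆ a : A, ‖τ (1 / (b - a))‖) = ‖τ (b - a0)‖⁻¹ := by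
  obtain ⟨a0, ha0, hmin⟩ := Finset.exists_min_image A (fun a => ‖τ (b - a)‖) hA
  have hne : ∀ a ∈ A, b - a ≠ 0 := fun a ha h => hb (by
    rw [sub_eq_zero] at h
    exact h ▸ ha)
  have hpos : 0 < ‖τ (b - a0)‖ := by
    rw [norm_pos_iff]
    exact (_root_.map_ne_zero τ).2 (hne a0 ha0)
  refine ⟨a0, ha0, hmin, hne a0 ha0, ?_⟩
  have hval : ∀ a : K, ‖τ (1 / (b - a))‖ = ‖τ (b - a)‖⁻¹ := by
    intro a
    rw [one_div, map_inv₀, norm_inv]
  apply le_antisymm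
  · have : Nonempty A := ⟨⟨a0, ha0⟩⟩
    apply ciSup_le
    intro a
    rw [hval]
    exact inv_anti₀ hpos (hmin a a.2)
  · rw [← hval]
    exact le_ciSup (f := fun a : A => ‖τ (1 / (b - a))‖) (Set.finite_range _).bddAbove ⟨a0, ha0⟩

private theorem glob_psi (d : ℕ) (S : Finset Nat.Primes) :
    ∑ p ∈ S, (Nat.log p d : ℝ) * Real.log p ≤ Chebyshev.psi d := by
  classical
  rw [Chebyshev.psi_eq_sum_mul_log_prime]
  have h1 : ∑ p ∈ S, (Nat.log p d : ℝ) * Real.log p =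
      ∑ q ∈ S.image (fun p : Nat.Primes => (p : ℕ)), (Nat.log q d : ℝ) * Real.log q := by
    rw [Finset.sum_image]
    intro a _ b _ h
    exact Subtype.ext h
  rw [h1]
  have h2 : ∑ q ∈ S.image (fun p : Nat.Primes => (p : ℕ)), (Nat.log q d : ℝ) * Real.log q =
      ∑ q ∈ (S.image (fun p : Nat.Primes => (p : ℕ))).filter (· ≤ d),
        (Nat.log q d : ℝ) * Real.log q := by
    rw [Finset.sum_filter_of_ne]
    intro q _ hq
    by_contra hlt
    push Not at hlt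
    exact hq (by rw [Nat.log_of_lt hlt]; simp)
  rw [h2]
  apply Finset.sum_le_sum_of_subset_of_nonneg
  · intro q hq
    rw [Finset.mem_filter, Finset.mem_image] at hq
    obtain ⟨⟨p, _, rfl⟩, hle⟩ := hq
    rw [Nat.mem_primesLE]
    exact ⟨hle, p.2⟩
  · intro q _ _
    exact mul_nonneg (Nat.cast_nonneg _) (Real.log_natCast_nonneg _)

private theorem glob_coe_sum {ι : Type*} (s : Finset ι) (f : ι → ℝ) :
    ((∑ i ∈ s, f i : ℝ) : EReal) = ∑ i ∈ s, (f i : EReal) := by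
  classical
  induction s using Finset.induction_on with
  | empty => simp
  | insert a s ha ih => rw [Finset.sum_insert ha, Finset.sum_insert ha, EReal.coe_add, ih]

private theorem glob_fin {K : Type*} [Field K] [NumberField K] (F : K[X][X]) (hF : F.Monic)
    (hg : GeomIrred F) (A : Finset K) (hA : A.Nonempty) (hun : UnramifiedOutside F A) (b y0 : K)
    (hb : b ∉ A) (hs : (at_ F b).Separable) (h0 : (at_ F b).eval y0 = 0) (p : ℕ)
    [Fact p.Prime] :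
    ((∑ τ : K →+* ℂ_[p], (-(Real.log (⨆ a : A, ‖τ (1 / (b - a))‖))) -
      Module.finrank ℚ K * (2 * (Nat.log p F.natDegree * Real.log p)) : ℝ) : EReal) ≤
      ∑ τ : K →+* ℂ_[p], logRadius (bc τ F) (τ b) (τ y0) := by
  have h1 : (∑ τ : K →+* ℂ_[p], (-(Real.log (⨆ a : A, ‖τ (1 / (b - a))‖))) -
      Module.finrank ℚ K * (2 * (Nat.log p F.natDegree * Real.log p)) : ℝ) =
      ∑ τ : K →+* ℂ_[p], (-(Real.log (⨆ a : A, ‖τ (1 / (b - a))‖)) -
        2 * (Nat.log p F.natDegree * Real.log p)) := by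
    rw [Finset.sum_sub_distrib, Finset.sum_const, Finset.card_univ,
      NumberField.Embeddings.card K ℂ_[p], nsmul_eq_mul]
  rw [h1, glob_coe_sum]
  apply Finset.sum_le_sum
  intro τ _
  obtain ⟨a0, ha0, hmin, hne, hsup⟩ := glob_sup τ A hA b hb
  have h2 := p_radius F hF hg A hun b y0 hb hs h0 p τ (b - a0) hne hmin
  rw [hsup, Real.log_inv, neg_neg]
  refine le_trans (le_of_eq ?_) h2
  congr 1
  ring

private theorem glob_arch {K : Type*} [Field K] [NumberField K] (F : K[X][X]) (hF : F.Monic)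
    (hg : GeomIrred F) (A : Finset K) (hA : A.Nonempty) (hun : UnramifiedOutside F A) (b y0 : K)
    (hb : b ∉ A) (hs : (at_ F b).Separable) (h0 : (at_ F b).eval y0 = 0) (g : ℕ) (hg1 : 1 ≤ g)
    (σ : K →+* ℂ) (e : Fin g → ℂ[X][X] × ℂ[X]) (he : IsONB (bc σ F) g e)
    (G : ℂ → ℂ → ℝ) (l : ℝ) (hG : IsGreen (bc σ F) e (σ b) (σ y0) G l) :
    l ≤ Real.log (⨆ a : A, ‖σ (1 / (b - a))‖) +
      ((1 / 2) * Real.log (1 + 1 / g) + (1 / g) * Real.log (1 + g)) := by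
  obtain ⟨a0, ha0, hmin, hne, hsup⟩ := glob_sup σ A hA b hb
  have hr : 0 < ‖σ (b - a0)‖ := norm_pos_iff.2 ((_root_.map_ne_zero σ).2 hne)
  obtain ⟨f, hf1, hf2, hf3⟩ := arch_section F hF hg A hun b y0 hs h0 σ _ hr hmin
  have h1 := arch (bc σ F) (hF.map _) (σ b) (σ y0) (sep_bc σ F b hs) g hg1 e he G l hG _ hr f
    hf1 hf2 hf3
  rw [hsup, Real.log_inv]
  linarith

/-- version with a number `g σ` for each embedding `σ` -/
theorem main_gen {K : Type*} [Field K] [NumberField K] (F : K[X][X]) (hF : F.Monic)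
    (hg : GeomIrred F) (A : Finset K) (hA : A.Nonempty) (hun : UnramifiedOutside F A) (b y0 : K)
    (hb : b ∉ A) (hs : (at_ F b).Separable) (h0 : (at_ F b).eval y0 = 0) (g : (K →+* ℂ) → ℕ)
    (hg1 : ∀ σ, 1 ≤ g σ) (e : ∀ σ : K →+* ℂ, Fin (g σ) → ℂ[X][X] × ℂ[X])
    (he : ∀ σ, IsONB (bc σ F) (g σ) (e σ))
    (G : (K →+* ℂ) → ℂ → ℂ → ℝ) (l : (K →+* ℂ) → ℝ)
    (hG : ∀ σ, IsGreen (bc σ F) (e σ) (σ b) (σ y0) (G σ) (l σ)) :
    height K F b y0 l ≤ ((branchHeight K A b + 2 * Chebyshev.psi F.natDegree +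
      (1 / (Module.finrank ℚ K : ℝ)) * ∑ σ : K →+* ℂ, ((1 / 2) * Real.log (1 + 1 / (g σ : ℝ)) +
        (1 / (g σ : ℝ)) * Real.log (1 + (g σ : ℝ))) : ℝ) : EReal) := by
  classical
  set n : ℝ := (Module.finrank ℚ K : ℝ) with hn
  have hn0 : 0 < n := by
    rw [hn]
    exact_mod_cast Module.finrank_pos
  set c : ℝ := ∑ σ : K →+* ℂ, ((1 / 2) * Real.log (1 + 1 / (g σ : ℝ)) +
        (1 / (g σ : ℝ)) * Real.log (1 + (g σ : ℝ))) with hc
  -- the finite part
  set cp : Nat.Primes → ℝ := fun p => haveI : Fact (p : ℕ).Prime := ⟨p.2⟩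
      ∑ τ : K →+* ℂ_[(p : ℕ)], Real.log (⨆ a : A, ‖τ (1 / (b - a))‖) with hcp
  -- support
  obtain ⟨S0, hS0⟩ : ∃ S0 : Finset Nat.Primes, ∀ p, p ∉ S0 → cp p = 0 := by
    have hx : ∀ a : A, b - a ≠ 0 := fun a h => hb (by
      rw [sub_eq_zero] at h
      exact h ▸ a.2)
    choose T hT using fun a : A => unit_ae (b - (a : K)) (hx a)
    refine ⟨Finset.univ.biUnion T, fun p hp => ?_⟩
    have : Fact (p : ℕ).Prime := ⟨p.2⟩
    simp only [hcp]
    apply Finset.sum_eq_zero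
    intro τ _
    obtain ⟨a0, ha0, -, -, hsup⟩ := glob_sup τ A hA b hb
    rw [hsup]
    have h1 := hT ⟨a0, ha0⟩ p (fun h => hp (Finset.mem_biUnion.2 ⟨_, Finset.mem_univ _, h⟩)) τ
    rw [h1, inv_one, Real.log_one]
  have hH : branchHeight K A b = (1 / n) * (∑ σ : K →+* ℂ,
      Real.log (⨆ a : A, ‖σ (1 / (b - a))‖) + ∑ p ∈ S0, cp p) := by
    rw [branchHeight, ← hn]
    congr 2
    apply finsum_eq_sum_of_support_subset
    intro p hp
    by_contra hps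
    exact hp (hS0 p hps)
  -- the archimedean part
  have hl : ∑ σ : K →+* ℂ, l σ ≤ ∑ σ : K →+* ℂ, Real.log (⨆ a : A, ‖σ (1 / (b - a))‖) + c := by
    rw [hc, ← Finset.sum_add_distrib]
    exact Finset.sum_le_sum fun σ _ =>
      glob_arch F hF hg A hA hun b y0 hb hs h0 (g σ) (hg1 σ) σ (e σ) (he σ) (G σ) (l σ) (hG σ)
  rw [height]
  apply Filter.limsup_le_of_le
  · isBoundedDefault
  filter_upwards [Filter.eventually_ge_atTop S0] with S hS
  have hfin : ((-(∑ p ∈ S0, cp p) - n * (2 * Chebyshev.psi F.natDegree) : ℝ) : EReal) ≤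
      finPart K F b y0 S := by
    have h1 : (-(∑ p ∈ S0, cp p) - n * (2 * Chebyshev.psi F.natDegree) : ℝ) ≤
        ∑ p ∈ S, (-(cp p) - n * (2 * (Nat.log p F.natDegree * Real.log p))) := by
      rw [Finset.sum_sub_distrib, Finset.sum_neg_distrib, ← Finset.mul_sum, ← Finset.mul_sum]
      have h2 : ∑ p ∈ S, cp p = ∑ p ∈ S0, cp p := by
        symm
        exact Finset.sum_subset hS fun p _ hp => hS0 p hp
      rw [h2]
      have h3 := glob_psi F.natDegree S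
      have : n * (2 * ∑ p ∈ S, (Nat.log p F.natDegree * Real.log p : ℝ)) ≤
          n * (2 * Chebyshev.psi F.natDegree) := by gcongr
      linarith
    refine le_trans (EReal.coe_le_coe_iff.2 h1) ?_
    rw [glob_coe_sum, finPart]
    apply Finset.sum_le_sum
    intro p _
    have : Fact (p : ℕ).Prime := ⟨p.2⟩
    have h2 := glob_fin F hF hg A hA hun b y0 hb hs h0 (p : ℕ)
    rw [Finset.sum_neg_distrib] at h2
    exact h2
  have h1 : (((∑ σ : K →+* ℂ, l σ : ℝ) : EReal) - finPart K F b y0 S) ≤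
      ((∑ σ : K →+* ℂ, l σ + ∑ p ∈ S0, cp p + n * (2 * Chebyshev.psi F.natDegree) : ℝ) : EReal) := by
    refine le_trans (EReal.sub_le_sub le_rfl hfin) (le_of_eq ?_)
    rw [← EReal.coe_sub]
    congr 1
    ring
  have h2 : ((1 / n : ℝ) : EReal) * (((∑ σ : K →+* ℂ, l σ : ℝ) : EReal) - finPart K F b y0 S) ≤
      ((1 / n : ℝ) : EReal) *
      ((∑ σ : K →+* ℂ, l σ + ∑ p ∈ S0, cp p + n * (2 * Chebyshev.psi F.natDegree) : ℝ) : EReal) := by
    apply mul_le_mul_of_nonneg_left h1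
    exact_mod_cast (one_div_pos.2 hn0).le
  refine le_trans h2 ?_
  rw [← EReal.coe_mul, EReal.coe_le_coe_iff, hH]
  have h3 : 1 / n * (∑ σ : K →+* ℂ, l σ + ∑ p ∈ S0, cp p + n * (2 * Chebyshev.psi F.natDegree)) ≤
      1 / n * (∑ σ : K →+* ℂ, Real.log (⨆ a : A, ‖σ (1 / (b - a))‖) + c + ∑ p ∈ S0, cp p +
        n * (2 * Chebyshev.psi F.natDegree)) := by
    apply mul_le_mul_of_nonneg_left _ (one_div_pos.2 hn0).le
    linarith
  refine le_trans h3 (le_of_eq ?_)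
  field_simp
  ring

theorem main {K : Type*} [Field K] [NumberField K] (F : K[X][X]) (hF : F.Monic)
    (hg : GeomIrred F) (A : Finset K) (hA : A.Nonempty) (hun : UnramifiedOutside F A) (b y0 : K)
    (hb : b ∉ A) (hs : (at_ F b).Separable) (h0 : (at_ F b).eval y0 = 0) (g : ℕ) (hg1 : 1 ≤ g)
    (e : (K →+* ℂ) → Fin g → ℂ[X][X] × ℂ[X]) (he : ∀ σ, IsONB (bc σ F) g (e σ))
    (G : (K →+* ℂ) → ℂ → ℂ → ℝ) (l : (K →+* ℂ) → ℝ)
    (hG : ∀ σ, IsGreen (bc σ F) (e σ) (σ b) (σ y0) (G σ) (l σ)) :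
    height K F b y0 l ≤ ((branchHeight K A b + 2 * Chebyshev.psi F.natDegree +
      (1 / 2) * Real.log (1 + 1 / g) + (1 / g) * Real.log (1 + g) : ℝ) : EReal) := by
  have h := main_gen F hF hg A hA hun b y0 hb hs h0 (fun _ => g) (fun _ => hg1) e he G l hG
  rw [Finset.sum_const, Finset.card_univ, NumberField.Embeddings.card K ℂ, nsmul_eq_mul] at h
  have hn : (0 : ℝ) < (Module.finrank ℚ K : ℝ) := by exact_mod_cast Module.finrank_pos
  have h1 : (1 / (Module.finrank ℚ K : ℝ)) * ((Module.finrank ℚ K : ℝ) *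
      ((1 / 2) * Real.log (1 + 1 / (g : ℝ)) + (1 / (g : ℝ)) * Real.log (1 + (g : ℝ)))) =
      (1 / 2) * Real.log (1 + 1 / (g : ℝ)) + (1 / (g : ℝ)) * Real.log (1 + (g : ℝ)) := by
    field_simp
  rw [h1, ← add_assoc] at h
  exact h

end ALC
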