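import Mathlib

/-!
The trace of an approximate idempotent of a finite free algebra over a discrete valuation ring is,
up to the precision, its rank: modulo w^N multiplication by eps is an idempotent endomorphism of a
free module over the local ring A/w^N, its image is projective, hence free of rank n <= finrank,
the trace is n; n = 0 would give eps in w^N C.
-/

namespace ALC

private theorem idTr_free {R M : Type*} [CommRing R] [IsLocalRing R] [AddCommGroup M] [Module R M]
    [Module.Finite R M] [Module.Free R M] (f : M →ₗ[R] M) (hf : f ∘ₗ f = f) :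
    Module.Free R (LinearMap.range f) ∧ Module.Finite R (LinearMap.range f) := by
  have hfin : Module.Finite R (LinearMap.range f) := inferInstance
  have hproj : Module.Projective R (LinearMap.range f) := by
    refine Module.Projective.of_split (LinearMap.range f).subtype f.rangeRestrict ?_
    ext ⟨x, y, hy⟩
    subst hy
    simp only [LinearMap.comp_apply, Submodule.subtype_apply, LinearMap.codRestrict_apply,
      LinearMap.id_apply]
    have := LinearMap.congr_fun hf y
    simpa using this
  exact ⟨Module.free_of_flat_of_isLocalRing, hfin⟩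

private theorem idTr_local {R : Type*} [CommRing R] [IsLocalRing R] {ι : Type*} [Fintype ι]
    [DecidableEq ι] (M : Matrix ι ι R) (hM : M * M = M) :
    ∃ n : ℕ, n ≤ Fintype.card ι ∧ Matrix.trace M = n ∧ (n = 0 → M = 0) := by
  set f : (ι → R) →ₗ[R] (ι → R) := Matrix.toLin' M with hf
  have hff : f ∘ₗ f = f := by
    rw [hf, ← Matrix.toLin'_mul, hM]
  have hid : IsIdempotentElem f := hff
  obtain ⟨h1, h2⟩ := idTr_free f hff
  have hker : LinearMap.ker f = LinearMap.range (LinearMap.id - f) := by
    ext x
    rw [LinearMap.mem_ker, LinearMap.mem_range]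
    constructor
    · intro hx
      exact ⟨x, by simp [hx]⟩
    · rintro ⟨y, rfl⟩
      have := LinearMap.congr_fun hff y
      simp only [LinearMap.comp_apply] at this
      simp [this]
  have hgg : (LinearMap.id - f) ∘ₗ (LinearMap.id - f) = LinearMap.id - f := by
    ext x
    have := LinearMap.congr_fun hff (Pi.single x 1)
    simp only [LinearMap.comp_apply] at this
    simp [this]
  obtain ⟨h3, h4⟩ := idTr_free (LinearMap.id - f) hgg
  rw [← hker] at h3 h4
  refine ⟨Module.finrank R (LinearMap.range f), ?_, ?_, ?_⟩
  · refine (Submodule.finrank_le _).trans ?_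
    rw [Module.finrank_fintype_fun_eq_card]
  · rw [← LinearMap.IsProj.trace (LinearMap.IsIdempotentElem.isProj_range f hid), hf]
    exact (Matrix.trace_toLin'_eq M).symm
  · intro h0
    rw [Module.finrank_eq_zero_iff_of_free, Submodule.subsingleton_iff_eq_bot,
      LinearMap.range_eq_bot] at h0
    rw [hf] at h0
    exact (LinearEquiv.map_eq_zero_iff Matrix.toLin').1 h0

theorem idem_trace {A C : Type*} [CommRing A] [IsDomain A] [IsDiscreteValuationRing A] [CommRing C]
    [Algebra A C] [Module.Finite A C] [Module.Free A C] (w : A) (hw : Irreducible w) (N : ℕ)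
    (hN : 0 < N) (ε z : C) (h : ε ^ 2 - ε = algebraMap A C w ^ N * z)
    (hne : ¬ ∃ y, ε = algebraMap A C w * y) :
    ∃ n : ℕ, 1 ≤ n ∧ n ≤ Module.finrank A C ∧ ∃ a : A, Algebra.trace A C ε = n + w ^ N * a := by
  classical
  set b := Module.Free.chooseBasis A C with hb
  set M := Algebra.leftMulMatrix b ε with hM
  set I : Ideal A := Ideal.span {w ^ N} with hI
  have hI1 : I ≠ ⊤ := by
    rw [hI, ne_eq, Ideal.span_singleton_eq_top]
    intro hu
    exact hw.not_isUnit (isUnit_pow_iff hN.ne' |>.1 hu)
  have : Nontrivial (A ⧸ I) := Ideal.Quotient.nontrivial_iff.2 hI1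
  have : IsLocalRing (A ⧸ I) :=
    IsLocalRing.of_surjective' (Ideal.Quotient.mk I) Ideal.Quotient.mk_surjective
  set φ : A →+* A ⧸ I := Ideal.Quotient.mk I with hφ
  have hwN : φ (w ^ N) = 0 := Ideal.Quotient.eq_zero_iff_mem.2 (Ideal.mem_span_singleton_self _)
  have hMM : M * M - M = (w ^ N) • Algebra.leftMulMatrix b z := by
    rw [← map_smul, hM, ← map_mul, ← map_sub]
    congr 1
    rw [← sq, h, Algebra.smul_def, map_pow]
  have hMb : φ.mapMatrix M * φ.mapMatrix M = φ.mapMatrix M := by
    rw [← map_mul, ← sub_eq_zero, ← map_sub, hMM]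
    ext i j
    simp only [RingHom.mapMatrix_apply, Matrix.map_apply, Matrix.smul_apply, smul_eq_mul, map_mul,
      hwN, zero_mul, Matrix.zero_apply]
  obtain ⟨n, hn1, hn2, hn3⟩ := idTr_local _ hMb
  refine ⟨n, ?_, ?_, ?_⟩
  · by_contra h0
    have h0' : n = 0 := by omega
    have h1 := hn3 h0'
    have h2 : ∀ i j, ∃ y, M i j = w ^ N * y := by
      intro i j
      have h3 := congrFun (congrFun h1 i) j
      rw [RingHom.mapMatrix_apply, Matrix.map_apply, Matrix.zero_apply, hφ,
        Ideal.Quotient.eq_zero_iff_mem, hI, Ideal.mem_span_singleton] at h3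
      exact h3
    choose y hy using h2
    apply hne
    have h4 : ∀ j, ∃ t : C, ε * b j = algebraMap A C w * t := by
      intro j
      refine ⟨algebraMap A C (w ^ (N - 1)) * ∑ i, y i j • b i, ?_⟩
      have h5 : ε * b j = ∑ i, M i j • b i := by
        have h6 := b.sum_repr (ε * b j)
        rw [← h6]
        refine Finset.sum_congr rfl fun i _ => ?_
        rw [hM, Algebra.leftMulMatrix_eq_repr_mul]
      rw [h5, ← mul_assoc, ← map_mul, ← pow_succ', Nat.sub_add_cancel hN, Finset.mul_sum]
      refine Finset.sum_congr rfl fun i _ => ?_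
      rw [hy, mul_smul, Algebra.smul_def]
    choose t ht using h4
    refine ⟨∑ j, b.repr 1 j • t j, ?_⟩
    calc ε = ε * 1 := (mul_one _).symm
      _ = ε * ∑ j, b.repr 1 j • b j := by rw [b.sum_repr]
      _ = ∑ j, b.repr 1 j • (ε * b j) := by
          rw [Finset.mul_sum]
          exact Finset.sum_congr rfl fun j _ => mul_smul_comm _ _ _
      _ = _ := by
          rw [Finset.mul_sum]
          refine Finset.sum_congr rfl fun j _ => ?_
          rw [ht, mul_smul_comm]
  · rw [Module.finrank_eq_card_chooseBasisIndex]
    exact hn1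
  · have h1 : φ (Algebra.trace A C ε - n) = 0 := by
      rw [Algebra.trace_eq_matrix_trace b, map_sub, map_natCast, ← hn2, sub_eq_zero, ← hM]
      simp only [Matrix.trace, Matrix.diag_apply, map_sum, RingHom.mapMatrix_apply,
        Matrix.map_apply]
    rw [hφ, Ideal.Quotient.eq_zero_iff_mem, hI, Ideal.mem_span_singleton] at h1
    obtain ⟨a, ha⟩ := h1
    exact ⟨a, by rw [← ha]; ring⟩

end ALC
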