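import Pool.Agent.ALC.Defs

/-!
Gauss lemma: irreducibility over the algebraic closure implies irreducibility over L[s] and over
the fields of rational functions (Polynomial.Monic.irreducible_iff_irreducible_map_fraction_map).
-/

open Polynomial

namespace ALC

/-- The substitution `x = b + η s`. -/
noncomputable def sub {K : Type*} [Field K] {L : Type*} [Field L] (j : K →+* L) (b η : L) :
    K[X] →+* L[X] :=
  Polynomial.eval₂RingHom (Polynomial.C.comp j) (Polynomial.C b + Polynomial.C η * Polynomial.X)

/-- `K -> L -> algebraic closure`: a factorisation of `F(b + η s, y)` over `L[s]` gives one of `F`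
over the algebraic closure. -/
theorem irr_sub {K : Type*} [Field K] {L : Type*} [Field L] [Algebra K L]
    [Algebra.IsAlgebraic K L] (F : K[X][X]) (hF : F.Monic)
    (hg : GeomIrred F) (b η : L) (hη : η ≠ 0) :
    Irreducible (F.map (sub (algebraMap K L) b η)) := by
  classical
  let τ : L →ₐ[K] AlgebraicClosure K := IsAlgClosed.lift
  have hτη : τ η ≠ 0 := fun h => hη ((map_eq_zero τ).1 h)
  have : Invertible (τ η) := invertibleOfNonzero hτη
  refine Polynomial.Monic.irreducible_of_irreducible_map
    (Polynomial.mapRingHom (τ : L →+* AlgebraicClosure K)) _ (hF.map _) ?_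
  let E : (AlgebraicClosure K)[X] ≃ₐ[AlgebraicClosure K] (AlgebraicClosure K)[X] :=
    Polynomial.algEquivCMulXAddC (τ η) (τ b)
  have key : (F.map (sub (algebraMap K L) b η)).map
      (Polynomial.mapRingHom (τ : L →+* AlgebraicClosure K)) =
      Polynomial.mapEquiv (E : (AlgebraicClosure K)[X] ≃+* (AlgebraicClosure K)[X])
        (bc (algebraMap K (AlgebraicClosure K)) F) := by
    rw [Polynomial.mapEquiv_apply, bc, Polynomial.map_map, Polynomial.map_map]
    congr 1
    refine Polynomial.ringHom_ext (fun a => ?_) ?_
    · simp [sub, E]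
    · simp [sub, E, add_comm]
  rw [key]
  exact (MulEquiv.irreducible_iff (Polynomial.mapEquiv
    (E : (AlgebraicClosure K)[X] ≃+* (AlgebraicClosure K)[X]))).2 hg

theorem irr_rat {K : Type*} [Field K] (F : K[X][X]) (hF : F.Monic) (hg : GeomIrred F) :
    Irreducible (F.map (algebraMap K[X] (RatFunc K))) := by
  have h1 : Irreducible F := Polynomial.Monic.irreducible_of_irreducible_map
    (Polynomial.mapRingHom (algebraMap K (AlgebraicClosure K))) F hF hg
  exact (Polynomial.Monic.irreducible_iff_irreducible_map_fraction_map hF).1 h1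

end ALC
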