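import Mathlib

/-!
The idempotent of a section and the bound of Taylor coefficients (Hensel for idempotents).

B is an algebra, free over R with basis b, b' is a dual basis up to the factor c for the trace
form. Phi : B -> L[[X]] is a section over T : R -> O[[X]], s in R is the variable (T s = X), the
constant terms of Phi are in O.
Put u_j = Phi(b_j), M_x = matrix of multiplication by x on B, mapped by T (over O[[X]]).
(a) eps = (1/c) sum_i u_i M_(b'_i) over L[[X]] satisfies M_x eps = Phi(x) eps, tr eps = 1,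
    tr(eps M_x) = Phi(x), and eps is the rank one matrix v u^T, so tr eps = Phi(eps) = 1 and
    eps^2 = eps.
(b) Choose r_i in R with T r_i = u_i(0) and put E = sum_i r_i b'_i in B: M_E = c eps mod X, so
    E^2 - c E = s H for some H in B (hker: the elements of R with T r = 0 mod X are divisible by s).
(c) substitute X -> c^2 X: N = (E/c)^2 - E/c = X H. With g in Z[[N]],
    (1 + 4N)(g + g^2) = -N (g = -N C(-N)/(1 + 2 N C(-N)), C the Catalan series), the matrix
    e = E/c + (2E/c - 1) g(N) is idempotent, c e has entries in O[[X]], e = eps mod X.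
(d) commuting idempotents congruent mod X are equal: e = eps(c^2 X).
(e) Phi(f)(c^2 X) = tr(e M_f) has coefficients in (1/c) O.
-/

open Polynomial

namespace ALC

section matId_tr

variable {R B ι : Type*} [CommRing R] [CommRing B] [Algebra R B] [Fintype ι] [DecidableEq ι]

private theorem matId_repr (b : Module.Basis ι R B) (b' : ι → B) (cR : R)
    (htr : ∀ i j, Algebra.trace R B (b' i * b j) = if i = j then cR else 0) (j : ι) (y : B) :
    Algebra.trace R B (b' j * y) = cR * b.repr y j := by
  conv_lhs => rw [← b.sum_repr y, Finset.mul_sum]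
  simp only [mul_smul_comm, map_sum, map_smul, htr, smul_eq_mul]
  rw [Finset.sum_eq_single j]
  · rw [if_pos rfl, mul_comm]
  · intro i _ hij
    rw [if_neg hij.symm, mul_zero]
  · intro h
    exact absurd (Finset.mem_univ j) h

private theorem matId_nondeg [IsDomain R] (b : Module.Basis ι R B) (b' : ι → B) (cR : R)
    (hc : cR ≠ 0)
    (htr : ∀ i j, Algebra.trace R B (b' i * b j) = if i = j then cR else 0) (y : B)
    (hy : ∀ x, Algebra.trace R B (x * y) = 0) : y = 0 := by
  apply b.repr.injective
  ext j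
  have h1 := matId_repr b b' cR htr j y
  rw [hy] at h1
  rcases mul_eq_zero.1 h1.symm with h | h
  · exact absurd h hc
  · rw [h]
    simp

private theorem matId_exp1 (b : Module.Basis ι R B) (b' : ι → B) (cR : R)
    (htr : ∀ i j, Algebra.trace R B (b' i * b j) = if i = j then cR else 0) (y : B) :
    ∑ l, Algebra.trace R B (b' l * y) • b l = cR • y := by
  simp only [matId_repr b b' cR htr, mul_smul]
  rw [← Finset.smul_sum, b.sum_repr]

private theorem matId_exp2 [IsDomain R] (b : Module.Basis ι R B) (b' : ι → B) (cR : R)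
    (hc : cR ≠ 0)
    (htr : ∀ i j, Algebra.trace R B (b' i * b j) = if i = j then cR else 0) (y : B) :
    ∑ l, Algebra.trace R B (y * b l) • b' l = cR • y := by
  rw [← sub_eq_zero]
  apply matId_nondeg b b' cR hc htr
  intro x
  rw [mul_sub, map_sub, sub_eq_zero]
  have h1 : x = ∑ j, b.repr x j • b j := (b.sum_repr x).symm
  have h2 : ∀ j, Algebra.trace R B (b j * ∑ l, Algebra.trace R B (y * b l) • b' l)
      = Algebra.trace R B (b j * (cR • y)) := by
    intro j
    rw [Finset.mul_sum, map_sum]
    simp only [mul_smul_comm, map_smul, smul_eq_mul]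
    rw [Finset.sum_eq_single j]
    · rw [mul_comm (b j) (b' j), htr, if_pos rfl, mul_comm y (b j), mul_comm]
    · intro i _ hij
      rw [mul_comm (b j) (b' i), htr, if_neg hij, mul_zero]
    · intro h
      exact absurd (Finset.mem_univ j) h
  rw [h1]
  simp only [Finset.sum_mul, map_sum, smul_mul_assoc, map_smul]
  exact Finset.sum_congr rfl fun j _ => congrArg _ (h2 j)

private theorem matId_euler [IsDomain R] (b : Module.Basis ι R B) (b' : ι → B) (cR : R)
    (hc : cR ≠ 0)
    (htr : ∀ i j, Algebra.trace R B (b' i * b j) = if i = j then cR else 0) :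
    ∑ i, b i * b' i = algebraMap R B cR := by
  rw [← sub_eq_zero]
  apply matId_nondeg b b' cR hc htr
  intro x
  rw [mul_sub, map_sub, sub_eq_zero, Finset.mul_sum, map_sum]
  have h1 : Algebra.trace R B x = ∑ i, b.repr (x * b i) i := by
    rw [Algebra.trace_eq_matrix_trace b, Matrix.trace]
    refine Finset.sum_congr rfl fun i _ => ?_
    rw [Matrix.diag_apply, Algebra.leftMulMatrix_eq_repr_mul]
  have h2 : Algebra.trace R B (x * algebraMap R B cR) = cR * Algebra.trace R B x := by
    rw [mul_comm x, ← Algebra.smul_def, map_smul, smul_eq_mul]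
  rw [h2, h1, Finset.mul_sum]
  refine Finset.sum_congr rfl fun i _ => ?_
  rw [← matId_repr b b' cR htr]
  congr 1
  ring

end matId_tr

section matId_hom

variable {R B S ι : Type*} [CommRing R] [IsDomain R] [CommRing B] [Algebra R B] [CommRing S]
  [Fintype ι] [DecidableEq ι]

omit [IsDomain R] [DecidableEq ι] in
private theorem matId_phi (b : Module.Basis ι R B) (T : R →+* S) (Φ : B →+* S)
    (hΦ : ∀ r, Φ (algebraMap R B r) = T r) (y : B) :
    ∑ l, T (b.repr y l) * Φ (b l) = Φ y := by
  conv_rhs => rw [← b.sum_repr y]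
  rw [map_sum]
  refine Finset.sum_congr rfl fun l _ => ?_
  rw [Algebra.smul_def, map_mul, hΦ]

omit [IsDomain R] in
private theorem matId_phi1 (b : Module.Basis ι R B) (b' : ι → B) (cR : R)
    (htr : ∀ i j, Algebra.trace R B (b' i * b j) = if i = j then cR else 0)
    (T : R →+* S) (Φ : B →+* S)
    (hΦ : ∀ r, Φ (algebraMap R B r) = T r) (y : B) :
    ∑ l, T (Algebra.trace R B (b' l * y)) * Φ (b l) = T cR * Φ y := by
  have h1 := congrArg Φ (matId_exp1 b b' cR htr y)
  rw [map_sum, Algebra.smul_def, map_mul, hΦ] at h1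
  rw [← h1]
  refine Finset.sum_congr rfl fun l _ => ?_
  rw [Algebra.smul_def, map_mul Φ, hΦ]

private theorem matId_phi2 (b : Module.Basis ι R B) (b' : ι → B) (cR : R) (hc : cR ≠ 0)
    (htr : ∀ i j, Algebra.trace R B (b' i * b j) = if i = j then cR else 0)
    (T : R →+* S) (Φ : B →+* S)
    (hΦ : ∀ r, Φ (algebraMap R B r) = T r) (y : B) :
    ∑ l, T (Algebra.trace R B (y * b l)) * Φ (b' l) = T cR * Φ y := by
  have h1 := congrArg Φ (matId_exp2 b b' cR hc htr y)
  rw [map_sum, Algebra.smul_def, map_mul, hΦ] at h1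
  rw [← h1]
  refine Finset.sum_congr rfl fun l _ => ?_
  rw [Algebra.smul_def, map_mul Φ, hΦ]

/-- The matrix of the multiplication. -/
private noncomputable def matId_psi (b : Module.Basis ι R B) (T : R →+* S) :
    B →+* Matrix ι ι S :=
  (T.mapMatrix).comp (Algebra.leftMulMatrix b : B →ₐ[R] Matrix ι ι R).toRingHom

omit [IsDomain R] in
private theorem matId_psi_apply (b : Module.Basis ι R B) (T : R →+* S) (x : B) (i j : ι) :
    matId_psi b T x i j = T (b.repr (x * b j) i) := by
  change T (Algebra.leftMulMatrix b x i j) = _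
  rw [Algebra.leftMulMatrix_eq_repr_mul]

omit [IsDomain R] in
private theorem matId_psi_alg (b : Module.Basis ι R B) (T : R →+* S) (r : R) :
    matId_psi b T (algebraMap R B r) = T r • (1 : Matrix ι ι S) := by
  ext i j
  rw [matId_psi_apply, ← Algebra.smul_def, map_smul, Matrix.smul_apply, Finsupp.smul_apply,
    smul_eq_mul, map_mul, b.repr_self, Matrix.one_apply, smul_eq_mul, Finsupp.single_apply]
  congr 1
  by_cases h : j = i
  · rw [if_pos h, if_pos h.symm, map_one]
  · rw [if_neg h, if_neg (Ne.symm h), map_zero]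

/-- The idempotent of the section. -/
private def matId_eps (b : ι → B) (b' : ι → B) (Φ : B →+* S) (ci : S) : Matrix ι ι S :=
  Matrix.of fun i j => ci * Φ (b' i) * Φ (b j)

variable (b : Module.Basis ι R B) (b' : ι → B) (cR : R) (hc : cR ≠ 0)
    (htr : ∀ i j, Algebra.trace R B (b' i * b j) = if i = j then cR else 0)
    (T : R →+* S) (Φ : B →+* S)
    (hΦ : ∀ r, Φ (algebraMap R B r) = T r) (ci : S) (hci : ci * T cR = 1)

include hc htr hΦ hci in
private theorem matId_eps_sq :
    matId_eps b b' Φ ci * matId_eps b b' Φ ci = matId_eps b b' Φ ci := by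
  have h0 : ∑ l, Φ (b l) * Φ (b' l) = T cR := by
    rw [← hΦ, ← matId_euler b b' cR hc htr, map_sum]
    exact Finset.sum_congr rfl fun l _ => (map_mul Φ _ _).symm
  ext i j
  rw [Matrix.mul_apply]
  simp only [matId_eps, Matrix.of_apply]
  calc ∑ l, ci * Φ (b' i) * Φ (b l) * (ci * Φ (b' l) * Φ (b j))
      = ci * (ci * ∑ l, Φ (b l) * Φ (b' l)) * Φ (b' i) * Φ (b j) := by
        rw [Finset.mul_sum, Finset.mul_sum, Finset.sum_mul, Finset.sum_mul]
        exact Finset.sum_congr rfl fun l _ => by ring
    _ = ci * Φ (b' i) * Φ (b j) := by rw [h0, hci, mul_one]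

include hc htr hΦ hci in
private theorem matId_psi_eps (x : B) :
    matId_psi b T x * matId_eps b b' Φ ci = Φ x • matId_eps b b' Φ ci := by
  ext i j
  rw [Matrix.mul_apply, Matrix.smul_apply]
  simp only [matId_psi_apply, matId_eps, Matrix.of_apply, smul_eq_mul]
  have h1 : ∑ l, T (b.repr (x * b l) i) * Φ (b' l) = Φ (b' i * x) := by
    have h2 := matId_phi2 b b' cR hc htr T Φ hΦ (b' i * x)
    simp only [mul_assoc, matId_repr b b' cR htr, map_mul T] at h2
    rw [← Finset.mul_sum] at h2
    calc ∑ l, T (b.repr (x * b l) i) * Φ (b' l)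
        = ci * T cR * ∑ l, T (b.repr (x * b l) i) * Φ (b' l) := by rw [hci, one_mul]
      _ = ci * (T cR * Φ (b' i * x)) := by rw [mul_assoc, h2]
      _ = Φ (b' i * x) := by rw [← mul_assoc, hci, one_mul]
  calc ∑ l, T (b.repr (x * b l) i) * (ci * Φ (b' l) * Φ (b j))
      = ci * (∑ l, T (b.repr (x * b l) i) * Φ (b' l)) * Φ (b j) := by
        rw [Finset.mul_sum, Finset.sum_mul]
        exact Finset.sum_congr rfl fun l _ => by ring
    _ = Φ x * (ci * Φ (b' i) * Φ (b j)) := by
        rw [h1, map_mul]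
        ring

omit [IsDomain R] in
include hΦ in
private theorem matId_eps_psi (x : B) :
    matId_eps b b' Φ ci * matId_psi b T x = Φ x • matId_eps b b' Φ ci := by
  ext i j
  rw [Matrix.mul_apply, Matrix.smul_apply]
  simp only [matId_psi_apply, matId_eps, Matrix.of_apply, smul_eq_mul]
  have h1 := matId_phi b T Φ hΦ (x * b j)
  calc ∑ l, ci * Φ (b' i) * Φ (b l) * T (b.repr (x * b j) l)
      = ci * Φ (b' i) * ∑ l, T (b.repr (x * b j) l) * Φ (b l) := by
        rw [Finset.mul_sum]
        exact Finset.sum_congr rfl fun l _ => by ring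
    _ = Φ x * (ci * Φ (b' i) * Φ (b j)) := by
        rw [h1, map_mul]
        ring

include hc htr hΦ hci in
private theorem matId_trace (x : B) :
    Matrix.trace (matId_eps b b' Φ ci * matId_psi b T x) = Φ x := by
  rw [matId_eps_psi b b' T Φ hΦ ci x, Matrix.trace_smul, smul_eq_mul]
  have h0 : ∑ l, Φ (b l) * Φ (b' l) = T cR := by
    rw [← hΦ, ← matId_euler b b' cR hc htr, map_sum]
    exact Finset.sum_congr rfl fun l _ => (map_mul Φ _ _).symm
  have h1 : Matrix.trace (matId_eps b b' Φ ci) = 1 := by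
    rw [Matrix.trace]
    simp only [Matrix.diag_apply, matId_eps, Matrix.of_apply]
    rw [← hci, ← h0, Finset.mul_sum]
    exact Finset.sum_congr rfl fun l _ => by ring
  rw [h1, mul_one]

omit [IsDomain R] in
include htr hΦ hci in
private theorem matId_E (r : ι → R) (hr : ∀ l, T (r l) = Φ (b l)) (x : B) (i : ι) :
    T (b.repr ((∑ l, r l • b' l) * x) i) = Φ (b' i * x) := by
  have h1 := matId_repr b b' cR htr i ((∑ l, r l • b' l) * x)
  have h2 : b' i * ((∑ l, r l • b' l) * x) = ∑ l, r l • (b' l * (b' i * x)) := by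
    rw [Finset.sum_mul, Finset.mul_sum]
    refine Finset.sum_congr rfl fun l _ => ?_
    rw [smul_mul_assoc, mul_smul_comm]
    congr 1
    ring
  rw [h2, map_sum] at h1
  have h3 := congrArg T h1
  rw [map_sum, map_mul] at h3
  have h4 := matId_phi1 b b' cR htr T Φ hΦ (b' i * x)
  have h5 : ∑ l, T (Algebra.trace R B (r l • (b' l * (b' i * x)))) = T cR * Φ (b' i * x) := by
    rw [← h4]
    refine Finset.sum_congr rfl fun l _ => ?_
    rw [map_smul, smul_eq_mul, map_mul, hr, mul_comm]
  rw [h5] at h3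
  calc T (b.repr ((∑ l, r l • b' l) * x) i)
      = ci * (T cR * T (b.repr ((∑ l, r l • b' l) * x) i)) := by rw [← mul_assoc, hci, one_mul]
    _ = ci * (T cR * Φ (b' i * x)) := by rw [h3]
    _ = Φ (b' i * x) := by rw [← mul_assoc, hci, one_mul]

end matId_hom

section matId_poly

private theorem matId_g (k : ℕ) : ∃ g q : ℤ[X], X ∣ g ∧
    (1 + 4 * X) * (g + g ^ 2) + X = X ^ (k + 1) * q := by
  induction k with
  | zero => exact ⟨0, 1, dvd_zero _, by ring⟩
  | succ k ih =>
    obtain ⟨g, q, ⟨g1, hg⟩, h⟩ := ih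
    have hq : q = q.divX * X + C (q.coeff 0) := (divX_mul_X_add q).symm
    generalize C (q.coeff 0) = a at hq
    generalize q.divX = q1 at hq
    subst hq
    subst hg
    refine ⟨X * g1 - a * X ^ (k + 1),
      q1 - a * (2 * g1 - a * X ^ k + 4 * (1 + 2 * X * g1 - a * X ^ (k + 1))), ?_, ?_⟩
    · refine dvd_sub (dvd_mul_right _ _) ?_
      rw [pow_succ']
      exact Dvd.intro_left (a * X ^ k) (by ring)
    · linear_combination h

private theorem matId_P (k : ℕ) : ∃ g Q : ℤ[X], X ∣ g ∧
    (X + (2 * X - 1) * g.comp (X ^ 2 - X)) ^ 2 - (X + (2 * X - 1) * g.comp (X ^ 2 - X))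
      = (X ^ 2 - X) ^ (k + 1) * Q := by
  obtain ⟨g, q, hg, h⟩ := matId_g k
  refine ⟨g, q.comp (X ^ 2 - X), hg, ?_⟩
  have h1 := congrArg (fun p : ℤ[X] => p.comp (X ^ 2 - X)) h
  simp only [add_comp, mul_comp, pow_comp, X_comp, one_comp] at h1
  have h4 : (4 : ℤ[X]).comp (X ^ 2 - X) = 4 := by
    have : (4 : ℤ[X]) = C 4 := rfl
    rw [this, C_comp]
  rw [h4] at h1
  linear_combination h1

end matId_poly

section matId_lift

variable {L ι : Type*} [Field L] [Fintype ι] [DecidableEq ι]

private theorem matId_comm {M : Type*} [Ring M] [Algebra ℤ M] (A E : M) (h : Commute A E) (P : ℤ[X]) :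
    Commute (aeval A P) E := by
  induction P using Polynomial.induction_on' with
  | add p q hp hq =>
    rw [map_add]
    exact hp.add_left hq
  | monomial n a =>
    rw [aeval_monomial]
    refine Commute.mul_left ?_ (h.pow_left n)
    rw [eq_intCast]
    exact Int.cast_commute a E

/-- Commuting idempotents which are congruent modulo `X` are congruent modulo `X^(k+1)`. -/
private theorem matId_lift (e E W0 W1 : Matrix ι ι (PowerSeries L)) (k : ℕ) (hE : E * E = E)
    (hcomm : Commute e E) (he : e * e - e = (PowerSeries.X ^ (k + 1) : PowerSeries L) • W1)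
    (h0 : e - E = (PowerSeries.X : PowerSeries L) • W0) :
    ∃ W, e - E = (PowerSeries.X ^ (k + 1) : PowerSeries L) • W := by
  have key : e - E = (e * e - e) * (2 * E - 1) - (e - E) * (e - E) * (2 * E - 1) := by
    have h1 : e * E = E * e := hcomm
    have h4 : e * E * E = e * E := by rw [mul_assoc, hE]
    have h7 : (e - E) * (e - E) = e * e - 2 * (e * E) + E := by
      rw [sub_mul, mul_sub, mul_sub, hE, ← h1]
      noncomm_ring
    have h8 : (e * e - e) * (2 * E - 1) - (e - E) * (e - E) * (2 * E - 1)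
        = ((2 * (e * E)) - E - e) * (2 * E - 1) := by
      rw [h7]
      noncomm_ring
    have h9 : ((2 * (e * E)) - E - e) * (2 * E - 1)
        = 4 * (e * E * E) - 2 * (E * E) - 2 * (e * E) - 2 * (e * E) + E + e := by
      noncomm_ring
    rw [h8, h9, h4, hE]
    noncomm_ring
  have hstep : ∀ j, j ≤ k → ∃ W, e - E = (PowerSeries.X ^ (j + 1) : PowerSeries L) • W := by
    intro j
    induction j with
    | zero =>
      intro _
      exact ⟨W0, by rw [zero_add, pow_one, h0]⟩
    | succ j ih =>
      intro hj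
      obtain ⟨W, hW⟩ := ih (by omega)
      refine ⟨(PowerSeries.X ^ (k - (j + 1)) : PowerSeries L) • (W1 * (2 * E - 1))
        - (PowerSeries.X ^ j : PowerSeries L) • (W * W * (2 * E - 1)), ?_⟩
      rw [key, he, hW, smul_sub, smul_smul, smul_smul, ← pow_add, ← pow_add,
        show j + 1 + 1 + (k - (j + 1)) = k + 1 by omega,
        show j + 1 + 1 + j = (j + 1) + (j + 1) by omega]
      simp only [smul_mul_assoc, mul_smul_comm, smul_smul, ← pow_add]
  exact hstep k le_rfl

end matId_lift

theorem coeff_bound {O L R B ι : Type*} [CommRing O] [IsDomain O] [Field L] [CharZero L]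
    [Algebra O L]
    [FaithfulSMul O L] [CommRing R] [IsDomain R] [CommRing B] [Algebra R B] [Fintype ι]
    [DecidableEq ι] (b : Module.Basis ι R B) (b' : ι → B) (c : O) (hc : c ≠ 0) (cR s : R)
    (T : R →+* PowerSeries O) (hTc : T cR = PowerSeries.C c) (hTs : T s = PowerSeries.X)
    (hker : ∀ r, (T r).coeff 0 = 0 → ∃ r', r = s * r')
    (hsurj : ∀ a : O, ∃ r : R, T r = PowerSeries.C a)
    (htr : ∀ i j, Algebra.trace R B (b' i * b j) = if i = j then cR else 0)
    (Φ : B →+* PowerSeries L)
    (hΦ : ∀ r, Φ (algebraMap R B r) = PowerSeries.map (algebraMap O L) (T r))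
    (hχ : ∀ f, ∃ a : O, (Φ f).coeff 0 = algebraMap O L a) (f : B) (k : ℕ) :
    ∃ a : O, algebraMap O L c ^ (2 * k + 1) * (Φ f).coeff k = algebraMap O L a := by
  classical
  set α := algebraMap O L with hα
  have hαi : Function.Injective α := FaithfulSMul.algebraMap_injective O L
  have hαc : α c ≠ 0 := by
    intro h
    apply hc
    apply hαi
    rw [h, map_zero]
  have hcR : cR ≠ 0 := by
    intro h
    rw [h, map_zero] at hTc
    apply hc
    have := congrArg (PowerSeries.coeff 0) hTc
    simpa using this.symm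
  -- substitution
  set T₀ : R →+* PowerSeries O := (PowerSeries.rescale (c ^ 2)).comp T with hT₀
  set T₂ : R →+* PowerSeries L := (PowerSeries.map α).comp T₀ with hT₂
  set Φ₂ : B →+* PowerSeries L := (PowerSeries.rescale (α c ^ 2)).comp Φ with hΦ₂d
  have hΦ₂ : ∀ r, Φ₂ (algebraMap R B r) = T₂ r := by
    intro r
    rw [hΦ₂d, hT₂, hT₀, RingHom.comp_apply, RingHom.comp_apply, RingHom.comp_apply, hΦ]
    ext n
    simp only [PowerSeries.coeff_rescale, PowerSeries.coeff_map, map_mul, map_pow]
  have hT₂c : T₂ cR = PowerSeries.C (α c) := by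
    rw [hT₂, hT₀, RingHom.comp_apply, RingHom.comp_apply, hTc]
    ext n
    rw [PowerSeries.coeff_map, PowerSeries.coeff_rescale, PowerSeries.coeff_C, PowerSeries.coeff_C]
    split_ifs with h
    · rw [h]
      simp
    · simp
  have hT₂s : T₂ s = PowerSeries.C (α c ^ 2) * PowerSeries.X := by
    rw [hT₂, hT₀, RingHom.comp_apply, RingHom.comp_apply, hTs]
    ext n
    rw [PowerSeries.coeff_map, PowerSeries.coeff_rescale, PowerSeries.coeff_C_mul,
      PowerSeries.coeff_X, PowerSeries.coeff_X]
    split_ifs with h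
    · rw [h]
      simp
    · simp
  set ci : PowerSeries L := PowerSeries.C (α c)⁻¹ with hcid
  have hci : ci * T₂ cR = 1 := by
    rw [hT₂c, hcid, ← map_mul, inv_mul_cancel₀ hαc, map_one]
  set eps := matId_eps b b' Φ₂ ci with heps
  have heps2 : eps * eps = eps := matId_eps_sq b b' cR hcR htr T₂ Φ₂ hΦ₂ ci hci
  set ψ := matId_psi b T₂ with hψ
  have hcomm : ∀ x, Commute (ψ x) eps := by
    intro x
    change ψ x * eps = eps * ψ x
    rw [hψ, heps, matId_psi_eps b b' cR hcR htr T₂ Φ₂ hΦ₂ ci hci,
      matId_eps_psi b b' T₂ Φ₂ hΦ₂ ci]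
  -- the constant terms
  set t : R →+* L := (PowerSeries.constantCoeff (R := L)).comp T₂ with ht
  set χ : B →+* L := (PowerSeries.constantCoeff (R := L)).comp Φ₂ with hχd
  have htχ : ∀ r, χ (algebraMap R B r) = t r := by
    intro r
    change PowerSeries.constantCoeff (Φ₂ (algebraMap R B r)) = PowerSeries.constantCoeff (T₂ r)
    rw [hΦ₂]
  have htα : ∀ r, t r = α ((T r).coeff 0) := by
    intro r
    rw [ht, hT₂, hT₀]
    simp only [RingHom.comp_apply, ← PowerSeries.coeff_zero_eq_constantCoeff_apply,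
      PowerSeries.coeff_map, PowerSeries.coeff_rescale]
    simp
  have hχΦ : ∀ x, χ x = (Φ x).coeff 0 := by
    intro x
    rw [hχd, hΦ₂d]
    simp only [RingHom.comp_apply, ← PowerSeries.coeff_zero_eq_constantCoeff_apply,
      PowerSeries.coeff_rescale]
    simp
  have htc : t cR = α c := by
    rw [htα, hTc]
    simp
  have hcit : (α c)⁻¹ * t cR = 1 := by rw [htc, inv_mul_cancel₀ hαc]
  have hex : ∀ l, ∃ r : R, t r = χ (b l) := by
    intro l
    obtain ⟨a, ha⟩ := hχ (b l)
    obtain ⟨r, hr⟩ := hsurj a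
    refine ⟨r, ?_⟩
    rw [htα, hχΦ, ha, hr]
    simp
  choose r hr using hex
  set E : B := ∑ l, r l • b' l with hE
  have hEx : ∀ x i, t (b.repr (E * x) i) = χ (b' i * x) := fun x i =>
    matId_E b b' cR htr t χ htχ (α c)⁻¹ hcit r hr x i
  have hχE : χ E = α c := by
    rw [hE, map_sum, ← htc, ← htχ, ← matId_euler b b' cR hcR htr, map_sum]
    refine Finset.sum_congr rfl fun l _ => ?_
    rw [Algebra.smul_def, map_mul, htχ, hr, map_mul]
  -- E^2 - c E = s H
  have hH : ∃ H : B, E * E - algebraMap R B cR * E = algebraMap R B s * H := by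
    have h1 : ∀ i, ∃ r', b.repr (E * E - algebraMap R B cR * E) i = s * r' := by
      intro i
      apply hker
      apply hαi
      rw [← htα, map_zero, map_sub, Finsupp.sub_apply, map_sub, hEx, mul_comm (algebraMap R B cR),
        hEx, map_mul, map_mul, hχE, htχ, htc, sub_self]
    choose r' hr' using h1
    refine ⟨∑ i, r' i • b i, ?_⟩
    apply b.repr.injective
    ext i
    rw [hr', ← Algebra.smul_def, map_smul, Finsupp.smul_apply, smul_eq_mul, b.repr_sum_self]
  obtain ⟨H, hH⟩ := hH
  set A : Matrix ι ι (PowerSeries L) := ci • ψ E with hA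
  have hN : A * A - A = (PowerSeries.X : PowerSeries L) • ψ H := by
    have h1 := congrArg ψ hH
    rw [map_sub, map_mul, map_mul, map_mul, hψ, matId_psi_alg, matId_psi_alg, hT₂c, hT₂s,
      ← hψ] at h1
    have h2 : ci * ci * PowerSeries.C (α c) = ci := by
      rw [mul_assoc, hcid, ← map_mul, inv_mul_cancel₀ hαc, map_one, mul_one]
    have h3 : ci * ci * (PowerSeries.C (α c ^ 2) * PowerSeries.X) = PowerSeries.X := by
      rw [← mul_assoc, hcid, ← map_mul, ← map_mul]
      have : (α c)⁻¹ * (α c)⁻¹ * α c ^ 2 = 1 := by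
        field_simp
      rw [this, map_one, one_mul]
    calc A * A - A = (ci * ci) • (ψ E * ψ E - (PowerSeries.C (α c) • (1 : Matrix ι ι
          (PowerSeries L))) * ψ E) := by
          rw [hA, smul_mul_assoc, mul_smul_comm, smul_smul, smul_sub, smul_mul_assoc, one_mul,
            smul_smul, h2]
      _ = (PowerSeries.X : PowerSeries L) • ψ H := by
          rw [h1, smul_mul_assoc, one_mul, smul_smul, h3]
  obtain ⟨g, Q, ⟨g1, hg1⟩, hP⟩ := matId_P k
  set P : ℤ[X] := X + (2 * X - 1) * g.comp (X ^ 2 - X) with hPd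
  set e := aeval A P with he
  have hAN : aeval A (X ^ 2 - X : ℤ[X]) = (PowerSeries.X : PowerSeries L) • ψ H := by
    rw [map_sub, map_pow, aeval_X, pow_two, hN]
  have hee : e * e - e = (PowerSeries.X ^ (k + 1) : PowerSeries L) •
      ((ψ H) ^ (k + 1) * aeval A Q) := by
    have h1 := congrArg (aeval A) hP
    rw [map_sub, map_pow, map_mul, map_pow, hAN, _root_.smul_pow, smul_mul_assoc, pow_two, ← he] at h1
    exact h1
  -- congruence modulo X
  have hW0 : ∃ W0, e - eps = (PowerSeries.X : PowerSeries L) • W0 := by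
    have h1 : e - A = (PowerSeries.X : PowerSeries L) • (ψ H * aeval A ((2 * X - 1) *
        g1.comp (X ^ 2 - X))) := by
      rw [he, hPd, hg1, mul_comp, X_comp, map_add, aeval_X, add_sub_cancel_left,
        show (2 * X - 1 : ℤ[X]) * ((X ^ 2 - X) * g1.comp (X ^ 2 - X))
          = (X ^ 2 - X) * ((2 * X - 1) * g1.comp (X ^ 2 - X)) by ring, map_mul, hAN,
        smul_mul_assoc]
    have h2 : ∀ i j, ∃ w, A i j - eps i j = PowerSeries.X * w := by
      intro i j
      have : PowerSeries.X ∣ A i j - eps i j := by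
        have hAij : A i j = ci * T₂ (b.repr (E * b j) i) := by
          rw [hA, Matrix.smul_apply, hψ, matId_psi_apply, smul_eq_mul]
        have hEij : eps i j = ci * Φ₂ (b' i) * Φ₂ (b j) := rfl
        have h3 : PowerSeries.constantCoeff (T₂ (b.repr (E * b j) i))
            = PowerSeries.constantCoeff (Φ₂ (b' i)) * PowerSeries.constantCoeff (Φ₂ (b j)) := by
          have h4 := hEx (b j) i
          rw [map_mul χ] at h4
          exact h4
        rw [PowerSeries.X_dvd_iff, hAij, hEij, map_sub, RingHom.map_mul, RingHom.map_mul,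
          RingHom.map_mul, h3]
        ring
      exact this
    choose w hw using h2
    refine ⟨ψ H * aeval A ((2 * X - 1) * g1.comp (X ^ 2 - X)) + Matrix.of w, ?_⟩
    rw [smul_add, ← h1]
    ext i j
    rw [Matrix.sub_apply, Matrix.add_apply, Matrix.sub_apply, Matrix.smul_apply, Matrix.of_apply,
      smul_eq_mul, ← hw, sub_add_sub_cancel]
  obtain ⟨W0, hW0⟩ := hW0
  have hcA : Commute A eps := by
    rw [hA]
    exact (hcomm E).smul_left ci
  obtain ⟨W, hW⟩ := matId_lift e eps W0 _ k heps2 (matId_comm A eps hcA P) hee hW0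
  -- traces
  have htrace : PowerSeries.coeff k (Matrix.trace (e * ψ f)) = PowerSeries.coeff k (Φ₂ f) := by
    have h1 : Matrix.trace (e * ψ f) = Φ₂ f + PowerSeries.X ^ (k + 1) * Matrix.trace (W * ψ f) := by
      have h2 : e = eps + (PowerSeries.X ^ (k + 1) : PowerSeries L) • W := by
        rw [← hW]
        abel
      rw [h2, add_mul, Matrix.trace_add, smul_mul_assoc, Matrix.trace_smul, smul_eq_mul, heps, hψ,
        matId_trace b b' cR hcR htr T₂ Φ₂ hΦ₂ ci hci]
    rw [h1, map_add, PowerSeries.coeff_X_pow_mul', if_neg (by omega), add_zero]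
  -- integrality
  set ψ₀ := matId_psi b T₀ with hψ₀
  have hψψ : ∀ x, ψ x = (PowerSeries.map α).mapMatrix (ψ₀ x) := by
    intro x
    ext i j
    rw [hψ, hψ₀, RingHom.mapMatrix_apply, Matrix.map_apply, matId_psi_apply, matId_psi_apply]
    rfl
  set e₀ : Matrix ι ι (PowerSeries O) := ψ₀ E + (2 * ψ₀ E - PowerSeries.C c •
    (1 : Matrix ι ι (PowerSeries O))) * aeval ((PowerSeries.X : PowerSeries O) • ψ₀ H) g with he₀
  have hmapX : (PowerSeries.map α).mapMatrix ((PowerSeries.X : PowerSeries O) • ψ₀ H)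
      = (PowerSeries.X : PowerSeries L) • ψ H := by
    rw [hψψ]
    ext i j
    simp only [RingHom.mapMatrix_apply, Matrix.map_apply, Matrix.smul_apply, smul_eq_mul, map_mul,
      PowerSeries.map_X]
  have hmapg : (PowerSeries.map α).mapMatrix (aeval ((PowerSeries.X : PowerSeries O) • ψ₀ H) g)
      = aeval ((PowerSeries.X : PowerSeries L) • ψ H) g := by
    rw [aeval_def, aeval_def, hom_eval₂, hmapX]
    congr 1
    exact RingHom.ext_int _ _
  have hmapc : (PowerSeries.map α).mapMatrix (PowerSeries.C c • (1 : Matrix ι ι (PowerSeries O)))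
      = PowerSeries.C (α c) • (1 : Matrix ι ι (PowerSeries L)) := by
    ext i j
    simp only [RingHom.mapMatrix_apply, Matrix.map_apply, Matrix.smul_apply, smul_eq_mul, map_mul,
      PowerSeries.map_C, Matrix.one_apply]
    split_ifs <;> simp
  have he₁ : PowerSeries.C (α c) • e = (PowerSeries.map α).mapMatrix e₀ := by
    have h1 : PowerSeries.C (α c) • A = ψ E := by
      rw [hA, smul_smul, hcid, ← map_mul, mul_inv_cancel₀ hαc, map_one, one_smul]
    rw [he₀, map_add, map_mul, map_sub, map_mul, hmapg, hmapc, ← hψψ, he, hPd, map_add, map_mul,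
      aeval_comp, hAN, aeval_X, map_sub, map_mul, aeval_X, smul_add, h1, ← smul_mul_assoc, smul_sub]
    simp only [map_one, map_ofNat]
    rw [← mul_smul_comm, h1]
  refine ⟨PowerSeries.coeff k (Matrix.trace (e₀ * ψ₀ f)), ?_⟩
  have h1 : PowerSeries.map α (Matrix.trace (e₀ * ψ₀ f))
      = PowerSeries.C (α c) * Matrix.trace (e * ψ f) := by
    have h2 : (PowerSeries.map α).mapMatrix (e₀ * ψ₀ f) = PowerSeries.C (α c) • (e * ψ f) := by
      rw [map_mul, ← he₁, ← hψψ, smul_mul_assoc]
    have h3 : Matrix.trace ((PowerSeries.map α).mapMatrix (e₀ * ψ₀ f))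
        = PowerSeries.map α (Matrix.trace (e₀ * ψ₀ f)) := by
      rw [Matrix.trace, Matrix.trace, map_sum]
      rfl
    rw [← h3, h2, Matrix.trace_smul, smul_eq_mul]
  rw [← PowerSeries.coeff_map, h1, PowerSeries.coeff_C_mul, htrace, hΦ₂d, RingHom.comp_apply,
    PowerSeries.coeff_rescale]
  ring

end ALC
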