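import Mathlib

/-!
The ring R = localisation of O[X] at the polynomials with constant term a unit (O a discrete
valuation ring), a regular local ring of dimension 2 with parameters X and w.
Everything is compared inside K = FractionRing O[X]; A = localisation of O[X] at the prime (w).
-/

open Polynomial

namespace ALC

section

variable (O : Type*) [CommRing O] [IsDomain O] [IsDiscreteValuationRing O]

/-- The polynomials with constant term in the maximal ideal. -/
noncomputable def mm : Ideal O[X] := (IsLocalRing.maximalIdeal O).comap (evalRingHom 0)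

instance mm_prime : (mm O).IsPrime := by
  unfold mm; infer_instance

/-- The local ring. -/
abbrev RR := Localization.AtPrime (mm O)

/-- The variable. -/
noncomputable def xs : RR O := algebraMap O[X] (RR O) X

/-- The constants. -/
noncomputable def cc (a : O) : RR O := algebraMap O[X] (RR O) (C a)

theorem rng_mem_mm (q : O[X]) : q ∈ mm O ↔ ¬ IsUnit (q.coeff 0) := by
  rw [mm, Ideal.mem_comap, coe_evalRingHom, ← coeff_zero_eq_eval_zero,
    IsLocalRing.mem_maximalIdeal, mem_nonunits_iff]

theorem rng_mem_compl (q : O[X]) : q ∈ (mm O).primeCompl ↔ IsUnit (q.coeff 0) := by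
  rw [Ideal.mem_primeCompl_iff, rng_mem_mm, not_not]

omit [IsDomain O] [IsDiscreteValuationRing O] in
theorem rng_c0_mul (a b : PowerSeries O) : (PowerSeries.coeff 0) (a * b) =
    (PowerSeries.coeff 0) a * (PowerSeries.coeff 0) b := by
  simp only [PowerSeries.coeff_zero_eq_constantCoeff_apply, map_mul]

theorem rr_noeth : IsNoetherianRing (RR O) :=
  IsLocalization.isNoetherianRing (mm O).primeCompl (RR O) inferInstance

theorem rr_domain : IsDomain (RR O) :=
  IsLocalization.isDomain_localization (mm O).primeCompl_le_nonZeroDivisors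

theorem rr_intclosed : haveI := rr_domain O; IsIntegrallyClosed (RR O) := by
  have : IsIntegrallyClosed O[X] := inferInstance
  exact isIntegrallyClosed_of_isLocalization (RR O) (mm O).primeCompl
    (mm O).primeCompl_le_nonZeroDivisors

/-- expansion at X = 0 -/
theorem rr_exp : ∃ T : RR O →+* PowerSeries O,
    (∀ q : O[X], T (algebraMap O[X] (RR O) q) = (q : PowerSeries O)) ∧
    (∀ r, (T r).coeff 0 = 0 → ∃ r', r = xs O * r') ∧
    ∀ r, IsUnit ((T r).coeff 0) → IsUnit r := by
  have hu : ∀ y : (mm O).primeCompl,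
      IsUnit (Polynomial.coeToPowerSeries.ringHom (R := O) (y : O[X])) := by
    intro y
    have hy := (rng_mem_compl O y.1).1 y.2
    rw [PowerSeries.isUnit_iff_constantCoeff]
    simpa [Polynomial.coeToPowerSeries.ringHom_apply] using! hy
  refine ⟨IsLocalization.lift hu, fun q => ?_, fun r hr => ?_, fun r hr => ?_⟩
  · rw [IsLocalization.lift_eq]
    rfl
  · obtain ⟨⟨q, s⟩, h⟩ := IsLocalization.surj (mm O).primeCompl r
    have h2 := congrArg (IsLocalization.lift hu) h
    rw [map_mul, IsLocalization.lift_eq, IsLocalization.lift_eq] at h2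
    have h3 := congrArg (PowerSeries.coeff 0) h2
    rw [rng_c0_mul, hr, zero_mul] at h3
    have h4 : q.coeff 0 = 0 := by
      simpa [Polynomial.coeToPowerSeries.ringHom_apply] using! h3.symm
    obtain ⟨q', hq'⟩ := X_dvd_iff.2 h4
    refine ⟨IsLocalization.mk' (RR O) q' s, ?_⟩
    have h5 : r = IsLocalization.mk' (RR O) q s := by
      rw [IsLocalization.eq_mk'_iff_mul_eq]
      exact h
    rw [h5, hq', xs, IsLocalization.mul_mk'_eq_mk'_of_mul]
  · obtain ⟨⟨q, s⟩, h⟩ := IsLocalization.surj (mm O).primeCompl r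
    have h2 := congrArg (IsLocalization.lift hu) h
    rw [map_mul, IsLocalization.lift_eq, IsLocalization.lift_eq] at h2
    have h3 := congrArg (PowerSeries.coeff 0) h2
    rw [rng_c0_mul] at h3
    have hs := (rng_mem_compl O s.1).1 s.2
    have h4 : IsUnit (q.coeff 0) := by
      have h6 : q.coeff 0 = (PowerSeries.coeff 0) (IsLocalization.lift hu r) * s.1.coeff 0 := by
        simpa [Polynomial.coeToPowerSeries.ringHom_apply] using! h3.symm
      rw [h6]
      exact hr.mul hs
    have h5 : IsUnit (algebraMap O[X] (RR O) q) :=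
      IsLocalization.map_units (RR O) (⟨q, (rng_mem_compl O q).2 h4⟩ : (mm O).primeCompl)
    rw [← h] at h5
    exact (IsUnit.mul_iff.1 h5).1

theorem rng_xs_dvd (T : RR O →+* PowerSeries O)
    (h1 : ∀ q : O[X], T (algebraMap O[X] (RR O) q) = (q : PowerSeries O))
    (h2 : ∀ r, (T r).coeff 0 = 0 → ∃ r', r = xs O * r') (r : RR O) :
    xs O ∣ r ↔ (T r).coeff 0 = 0 := by
  constructor
  · rintro ⟨r', rfl⟩
    rw [map_mul, xs, h1, rng_c0_mul]
    simp
  · intro h
    obtain ⟨r', hr'⟩ := h2 r h
    exact ⟨r', hr'⟩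

theorem rng_xs_ne : xs O ≠ 0 := by
  obtain ⟨T, h1, -, -⟩ := rr_exp O
  intro h
  have h2 := congrArg T h
  rw [xs, h1, map_zero] at h2
  have h3 := congrArg (PowerSeries.coeff 1) h2
  simp at h3

theorem xs_mem : xs O ∈ IsLocalRing.maximalIdeal (RR O) := by
  obtain ⟨T, h1, -, -⟩ := rr_exp O
  rw [IsLocalRing.mem_maximalIdeal, mem_nonunits_iff]
  intro h
  have h2 := h.map T
  rw [xs, h1, PowerSeries.isUnit_iff_constantCoeff] at h2
  simp at h2

theorem xs_prime : haveI := rr_domain O; Prime (xs O) := by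
  obtain ⟨T, h1, h2, -⟩ := rr_exp O
  refine ⟨rng_xs_ne O, ?_, fun a b hab => ?_⟩
  · have := xs_mem O
    rwa [IsLocalRing.mem_maximalIdeal, mem_nonunits_iff] at this
  · rw [rng_xs_dvd O T h1 h2, map_mul, rng_c0_mul, mul_eq_zero] at hab
    rw [rng_xs_dvd O T h1 h2, rng_xs_dvd O T h1 h2]
    exact hab

theorem quot_domain : IsDomain (RR O ⧸ Ideal.span {xs O}) := by
  have := rr_domain O
  rw [Ideal.Quotient.isDomain_iff_prime, Ideal.span_singleton_prime (rng_xs_ne O)]
  exact xs_prime O

/-- the quotient is `O` -/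
theorem rng_equiv : ∃ e : (RR O ⧸ Ideal.span {xs O}) ≃+* O,
    ∀ a : O, e (Ideal.Quotient.mk (Ideal.span {xs O}) (cc O a)) = a := by
  obtain ⟨T, h1, h2, -⟩ := rr_exp O
  set f : RR O →+* O := (PowerSeries.constantCoeff (R := O)).comp T with hf
  have hc : ∀ a : O, f (cc O a) = a := by
    intro a
    rw [hf, RingHom.comp_apply, cc, h1]
    simp
  have hsurj : Function.Surjective f := fun a => ⟨cc O a, hc a⟩
  have hker : Ideal.span {xs O} = RingHom.ker f := by
    ext r
    rw [Ideal.mem_span_singleton, rng_xs_dvd O T h1 h2, RingHom.mem_ker, hf,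
      RingHom.comp_apply]
    simp
  refine ⟨(Ideal.quotEquivOfEq hker).trans (RingHom.quotientKerEquivOfSurjective hsurj),
    fun a => ?_⟩
  rw [RingEquiv.trans_apply, Ideal.quotEquivOfEq_mk, RingHom.quotientKerEquivOfSurjective_apply_mk]
  exact hc a

theorem quot_dvr : haveI := quot_domain O; IsDiscreteValuationRing (RR O ⧸ Ideal.span {xs O}) := by
  obtain ⟨e, -⟩ := rng_equiv O
  have := quot_domain O
  exact IsDiscreteValuationRing.RingEquivClass.isDiscreteValuationRing e.symm

variable {O}

theorem quot_irr (w : O) (hw : Irreducible w) :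
    Irreducible (Ideal.Quotient.mk (Ideal.span {xs O}) (cc O w)) := by
  obtain ⟨e, he⟩ := rng_equiv O
  rw [← MulEquiv.irreducible_iff e, he]
  exact hw

theorem rng_cc_ne (w : O) (hw : w ≠ 0) : cc O w ≠ 0 := by
  obtain ⟨T, h1, -, -⟩ := rr_exp O
  intro h
  have h2 := congrArg T h
  rw [cc, h1, map_zero] at h2
  have h3 := congrArg (PowerSeries.coeff 0) h2
  simp at h3
  exact hw h3

theorem rng_xs_not_dvd (w : O) (hw : w ≠ 0) : ¬ xs O ∣ cc O w := by
  obtain ⟨T, h1, h2, -⟩ := rr_exp O
  rw [rng_xs_dvd O T h1 h2, cc, h1]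
  simpa using hw

theorem cc_prime (w : O) (hw : Irreducible w) : haveI := rr_domain O; Prime (cc O w) := by
  have := rr_domain O
  have hCp : Prime (C w : O[X]) := prime_C_iff.2 hw.prime
  have hI : (Ideal.span {(C w : O[X])}).IsPrime := (Ideal.span_singleton_prime hCp.ne_zero).2 hCp
  have hd : Disjoint ((mm O).primeCompl : Set O[X]) (Ideal.span {(C w : O[X])} : Ideal O[X]) := by
    rw [Set.disjoint_left]
    intro q hq hq2
    obtain ⟨t, rfl⟩ := Ideal.mem_span_singleton.1 hq2
    have h3 := (rng_mem_compl O _).1 hq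
    rw [coeff_C_mul] at h3
    exact hw.not_isUnit (IsUnit.mul_iff.1 h3).1
  have h4 := IsLocalization.isPrime_of_isPrime_disjoint (mm O).primeCompl (RR O) _ hI hd
  rw [Ideal.map_span, Set.image_singleton] at h4
  exact (Ideal.span_singleton_prime (rng_cc_ne w hw.ne_zero)).1 h4

/-- `R[1/X] ∩ R[1/w] = R` -/
theorem cap_xw (w : O) (hw : Irreducible w) (z : FractionRing O[X])
    (h1 : ∃ (k : ℕ) (r : RR O), algebraMap (RR O) (FractionRing O[X]) (xs O) ^ k * z =
      algebraMap (RR O) (FractionRing O[X]) r)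
    (h2 : ∃ (k : ℕ) (r : RR O), algebraMap (RR O) (FractionRing O[X]) (cc O w) ^ k * z =
      algebraMap (RR O) (FractionRing O[X]) r) :
    ∃ r : RR O, z = algebraMap (RR O) (FractionRing O[X]) r := by
  have := rr_domain O
  obtain ⟨k, r, hr⟩ := h1
  obtain ⟨l, t, ht⟩ := h2
  have hinj : Function.Injective (algebraMap (RR O) (FractionRing O[X])) :=
    IsFractionRing.injective _ _
  have h3 : xs O ^ k * t = r * cc O w ^ l := by
    apply hinj
    rw [map_mul, map_mul, map_pow, map_pow, ← hr, ← ht]
    ring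
  have h4 : xs O ^ k ∣ r * cc O w ^ l := ⟨t, h3.symm⟩
  have hnd : ¬ xs O ∣ cc O w ^ l := by
    intro h
    exact rng_xs_not_dvd w hw.ne_zero ((xs_prime O).dvd_of_dvd_pow h)
  obtain ⟨r', hr'⟩ := (xs_prime O).pow_dvd_of_dvd_mul_right k hnd h4
  refine ⟨r', ?_⟩
  have hx : algebraMap (RR O) (FractionRing O[X]) (xs O) ^ k ≠ 0 :=
    pow_ne_zero _ ((map_ne_zero_iff _ hinj).2 (rng_xs_ne O))
  apply mul_left_cancel₀ hx
  rw [hr, hr', map_mul, map_pow]

end

section

universe u

variable {O : Type u} [CommRing O] [IsDomain O] [IsDiscreteValuationRing O]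

theorem span_prime (w : O) (hw : Irreducible w) : (Ideal.span {(C w : O[X])}).IsPrime := by
  have hCp : Prime (C w : O[X]) := prime_C_iff.2 hw.prime
  exact (Ideal.span_singleton_prime hCp.ne_zero).2 hCp

/-- The Gauss valuation ring: a discrete valuation ring `A` inside `FractionRing O[X]` -/
theorem gauss_ring (w : O) (hw : Irreducible w) :
    ∃ (A : Type u) (_ : CommRing A) (_ : IsDomain A) (_ : IsDiscreteValuationRing A)
      (_ : Algebra A (FractionRing O[X])) (_ : IsFractionRing A (FractionRing O[X])) (wA : A),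
      Irreducible wA ∧
      algebraMap A (FractionRing O[X]) wA = algebraMap (RR O) (FractionRing O[X]) (cc O w) ∧
      (∀ r : RR O, ∃ a : A, algebraMap A (FractionRing O[X]) a =
        algebraMap (RR O) (FractionRing O[X]) r) ∧
      (∀ a : A, ∃ (r t : RR O) (u : Aˣ),
        algebraMap A (FractionRing O[X]) u = algebraMap (RR O) (FractionRing O[X]) t ∧
        algebraMap A (FractionRing O[X]) a * algebraMap (RR O) (FractionRing O[X]) t =
          algebraMap (RR O) (FractionRing O[X]) r) ∧
      (∀ z : FractionRing O[X], (∃ a : A, algebraMap A (FractionRing O[X]) a = z) →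
        (∃ (k : ℕ) (r : RR O), algebraMap (RR O) (FractionRing O[X]) (cc O w) ^ k * z =
          algebraMap (RR O) (FractionRing O[X]) r) →
        ∃ r : RR O, z = algebraMap (RR O) (FractionRing O[X]) r) ∧
      ∀ (n m : ℕ), wA ^ m ∣ (n : A) → w ^ m ∣ (n : O) := by
  have hP := span_prime w hw
  have := rr_domain O
  set P : Ideal O[X] := Ideal.span {(C w : O[X])} with hPdef
  let A := Localization.AtPrime P
  have hAd : IsDomain A :=
    IsLocalization.isDomain_localization P.primeCompl_le_nonZeroDivisors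
  have hAn : IsNoetherianRing A :=
    IsLocalization.isNoetherianRing P.primeCompl A inferInstance
  have hCp : Prime (C w : O[X]) := prime_C_iff.2 hw.prime
  have hmax : IsLocalRing.maximalIdeal A = Ideal.span {algebraMap O[X] A (C w)} := by
    rw [← Localization.AtPrime.map_eq_maximalIdeal]
    change Ideal.map (algebraMap O[X] A) (Ideal.span {(C w : O[X])}) = _
    rw [Ideal.map_span, Set.image_singleton]
  have hSA : Function.Injective (algebraMap O[X] A) :=
    IsLocalization.injective A P.primeCompl_le_nonZeroDivisors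
  have hwA0 : algebraMap O[X] A (C w) ≠ 0 := (map_ne_zero_iff _ hSA).2 hCp.ne_zero
  have hnf : ¬ IsField A := by
    intro hf
    have h1 := (IsLocalRing.isField_iff_maximalIdeal_eq (R := A)).1 hf
    rw [hmax, Ideal.span_singleton_eq_bot] at h1
    exact hwA0 h1
  have hdvr : IsDiscreteValuationRing A := by
    refine ((IsDiscreteValuationRing.TFAE A hnf).out 0 4).2 ?_
    rw [hmax]
    exact ⟨⟨_, rfl⟩⟩
  have hirr : Irreducible (algebraMap O[X] A (C w)) :=
    (IsDiscreteValuationRing.irreducible_iff_uniformizer _).2 hmax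
  have htA : ∀ q : O[X], algebraMap A (FractionRing O[X]) (algebraMap O[X] A q) =
      algebraMap O[X] (FractionRing O[X]) q := fun q =>
    (IsScalarTower.algebraMap_apply O[X] A (FractionRing O[X]) q).symm
  have htR : ∀ q : O[X], algebraMap (RR O) (FractionRing O[X]) (algebraMap O[X] (RR O) q) =
      algebraMap O[X] (FractionRing O[X]) q := fun q =>
    (IsScalarTower.algebraMap_apply O[X] (RR O) (FractionRing O[X]) q).symm
  have hinjR : Function.Injective (algebraMap (RR O) (FractionRing O[X])) :=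
    IsFractionRing.injective _ _
  have hinjA : Function.Injective (algebraMap A (FractionRing O[X])) :=
    IsFractionRing.injective _ _
  have hinjS : Function.Injective (algebraMap O[X] (FractionRing O[X])) :=
    IsFractionRing.injective _ _
  have hRA : ∀ r : RR O, ∃ a : A, algebraMap A (FractionRing O[X]) a =
      algebraMap (RR O) (FractionRing O[X]) r := by
    intro r
    obtain ⟨⟨q, s⟩, h⟩ := IsLocalization.surj (mm O).primeCompl r
    have hs := (rng_mem_compl O s.1).1 s.2
    have hs2 : s.1 ∈ P.primeCompl := by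
      rw [Ideal.mem_primeCompl_iff]
      intro h3
      obtain ⟨t, ht⟩ := Ideal.mem_span_singleton.1 h3
      rw [ht, coeff_C_mul] at hs
      exact hw.not_isUnit (IsUnit.mul_iff.1 hs).1
    have hs0 : s.1 ≠ 0 := by
      intro h3
      rw [h3, coeff_zero] at hs
      exact not_isUnit_zero hs
    refine ⟨IsLocalization.mk' A q (⟨s.1, hs2⟩ : P.primeCompl), ?_⟩
    have h4 : IsLocalization.mk' A q (⟨s.1, hs2⟩ : P.primeCompl) * algebraMap O[X] A s.1 =
        algebraMap O[X] A q :=
      IsLocalization.mk'_spec A q (⟨s.1, hs2⟩ : P.primeCompl)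
    have h5 := congrArg (algebraMap A (FractionRing O[X])) h4
    have h6 := congrArg (algebraMap (RR O) (FractionRing O[X])) h
    simp only at h6
    rw [map_mul, htA, htA] at h5
    rw [map_mul, htR, htR] at h6
    apply mul_right_cancel₀ ((map_ne_zero_iff _ hinjS).2 hs0)
    rw [h5, h6]
  have hAR : ∀ a : A, ∃ (r t : RR O) (u : Aˣ),
      algebraMap A (FractionRing O[X]) u = algebraMap (RR O) (FractionRing O[X]) t ∧
      algebraMap A (FractionRing O[X]) a * algebraMap (RR O) (FractionRing O[X]) t =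
        algebraMap (RR O) (FractionRing O[X]) r := by
    intro a
    obtain ⟨⟨q, s⟩, h⟩ := IsLocalization.surj P.primeCompl a
    obtain ⟨u, hu⟩ := IsLocalization.map_units A s
    refine ⟨algebraMap O[X] (RR O) q, algebraMap O[X] (RR O) s.1, u, ?_, ?_⟩
    · rw [hu, htA, htR]
    · rw [htR, htR, ← htA, ← htA, ← map_mul]
      exact congrArg _ h
  refine ⟨A, inferInstance, hAd, hdvr, inferInstance, inferInstance,
    algebraMap O[X] A (C w), hirr, ?_, hRA, hAR, ?_, ?_⟩
  · rw [htA, cc, htR]
  · rintro z ⟨a, rfl⟩ ⟨k, r, hr⟩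
    obtain ⟨r1, t, u, hu, hat⟩ := hAR a
    have hnd : ¬ cc O w ∣ t := by
      rintro ⟨t', rfl⟩
      obtain ⟨a', ha'⟩ := hRA t'
      have h7 : (u : A) = algebraMap O[X] A (C w) * a' := by
        apply hinjA
        rw [hu, map_mul, map_mul, htA, cc, htR, ha']
      have h8 : IsUnit (algebraMap O[X] A (C w) * a') := h7 ▸ u.isUnit
      exact hirr.not_isUnit (IsUnit.mul_iff.1 h8).1
    have h9 : cc O w ^ k * r1 = r * t := by
      apply hinjR
      rw [map_mul, map_mul, map_pow, ← hr, ← hat]
      ring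
    obtain ⟨r', hr'⟩ := (cc_prime w hw).pow_dvd_of_dvd_mul_right k hnd ⟨r1, h9.symm⟩
    refine ⟨r', ?_⟩
    have hx : algebraMap (RR O) (FractionRing O[X]) (cc O w) ^ k ≠ 0 :=
      pow_ne_zero _ ((map_ne_zero_iff _ hinjR).2 (rng_cc_ne w hw.ne_zero))
    apply mul_left_cancel₀ hx
    rw [hr, hr', map_mul, map_pow]
  · rintro n m ⟨a, ha⟩
    obtain ⟨⟨q, s⟩, h⟩ := IsLocalization.surj P.primeCompl a
    have h1 : (n : O[X]) * s.1 = C w ^ m * q := by
      apply hSA
      simp only at h
      rw [map_mul, map_mul, map_pow, map_natCast, ha, ← h]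
      ring
    have hnd : ¬ (C w : O[X]) ∣ s.1 := by
      intro h3
      exact s.2 (Ideal.mem_span_singleton.2 h3)
    obtain ⟨q', hq'⟩ := hCp.pow_dvd_of_dvd_mul_right m hnd ⟨q, h1⟩
    refine ⟨q'.coeff 0, ?_⟩
    have h4 := congrArg (fun f : O[X] => f.coeff 0) hq'
    rw [← C_pow, coeff_C_mul] at h4
    rw [← h4]
    simp

end

end ALC
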