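import Pool.Agent.ALC.Free
import Pool.Agent.ALC.DualInt
import Pool.Agent.ALC.MatId
import Pool.Agent.ALC.Rng
import Pool.Agent.ALC.Ser
import Pool.Agent.ALC.Irr

/-!
The bound of the Taylor coefficients of the formal branch over a discrete valuation ring O with
fraction field L of characteristic zero. F in L[s][y] monic, irreducible over L[s] (hence over
K = FractionRing O[X], Gauss lemma), Y the branch at s = 0 over y0; theta_i in L(s)[y]/F integral
over L[s] with discriminant Delta in L[s], and Delta/Delta(0) in O[s] (no branch point in the open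
unit disc).
R = RR O (Rng.lean), K = FractionRing O[X], E = AdjoinRoot (F over K), B = integral closure of R in
E, free over R (free_int with p = cc w), dual basis up to w^m (dual_int with the Gauss ring A; theta
multiplied by a power of w is integral over R, its discriminant is w^a times a unit because
Delta/Delta(0) has constant term 1); Phi : E -> LaurentSeries L, s -> X, y -> Y, maps B to
PowerSeries L with constant terms in O (integral over O); coeff_bound for f = w^N y.
-/

open Polynomial

namespace ALC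

namespace PM

section base

variable {O L : Type*} [CommRing O] [IsDomain O] [IsDiscreteValuationRing O] [Field L]
    [Algebra O L] [IsFractionRing O L]

/-- clearing denominators by powers of the uniformiser -/
theorem clear (w : O) (hw : Irreducible w) (x : L) :
    ∃ a : ℕ, ∀ b, a ≤ b → ∃ c : O, algebraMap O L w ^ b * x = algebraMap O L c := by
  obtain ⟨n, d, hd, rfl⟩ := IsFractionRing.div_surjective (A := O) x
  have hd0 : d ≠ 0 := nonZeroDivisors.ne_zero hd
  obtain ⟨a, u, hu⟩ := IsDiscreteValuationRing.eq_unit_mul_pow_irreducible hd0 hw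
  refine ⟨a, fun b hb => ⟨w ^ (b - a) * (↑u⁻¹ : O) * n, ?_⟩⟩
  have hdL : algebraMap O L d ≠ 0 := by
    rw [Ne, FaithfulSMul.algebraMap_eq_zero_iff]; exact hd0
  rw [mul_div_assoc', div_eq_iff hdL, ← map_pow, ← map_mul, ← map_mul]
  congr 1
  rw [hu]
  have e : w ^ b = w ^ (b - a) * w ^ a := by rw [← pow_add]; congr 1; omega
  rw [e]
  have h1 : (↑u⁻¹ : O) * (u : O) = 1 := by simp
  linear_combination (-(w ^ (b - a) * w ^ a * n)) * h1

theorem clear_fin (w : O) (hw : Irreducible w) {ι : Type*} (s : Finset ι) (x : ι → L) :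
    ∃ a : ℕ, ∀ b, a ≤ b → ∀ i ∈ s, ∃ c : O, algebraMap O L w ^ b * x i = algebraMap O L c := by
  classical
  induction s using Finset.induction_on with
  | empty => exact ⟨0, fun b _ i hi => by simp at hi⟩
  | insert i s hi ih =>
    obtain ⟨a, ha⟩ := ih
    obtain ⟨a', ha'⟩ := clear w hw (x i)
    refine ⟨max a a', fun b hb j hj => ?_⟩
    rcases Finset.mem_insert.1 hj with rfl | hj
    · exact ha' b (le_trans (le_max_right _ _) hb)
    · exact ha b (le_trans (le_max_left _ _) hb) j hj

/-- clearing the denominators of a polynomial -/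
theorem clear_poly (w : O) (hw : Irreducible w) (p : L[X]) :
    ∃ a : ℕ, ∀ b, a ≤ b → ∃ q : O[X], C (algebraMap O L w ^ b) * p = q.map (algebraMap O L) := by
  obtain ⟨a, ha⟩ := clear_fin w hw p.support p.coeff
  refine ⟨a, fun b hb => ?_⟩
  have h : C (algebraMap O L w ^ b) * p ∈ lifts (algebraMap O L) := by
    rw [lifts_iff_coeff_lifts]
    intro n
    rw [coeff_C_mul]
    by_cases hn : n ∈ p.support
    · obtain ⟨c, hc⟩ := ha b hb n hn
      exact ⟨c, hc.symm⟩
    · rw [notMem_support_iff.1 hn]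
      exact ⟨0, by simp⟩
  obtain ⟨q, hq⟩ := (mem_lifts _).1 h
  exact ⟨q, hq.symm⟩

/-- a monic polynomial over `L[X]` becomes, after scaling of the roots by a power of the
uniformiser, a monic polynomial over `O[X]` -/
theorem scale_monic (w : O) (hw : Irreducible w) (p : L[X][X]) (hp : p.Monic) :
    ∃ a : ℕ, ∀ b, a ≤ b → ∃ q : O[X][X], q.Monic ∧
      q.map (mapRingHom (algebraMap O L)) = p.scaleRoots (C (algebraMap O L w ^ b)) := by
  have key : ∀ n : ℕ, ∃ a : ℕ, ∀ b, a ≤ b → ∀ i < n, ∃ q : O[X],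
      C (algebraMap O L w ^ b) * p.coeff i = q.map (algebraMap O L) := by
    intro n
    induction n with
    | zero => exact ⟨0, fun b _ i hi => by omega⟩
    | succ n ih =>
      obtain ⟨a, ha⟩ := ih
      obtain ⟨a', ha'⟩ := clear_poly w hw (p.coeff n)
      refine ⟨max a a', fun b hb i hi => ?_⟩
      rcases Nat.lt_succ_iff_lt_or_eq.1 hi with h | rfl
      · exact ha b (le_trans (le_max_left _ _) hb) i h
      · exact ha' b (le_trans (le_max_right _ _) hb)
  obtain ⟨a, ha⟩ := key p.natDegree
  refine ⟨a, fun b hb => ?_⟩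
  have hl : p.scaleRoots (C (algebraMap O L w ^ b)) ∈ lifts (mapRingHom (algebraMap O L)) := by
    rw [lifts_iff_coeff_lifts]
    intro i
    rw [coeff_scaleRoots]
    rcases lt_trichotomy i p.natDegree with h | h | h
    · obtain ⟨q, hq⟩ := ha b hb i h
      obtain ⟨j, hj⟩ : ∃ j, p.natDegree - i = j + 1 := ⟨p.natDegree - i - 1, by omega⟩
      refine ⟨C (w ^ b) ^ j * q, ?_⟩
      rw [hj, pow_succ, coe_mapRingHom, Polynomial.map_mul, ← hq, Polynomial.map_pow,
        Polynomial.map_C, map_pow]
      ring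
    · refine ⟨1, ?_⟩
      rw [h, Nat.sub_self, pow_zero, mul_one, hp.coeff_natDegree, map_one]
    · refine ⟨0, ?_⟩
      rw [coeff_eq_zero_of_natDegree_lt h, zero_mul, map_zero]
  obtain ⟨q, hq, -, hm⟩ := lifts_and_degree_eq_and_monic hl ((monic_scaleRoots_iff _).2 hp)
  exact ⟨q, hm, hq⟩

/-- integrality after scaling -/
theorem int_scale (w : O) (hw : Irreducible w) {R E : Type*} [CommRing R] [Field E] [Algebra R E]
    (f : L[X] →+* E) (kk : O[X] →+* R)
    (hkk : ∀ q, algebraMap R E (kk q) = f (q.map (algebraMap O L)))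
    (x : E) (hx : f.IsIntegralElem x) :
    ∃ a : ℕ, ∀ b, a ≤ b → IsIntegral R (algebraMap R E (kk (C w)) ^ b * x) := by
  obtain ⟨p, hp, hpx⟩ := hx
  obtain ⟨a, ha⟩ := scale_monic w hw p hp
  refine ⟨a, fun b hb => ?_⟩
  obtain ⟨q, hq, hqp⟩ := ha b hb
  refine ⟨q.map kk, hq.map kk, ?_⟩
  have h1 : (algebraMap R E).comp kk = f.comp (mapRingHom (algebraMap O L)) :=
    RingHom.ext fun q => hkk q
  rw [eval₂_map, h1, ← eval₂_map, hqp]
  have h2 := scaleRoots_eval₂_eq_zero f (s := C (algebraMap O L w ^ b)) hpx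
  have h3 : algebraMap R E (kk (C w)) ^ b = f (C (algebraMap O L w ^ b)) := by
    rw [hkk, Polynomial.map_C, C_pow, map_pow]
  rw [h3]
  exact h2

end base

section lau

variable {L : Type*} [Field L]

/-- polynomials as Laurent series -/
noncomputable def pol : L[X] →+* LaurentSeries L :=
  (algebraMap (PowerSeries L) (LaurentSeries L)).comp Polynomial.coeToPowerSeries.ringHom

theorem pol_inj : Function.Injective (pol (L := L)) := by
  unfold pol
  rw [RingHom.coe_comp]
  apply Function.Injective.comp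
  · exact FaithfulSMul.algebraMap_injective _ _
  · intro p q h
    exact Polynomial.coe_injective L h

/-- rational functions as Laurent series -/
noncomputable def lau : RatFunc L →+* LaurentSeries L := IsFractionRing.lift (A := L[X]) pol_inj

theorem lau_pol (q : L[X]) : lau (algebraMap L[X] (RatFunc L) q) = pol q :=
  IsFractionRing.lift_algebraMap pol_inj q

theorem coe_hom : Polynomial.eval₂RingHom (PowerSeries.C (R := L)) (PowerSeries.C 0 + PowerSeries.X) =
    Polynomial.coeToPowerSeries.ringHom := by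
  ext1
  · ext1 a
    simp
  · simp

theorem lau_root (F : L[X][X]) (y0 : L) (Y : PowerSeries L) (hY : IsSer F 0 y0 Y) :
    eval₂ lau (algebraMap (PowerSeries L) (LaurentSeries L) Y)
      (F.map (algebraMap L[X] (RatFunc L))) = 0 := by
  have h := hY.1
  unfold OnCurve at h
  rw [coe_hom] at h
  rw [eval₂_map]
  have e : (lau (L := L)).comp (algebraMap L[X] (RatFunc L)) =
      (algebraMap (PowerSeries L) (LaurentSeries L)).comp Polynomial.coeToPowerSeries.ringHom :=
    RingHom.ext fun q => lau_pol q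
  rw [e, ← hom_eval₂, h, map_zero]

/-- The expansion of the function field. -/
noncomputable def exE (F : L[X][X]) (y0 : L) (Y : PowerSeries L) (hY : IsSer F 0 y0 Y) :
    FF F →+* LaurentSeries L :=
  AdjoinRoot.lift lau (algebraMap (PowerSeries L) (LaurentSeries L) Y) (lau_root F y0 Y hY)

theorem exE_root (F : L[X][X]) (y0 : L) (Y : PowerSeries L) (hY : IsSer F 0 y0 Y) :
    exE F y0 Y hY (AdjoinRoot.root _) = algebraMap (PowerSeries L) (LaurentSeries L) Y :=
  AdjoinRoot.lift_root _

theorem exE_of (F : L[X][X]) (y0 : L) (Y : PowerSeries L) (hY : IsSer F 0 y0 Y) (z : RatFunc L) :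
    exE F y0 Y hY (algebraMap (RatFunc L) (FF F) z) = lau z :=
  AdjoinRoot.lift_of _

end lau

section abs

theorem lift_range {A B C : Type*} [CommRing A] [CommRing B] [CommRing C] (f : A →+* C)
    (g : B →+* C) (hg : Function.Injective g) (h : ∀ a, ∃ b, g b = f a) :
    ∃ Φ : A →+* B, ∀ a, g (Φ a) = f a := by
  choose φ hφ using h
  refine ⟨{ toFun := φ, map_one' := ?_, map_mul' := ?_, map_zero' := ?_, map_add' := ?_ }, hφ⟩
  · apply hg; rw [hφ, map_one, map_one]
  · intro x y; apply hg; rw [hφ, map_mul, map_mul, hφ, hφ]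
  · apply hg; rw [hφ, map_zero, map_zero]
  · intro x y; apply hg; rw [hφ, map_add, map_add, hφ, hφ]

theorem discr_smul {K E ι : Type*} [Field K] [Field E] [Algebra K E] [Fintype ι] [DecidableEq ι]
    (c : K) (θ : ι → E) :
    Algebra.discr K (fun i => algebraMap K E c * θ i) =
      c ^ (2 * Fintype.card ι) * Algebra.discr K θ := by
  rw [Algebra.discr_def, Algebra.discr_def]
  have e : Algebra.traceMatrix K (fun i => algebraMap K E c * θ i) =
      (c ^ 2) • Algebra.traceMatrix K θ := by
    ext i j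
    rw [Matrix.smul_apply, Algebra.traceMatrix_apply, Algebra.traceMatrix_apply,
      Algebra.traceForm_apply, Algebra.traceForm_apply]
    have e2 : algebraMap K E c * θ i * (algebraMap K E c * θ j) = (c ^ 2) • (θ i * θ j) := by
      rw [Algebra.smul_def, map_pow]; ring
    rw [e2, map_smul]
  rw [e, Matrix.det_smul, ← pow_mul]

theorem exE_comp {O L R : Type*} [CommRing O] [Field L]
    [Algebra O L] [IsDomain O] [IsFractionRing O L] [CommRing R]
    [Algebra R (RatFunc L)] (kk : O[X] →+* R) (hkk : ∀ q, algebraMap R (RatFunc L) (kk q) =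
      algebraMap L[X] (RatFunc L) (q.map (algebraMap O L)))
    (hfr : ∀ r : R, ∃ q t : O[X], t ≠ 0 ∧ r * kk t = kk q)
    (T : R →+* PowerSeries O) (hT : ∀ q, T (kk q) = (q : PowerSeries O))
    (F : L[X][X]) (y0 : L) (Y : PowerSeries L) (hY : IsSer F 0 y0 Y) (r : R) :
    exE F y0 Y hY (algebraMap (RatFunc L) (FF F) (algebraMap R (RatFunc L) r)) =
      algebraMap (PowerSeries L) (LaurentSeries L) (PowerSeries.map (algebraMap O L) (T r)) := by
  have hc : ∀ q : O[X], exE F y0 Y hY (algebraMap (RatFunc L) (FF F)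
      (algebraMap R (RatFunc L) (kk q))) =
      algebraMap (PowerSeries L) (LaurentSeries L)
        (PowerSeries.map (algebraMap O L) (T (kk q))) := by
    intro q
    rw [exE_of, hkk, lau_pol, hT, pol]
    simp only [RingHom.coe_comp, Function.comp_apply]
    congr 1
    ext n
    simp
  obtain ⟨q, t, ht, hrt⟩ := hfr r
  have h1 := hc q
  rw [← hrt] at h1
  simp only [map_mul] at h1
  rw [hc t] at h1
  refine mul_right_cancel₀ ?_ h1
  rw [hT]
  intro h0
  have h2 := (FaithfulSMul.algebraMap_injective (PowerSeries L) (LaurentSeries L))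
    (h0.trans (map_zero _).symm)
  apply ht
  apply Polynomial.coe_injective O
  ext n
  have h3 := congrArg (PowerSeries.coeff n) h2
  simp only [PowerSeries.coeff_map, map_zero] at h3
  rw [FaithfulSMul.algebraMap_eq_zero_iff] at h3
  simpa using h3

/-- the expansion on the integral closure -/
theorem exists_phi {O L R : Type*} [CommRing O] [IsDomain O] [IsDiscreteValuationRing O] [Field L]
    [Algebra O L] [IsFractionRing O L] [CommRing R] [Algebra R (RatFunc L)]
    (T : R →+* PowerSeries O)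
    (F : L[X][X]) (y0 : L) (Y : PowerSeries L) (hY : IsSer F 0 y0 Y)
    (hc : ∀ r : R, exE F y0 Y hY (algebraMap (RatFunc L) (FF F) (algebraMap R (RatFunc L) r)) =
      algebraMap (PowerSeries L) (LaurentSeries L) (PowerSeries.map (algebraMap O L) (T r))) :
    ∃ Φ : integralClosure R (FF F) →+* PowerSeries L,
      (∀ f, algebraMap (PowerSeries L) (LaurentSeries L) (Φ f) = exE F y0 Y hY (f : FF F)) ∧
      (∀ r, Φ (algebraMap R (integralClosure R (FF F)) r) =
        PowerSeries.map (algebraMap O L) (T r)) ∧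
      ∀ f, ∃ a : O, (Φ f).coeff 0 = algebraMap O L a := by
  have hinj : Function.Injective (algebraMap (PowerSeries L) (LaurentSeries L)) :=
    FaithfulSMul.algebraMap_injective _ _
  have hcomp : ((exE F y0 Y hY).comp (algebraMap R (FF F))) =
      (algebraMap (PowerSeries L) (LaurentSeries L)).comp
        ((PowerSeries.map (algebraMap O L)).comp T) := by
    ext1 r
    simp only [RingHom.coe_comp, Function.comp_apply]
    rw [IsScalarTower.algebraMap_apply R (RatFunc L) (FF F)]
    exact hc r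
  have hpoly : ∀ f : integralClosure R (FF F), ∃ p : R[X], p.Monic ∧
      eval₂ ((algebraMap (PowerSeries L) (LaurentSeries L)).comp
        ((PowerSeries.map (algebraMap O L)).comp T)) (exE F y0 Y hY (f : FF F)) p = 0 := by
    intro f
    obtain ⟨p, hp, hp0⟩ := f.2
    refine ⟨p, hp, ?_⟩
    rw [← hcomp, ← hom_eval₂]
    have : eval₂ (algebraMap R (FF F)) (f : FF F) p = 0 := hp0
    rw [this, map_zero]
  obtain ⟨Φ, hΦ⟩ := lift_range ((exE F y0 Y hY).comp
    (algebraMap (integralClosure R (FF F)) (FF F))) (algebraMap (PowerSeries L) (LaurentSeries L))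
    hinj (by
      intro f
      obtain ⟨p, hp, hp0⟩ := hpoly f
      have hI : IsIntegral (PowerSeries L) (exE F y0 Y hY (f : FF F)) := by
        refine ⟨p.map ((PowerSeries.map (algebraMap O L)).comp T), hp.map _, ?_⟩
        rw [eval₂_map]
        exact hp0
      obtain ⟨y, hy⟩ := IsIntegrallyClosed.isIntegral_iff.1 hI
      exact ⟨y, hy⟩)
  have hΦ' : ∀ f : integralClosure R (FF F),
      algebraMap (PowerSeries L) (LaurentSeries L) (Φ f) = exE F y0 Y hY (f : FF F) := hΦ
  refine ⟨Φ, hΦ', ?_, ?_⟩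
  · intro r
    apply hinj
    rw [hΦ', ← hc r, ← IsScalarTower.algebraMap_apply R (RatFunc L) (FF F)]
    rfl
  · intro f
    obtain ⟨p, hp, hp0⟩ := hpoly f
    rw [← hΦ' f, ← hom_eval₂] at hp0
    have h1 : eval₂ ((PowerSeries.map (algebraMap O L)).comp T) (Φ f) p = 0 := by
      apply hinj; rw [hp0, map_zero]
    have h2 : eval₂ ((PowerSeries.constantCoeff (R := L)).comp
        ((PowerSeries.map (algebraMap O L)).comp T)) (PowerSeries.constantCoeff (Φ f)) p = 0 := by
      rw [← hom_eval₂, h1, map_zero]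
    have h3 : (PowerSeries.constantCoeff (R := L)).comp
        ((PowerSeries.map (algebraMap O L)).comp T) =
        (algebraMap O L).comp ((PowerSeries.constantCoeff (R := O)).comp T) := by
      ext1 r
      simp only [RingHom.coe_comp, Function.comp_apply]
      rw [← PowerSeries.coeff_zero_eq_constantCoeff_apply, PowerSeries.coeff_map,
        PowerSeries.coeff_zero_eq_constantCoeff_apply]
    have hI : IsIntegral O (PowerSeries.constantCoeff (Φ f)) := by
      refine ⟨p.map ((PowerSeries.constantCoeff (R := O)).comp T), hp.map _, ?_⟩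
      rw [eval₂_map, ← h3]
      exact h2
    obtain ⟨a, ha⟩ := IsIntegrallyClosed.isIntegral_iff.1 hI
    exact ⟨a, by rw [PowerSeries.coeff_zero_eq_constantCoeff_apply]; exact ha.symm⟩

/-- the trace form over the base ring -/
theorem tr_down {R K E : Type*} [CommRing R] [IsDomain R] [Field K] [Algebra R K]
    [IsFractionRing R K] [Field E] [Algebra K E] [Algebra R E] [IsScalarTower R K E]
    [Algebra.IsAlgebraic K E] {ι : Type*} [Finite ι]
    (b : Module.Basis ι R (integralClosure R E)) (x : integralClosure R E) :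
    Algebra.trace K E (x : E) = algebraMap R K (Algebra.trace R (integralClosure R E) x) := by
  have : Module.Free R (integralClosure R E) := Module.Free.of_basis b
  have : Module.Finite R (integralClosure R E) := Module.Finite.of_basis b
  have : IsLocalization (Algebra.algebraMapSubmonoid (integralClosure R E) (nonZeroDivisors R)) E :=
    IsIntegralClosure.isLocalization R K E (integralClosure R E)
  exact Algebra.trace_localization R (nonZeroDivisors R) x

theorem abs_main {O L R A : Type*} [CommRing O] [IsDomain O] [IsDiscreteValuationRing O] [Field L]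
    [CharZero L] [Algebra O L] [IsFractionRing O L] [CommRing R] [IsDomain R] [IsLocalRing R]
    [IsNoetherianRing R] [IsIntegrallyClosed R]
    [Algebra R (RatFunc L)] [IsFractionRing R (RatFunc L)]
    [CommRing A] [IsDomain A] [IsDiscreteValuationRing A] [Algebra A (RatFunc L)]
    [IsFractionRing A (RatFunc L)]
    (kk : O[X] →+* R) (hkk : ∀ q, algebraMap R (RatFunc L) (kk q) =
      algebraMap L[X] (RatFunc L) (q.map (algebraMap O L)))
    (hfr : ∀ r : R, ∃ q t : O[X], t ≠ 0 ∧ r * kk t = kk q)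
    (T : R →+* PowerSeries O) (hT : ∀ q, T (kk q) = (q : PowerSeries O))
    (hker : ∀ r, (T r).coeff 0 = 0 → ∃ r', r = kk X * r')
    (hunit : ∀ r, IsUnit ((T r).coeff 0) → IsUnit r)
    (hs : Prime (kk X)) (hs1 : kk X ∈ IsLocalRing.maximalIdeal R)
    (hdom : IsDomain (R ⧸ Ideal.span {kk X}))
    (hdvr : IsDiscreteValuationRing (R ⧸ Ideal.span {kk X}))
    (w : O) (hw : Irreducible w)
    (hp : Irreducible (Ideal.Quotient.mk (Ideal.span {kk X}) (kk (C w))))
    (hcap : ∀ z : RatFunc L, (∃ (k : ℕ) (r : R), algebraMap R (RatFunc L) (kk X) ^ k * z =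
        algebraMap R (RatFunc L) r) →
      (∃ (k : ℕ) (r : R), algebraMap R (RatFunc L) (kk (C w)) ^ k * z = algebraMap R (RatFunc L) r) →
      ∃ r : R, z = algebraMap R (RatFunc L) r)
    (hwp : Prime (kk (C w)))
    (wA : A) (hwA : Irreducible wA)
    (hww : algebraMap A (RatFunc L) wA = algebraMap R (RatFunc L) (kk (C w)))
    (hRA : ∀ r : R, ∃ a : A, algebraMap A (RatFunc L) a = algebraMap R (RatFunc L) r)
    (hloc : ∀ a : A, ∃ (r t : R) (u : Aˣ), algebraMap A (RatFunc L) u = algebraMap R (RatFunc L) t ∧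
      algebraMap A (RatFunc L) a * algebraMap R (RatFunc L) t = algebraMap R (RatFunc L) r)
    (hcapA : ∀ z : RatFunc L, (∃ a : A, algebraMap A (RatFunc L) a = z) →
      (∃ (k : ℕ) (r : R), algebraMap R (RatFunc L) (kk (C w)) ^ k * z = algebraMap R (RatFunc L) r) →
      ∃ r : R, z = algebraMap R (RatFunc L) r)
    (hdvd : ∀ (n m : ℕ), wA ^ m ∣ (n : A) → w ^ m ∣ (n : O))
    (F : L[X][X]) (hF : F.Monic) (hirr : Irreducible F) (y0 : L) (Y : PowerSeries L)
    (hY : IsSer F 0 y0 Y)
    (θ : Fin F.natDegree → FF F) (hθ : ∀ i, IsIntegral L[X] (θ i)) (Δ : L[X]) (hΔ : Δ.coeff 0 ≠ 0)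
    (hd : Algebra.discr (RatFunc L) θ = algebraMap L[X] (RatFunc L) Δ)
    (hO : ∀ k, ∃ a : O, Δ.coeff k / Δ.coeff 0 = algebraMap O L a)
    (m : ℕ) (hm : ∀ n : ℕ, 1 ≤ n → n ≤ F.natDegree → ¬ w ^ m ∣ (n : O)) :
    ∃ N : ℕ, ∀ k, ∃ a : O, algebraMap O L w ^ (N + 2 * m * k) * Y.coeff k = algebraMap O L a := by
  classical
  -- the field
  have hirr' : Irreducible (F.map (algebraMap L[X] (RatFunc L))) :=
    (hF.irreducible_iff_irreducible_map_fraction_map (K := RatFunc L)).1 hirr
  have : Fact (Irreducible (F.map (algebraMap L[X] (RatFunc L)))) := ⟨hirr'⟩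
  have hne : F.map (algebraMap L[X] (RatFunc L)) ≠ 0 := hirr'.ne_zero
  have : FiniteDimensional (RatFunc L) (FF F) := (AdjoinRoot.powerBasis hne).finite
  have hfin : Module.finrank (RatFunc L) (FF F) = F.natDegree := by
    rw [(AdjoinRoot.powerBasis hne).finrank, AdjoinRoot.powerBasis_dim, hF.natDegree_map]
  have hdeg : 1 ≤ F.natDegree := by
    rcases Nat.eq_zero_or_pos F.natDegree with h | h
    · exact absurd (hF.natDegree_eq_zero.1 h ▸ isUnit_one) hirr.not_isUnit
    · exact h
  -- basis
  obtain ⟨b0⟩ := free_int (K := RatFunc L) (L := FF F) (kk X) (kk (C w)) hs hs1 hdom hdvr hp hcap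
  let b : Module.Basis (Fin F.natDegree) R (integralClosure R (FF F)) :=
    b0.reindex (finCongr hfin)
  -- scaled integral elements
  have hsc := fun i => int_scale (R := R) (E := FF F) w hw (algebraMap L[X] (FF F)) kk (by
    intro q
    rw [IsScalarTower.algebraMap_apply R (RatFunc L) (FF F), hkk,
      ← IsScalarTower.algebraMap_apply L[X] (RatFunc L) (FF F)]) (θ i) (hθ i)
  choose a ha using hsc
  obtain ⟨j, hj⟩ := clear w hw (Δ.coeff 0)
  set e : ℕ := (Finset.univ.sup a) + j with he
  have hei : ∀ i, a i ≤ e := fun i => le_trans (Finset.le_sup (Finset.mem_univ i)) (by omega)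
  have hθ' : ∀ i, IsIntegral R (algebraMap (RatFunc L) (FF F)
      (algebraMap R (RatFunc L) (kk (C w ^ e))) * θ i) := by
    intro i
    have h := ha i e (hei i)
    rw [← map_pow, ← map_pow, IsScalarTower.algebraMap_apply R (RatFunc L) (FF F)] at h
    exact h
  -- the discriminant
  obtain ⟨c, hc⟩ := hj (2 * F.natDegree * e) (by
    have : e ≤ 2 * F.natDegree * e := Nat.le_mul_of_pos_left _ (by omega)
    omega)
  have hwL : algebraMap O L w ≠ 0 := by
    rw [Ne, FaithfulSMul.algebraMap_eq_zero_iff]; exact hw.ne_zero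
  have hc0 : c ≠ 0 := by
    rintro rfl
    rw [map_zero, mul_eq_zero] at hc
    rcases hc with hc | hc
    · exact pow_ne_zero _ hwL hc
    · exact hΔ hc
  obtain ⟨a', u, hu⟩ := IsDiscreteValuationRing.eq_unit_mul_pow_irreducible hc0 hw
  obtain ⟨Δ', hΔ'⟩ : ∃ Δ' : O[X], Δ'.map (algebraMap O L) = C (Δ.coeff 0)⁻¹ * Δ := by
    have h : C (Δ.coeff 0)⁻¹ * Δ ∈ lifts (algebraMap O L) := by
      rw [lifts_iff_coeff_lifts]
      intro n
      obtain ⟨x, hx⟩ := hO n
      refine ⟨x, ?_⟩
      rw [coeff_C_mul, ← hx]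
      ring
    exact (mem_lifts _).1 h
  have hΔ0 : Δ'.coeff 0 = 1 := by
    apply FaithfulSMul.algebraMap_injective O L
    have := congrArg (fun p => Polynomial.coeff p 0) hΔ'
    simp only [coeff_map, coeff_C_mul] at this
    rw [this, map_one, inv_mul_cancel₀ hΔ]
  have hunitD : IsUnit (kk (C (u : O) * Δ')) := by
    apply hunit
    rw [hT]
    simp [hΔ0]
  obtain ⟨v, hv⟩ := hunitD
  have hdisc : Algebra.discr (RatFunc L) (fun i => algebraMap (RatFunc L) (FF F)
      (algebraMap R (RatFunc L) (kk (C w ^ e))) * θ i) =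
      algebraMap R (RatFunc L) (kk (C w) ^ a' * v) := by
    have hL1 : algebraMap R (RatFunc L) (kk (C w) ^ a' * v) =
        algebraMap L[X] (RatFunc L) ((C w ^ a' * (C (u : O) * Δ')).map (algebraMap O L)) := by
      rw [hv, ← map_pow kk, ← map_mul kk, hkk]
    have hL2 : algebraMap R (RatFunc L) (kk (C w ^ e)) ^ (2 * F.natDegree) =
        algebraMap L[X] (RatFunc L)
          (((C w ^ e) ^ (2 * F.natDegree) : O[X]).map (algebraMap O L)) := by
      rw [hkk, ← map_pow (algebraMap L[X] (RatFunc L)), Polynomial.map_pow (algebraMap O L)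
        (2 * F.natDegree) (p := C w ^ e)]
    rw [discr_smul, hd, Fintype.card_fin, hL1, hL2, ← map_mul (algebraMap L[X] (RatFunc L))]
    congr 1
    rw [Polynomial.map_mul, Polynomial.map_mul, hΔ', Polynomial.map_pow, Polynomial.map_pow,
      Polynomial.map_pow, Polynomial.map_C, Polynomial.map_C]
    have h1 : algebraMap O L w ^ (2 * F.natDegree * e) * Δ.coeff 0 =
        algebraMap O L (u : O) * algebraMap O L w ^ a' := by
      rw [hc, hu, map_mul, map_pow]
    have h2 : C (algebraMap O L w) ^ a' * (C (algebraMap O L ↑u) * (C (Δ.coeff 0)⁻¹ * Δ)) =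
        C (algebraMap O L (u : O) * algebraMap O L w ^ a') * (C (Δ.coeff 0)⁻¹ * Δ) := by
      rw [C_mul, C_pow]; ring
    rw [h2, ← h1, ← C_pow, ← C_pow]
    have h3 : C (algebraMap O L w ^ (2 * F.natDegree * e) * Δ.coeff 0) * (C (Δ.coeff 0)⁻¹ * Δ) =
        C (algebraMap O L w ^ (2 * F.natDegree * e) * (Δ.coeff 0 * (Δ.coeff 0)⁻¹)) * Δ := by
      simp only [C_mul]; ring
    rw [h3, mul_inv_cancel₀ hΔ, mul_one]
    congr 2
    rw [← pow_mul]
    congr 1
    ring
  obtain ⟨b', hb'⟩ := dual_int (K := RatFunc L) (L := FF F) (kk (C w)) wA hwp hwA hww hRA hloc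
    hcapA _ hθ' (by rw [Fintype.card_fin, hfin]) ⟨a', v, hdisc⟩ m (by
      intro n h1 h2 h3
      rw [hfin] at h2
      exact hm n h1 h2 (hdvd n m h3)) b
  -- the expansion
  obtain ⟨Φ, hΦ1, hΦ2, hΦ3⟩ := exists_phi (R := R) T F y0 Y hY
    (exE_comp kk hkk hfr T hT F y0 Y hY)
  -- the root
  obtain ⟨a1, ha1⟩ := int_scale (R := R) (E := FF F) w hw (algebraMap L[X] (FF F)) kk (by
    intro q
    rw [IsScalarTower.algebraMap_apply R (RatFunc L) (FF F), hkk,
      ← IsScalarTower.algebraMap_apply L[X] (RatFunc L) (FF F)]) (AdjoinRoot.root _) (by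
    refine ⟨F, hF, ?_⟩
    have h := AdjoinRoot.eval₂_root (F.map (algebraMap L[X] (RatFunc L)))
    rw [eval₂_map] at h
    exact h)
  let f : integralClosure R (FF F) := ⟨_, ha1 a1 le_rfl⟩
  have hf : Φ f = PowerSeries.C (algebraMap O L w ^ a1) * Y := by
    apply FaithfulSMul.algebraMap_injective (PowerSeries L) (LaurentSeries L)
    rw [hΦ1]
    change exE F y0 Y hY (algebraMap R (FF F) (kk (C w)) ^ a1 * AdjoinRoot.root _) = _
    rw [map_mul, map_mul, exE_root, map_pow, IsScalarTower.algebraMap_apply R (RatFunc L) (FF F),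
      exE_comp kk hkk hfr T hT F y0 Y hY, hT]
    congr 1
    rw [← map_pow]
    congr 1
    simp
  refine ⟨m + a1, fun k => ?_⟩
  have hwR : kk (C w) ^ m = kk (C (w ^ m)) := by rw [C_pow, map_pow]
  obtain ⟨z, hz⟩ := coeff_bound b b' (w ^ m) (pow_ne_zero _ hw.ne_zero) (kk (C w) ^ m) (kk X) T
    (by rw [hwR, hT]; simp) (by rw [hT]; simp) hker (fun x => ⟨kk (C x), by rw [hT]; simp⟩)
    (by
      intro i j
      apply FaithfulSMul.algebraMap_injective R (RatFunc L)
      rw [← tr_down (K := RatFunc L) b]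
      have h := hb' i j
      rw [← Subalgebra.coe_mul] at h
      rw [h]
      split_ifs
      · rw [map_pow]
      · rw [map_zero]) Φ hΦ2 hΦ3 f k
  refine ⟨z, ?_⟩
  rw [← hz, hf, PowerSeries.coeff_C_mul, map_pow, ← pow_mul]
  have e1 : m + a1 + 2 * m * k = m * (2 * k + 1) + a1 := by ring
  rw [e1, pow_add]
  ring

end abs

section conc

/-- transport of the fraction field -/
theorem frac_transport {S K K' : Type*} [CommRing S] [Field K] [Field K'] [Algebra S K]
    [IsFractionRing S K] (e : K ≃+* K') :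
    @IsFractionRing S _ K' _ ((e.toRingHom.comp (algebraMap S K)).toAlgebra) := by
  letI : Algebra S K' := (e.toRingHom.comp (algebraMap S K)).toAlgebra
  exact IsLocalization.isLocalization_of_algEquiv (nonZeroDivisors S)
    (AlgEquiv.ofRingEquiv (f := e) (fun r => rfl))

/-- the two fields of rational functions -/
theorem exists_equiv (O L : Type*) [CommRing O] [IsDomain O] [Field L] [Algebra O L]
    [IsFractionRing O L] :
    ∃ e : FractionRing O[X] ≃+* RatFunc L, ∀ q : O[X],
      e (algebraMap O[X] (FractionRing O[X]) q) =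
        algebraMap L[X] (RatFunc L) (q.map (algebraMap O L)) := by
  have hinj : Function.Injective ((algebraMap L[X] (RatFunc L)).comp
      (mapRingHom (algebraMap O L))) := by
    rw [RingHom.coe_comp]
    apply Function.Injective.comp (FaithfulSMul.algebraMap_injective _ _)
    exact map_injective _ (FaithfulSMul.algebraMap_injective O L)
  set e0 : FractionRing O[X] →+* RatFunc L := IsFractionRing.lift hinj with he0
  have hq : ∀ q : O[X], e0 (algebraMap O[X] (FractionRing O[X]) q) =
      algebraMap L[X] (RatFunc L) (q.map (algebraMap O L)) := fun q =>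
    IsFractionRing.lift_algebraMap hinj q
  have hpol : ∀ p : L[X], ∃ z, e0 z = algebraMap L[X] (RatFunc L) p := by
    intro p
    obtain ⟨⟨c, hc⟩, hb⟩ := IsLocalization.exist_integer_multiples (nonZeroDivisors O) p.support
      p.coeff
    have hc0 : c ≠ 0 := nonZeroDivisors.ne_zero hc
    have hcL : algebraMap O L c ≠ 0 := by
      rw [Ne, FaithfulSMul.algebraMap_eq_zero_iff]; exact hc0
    have h : C (algebraMap O L c) * p ∈ lifts (algebraMap O L) := by
      rw [lifts_iff_coeff_lifts]
      intro n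
      rw [coeff_C_mul]
      by_cases hn : n ∈ p.support
      · obtain ⟨x, hx⟩ := hb n hn
        refine ⟨x, ?_⟩
        rw [hx]
        simp [Algebra.smul_def]
      · rw [notMem_support_iff.1 hn]
        exact ⟨0, by simp⟩
    obtain ⟨q, hq'⟩ := (mem_lifts _).1 h
    refine ⟨(algebraMap O[X] (FractionRing O[X]) (C c))⁻¹ *
      algebraMap O[X] (FractionRing O[X]) q, ?_⟩
    rw [map_mul, map_inv₀, hq, hq, hq', Polynomial.map_C, map_mul, ← mul_assoc,
      inv_mul_cancel₀, one_mul]
    rw [Ne, FaithfulSMul.algebraMap_eq_zero_iff, C_eq_zero]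
    exact hcL
  have hsurj : Function.Surjective e0 := by
    intro z
    obtain ⟨p, q, -, rfl⟩ := IsFractionRing.div_surjective (A := L[X]) z
    obtain ⟨x, hx⟩ := hpol p
    obtain ⟨y, hy⟩ := hpol q
    exact ⟨x / y, by rw [map_div₀, hx, hy]⟩
  exact ⟨RingEquiv.ofBijective e0 ⟨e0.injective, hsurj⟩, hq⟩

universe u

theorem gauss_ring' {O : Type u} [CommRing O] [IsDomain O] [IsDiscreteValuationRing O] (w : O)
    (hw : Irreducible w) :
    ∃ (A : Type u) (_ : CommRing A) (_ : IsDomain A) (_ : IsDiscreteValuationRing A)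
      (_ : Algebra A (FractionRing O[X])) (_ : IsFractionRing A (FractionRing O[X])) (wA : A),
      Irreducible wA ∧
      algebraMap A (FractionRing O[X]) wA = algebraMap (RR O) (FractionRing O[X]) (cc O w) ∧
      (∀ r : RR O, ∃ a : A, algebraMap A (FractionRing O[X]) a =
        algebraMap (RR O) (FractionRing O[X]) r) ∧
      (∀ a : A, ∃ (r t : RR O) (u : Aˣ),
        algebraMap A (FractionRing O[X]) u = algebraMap (RR O) (FractionRing O[X]) t ∧
        algebraMap A (FractionRing O[X]) a * algebraMap (RR O) (FractionRing O[X]) t =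
          algebraMap (RR O) (FractionRing O[X]) r) ∧
      (∀ z : FractionRing O[X], (∃ a : A, algebraMap A (FractionRing O[X]) a = z) →
        (∃ (k : ℕ) (r : RR O), algebraMap (RR O) (FractionRing O[X]) (cc O w) ^ k * z =
          algebraMap (RR O) (FractionRing O[X]) r) →
        ∃ r : RR O, z = algebraMap (RR O) (FractionRing O[X]) r) ∧
      ∀ (n m : ℕ), wA ^ m ∣ (n : A) → w ^ m ∣ (n : O) :=
  gauss_ring w hw

end conc

end PM

theorem p_main {O L : Type*} [CommRing O] [IsDomain O] [IsDiscreteValuationRing O] [Field L]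
    [CharZero L] [Algebra O L] [IsFractionRing O L] (F : L[X][X]) (hF : F.Monic)
    (hirr : Irreducible F) (y0 : L) (Y : PowerSeries L) (hs : (at_ F 0).Separable)
    (hY : IsSer F 0 y0 Y)
    (θ : Fin F.natDegree → FF F) (hθ : ∀ i, IsIntegral L[X] (θ i)) (Δ : L[X]) (hΔ : Δ.coeff 0 ≠ 0)
    (hd : Algebra.discr (RatFunc L) θ = algebraMap L[X] (RatFunc L) Δ)
    (hO : ∀ k, ∃ a : O, Δ.coeff k / Δ.coeff 0 = algebraMap O L a) (w : O) (hw : Irreducible w)
    (m : ℕ) (hm : ∀ n : ℕ, 1 ≤ n → n ≤ F.natDegree → ¬ w ^ m ∣ (n : O)) :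
    ∃ N : ℕ, ∀ k, ∃ a : O, algebraMap O L w ^ (N + 2 * m * k) * Y.coeff k = algebraMap O L a := by
  have i1 := rr_noeth O
  have i2 := rr_domain O
  have i3 := rr_intclosed O
  obtain ⟨T, hT, hker, hunit⟩ := rr_exp O
  obtain ⟨e, he⟩ := PM.exists_equiv O L
  obtain ⟨A, j1, j2, j3, j4, j5, wA, hwA, hww, hRA, hloc, hcapA, hdvd⟩ := PM.gauss_ring' w hw
  letI aR : Algebra (RR O) (RatFunc L) :=
    (e.toRingHom.comp (algebraMap (RR O) (FractionRing O[X]))).toAlgebra
  have fR : IsFractionRing (RR O) (RatFunc L) := PM.frac_transport e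
  letI aA : Algebra A (RatFunc L) := (e.toRingHom.comp (algebraMap A (FractionRing O[X]))).toAlgebra
  have fA : IsFractionRing A (RatFunc L) := PM.frac_transport e
  have hR : ∀ r : RR O, algebraMap (RR O) (RatFunc L) r =
      e (algebraMap (RR O) (FractionRing O[X]) r) := fun r => rfl
  have hA : ∀ r : A, algebraMap A (RatFunc L) r =
      e (algebraMap A (FractionRing O[X]) r) := fun r => rfl
  refine PM.abs_main (O := O) (L := L) (R := RR O) (A := A) (algebraMap O[X] (RR O)) ?_ ?_ T hT
    hker hunit (xs_prime O) (xs_mem O) (quot_domain O) (quot_dvr O) w hw (quot_irr w hw) ?_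
    (cc_prime w hw) wA hwA ?_ ?_ ?_ ?_ hdvd F hF hirr y0 Y hY θ hθ Δ hΔ hd hO m hm
  · intro q
    rw [hR, ← IsScalarTower.algebraMap_apply O[X] (RR O) (FractionRing O[X]), he]
  · intro r
    obtain ⟨⟨q, t⟩, h⟩ := IsLocalization.surj (mm O).primeCompl r
    refine ⟨q, t, ?_, h⟩
    intro h0
    apply t.2
    rw [h0]
    exact (mm O).zero_mem
  · rintro z ⟨k, r, h1⟩ ⟨k', r', h2⟩
    obtain ⟨z0, rfl⟩ := e.surjective z
    obtain ⟨x, hx⟩ := cap_xw w hw z0 ⟨k, r, by
        apply e.injective
        rw [map_mul, map_pow]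
        exact h1⟩ ⟨k', r', by
        apply e.injective
        rw [map_mul, map_pow]
        exact h2⟩
    exact ⟨x, by rw [hx, hR]⟩
  · rw [hA, hww, hR]
    rfl
  · intro r
    obtain ⟨a, ha⟩ := hRA r
    exact ⟨a, by rw [hA, ha, hR]⟩
  · intro a
    obtain ⟨r, t, u, h1, h2⟩ := hloc a
    refine ⟨r, t, u, by rw [hA, h1, hR], ?_⟩
    rw [hA, hR, ← map_mul, h2, hR]
  · rintro z ⟨a, ha⟩ ⟨k', r', h2⟩
    obtain ⟨z0, rfl⟩ := e.surjective z
    obtain ⟨x, hx⟩ := hcapA z0 ⟨a, e.injective ha⟩ ⟨k', r', by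
        apply e.injective
        rw [map_mul, map_pow]
        exact h2⟩
    exact ⟨x, by rw [hx, hR]⟩

end ALC
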