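import Pool.Agent.ALC.Defs

/-!
The sheets of the covering x : X -> P^1 over the points with F(x, .) separable.
-/

open Polynomial Metric

namespace ALC

variable (F : ℂ[X][X])

private theorem sheets_monic (hF : F.Monic) (x : ℂ) : (at_ F x).Monic := hF.map _

private theorem sheets_deg (hF : F.Monic) (x : ℂ) : (at_ F x).natDegree = F.natDegree :=
  hF.natDegree_map _

private theorem sheets_mem (hF : F.Monic) (x y : ℂ) : y ∈ fib F x ↔ (at_ F x).eval y = 0 := by
  unfold fib
  rw [Multiset.mem_toFinset, mem_roots (sheets_monic F hF x).ne_zero, IsRoot.def]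

/-- the resultant with the derivative -/
private noncomputable def sheetsR : ℂ[X] :=
  resultant F F.derivative F.natDegree (F.natDegree - 1)

private theorem sheetsR_eval (hF : F.Monic) (x : ℂ) :
    (sheetsR F).eval x = 0 ↔ ¬ (at_ F x).Separable := by
  have hm := sheets_monic F hF x
  have h1 : (sheetsR F).eval x =
      resultant (at_ F x) (at_ F x).derivative F.natDegree (F.natDegree - 1) := by
    have := resultant_map_map F F.derivative F.natDegree (F.natDegree - 1) (evalRingHom x)
    rw [sheetsR, at_, derivative_map, this]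
    rfl
  have hle : (at_ F x).derivative.natDegree ≤ F.natDegree - 1 := by
    rw [← sheets_deg F hF x]
    exact natDegree_derivative_le _
  obtain ⟨k, hk⟩ := Nat.exists_eq_add_of_le hle
  have h2 : resultant (at_ F x) (at_ F x).derivative F.natDegree (F.natDegree - 1) =
      resultant (at_ F x) (at_ F x).derivative := by
    rw [hk, resultant_add_right_deg _ _ _ _ _ le_rfl, ← sheets_deg F hF x, hm.coeff_natDegree,
      one_pow, one_mul]
  rw [h1, h2, resultant_eq_zero_iff]
  constructor
  · exact fun h => h.2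
  · exact fun h => ⟨Or.inl hm.ne_zero, h⟩

/-- the discriminant (resultant) is a nonzero polynomial in x -/
theorem bad_finite (hF : F.Monic) (b : ℂ) (hb : (at_ F b).Separable) :
    {x : ℂ | ¬ (at_ F x).Separable}.Finite := by
  have h0 : sheetsR F ≠ 0 := by
    intro h
    exact (sheetsR_eval F hF b).mp (by rw [h, eval_zero]) hb
  have h1 : {x : ℂ | ¬ (at_ F x).Separable} = {x : ℂ | IsRoot (sheetsR F) x} := by
    ext x
    exact (sheetsR_eval F hF x).symm
  rw [h1]
  exact finite_setOfPred_isRoot h0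

private theorem sheets_open (hF : F.Monic) (x0 : ℂ) (h0 : (at_ F x0).Separable) :
    ∀ᶠ x in nhds x0, (at_ F x).Separable := by
  have h1 : (sheetsR F).eval x0 ≠ 0 := fun h => (sheetsR_eval F hF x0).mp h h0
  have h2 := ((sheetsR F).continuous.continuousAt (x := x0)).eventually_ne h1
  filter_upwards [h2] with x hx
  by_contra hn
  exact hx ((sheetsR_eval F hF x).mpr hn)

private theorem sheets_contDiff : ContDiff ℂ 1 (fun v : ℂ × ℂ => (at_ F v.1).eval v.2) := by
  have h : (fun v : ℂ × ℂ => (at_ F v.1).eval v.2) =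
      fun v => ∑ i ∈ Finset.range (F.natDegree + 1), (F.coeff i).eval v.1 * v.2 ^ i := by
    funext v
    have hlt : (at_ F v.1).natDegree < F.natDegree + 1 :=
      lt_of_le_of_lt natDegree_map_le (Nat.lt_succ_self _)
    rw [eval_eq_sum_range' hlt]
    refine Finset.sum_congr rfl fun i _ => ?_
    rw [at_, coeff_map]
    rfl
  rw [h]
  refine ContDiff.sum fun i _ => ?_
  have h1 : ContDiff ℂ 1 (fun x : ℂ => (F.coeff i).eval x) := by
    have := (F.coeff i).contDiff_aeval (𝕜 := ℂ) 1
    simpa using this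
  exact (h1.comp contDiff_fst).mul (contDiff_snd.pow i)

/-- the implicit function theorem at a simple root -/
private theorem sheets_local (x0 y0 : ℂ) (h0 : (at_ F x0).eval y0 = 0)
    (h1 : (at_ F x0).derivative.eval y0 ≠ 0) : ∃ Y : ℂ → ℂ, Y x0 = y0 ∧ ContinuousAt Y x0 ∧
      (∀ᶠ x in nhds x0, (at_ F x).eval (Y x) = 0 ∧ DifferentiableAt ℂ Y x) ∧
      ∀ᶠ v in nhds (x0, y0), (at_ F v.1).eval v.2 = 0 ↔ Y v.1 = v.2 := by
  have hc : ContDiffAt ℂ 1 (fun v : ℂ × ℂ => (at_ F v.1).eval v.2) (x0, y0) :=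
    (sheets_contDiff F).contDiffAt
  have hinv : (fderiv ℂ (fun v : ℂ × ℂ => (at_ F v.1).eval v.2) (x0, y0) ∘L
      ContinuousLinearMap.inr ℂ ℂ ℂ).IsInvertible := by
    refine ⟨ContinuousLinearEquiv.unitsEquivAut ℂ (Units.mk0 _ h1), ?_⟩
    have hd : HasFDerivAt (fun y : ℂ => (at_ F x0).eval y)
        (fderiv ℂ (fun v : ℂ × ℂ => (at_ F v.1).eval v.2) (x0, y0) ∘L
          ContinuousLinearMap.inr ℂ ℂ ℂ) y0 := by
      have e1 : HasFDerivAt (fun v : ℂ × ℂ => (at_ F v.1).eval v.2)
          (fderiv ℂ (fun v : ℂ × ℂ => (at_ F v.1).eval v.2) (x0, y0)) (x0, y0) :=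
        (hc.differentiableAt one_ne_zero).hasFDerivAt
      have e2 : HasFDerivAt (fun y : ℂ => (x0, y)) (ContinuousLinearMap.inr ℂ ℂ ℂ) y0 :=
        hasFDerivAt_prodMk_right x0 y0
      exact HasFDerivAt.comp y0 e1 e2
    have hd' : HasFDerivAt (fun y : ℂ => (at_ F x0).eval y) _ y0 :=
      ((at_ F x0).hasDerivAt y0).hasFDerivAt
    rw [hd.unique hd']
    ext
    simp
  refine ⟨hc.implicitFunction one_ne_zero hinv, hc.implicitFunction_apply_self one_ne_zero hinv,
    ?_, ?_, ?_⟩
  · exact (hc.contDiffAt_implicitFunction one_ne_zero hinv).continuousAt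
  · have e1 := hc.eventually_apply_implicitFunction one_ne_zero hinv
    have e2 := (hc.contDiffAt_implicitFunction one_ne_zero hinv).eventually (by simp)
    filter_upwards [e1, e2] with x hx1 hx2
    exact ⟨hx1.trans h0, hx2.differentiableAt one_ne_zero⟩
  · have e1 := hc.eventually_apply_eq_iff_implicitFunction one_ne_zero hinv
    filter_upwards [e1] with v hv
    rw [← hv, h0]

private theorem sheets_simple (x y : ℂ) (hs : (at_ F x).Separable)
    (h : (at_ F x).eval y = 0) : (at_ F x).derivative.eval y ≠ 0 := by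
  intro h1
  obtain ⟨a, b, hab⟩ := hs
  have := congrArg (Polynomial.eval y) hab
  rw [eval_add, eval_mul, eval_mul, h, h1, mul_zero, mul_zero, add_zero, eval_one] at this
  exact zero_ne_one this

private theorem sheets_card (hF : F.Monic) (x : ℂ) (hs : (at_ F x).Separable) :
    (fib F x).card = F.natDegree := by
  unfold fib
  rw [Multiset.toFinset_card_of_nodup (nodup_roots hs),
    ← (IsAlgClosed.splits (at_ F x)).natDegree_eq_card_roots, sheets_deg F hF]

/-- implicit function theorem -/
theorem sheets (hF : F.Monic) (x0 : ℂ) (h0 : (at_ F x0).Separable) :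
    ∃ r : ℝ, 0 < r ∧ ∃ Y : Fin F.natDegree → ℂ → ℂ, (∀ j, IsBranch F (ball x0 r) (Y j)) ∧
      ∀ x ∈ ball x0 r, Function.Injective (fun j => Y j x) ∧ ∀ y, y ∈ fib F x ↔ ∃ j, Y j x = y := by
  classical
  let e := Finset.equivFinOfCardEq (sheets_card F hF x0 h0)
  let ys : Fin F.natDegree → ℂ := fun j => (e.symm j : ℂ)
  have hys : Function.Injective ys := fun i j hij => e.symm.injective (Subtype.ext hij)
  have hroot : ∀ j, (at_ F x0).eval (ys j) = 0 := fun j =>
    (sheets_mem F hF x0 (ys j)).mp (e.symm j).2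
  choose Y hY0 hYc hYe hYu using fun j =>
    sheets_local F x0 (ys j) (hroot j) (sheets_simple F x0 (ys j) h0 (hroot j))
  have hev1 : ∀ᶠ x in nhds x0, ∀ j, (at_ F x).eval (Y j x) = 0 ∧ DifferentiableAt ℂ (Y j) x :=
    Filter.eventually_all.mpr hYe
  have hev2 : ∀ᶠ x in nhds x0, ∀ i j, i ≠ j → Y i x ≠ Y j x := by
    rw [Filter.eventually_all]
    intro i
    rw [Filter.eventually_all]
    intro j
    by_cases hij : i = j
    · exact Filter.Eventually.of_forall fun x h => absurd hij h
    · have h1 : Y i x0 - Y j x0 ≠ 0 := by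
        rw [hY0, hY0]
        exact sub_ne_zero.mpr fun h => hij (hys h)
      have h2 := ((hYc i).sub (hYc j)).eventually_ne h1
      filter_upwards [h2] with x hx _
      exact sub_ne_zero.mp hx
  obtain ⟨r, hr, hball⟩ := Metric.eventually_nhds_iff_ball.mp
    ((hev1.and hev2).and (sheets_open F hF x0 h0))
  refine ⟨r, hr, Y, fun j => ⟨isOpen_ball, fun x hx => ?_, fun x hx => ?_⟩, fun x hx => ⟨?_, ?_⟩⟩
  · exact ((hball x hx).1.1 j).2.differentiableWithinAt
  · exact ⟨(hball x hx).2, ((hball x hx).1.1 j).1⟩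
  · intro i j hij
    by_contra hne
    exact (hball x hx).1.2 i j hne hij
  · have hinj : Function.Injective (fun j => Y j x) := by
      intro i j hij
      by_contra hne
      exact (hball x hx).1.2 i j hne hij
    have hsub : Finset.univ.image (fun j => Y j x) ⊆ fib F x := by
      intro y hy
      obtain ⟨j, _, rfl⟩ := Finset.mem_image.mp hy
      exact (sheets_mem F hF x _).mpr ((hball x hx).1.1 j).1
    have heq : Finset.univ.image (fun j => Y j x) = fib F x := by
      apply Finset.eq_of_subset_of_card_le hsub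
      rw [sheets_card F hF x (hball x hx).2, Finset.card_image_of_injective _ hinj,
        Finset.card_univ, Fintype.card_fin]
    intro y
    rw [← heq, Finset.mem_image]
    simp

/-- two branches over a connected set which agree at one point are equal -/
theorem branch_eq (hF : F.Monic) (U : Set ℂ) (hU : IsPreconnected U) (Y Z : ℂ → ℂ)
    (hY : IsBranch F U Y) (hZ : IsBranch F U Z) (x0 : ℂ) (hx : x0 ∈ U) (h : Y x0 = Z x0) :
    ∀ x ∈ U, Y x = Z x := by
  obtain ⟨hUo, hYd, hYr⟩ := hY
  obtain ⟨_, hZd, hZr⟩ := hZ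
  obtain ⟨W, hW0, hWc, hWe, hWu⟩ := sheets_local F x0 (Y x0) (hYr x0 hx).2
    (sheets_simple F x0 (Y x0) (hYr x0 hx).1 (hYr x0 hx).2)
  have hU' : U ∈ nhds x0 := hUo.mem_nhds hx
  have hYc : ContinuousAt Y x0 := (hYd.differentiableAt hU').continuousAt
  have hZc : ContinuousAt Z x0 := (hZd.differentiableAt hU').continuousAt
  have hYt : Filter.Tendsto (fun x => (x, Y x)) (nhds x0) (nhds (x0, Y x0)) :=
    continuousAt_id.prodMk hYc
  have hZt : Filter.Tendsto (fun x => (x, Z x)) (nhds x0) (nhds (x0, Y x0)) := by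
    rw [h]
    exact continuousAt_id.prodMk hZc
  have hev : Y =ᶠ[nhds x0] Z := by
    filter_upwards [hYt.eventually hWu, hZt.eventually hWu, hU'] with x h1 h2 h3
    rw [← h1.mp (hYr x h3).2, ← h2.mp (hZr x h3).2]
  exact (hYd.analyticOnNhd hUo).eqOn_of_preconnected_of_eventuallyEq (hZd.analyticOnNhd hUo) hU hx
    hev

theorem mem_fib (hF : F.Monic) (x y : ℂ) : y ∈ fib F x ↔ (at_ F x).eval y = 0 :=
  sheets_mem F hF x y

end ALC
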