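import Pool.Agent.ALC.Sheets

/-!
The sum of the squares of a function over the sheets: Delta (f^2) = 2 |grad f|^2 + 2 f Delta f.
-/

open Polynomial Metric

namespace ALC

private lemma sq_fderiv (f : ℂ → ℝ) (x : ℂ) (hf : ContDiffAt ℝ 2 f x) (v : ℂ) :
    iteratedFDeriv ℝ 2 (fun z => f z ^ 2) x ![v, v] =
      2 * (fderiv ℝ f x v) ^ 2 + 2 * (f x * iteratedFDeriv ℝ 2 f x ![v, v]) := by
  rw [iteratedFDeriv_two_apply, iteratedFDeriv_two_apply]
  have h1 : ∀ᶠ y in nhds x, DifferentiableAt ℝ f y := by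
    filter_upwards [hf.eventually (by simp)] with y hy
    exact hy.differentiableAt (by simp)
  have h2 : fderiv ℝ (fun z => f z ^ 2) =ᶠ[nhds x] fun y => (2 * f y) • fderiv ℝ f y := by
    filter_upwards [h1] with y hy
    have h3 := (hy.hasFDerivAt.pow 2).fderiv
    rw [h3]
    simp
  rw [h2.fderiv_eq]
  have hd : DifferentiableAt ℝ f x := hf.differentiableAt (by simp)
  have hd2 : DifferentiableAt ℝ (fderiv ℝ f) x := by
    have h3 : ContDiffAt ℝ 1 (fderiv ℝ f) x := hf.fderiv_right (by norm_num)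
    exact h3.differentiableAt (by simp)
  have h4 : fderiv ℝ (fun y => (2 * f y) • fderiv ℝ f y) x =
      (2 * f x) • fderiv ℝ (fderiv ℝ f) x + (fderiv ℝ (fun y => 2 * f y) x).smulRight
        (fderiv ℝ f x) := fderiv_fun_smul (hd.const_mul 2) hd2
  rw [h4]
  have h5 : fderiv ℝ (fun y => 2 * f y) x = (2 : ℝ) • fderiv ℝ f x := by
    rw [fderiv_const_mul hd]
  rw [h5]
  simp
  ring

/-- `Δ (f^2) = 2 f Δ f + 2 |∇ f|^2 ≥ 2 f Δ f` -/
theorem lap_sq (f : ℂ → ℝ) (x : ℂ) (hf : ContDiffAt ℝ 2 f x) :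
    2 * (f x * Laplacian.laplacian f x) ≤ Laplacian.laplacian (fun z => f z ^ 2) x := by
  have h1 := congrFun (InnerProductSpace.laplacian_eq_iteratedFDeriv_complexPlane f) x
  have h2 := congrFun
    (InnerProductSpace.laplacian_eq_iteratedFDeriv_complexPlane (fun z => f z ^ 2)) x
  rw [h1, h2, sq_fderiv f x hf 1, sq_fderiv f x hf Complex.I]
  nlinarith [sq_nonneg (fderiv ℝ f x 1), sq_nonneg (fderiv ℝ f x Complex.I)]

private lemma lap_sum {ι : Type} (s : Finset ι) (f : ι → ℂ → ℝ) (x : ℂ)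
    (hf : ∀ j ∈ s, ContDiffAt ℝ 2 (f j) x) :
    Laplacian.laplacian (fun z => ∑ j ∈ s, f j z) x = ∑ j ∈ s, Laplacian.laplacian (f j) x := by
  classical
  induction s using Finset.induction_on with
  | empty =>
    simp only [Finset.sum_empty]
    have := congrFun (InnerProductSpace.laplacian_const (E := ℂ) (c := (0 : ℝ))) x
    simpa using this
  | insert a s ha ih =>
    have h1 : (fun z => ∑ j ∈ insert a s, f j z) = f a + fun z => ∑ j ∈ s, f j z := by
      funext z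
      rw [Finset.sum_insert ha]
      rfl
    rw [h1, ContDiffAt.laplacian_add (hf a (Finset.mem_insert_self _ _))
      (ContDiffAt.sum fun j hj => hf j (Finset.mem_insert_of_mem hj)), Finset.sum_insert ha,
      ih fun j hj => hf j (Finset.mem_insert_of_mem hj)]

theorem sq (F : ℂ[X][X]) (hF : F.Monic) (S : Finset ℂ) (hS : ∀ x, x ∉ S → (at_ F x).Separable)
    (f Lf : ℂ → ℂ → ℝ)
    (hf : ∀ U Y, IsBranch F U Y → (∀ x ∈ U, x ∉ S) → ContDiffOn ℝ 2 (fun x => f x (Y x)) U ∧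
      ∀ x ∈ U, Laplacian.laplacian (fun x => f x (Y x)) x = Lf x (Y x)) :
    ContDiffOn ℝ 2 (fun x => ∑ y ∈ fib F x, f x y ^ 2) ((S : Set ℂ)ᶜ) ∧
      ∀ x, x ∉ S → 2 * ∑ y ∈ fib F x, f x y * Lf x y ≤
        Laplacian.laplacian (fun x => ∑ y ∈ fib F x, f x y ^ 2) x := by
  classical
  -- the local situation
  have key : ∀ x0, x0 ∉ S → ∃ r : ℝ, 0 < r ∧ ∃ Y : Fin F.natDegree → ℂ → ℂ,
      (∀ j, ContDiffOn ℝ 2 (fun x => f x (Y j x)) (ball x0 r)) ∧
      (∀ j, Laplacian.laplacian (fun x => f x (Y j x)) x0 = Lf x0 (Y j x0)) ∧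
      ∀ g : ℂ → ℂ → ℝ, ∀ x ∈ ball x0 r, ∑ y ∈ fib F x, g x y = ∑ j, g x (Y j x) := by
    intro x0 hx0
    obtain ⟨r, hr, Y, hY, hfib⟩ := sheets F hF x0 (hS x0 hx0)
    have hopen : IsOpen ((S : Set ℂ)ᶜ) := S.finite_toSet.isClosed.isOpen_compl
    obtain ⟨r', hr', hball⟩ := Metric.isOpen_iff.mp hopen x0 (by simpa using hx0)
    have hsub : ball x0 (min r r') ⊆ ball x0 r := ball_subset_ball (min_le_left _ _)
    have hsub' : ∀ x ∈ ball x0 (min r r'), x ∉ S := by
      intro x hx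
      have := hball (ball_subset_ball (min_le_right _ _) hx)
      simpa using this
    have hY' : ∀ j, IsBranch F (ball x0 (min r r')) (Y j) := fun j =>
      ⟨isOpen_ball, (hY j).2.1.mono hsub, fun x hx => (hY j).2.2 x (hsub hx)⟩
    have hmin : 0 < min r r' := lt_min hr hr'
    refine ⟨min r r', hmin, Y, fun j => (hf _ _ (hY' j) hsub').1,
      fun j => (hf _ _ (hY' j) hsub').2 x0 (mem_ball_self hmin), ?_⟩
    intro g x hx
    obtain ⟨hinj, himg⟩ := hfib x (hsub hx)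
    have h1 : fib F x = Finset.univ.image (fun j => Y j x) := by
      ext y
      rw [himg y, Finset.mem_image]
      simp
    rw [h1, Finset.sum_image fun a _ b _ h => hinj h]
  constructor
  · intro x0 hx0
    obtain ⟨r, hr, Y, h1, -, h3⟩ := key x0 (by simpa using hx0)
    have h4 : ContDiffAt ℝ 2 (fun x => ∑ j, f x (Y j x) ^ 2) x0 := by
      refine ContDiffAt.sum fun j _ => ?_
      exact ((h1 j).contDiffAt (isOpen_ball.mem_nhds (mem_ball_self hr))).pow 2
    have h5 : (fun x => ∑ y ∈ fib F x, f x y ^ 2) =ᶠ[nhds x0] fun x => ∑ j, f x (Y j x) ^ 2 := by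
      filter_upwards [isOpen_ball.mem_nhds (mem_ball_self hr)] with x hx
      exact h3 (fun x y => f x y ^ 2) x hx
    exact (h4.congr_of_eventuallyEq h5).contDiffWithinAt
  · intro x0 hx0
    obtain ⟨r, hr, Y, h1, h2, h3⟩ := key x0 hx0
    have h5 : (fun x => ∑ y ∈ fib F x, f x y ^ 2) =ᶠ[nhds x0] fun x => ∑ j, f x (Y j x) ^ 2 := by
      filter_upwards [isOpen_ball.mem_nhds (mem_ball_self hr)] with x hx
      exact h3 (fun x y => f x y ^ 2) x hx
    have h1' : ∀ j, ContDiffAt ℝ 2 (fun x => f x (Y j x)) x0 := fun j =>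
      (h1 j).contDiffAt (isOpen_ball.mem_nhds (mem_ball_self hr))
    rw [(InnerProductSpace.laplacian_congr_nhds h5).self_of_nhds,
      h3 (fun x y => f x y * Lf x y) x0 (mem_ball_self hr),
      lap_sum Finset.univ (fun j x => f x (Y j x) ^ 2) x0 fun j _ => (h1' j).pow 2,
      Finset.mul_sum]
    refine Finset.sum_le_sum fun j _ => ?_
    have h6 := lap_sq (fun x => f x (Y j x)) x0 (h1' j)
    rw [h2 j] at h6
    exact h6

end ALC
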